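import Pool.Agent.Lib.MP_f23696_ag.T.Defs

/-!
Internal vocabulary for the product method: the function field `L` of a product, joint families of
derivations, the product algebra, points over points.
-/

set_option autoImplicit false

open scoped TensorProduct

namespace Pool.Agent.MLD.Ten

universe u v

/-- `L` is the fraction field of `K₁ ⊗[k] K₂`. -/
structure Join (k : Type u) (K₁ K₂ L : Type v) [Field k] [Field K₁] [Field K₂] [Field L]
    [Algebra k K₁] [Algebra k K₂] [Algebra k L] where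
  φ : K₁ →ₐ[k] L
  ψ : K₂ →ₐ[k] L
  inj : Function.Injective (Algebra.TensorProduct.productMap φ ψ)
  frac : ∀ f : L, ∃ a b : K₁ ⊗[k] K₂, Algebra.TensorProduct.productMap φ ψ b ≠ 0 ∧
    f = Algebra.TensorProduct.productMap φ ψ a / Algebra.TensorProduct.productMap φ ψ b

/-- `A` is a finitely generated normal domain with fraction field `K`. -/
structure IsGood {k : Type u} {K : Type v} [Field k] [Field K] [Algebra k K]
    (A : Subalgebra k K) : Prop where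
  fg : A.FG
  frac : ∀ f : K, ∃ a b : A, (b : K) ≠ 0 ∧ f = (a : K) / b
  norm : ∀ f : K, IsIntegral A f → f ∈ A

/-- `b` and its dual derivations `E` are adapted to the divisorial valuation `v`. -/
structure IsLogBasis {k : Type u} {K : Type v} [Field k] [Field K] [Algebra k K]
    (v : DVal k K) {m : ℕ}
    (D : Fin (m + 1) → Derivation k K K) (j : ℤ) (b : Fin (m + 1) → K)
    (E : Fin (m + 1) → Derivation k K K) : Prop where
  ne_zero : ∀ i, b i ≠ 0
  ord_zero : v.ord (b 0) = 1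
  ord_succ : ∀ i : Fin m, v.ord (b i.succ) = 0
  indep : ∀ F : MvPolynomial (Fin m) k, F ≠ 0 →
    ¬ v.Small (MvPolynomial.aeval (fun i : Fin m => b i.succ) F)
  dual : ∀ i l, E i (b l) = if i = l then 1 else 0
  jac_ne : jac D b ≠ 0
  ord_jac : v.ord (jac D b) = -j
  jac_eq : ∀ a, jac D a = jac D b * jac E a
  expand : ∀ i c, D i c = ∑ l, D i (b l) * E l c
  integral : ∀ i c, v.Integral c → v.Integral (E i c)

variable {k : Type u} {K₁ K₂ L : Type v} [Field k] [Field K₁] [Field K₂] [Field L]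
    [Algebra k K₁] [Algebra k K₂] [Algebra k L]

/-- the embedding of `K₁ ⊗ K₂` -/
noncomputable abbrev Join.π (J : Join k K₁ K₂ L) : K₁ ⊗[k] K₂ →ₐ[k] L :=
  Algebra.TensorProduct.productMap J.φ J.ψ

/-- exchange of the factors -/
def Join.swap (J : Join k K₁ K₂ L) : Join k K₂ K₁ L where
  φ := J.ψ
  ψ := J.φ
  inj := by
    have h : (Algebra.TensorProduct.productMap J.ψ J.φ : K₂ ⊗[k] K₁ → L) =
        Algebra.TensorProduct.productMap J.φ J.ψ ∘ Algebra.TensorProduct.comm k K₂ K₁ := by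
      have : Algebra.TensorProduct.productMap J.ψ J.φ =
          (Algebra.TensorProduct.productMap J.φ J.ψ).comp
            (Algebra.TensorProduct.comm k K₂ K₁).toAlgHom := by
        ext <;> simp
      funext x
      rw [this]
      rfl
    rw [h]
    exact J.inj.comp (Algebra.TensorProduct.comm k K₂ K₁).injective
  frac := by
    intro f
    obtain ⟨a, b, hb, hf⟩ := J.frac f
    have this : ∀ x, Algebra.TensorProduct.productMap J.ψ J.φ
        (Algebra.TensorProduct.comm k K₁ K₂ x) = Algebra.TensorProduct.productMap J.φ J.ψ x := by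
      intro x
      have : (Algebra.TensorProduct.productMap J.ψ J.φ).comp
            (Algebra.TensorProduct.comm k K₁ K₂).toAlgHom =
            Algebra.TensorProduct.productMap J.φ J.ψ := by
        ext <;> simp
      rw [← this]
      rfl
    exact ⟨Algebra.TensorProduct.comm k K₁ K₂ a, Algebra.TensorProduct.comm k K₁ K₂ b,
      by rwa [this], by rw [this, this, hf]⟩

/-- `D` consists of the extensions of the derivations `D₁ i` of `K₁` and `D₂ i` of `K₂`. -/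
def IsJoint (J : Join k K₁ K₂ L) {n₁ n₂ : ℕ} (D₁ : Fin n₁ → Derivation k K₁ K₁)
    (D₂ : Fin n₂ → Derivation k K₂ K₂) (D : Fin (n₁ + n₂) → Derivation k L L) : Prop :=
  (∀ i a, D (Fin.castAdd n₂ i) (J.φ a) = J.φ (D₁ i a)) ∧
  (∀ i b, D (Fin.castAdd n₂ i) (J.ψ b) = 0) ∧
  (∀ i a, D (Fin.natAdd n₁ i) (J.φ a) = 0) ∧
  (∀ i b, D (Fin.natAdd n₁ i) (J.ψ b) = J.ψ (D₂ i b))

/-- The filtration of `K₁ ⊗ K₂` with the weights `(w v₁, v₂)`. -/
def Fil (v₁ : DVal k K₁) (v₂ : DVal k K₂) (w : ℕ) (N : ℤ) : Submodule k (K₁ ⊗[k] K₂) :=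
  Submodule.span k {x | ∃ a b, a ≠ 0 ∧ b ≠ 0 ∧ N ≤ w * v₁.ord a + v₂.ord b ∧ x = a ⊗ₜ[k] b}

/-- `v` is the valuation of `L` with `v = w v₁` on `K₁`, `v = v₂` on `K₂` and
`v f ≥ N` on `Fil N`, `f ∈ Fil (v f)`. -/
structure IsTensorVal (J : Join k K₁ K₂ L) (v₁ : DVal k K₁) (v₂ : DVal k K₂) (w : ℕ)
    (v : DVal k L) : Prop where
  one_le : 1 ≤ w
  ord_φ : ∀ a, a ≠ 0 → v.ord (J.φ a) = w * v₁.ord a
  ord_ψ : ∀ b, b ≠ 0 → v.ord (J.ψ b) = v₂.ord b
  mem_fil : ∀ f : K₁ ⊗[k] K₂, f ≠ 0 → f ∈ Fil v₁ v₂ w (v.ord (J.π f))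
  le_of_mem : ∀ (N : ℤ) (f : K₁ ⊗[k] K₂), f ≠ 0 → f ∈ Fil v₁ v₂ w N → N ≤ v.ord (J.π f)

/-- `S` is the product algebra `A₁ ⊗ A₂` inside `L`. -/
structure IsProd (J : Join k K₁ K₂ L) {A₁ : Subalgebra k K₁} {A₂ : Subalgebra k K₂}
    {S : Subalgebra k L} (ι₁ : A₁ →ₐ[k] S) (ι₂ : A₂ →ₐ[k] S) : Prop where
  coe₁ : ∀ a, (ι₁ a : L) = J.φ a
  coe₂ : ∀ b, (ι₂ b : L) = J.ψ b
  eq_sup : S = A₁.map J.φ ⊔ A₂.map J.ψ

theorem IsProd.swap {J : Join k K₁ K₂ L} {A₁ : Subalgebra k K₁} {A₂ : Subalgebra k K₂}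
    {S : Subalgebra k L} {ι₁ : A₁ →ₐ[k] S} {ι₂ : A₂ →ₐ[k] S} (h : IsProd J ι₁ ι₂) :
    IsProd J.swap ι₂ ι₁ :=
  ⟨h.coe₂, h.coe₁, by rw [h.eq_sup, sup_comm]; rfl⟩

/-- The closed point `z` of the product lies over `(x₁, x₂)`. -/
def Over {A₁ : Subalgebra k K₁} {A₂ : Subalgebra k K₂} {S : Subalgebra k L}
    (ι₁ : A₁ →ₐ[k] S) (ι₂ : A₂ →ₐ[k] S)
    (z : MaximalSpectrum S) (x₁ : MaximalSpectrum A₁) (x₂ : MaximalSpectrum A₂) : Prop :=
  z.asIdeal.comap ι₁ = x₁.asIdeal ∧ z.asIdeal.comap ι₂ = x₂.asIdeal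

end Pool.Agent.MLD.Ten
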