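import Pool.Agent.Lib.MP_f23696_ag.T.Ctx

/-!
Evaluation at closed points; tensor products of domains over an algebraically closed field
(module EVL of the project TEN).
-/

set_option autoImplicit false

open scoped TensorProduct

namespace Pool.Agent.MLD.Ten

universe u v w

section EVL
variable {k : Type u} [Field k] [IsAlgClosed k]

theorem point {A : Type v} [CommRing A] [Algebra k A] [Algebra.FiniteType k A] (x : Ideal A)
    [x.IsMaximal] : ∃ β : A →ₐ[k] k, RingHom.ker β = x := by
  letI : Field (A ⧸ x) := Ideal.Quotient.field x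
  have : Algebra.FiniteType k (A ⧸ x) :=
    Algebra.FiniteType.of_surjective (Ideal.Quotient.mkₐ k x) (Ideal.Quotient.mkₐ_surjective k x)
  have : Module.Finite k (A ⧸ x) := finite_of_finite_type_of_isJacobsonRing k (A ⧸ x)
  have hb : Function.Bijective (algebraMap k (A ⧸ x)) :=
    IsAlgClosed.algebraMap_bijective_of_isIntegral
  let E : k ≃ₐ[k] (A ⧸ x) := AlgEquiv.ofBijective (Algebra.ofId k (A ⧸ x)) hb
  refine ⟨(E.symm : (A ⧸ x) →ₐ[k] k).comp (Ideal.Quotient.mkₐ k x), ?_⟩
  ext a
  rw [RingHom.mem_ker]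
  constructor
  · intro h
    have h1 : E.symm (Ideal.Quotient.mkₐ k x a) = 0 := h
    have h2 : Ideal.Quotient.mkₐ k x a = 0 := by
      have := congrArg E h1
      rwa [AlgEquiv.apply_symm_apply, map_zero] at this
    exact Ideal.Quotient.eq_zero_iff_mem.1 h2
  · intro h
    have h2 : Ideal.Quotient.mkₐ k x a = 0 := Ideal.Quotient.eq_zero_iff_mem.2 h
    change E.symm (Ideal.Quotient.mkₐ k x a) = 0
    rw [h2, map_zero]

theorem ev_ne {B : Type v} [CommRing B] [IsDomain B] [Algebra k B] [Algebra.FiniteType k B]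
    (b : B) (hb : b ≠ 0) : ∃ β : B →ₐ[k] k, β b ≠ 0 := by
  have : IsJacobsonRing B := isJacobsonRing_of_finiteType (A := k)
  have hrad : (⊥ : Ideal B).IsRadical := (Ideal.isPrime_bot (α := B)).isRadical
  have hj : (⊥ : Ideal B).jacobson = ⊥ := IsJacobsonRing.out inferInstance hrad
  have hb' : b ∉ (⊥ : Ideal B).jacobson := by rw [hj]; exact hb
  rw [Ideal.jacobson, Submodule.mem_sInf] at hb'
  push Not at hb'
  obtain ⟨M, ⟨_, hM⟩, hbM⟩ := hb'
  have := hM
  obtain ⟨β, hβ⟩ := point (k := k) M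
  refine ⟨β, fun h => hbM ?_⟩
  rw [← hβ, RingHom.mem_ker]
  exact h

namespace EVL

/-- the coordinate of `f ∈ V ⊗ B` at a basis vector of `V` -/
theorem coord_ev {B : Type v} [CommRing B] [Algebra k B] {V : Type w} [AddCommGroup V] [Module k V]
    {ι : Type*} [DecidableEq ι] (bs : Module.Basis ι k V) (β : B →ₐ[k] k) (f : V ⊗[k] B) (i : ι) :
    bs.repr (TensorProduct.rid k V (LinearMap.lTensor V β.toLinearMap f)) i =
      β (TensorProduct.equivFinsuppOfBasisLeft bs f i) := by
  classical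
  induction f with
  | zero => simp
  | add x y hx hy =>
    rw [map_add, map_add, map_add, Finsupp.add_apply, hx, hy, map_add, Finsupp.add_apply, map_add]
  | tmul v b =>
    rw [LinearMap.lTensor_tmul, TensorProduct.rid_tmul, map_smul,
      TensorProduct.equivFinsuppOfBasisLeft_apply_tmul_apply, map_smul, Finsupp.smul_apply]
    simp only [AlgHom.toLinearMap_apply, smul_eq_mul]
    ring

end EVL

theorem ev_zero {B : Type v} [CommRing B] [IsDomain B] [Algebra k B] [Algebra.FiniteType k B]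
    {V : Type w} [AddCommGroup V] [Module k V] (f : V ⊗[k] B)
    (h : ∀ β : B →ₐ[k] k, TensorProduct.rid k V (LinearMap.lTensor V β.toLinearMap f) = 0) :
    f = 0 := by
  classical
  let bs := Module.Basis.ofVectorSpace k V
  apply (TensorProduct.equivFinsuppOfBasisLeft (N := B) bs).injective
  rw [map_zero]
  ext i
  rw [Finsupp.zero_apply]
  by_contra hne
  obtain ⟨β, hβ⟩ := ev_ne (k := k) _ hne
  apply hβ
  rw [← EVL.coord_ev, h β, map_zero, Finsupp.zero_apply]

namespace EVL

/-- evaluation at a point of the second factor -/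
noncomputable def ev {A : Type v} {B : Type w} [CommRing A] [CommRing B] [Algebra k A] [Algebra k B]
    (β : B →ₐ[k] k) : A ⊗[k] B →ₐ[k] A :=
  (Algebra.TensorProduct.rid k k A).toAlgHom.comp
    (Algebra.TensorProduct.map (AlgHom.id k A) β)

theorem ev_apply {A : Type v} {B : Type w} [CommRing A] [CommRing B] [Algebra k A] [Algebra k B]
    (β : B →ₐ[k] k) (f : A ⊗[k] B) :
    ev β f = TensorProduct.rid k A (LinearMap.lTensor A β.toLinearMap f) := by
  induction f with
  | zero => simp
  | add x y hx hy => rw [map_add, hx, hy, map_add, map_add]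
  | tmul a b => simp [ev]

/-- every element of `A ⊗ B` comes from `A ⊗ B₀`, `B₀` finitely generated -/
theorem lift_fg {A : Type v} {B : Type w} [CommRing A] [CommRing B] [Algebra k A] [Algebra k B]
    (f : A ⊗[k] B) : ∃ s : Finset B, ∀ B₀ : Subalgebra k B, (s : Set B) ⊆ B₀ →
      ∃ f₀ : A ⊗[k] B₀, Algebra.TensorProduct.map (AlgHom.id k A) B₀.val f₀ = f := by
  classical
  induction f with
  | zero => exact ⟨∅, fun B₀ _ => ⟨0, map_zero _⟩⟩
  | add x y hx hy =>
    obtain ⟨s, hs⟩ := hx
    obtain ⟨t, ht⟩ := hy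
    refine ⟨s ∪ t, fun B₀ h => ?_⟩
    rw [Finset.coe_union] at h
    obtain ⟨x₀, hx₀⟩ := hs B₀ (Set.subset_union_left.trans h)
    obtain ⟨y₀, hy₀⟩ := ht B₀ (Set.subset_union_right.trans h)
    exact ⟨x₀ + y₀, by rw [map_add, hx₀, hy₀]⟩
  | tmul a b =>
    refine ⟨{b}, fun B₀ h => ?_⟩
    have hb : b ∈ B₀ := h (by simp)
    exact ⟨a ⊗ₜ ⟨b, hb⟩, by simp⟩

theorem map_val_injective {A : Type v} {B : Type w} [CommRing A] [CommRing B] [Algebra k A]
    [Algebra k B] (B₀ : Subalgebra k B) :
    Function.Injective (Algebra.TensorProduct.map (AlgHom.id k A) B₀.val) := by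
  have h : Function.Injective (LinearMap.lTensor A B₀.val.toLinearMap) :=
    Module.Flat.lTensor_preserves_injective_linearMap _ Subtype.val_injective
  exact h

end EVL

theorem tensor_isDomain (A : Type v) (B : Type w) [CommRing A] [CommRing B] [IsDomain A]
    [IsDomain B] [Algebra k A] [Algebra k B] : IsDomain (A ⊗[k] B) := by
  classical
  have : Nontrivial (A ⊗[k] B) :=
    (Algebra.TensorProduct.includeLeft_injective (S := k) (A := A) (B := B)
      (FaithfulSMul.algebraMap_injective k B)).nontrivial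
  have : NoZeroDivisors (A ⊗[k] B) := by
    constructor
    intro f g hfg
    by_contra hcon
    push Not at hcon
    obtain ⟨hf, hg⟩ := hcon
    obtain ⟨s, hs⟩ := EVL.lift_fg f
    obtain ⟨t, ht⟩ := EVL.lift_fg g
    let B₀ : Subalgebra k B := Algebra.adjoin k ((s ∪ t : Finset B) : Set B)
    have hsub : ((s ∪ t : Finset B) : Set B) ⊆ B₀ := Algebra.subset_adjoin
    rw [Finset.coe_union] at hsub
    obtain ⟨f₀, hf₀⟩ := hs B₀ (Set.subset_union_left.trans hsub)
    obtain ⟨g₀, hg₀⟩ := ht B₀ (Set.subset_union_right.trans hsub)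
    have : Algebra.FiniteType k B₀ :=
      (Subalgebra.fg_iff_finiteType _).1 ⟨s ∪ t, rfl⟩
    have hfg₀ : f₀ * g₀ = 0 := by
      apply EVL.map_val_injective (A := A) B₀
      rw [map_mul, hf₀, hg₀, hfg, map_zero]
    have hf₀' : f₀ ≠ 0 := by rintro rfl; exact hf (by rw [← hf₀, map_zero])
    have hg₀' : g₀ ≠ 0 := by rintro rfl; exact hg (by rw [← hg₀, map_zero])
    let bs := Module.Basis.ofVectorSpace k A
    have hc : ∀ q : A ⊗[k] B₀, q ≠ 0 →
        ∃ i, TensorProduct.equivFinsuppOfBasisLeft (N := B₀) bs q i ≠ 0 := by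
      intro q hq
      by_contra hall
      push Not at hall
      apply hq
      apply (TensorProduct.equivFinsuppOfBasisLeft (N := B₀) bs).injective
      rw [map_zero]
      ext i
      rw [hall i, Finsupp.zero_apply]
    obtain ⟨i, hi⟩ := hc f₀ hf₀'
    obtain ⟨j, hj⟩ := hc g₀ hg₀'
    obtain ⟨β, hβ⟩ := ev_ne (k := k) _ (mul_ne_zero hi hj)
    rw [map_mul] at hβ
    have h1 : EVL.ev β f₀ ≠ 0 := by
      intro h
      have h3 := EVL.coord_ev bs β f₀ i
      rw [← EVL.ev_apply, h, map_zero, Finsupp.zero_apply] at h3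
      exact left_ne_zero_of_mul hβ h3.symm
    have h2 : EVL.ev β g₀ ≠ 0 := by
      intro h
      have h3 := EVL.coord_ev bs β g₀ j
      rw [← EVL.ev_apply, h, map_zero, Finsupp.zero_apply] at h3
      exact right_ne_zero_of_mul hβ h3.symm
    apply mul_ne_zero h1 h2
    rw [← map_mul, hfg₀, map_zero]
  exact NoZeroDivisors.to_isDomain _

theorem exists_join (K₁ K₂ : Type v) [Field K₁] [Field K₂] [Algebra k K₁] [Algebra k K₂] :
    ∃ (L : Type v) (_ : Field L) (_ : Algebra k L), Nonempty (Join k K₁ K₂ L) := by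
  have : IsDomain (K₁ ⊗[k] K₂) := tensor_isDomain K₁ K₂
  let L := FractionRing (K₁ ⊗[k] K₂)
  let q : K₁ ⊗[k] K₂ →ₐ[k] L := IsScalarTower.toAlgHom k (K₁ ⊗[k] K₂) L
  let φ : K₁ →ₐ[k] L := q.comp Algebra.TensorProduct.includeLeft
  let ψ : K₂ →ₐ[k] L := q.comp Algebra.TensorProduct.includeRight
  have hq : Algebra.TensorProduct.productMap φ ψ = q := by
    ext x
    · simp [φ]
    · simp [ψ]
  have hqi : Function.Injective q := IsFractionRing.injective (K₁ ⊗[k] K₂) L
  refine ⟨L, inferInstance, inferInstance, ⟨{ φ := φ, ψ := ψ, inj := ?_, frac := ?_ }⟩⟩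
  · rw [hq]; exact hqi
  · intro f
    obtain ⟨a, b, hb, hf⟩ := IsFractionRing.div_surjective (A := K₁ ⊗[k] K₂) f
    refine ⟨a, b, ?_, ?_⟩
    · rw [hq]
      intro h
      exact nonZeroDivisors.ne_zero hb (hqi (by rw [h, map_zero]))
    · rw [hq]; exact hf.symm

end EVL

end Pool.Agent.MLD.Ten
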