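import Pool.Agent.Lib.MP_f23696_ag.T.Val
import Pool.Agent.Lib.MP_f23696_ag.T.Ev

/-!
Closed points of the product of two affine varieties (module PTS of the project TEN).
-/

set_option autoImplicit false
set_option linter.unusedSectionVars false

open scoped TensorProduct

namespace Pool.Agent.MLD.Ten

open Pool.Agent.MLD.Jac

universe u v w

namespace PTS

/-- closure of a set of closed points -/
theorem mem_cl {R : Type v} [CommRing R] (W : Set (MaximalSpectrum R))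
    (z : MaximalSpectrum R) :
    z ∈ closure W ↔ ∀ f : R, (∀ w ∈ W, f ∈ w.asIdeal) → f ∈ z.asIdeal := by
  have h1 : z ∈ closure W ↔
      z.toPrimeSpectrum ∈ closure (MaximalSpectrum.toPrimeSpectrum '' W) := closure_induced
  rw [h1, ← PrimeSpectrum.zeroLocus_vanishingIdeal_eq_closure, PrimeSpectrum.mem_zeroLocus]
  constructor
  · intro h f hf
    apply h
    rw [SetLike.mem_coe, PrimeSpectrum.mem_vanishingIdeal]
    rintro _ ⟨w, hw, rfl⟩
    exact hf w hw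
  · intro h f hf
    apply h
    intro w hw
    rw [SetLike.mem_coe, PrimeSpectrum.mem_vanishingIdeal] at hf
    exact hf _ ⟨w, hw, rfl⟩

variable {k : Type u} [Field k]

theorem surj {A : Type v} [CommRing A] [Algebra k A] (β : A →ₐ[k] k) : Function.Surjective β :=
  fun c => ⟨algebraMap k A c, by rw [AlgHom.commutes]; rfl⟩

/-- the closed point of a `k`-algebra homomorphism to `k` -/
def pt {A : Type v} [CommRing A] [Algebra k A] (β : A →ₐ[k] k) : MaximalSpectrum A :=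
  ⟨RingHom.ker β, RingHom.ker_isMaximal_of_surjective _ (surj β)⟩

theorem mem_pt {A : Type v} [CommRing A] [Algebra k A] (β : A →ₐ[k] k) (a : A) :
    a ∈ (pt β).asIdeal ↔ β a = 0 := RingHom.mem_ker

theorem exists_pt [IsAlgClosed k] {A : Type v} [CommRing A] [Algebra k A]
    [Algebra.FiniteType k A] (x : MaximalSpectrum A) : ∃ β : A →ₐ[k] k, x = pt β := by
  have := x.isMaximal
  obtain ⟨β, hβ⟩ := point (k := k) x.asIdeal
  exact ⟨β, MaximalSpectrum.ext hβ.symm⟩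

/-- a point is determined by its homomorphism -/
theorem pt_inj {A : Type v} [CommRing A] [Algebra k A] {β β' : A →ₐ[k] k} (h : pt β = pt β') :
    β = β' := by
  ext a
  have h1 : a - algebraMap k A (β a) ∈ (pt β).asIdeal := by
    rw [mem_pt, map_sub, AlgHom.commutes]
    exact sub_self _
  rw [h, mem_pt, map_sub, AlgHom.commutes, sub_eq_zero] at h1
  exact h1.symm

end PTS

open PTS

section PTS
variable {k : Type u} {K₁ K₂ L : Type v} [Field k] [IsAlgClosed k] [Field K₁]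
    [Field K₂] [Field L] [Algebra k K₁] [Algebra k K₂] [Algebra k L] {J : Join k K₁ K₂ L}
    {A₁ : Subalgebra k K₁} {A₂ : Subalgebra k K₂} {S : Subalgebra k L}
    {ι₁ : A₁ →ₐ[k] S} {ι₂ : A₂ →ₐ[k] S}

theorem prod_bij (hP : IsProd J ι₁ ι₂) :
    Function.Bijective (Algebra.TensorProduct.productMap ι₁ ι₂) := by
  have hcomp : S.val.comp (Algebra.TensorProduct.productMap ι₁ ι₂) =
      J.π.comp (Algebra.TensorProduct.map A₁.val A₂.val) := by
    ext a
    · simp [hP.coe₁]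
    · simp [hP.coe₂]
  constructor
  · have h1 : Function.Injective (Algebra.TensorProduct.map A₁.val A₂.val) := by
      have h2 : Function.Injective (TensorProduct.map A₁.val.toLinearMap A₂.val.toLinearMap) := by
        have h3 : TensorProduct.map A₁.val.toLinearMap A₂.val.toLinearMap =
            (LinearMap.rTensor K₂ A₁.val.toLinearMap).comp
              (LinearMap.lTensor A₁ A₂.val.toLinearMap) := by
          ext a b
          simp
        rw [h3]
        exact (Module.Flat.rTensor_preserves_injective_linearMap _ Subtype.val_injective).comp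
          (Module.Flat.lTensor_preserves_injective_linearMap _ Subtype.val_injective)
      exact h2
    have h2 : Function.Injective (S.val.comp (Algebra.TensorProduct.productMap ι₁ ι₂)) := by
      rw [hcomp]
      exact J.inj.comp h1
    exact Function.Injective.of_comp (f := S.val) h2
  · intro f
    have hf : (f : L) ∈ A₁.map J.φ ⊔ A₂.map J.ψ := by
      rw [← hP.eq_sup]
      exact f.2
    have hle : A₁.map J.φ ⊔ A₂.map J.ψ ≤
        (S.val.comp (Algebra.TensorProduct.productMap ι₁ ι₂)).range := by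
      rw [sup_le_iff]
      constructor
      · rintro _ ⟨a, ha, rfl⟩
        refine ⟨(⟨a, ha⟩ : A₁) ⊗ₜ 1, ?_⟩
        simp [hP.coe₁]
      · rintro _ ⟨b, hb, rfl⟩
        refine ⟨1 ⊗ₜ (⟨b, hb⟩ : A₂), ?_⟩
        simp [hP.coe₂]
    obtain ⟨t, ht⟩ := hle hf
    exact ⟨t, Subtype.ext ht⟩

namespace PTS

/-- the isomorphism `A₁ ⊗ A₂ ≃ S` -/
noncomputable def eqv (hP : IsProd J ι₁ ι₂) : A₁ ⊗[k] A₂ ≃ₐ[k] S :=
  AlgEquiv.ofBijective _ (prod_bij hP)

theorem eqv_tmul (hP : IsProd J ι₁ ι₂) (a : A₁) (b : A₂) : eqv hP (a ⊗ₜ b) = ι₁ a * ι₂ b := by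
  simp [eqv]

theorem eqv_symm_left (hP : IsProd J ι₁ ι₂) (a : A₁) : (eqv hP).symm (ι₁ a) = a ⊗ₜ 1 := by
  rw [AlgEquiv.symm_apply_eq, eqv_tmul, map_one, mul_one]

theorem eqv_symm_right (hP : IsProd J ι₁ ι₂) (b : A₂) : (eqv hP).symm (ι₂ b) = 1 ⊗ₜ b := by
  rw [AlgEquiv.symm_apply_eq, eqv_tmul, map_one, one_mul]

/-- every element of `S` is a sum of products -/
theorem induct (hP : IsProd J ι₁ ι₂) {p : S → Prop} (h0 : p 0)
    (hm : ∀ a b, p (ι₁ a * ι₂ b)) (ha : ∀ f g, p f → p g → p (f + g)) (f : S) : p f := by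
  obtain ⟨t, rfl⟩ := (eqv hP).surjective f
  induction t with
  | zero => rwa [map_zero]
  | add x y hx hy => rw [map_add]; exact ha _ _ hx hy
  | tmul a b => rw [eqv_tmul]; exact hm a b

/-- the homomorphism of the point over `(pt β₁, pt β₂)` -/
noncomputable def join (hP : IsProd J ι₁ ι₂) (β₁ : A₁ →ₐ[k] k) (β₂ : A₂ →ₐ[k] k) : S →ₐ[k] k :=
  (Algebra.TensorProduct.productMap β₁ β₂).comp (eqv hP).symm.toAlgHom

theorem join_left (hP : IsProd J ι₁ ι₂) (β₁ : A₁ →ₐ[k] k) (β₂ : A₂ →ₐ[k] k) (a : A₁) :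
    join hP β₁ β₂ (ι₁ a) = β₁ a := by
  have : join hP β₁ β₂ (ι₁ a) =
      Algebra.TensorProduct.productMap β₁ β₂ ((eqv hP).symm (ι₁ a)) := rfl
  rw [this, eqv_symm_left]
  simp

theorem join_right (hP : IsProd J ι₁ ι₂) (β₁ : A₁ →ₐ[k] k) (β₂ : A₂ →ₐ[k] k) (b : A₂) :
    join hP β₁ β₂ (ι₂ b) = β₂ b := by
  have : join hP β₁ β₂ (ι₂ b) =
      Algebra.TensorProduct.productMap β₁ β₂ ((eqv hP).symm (ι₂ b)) := rfl
  rw [this, eqv_symm_right]
  simp

theorem over_join (hP : IsProd J ι₁ ι₂) (β₁ : A₁ →ₐ[k] k) (β₂ : A₂ →ₐ[k] k) :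
    Over ι₁ ι₂ (pt (join hP β₁ β₂)) (pt β₁) (pt β₂) := by
  constructor
  · ext a
    rw [Ideal.mem_comap, mem_pt, mem_pt, join_left]
  · ext b
    rw [Ideal.mem_comap, mem_pt, mem_pt, join_right]

theorem ft {K : Type v} [Field K] [Algebra k K] {A : Subalgebra k K} (h : A.FG) :
    Algebra.FiniteType k A := (Subalgebra.fg_iff_finiteType _).1 h

theorem ft_S (hP : IsProd J ι₁ ι₂) (h₁ : IsGood A₁) (h₂ : IsGood A₂) :
    Algebra.FiniteType k S := by
  apply ft
  rw [hP.eq_sup]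
  exact (h₁.fg.map J.φ).sup (h₂.fg.map J.ψ)

/-- if `z` lies over `(x₁, x₂)` then its homomorphism is the join -/
theorem eq_join (hP : IsProd J ι₁ ι₂) (h₁ : IsGood A₁) (h₂ : IsGood A₂)
    {x₁ : MaximalSpectrum A₁} {x₂ : MaximalSpectrum A₂} {z : MaximalSpectrum S}
    (hz : Over ι₁ ι₂ z x₁ x₂) : ∃ (β₁ : A₁ →ₐ[k] k) (β₂ : A₂ →ₐ[k] k) (β : S →ₐ[k] k),
      x₁ = pt β₁ ∧ x₂ = pt β₂ ∧ z = pt β ∧ (∀ a, β (ι₁ a) = β₁ a) ∧ ∀ b, β (ι₂ b) = β₂ b := by
  have := ft_S hP h₁ h₂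
  obtain ⟨β, rfl⟩ := exists_pt (k := k) z
  refine ⟨β.comp ι₁, β.comp ι₂, β, ?_, ?_, rfl, fun _ => rfl, fun _ => rfl⟩
  · apply MaximalSpectrum.ext
    rw [← hz.1]
    ext a
    rw [Ideal.mem_comap, mem_pt, mem_pt]
    rfl
  · apply MaximalSpectrum.ext
    rw [← hz.2]
    ext a
    rw [Ideal.mem_comap, mem_pt, mem_pt]
    rfl

end PTS

theorem over_exists (hP : IsProd J ι₁ ι₂) (h₁ : IsGood A₁) (h₂ : IsGood A₂)
    (x₁ : MaximalSpectrum A₁) (x₂ : MaximalSpectrum A₂) : ∃ z, Over ι₁ ι₂ z x₁ x₂ := by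
  have := ft h₁.fg
  have := ft h₂.fg
  obtain ⟨β₁, rfl⟩ := exists_pt (k := k) x₁
  obtain ⟨β₂, rfl⟩ := exists_pt (k := k) x₂
  exact ⟨_, over_join hP β₁ β₂⟩

theorem over_pts (hP : IsProd J ι₁ ι₂) (h₁ : IsGood A₁) (h₂ : IsGood A₂)
    (z : MaximalSpectrum S) : ∃ x₁ x₂, Over ι₁ ι₂ z x₁ x₂ := by
  have := ft_S hP h₁ h₂
  obtain ⟨β, rfl⟩ := exists_pt (k := k) z
  refine ⟨pt (β.comp ι₁), pt (β.comp ι₂), ?_, ?_⟩
  · ext a
    rw [Ideal.mem_comap, mem_pt, mem_pt]
    rfl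
  · ext a
    rw [Ideal.mem_comap, mem_pt, mem_pt]
    rfl

namespace PTS

/-- the restriction of `f` to the fibre of `β₁` -/
theorem restrict (hP : IsProd J ι₁ ι₂) (f : S) (β₁ : A₁ →ₐ[k] k) :
    ∃ g : A₂, ∀ (β : S →ₐ[k] k) (β₂ : A₂ →ₐ[k] k), (∀ a, β (ι₁ a) = β₁ a) →
      (∀ b, β (ι₂ b) = β₂ b) → β f = β₂ g := by
  induction f using induct hP with
  | h0 => exact ⟨0, fun β β₂ _ _ => by rw [map_zero, map_zero]⟩
  | hm a b =>
    refine ⟨β₁ a • b, fun β β₂ h1 h2 => ?_⟩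
    rw [map_mul, h1, h2, map_smul, smul_eq_mul]
  | ha f g hf hg =>
    obtain ⟨f', hf'⟩ := hf
    obtain ⟨g', hg'⟩ := hg
    exact ⟨f' + g', fun β β₂ h1 h2 => by rw [map_add, map_add, hf' β β₂ h1 h2, hg' β β₂ h1 h2]⟩

theorem restrict' (hP : IsProd J ι₁ ι₂) (f : S) (β₂ : A₂ →ₐ[k] k) :
    ∃ g : A₁, ∀ (β : S →ₐ[k] k) (β₁ : A₁ →ₐ[k] k), (∀ a, β (ι₁ a) = β₁ a) →
      (∀ b, β (ι₂ b) = β₂ b) → β f = β₁ g := by
  induction f using induct hP with
  | h0 => exact ⟨0, fun β β₂ _ _ => by rw [map_zero, map_zero]⟩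
  | hm a b =>
    refine ⟨β₂ b • a, fun β β₁ h1 h2 => ?_⟩
    rw [map_mul, h1, h2, map_smul, smul_eq_mul, mul_comm]
  | ha f g hf hg =>
    obtain ⟨f', hf'⟩ := hf
    obtain ⟨g', hg'⟩ := hg
    exact ⟨f' + g', fun β β₂ h1 h2 => by rw [map_add, map_add, hf' β β₂ h1 h2, hg' β β₂ h1 h2]⟩

end PTS

theorem over_closure (hP : IsProd J ι₁ ι₂) (h₁ : IsGood A₁) (h₂ : IsGood A₂)
    (Z₁ : Set (MaximalSpectrum A₁)) (Z₂ : Set (MaximalSpectrum A₂)) (x₁ : MaximalSpectrum A₁)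
    (x₂ : MaximalSpectrum A₂) (z : MaximalSpectrum S) (hz : Over ι₁ ι₂ z x₁ x₂)
    (hx₁ : x₁ ∈ closure Z₁) (hx₂ : x₂ ∈ closure Z₂) :
    z ∈ closure {z' | ∃ y₁ ∈ Z₁, ∃ y₂ ∈ Z₂, Over ι₁ ι₂ z' y₁ y₂} := by
  have := ft h₁.fg
  have := ft h₂.fg
  obtain ⟨β₁, β₂, β, rfl, rfl, rfl, hb₁, hb₂⟩ := eq_join hP h₁ h₂ hz
  rw [mem_cl] at hx₁ hx₂ ⊢
  intro f hf
  rw [mem_pt]
  obtain ⟨g, hg⟩ := restrict' hP f β₂
  rw [hg β β₁ hb₁ hb₂, ← mem_pt]
  apply hx₁
  intro w hw
  obtain ⟨γ₁, rfl⟩ := exists_pt (k := k) w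
  rw [mem_pt, ← hg (join hP γ₁ β₂) γ₁ (join_left hP γ₁ β₂) (join_right hP γ₁ β₂)]
  obtain ⟨g', hg'⟩ := restrict hP f γ₁
  rw [hg' (join hP γ₁ β₂) β₂ (join_left hP γ₁ β₂) (join_right hP γ₁ β₂), ← mem_pt]
  apply hx₂
  intro w' hw'
  obtain ⟨γ₂, rfl⟩ := exists_pt (k := k) w'
  rw [mem_pt, ← hg' (join hP γ₁ γ₂) γ₂ (join_left hP γ₁ γ₂) (join_right hP γ₁ γ₂), ← mem_pt]
  exact hf _ ⟨_, hw, _, hw', over_join hP γ₁ γ₂⟩

theorem over_center (hP : IsProd J ι₁ ι₂) (h₁ : IsGood A₁) (h₂ : IsGood A₂)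
    (x₁ : MaximalSpectrum A₁) (x₂ : MaximalSpectrum A₂) (z : MaximalSpectrum S)
    (hz : Over ι₁ ι₂ z x₁ x₂) (v : DVal k L) : v.HasCenter S z.asIdeal ↔
      ((∀ a : A₁, v.Integral (J.φ a)) ∧ ∀ a : A₁, a ∈ x₁.asIdeal ↔ v.Small (J.φ a)) ∧
      ((∀ b : A₂, v.Integral (J.ψ b)) ∧ ∀ b : A₂, b ∈ x₂.asIdeal ↔ v.Small (J.ψ b)) := by
  constructor
  · rintro ⟨hi, hs⟩
    refine ⟨⟨fun a => ?_, fun a => ?_⟩, ⟨fun b => ?_, fun b => ?_⟩⟩
    · rw [← hP.coe₁]; exact hi _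
    · rw [← hz.1, Ideal.mem_comap, hs, hP.coe₁]
    · rw [← hP.coe₂]; exact hi _
    · rw [← hz.2, Ideal.mem_comap, hs, hP.coe₂]
  · rintro ⟨⟨hi₁, hs₁⟩, ⟨hi₂, hs₂⟩⟩
    obtain ⟨β₁, β₂, β, rfl, rfl, rfl, hb₁, hb₂⟩ := eq_join hP h₁ h₂ hz
    have hi : ∀ f : S, v.Integral (f : L) := by
      intro f
      induction f using induct hP with
      | h0 => exact fun h => absurd rfl h
      | hm a b =>
        have h := LB.mul (v := v) (M := 0) (N := 0) (hi₁ a) (hi₂ b)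
        rw [add_zero] at h
        have e : ((ι₁ a * ι₂ b : S) : L) = J.φ a * J.ψ b := by
          rw [← hP.coe₁, ← hP.coe₂]; rfl
        rw [e]
        exact h
      | ha f g hf hg => exact LB.add (v := v) (N := 0) hf hg
    have hd : ∀ f : S, v.Small ((f - algebraMap k S (β f) : S) : L) := by
      intro f
      induction f using induct hP with
      | h0 =>
        rw [map_zero, map_zero, sub_zero]
        exact fun h => absurd rfl h
      | hm a b =>
        have h1 : v.Small (J.φ (a - algebraMap k A₁ (β₁ a) : A₁)) := by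
          rw [← hs₁, mem_pt, map_sub, AlgHom.commutes]
          exact sub_self _
        have h2 : v.Small (J.ψ (b - algebraMap k A₂ (β₂ b) : A₂)) := by
          rw [← hs₂, mem_pt, map_sub, AlgHom.commutes]
          exact sub_self _
        have h3 := LB.mul (v := v) (M := 1) (N := 0) h1 (hi₂ b)
        have h4 := LB_smul v (β₁ a) h2
        rw [add_zero] at h3
        have h5 := LB.add (v := v) (N := 1) h3 h4
        have e : (((ι₁ a * ι₂ b : S) - algebraMap k S (β (ι₁ a * ι₂ b)) : S) : L) =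
            J.φ (a - algebraMap k A₁ (β₁ a) : A₁) * J.ψ b +
              β₁ a • J.ψ (b - algebraMap k A₂ (β₂ b) : A₂) := by
          rw [map_mul, hb₁, hb₂]
          push_cast
          rw [hP.coe₁, hP.coe₂, map_sub, map_sub, AlgHom.commutes, AlgHom.commutes,
            Algebra.smul_def]
          ring
        rw [e]
        exact h5
      | ha f g hf hg =>
        have e : ((f + g - algebraMap k S (β (f + g)) : S) : L) =
            ((f - algebraMap k S (β f) : S) : L) + ((g - algebraMap k S (β g) : S) : L) := by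
          rw [map_add, map_add]
          push_cast
          ring
        rw [e]
        exact LB.add (v := v) (N := 1) hf hg
    refine ⟨hi, fun f => ?_⟩
    rw [mem_pt]
    constructor
    · intro h
      have := hd f
      rwa [h, map_zero, sub_zero] at this
    · intro h
      by_contra hne
      have h1 : v.Small ((algebraMap k S (β f) : S) : L) := by
        have h2 := LB_sub v h (hd f)
        have e : ((f : S) : L) - ((f - algebraMap k S (β f) : S) : L) =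
            ((algebraMap k S (β f) : S) : L) := by
          push_cast
          ring
        rwa [e] at h2
      have h3 : ((algebraMap k S (β f) : S) : L) = algebraMap k L (β f) := rfl
      rw [h3] at h1
      refine not_small_of v ?_ (v.ord_algebraMap _ hne) h1
      rw [Ne, FaithfulSMul.algebraMap_eq_zero_iff]
      exact hne

end PTS

end Pool.Agent.MLD.Ten
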