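import Pool.Agent.Lib.MP_f23696_ag.T.Ctx
import Pool.Agent.Lib.MP_f23696_ag.JacLog

/-!
Basic facts on discrete valuations `DVal` for the product method: valuation ring, maximal ideal,
residue field.  Lower bounds of orders: `Jac.LB v N a` (`a ≠ 0 → N ≤ v.ord a`), see `JacLog.lean`.
-/

set_option autoImplicit false

namespace Pool.Agent.MLD.Ten

open Pool.Agent.MLD.Jac

universe u v w

variable {k : Type u} {K : Type v} [Field k] [Field K] [Algebra k K] (v : DVal k K)

theorem integral_iff {a : K} : v.Integral a ↔ LB v 0 a := Iff.rfl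

theorem small_iff {a : K} : v.Small a ↔ LB v 1 a := Iff.rfl

theorem ord_neg (a : K) (ha : a ≠ 0) : v.ord (-a) = v.ord a := by
  have h1 : v.ord (-1 : K) = 0 := by
    have := v.ord_algebraMap (-1 : k) (by simp)
    simpa using this
  have h2 := v.ord_mul (-1) a (by simp) ha
  rw [h1, zero_add, neg_one_mul] at h2
  exact h2

theorem ord_div (a b : K) (ha : a ≠ 0) (hb : b ≠ 0) : v.ord (a / b) = v.ord a - v.ord b := by
  rw [div_eq_mul_inv, v.ord_mul _ _ ha (inv_ne_zero hb), ord_inv v b hb]
  ring

theorem LB_neg {N : ℤ} {a : K} (h : LB v N a) : LB v N (-a) := by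
  intro h0
  have ha : a ≠ 0 := by simpa using h0
  rw [ord_neg v a ha]
  exact h ha

theorem LB_sub {N : ℤ} {a b : K} (ha : LB v N a) (hb : LB v N b) : LB v N (a - b) := by
  rw [sub_eq_add_neg]
  exact ha.add (LB_neg v hb)

theorem LB_algebraMap (c : k) : LB v 0 (algebraMap k K c) := by
  intro h0
  have hc : c ≠ 0 := by
    rintro rfl
    simp at h0
  rw [v.ord_algebraMap c hc]

theorem LB_smul {N : ℤ} {a : K} (c : k) (h : LB v N a) : LB v N (c • a) := by
  rw [Algebra.smul_def]
  have := (LB_algebraMap v c).mul h
  rwa [zero_add] at this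

theorem LB_self (a : K) : LB v (v.ord a) a := fun _ => le_rfl

/-- the order of a sum with a dominant term -/
theorem ord_add_eq {a b : K} (ha : a ≠ 0) (hb : LB v (v.ord a + 1) b) :
    a + b ≠ 0 ∧ v.ord (a + b) = v.ord a := by
  have h0 : a + b ≠ 0 := by
    intro h
    have hb' : b = -a := by linear_combination h
    have hb0 : b ≠ 0 := by rw [hb']; simpa using ha
    have := hb hb0
    rw [hb', ord_neg v a ha] at this
    omega
  refine ⟨h0, le_antisymm ?_ ?_⟩
  · by_contra hlt
    push Not at hlt
    have h1 : LB v (v.ord a + 1) (a + b) := fun _ => by omega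
    have h2 : LB v (v.ord a + 1) a := by
      have := LB_sub v h1 hb
      simpa using this
    have := h2 ha
    omega
  · exact ((LB_self v a).add (hb.mono (by omega))) h0

theorem small_one : ¬ v.Small (1 : K) := by
  intro h
  have := h one_ne_zero
  rw [ord_one] at this
  exact lt_irrefl _ this

theorem ord_eq_zero_of {a : K} (h : v.Integral a) (h' : ¬ v.Small a) : a ≠ 0 ∧ v.ord a = 0 := by
  have ha : a ≠ 0 := by
    rintro rfl
    exact h' fun h0 => absurd rfl h0
  refine ⟨ha, le_antisymm ?_ (h ha)⟩
  by_contra hlt
  push Not at hlt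
  exact h' fun _ => hlt

theorem not_small_of {a : K} (ha : a ≠ 0) (h : v.ord a = 0) : ¬ v.Small a := by
  intro hs
  have := hs ha
  omega

/-- The valuation ring. -/
def ring : Subalgebra k K where
  carrier := {a | v.Integral a}
  mul_mem' := by
    intro a b ha hb
    have := LB.mul (v := v) (M := 0) (N := 0) ha hb
    rwa [add_zero] at this
  add_mem' := by
    intro a b ha hb
    exact LB.add (v := v) (N := 0) ha hb
  algebraMap_mem' := LB_algebraMap v

theorem mem_ring {a : K} : a ∈ ring v ↔ v.Integral a := Iff.rfl

/-- The maximal ideal of the valuation ring. -/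
def maxI : Ideal (ring v) where
  carrier := {a | v.Small (a : K)}
  add_mem' := by
    intro a b ha hb
    exact LB.add (v := v) (N := 1) ha hb
  zero_mem' := fun h => absurd rfl h
  smul_mem' := by
    intro c a ha
    have := LB.mul (v := v) (M := 0) (N := 1) (integral_iff v |>.1 c.2) ha
    rwa [zero_add] at this

theorem mem_maxI {a : ring v} : a ∈ maxI v ↔ v.Small (a : K) := Iff.rfl

instance maxI_isMaximal : (maxI v).IsMaximal := by
  rw [Ideal.isMaximal_iff]
  refine ⟨small_one v, ?_⟩
  intro J a hJ haI haJ
  obtain ⟨h0, h1⟩ := ord_eq_zero_of v a.2 haI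
  have hinv : (a : K)⁻¹ ∈ ring v := by
    intro _
    rw [ord_inv v _ h0, h1, neg_zero]
  have : (⟨(a : K)⁻¹, hinv⟩ : ring v) * a = 1 := by
    apply Subtype.ext
    show (a : K)⁻¹ * a = 1
    exact inv_mul_cancel₀ h0
  rw [← this]
  exact J.mul_mem_left _ haJ

/-- The residue field. -/
abbrev Res : Type v := ring v ⧸ maxI v

noncomputable instance : Field (Res v) := Ideal.Quotient.field (maxI v)

/-- The residue map. -/
abbrev res : ring v →ₐ[k] Res v := Ideal.Quotient.mkₐ k (maxI v)

theorem res_eq_zero {a : ring v} : res v a = 0 ↔ v.Small (a : K) :=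
  Ideal.Quotient.eq_zero_iff_mem

theorem res_surjective : Function.Surjective (res v) := Ideal.Quotient.mkₐ_surjective k (maxI v)

/-- Elements of the valuation ring have algebraically independent residues iff no nonzero
polynomial in them is small. -/
theorem indep_res_iff {ι : Type w} (t : ι → ring v) :
    AlgebraicIndependent k (fun i => res v (t i)) ↔
      ∀ F : MvPolynomial ι k, F ≠ 0 →
        ¬ v.Small (MvPolynomial.aeval (fun i => (t i : K)) F) := by
  have key : ∀ F : MvPolynomial ι k, MvPolynomial.aeval (fun i => res v (t i)) F = 0 ↔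
      v.Small (MvPolynomial.aeval (fun i => (t i : K)) F) := by
    intro F
    have h1 : MvPolynomial.aeval (fun i => res v (t i)) F = res v (MvPolynomial.aeval t F) := by
      have := MvPolynomial.comp_aeval (R := k) t (res v)
      rw [← this]
      rfl
    have h2 : ((MvPolynomial.aeval t F : ring v) : K) =
        MvPolynomial.aeval (fun i => (t i : K)) F := by
      have := MvPolynomial.comp_aeval (R := k) t (ring v).val
      have h := congrArg (fun f => f F) this
      exact h
    rw [h1, res_eq_zero, h2]
  rw [algebraicIndependent_iff]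
  constructor
  · intro h F hF hs
    exact hF (h F ((key F).2 hs))
  · intro h F h0
    by_contra hF
    exact h F hF ((key F).1 h0)

end Pool.Agent.MLD.Ten
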