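import Pool.Agent.Lib.MP_f23696_ag.T.Val
import Pool.Agent.Lib.MP_f23696_ag.Jind

/-!
Derivations with a given transcendence basis, dual families of derivations, form orders
(module DER of project TEN).
-/

set_option autoImplicit false

namespace Pool.Agent.MLD.Ten

open Pool.Agent.MLD.Jac

universe u v w

section DER
variable {k : Type u} {K : Type v} [Field k] [Field K] [Algebra k K]

theorem Der.sum_apply {ι : Type w} (s : Finset ι) (f : ι → Derivation k K K) (c : K) :
    (∑ i ∈ s, f i) c = ∑ i ∈ s, f i c := by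
  classical
  induction s using Finset.induction_on with
  | empty => simp
  | insert a s ha ih => rw [Finset.sum_insert ha, Finset.sum_insert ha, Derivation.add_apply, ih]

theorem der_zero [CharZero k] {n : ℕ} (y : Fin n → K) (hy : IsTranscendenceBasis k y)
    (δ : Derivation k K K) (h : ∀ i, δ (y i) = 0) : δ = 0 := by
  have h0 : ∀ x ∈ IntermediateField.adjoin k (Set.range y), δ x = 0 := by
    intro x hx
    induction hx using IntermediateField.adjoin_induction with
    | mem x hx =>
      obtain ⟨i, rfl⟩ := hx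
      exact h i
    | algebraMap c => exact δ.map_algebraMap c
    | add x y _ _ hx hy => rw [map_add, hx, hy, add_zero]
    | inv x _ hx => rw [Derivation.leibniz_inv, hx, smul_zero]
    | mul x y _ _ hx hy => rw [Derivation.leibniz, hx, hy, smul_zero, smul_zero, add_zero]
  have halg : Algebra.IsAlgebraic (IntermediateField.adjoin k (Set.range y)) K :=
    hy.isAlgebraic_field
  let lin : K →ₗ[IntermediateField.adjoin k (Set.range y)] K :=
    { toFun := δ
      map_add' := map_add δ
      map_smul' := by
        intro f x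
        rw [Algebra.smul_def, Derivation.leibniz, IntermediateField.algebraMap_apply, h0 _ f.2,
          smul_zero, add_zero]
        rfl }
  let δ' : Derivation (IntermediateField.adjoin k (Set.range y)) K K :=
    Derivation.mk' lin (fun a b => δ.leibniz a b)
  ext c
  have hint : IsIntegral (IntermediateField.adjoin k (Set.range y)) c :=
    (halg.isAlgebraic c).isIntegral
  have : CharZero (IntermediateField.adjoin k (Set.range y)) :=
    charZero_of_injective_algebraMap
      (algebraMap k (IntermediateField.adjoin k (Set.range y))).injective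
  have hsep : (minpoly (IntermediateField.adjoin k (Set.range y)) c).Separable :=
    (minpoly.irreducible hint).separable
  have h1 := δ'.map_aeval (minpoly (IntermediateField.adjoin k (Set.range y)) c) c
  rw [minpoly.aeval, map_zero] at h1
  have h2 : Polynomial.aeval c
      (Polynomial.derivative (minpoly (IntermediateField.adjoin k (Set.range y)) c)) ≠ 0 :=
    hsep.aeval_derivative_ne_zero (minpoly.aeval _ _)
  rw [smul_eq_mul] at h1
  exact (mul_eq_zero.1 h1.symm).resolve_left h2

theorem jac_ne [CharZero k] {n : ℕ} (y : Fin n → K) (hy : IsTranscendenceBasis k y)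
    (D : Fin n → Derivation k K K) (hD : ∀ i j, D i (y j) = if i = j then 1 else 0)
    (c : Fin n → K) (hc : AlgebraicIndependent k c) : jac D c ≠ 0 := by
  have hct : IsTranscendenceBasis k c := by
    refine hc.isTranscendenceBasis_of_lift_trdeg_le_of_finite ?_
    rw [← hy.lift_cardinalMk_eq_trdeg]
  intro hjac
  obtain ⟨r, hr, hr0⟩ := Matrix.exists_vecMul_eq_zero_iff.2 hjac
  have hδ : (∑ i, r i • D i : Derivation k K K) = 0 := by
    refine der_zero c hct _ fun j => ?_
    have := congrFun hr0 j
    simp only [Matrix.vecMul, dotProduct, Matrix.of_apply, Pi.zero_apply] at this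
    rw [Der.sum_apply]
    exact this
  apply hr
  funext j
  have h1 : (∑ i, r i • D i : Derivation k K K) (y j) = 0 := by rw [hδ]; rfl
  rw [Der.sum_apply] at h1
  have h2 : ∀ i, (r i • D i : Derivation k K K) (y j) = if i = j then r i else 0 := by
    intro i
    rw [Derivation.smul_apply, hD, smul_eq_mul, mul_ite, mul_one, mul_zero]
  rw [Finset.sum_congr rfl fun i _ => h2 i] at h1
  simpa using h1

theorem dual {n : ℕ} (D : Fin n → Derivation k K K) (b : Fin n → K) (h : jac D b ≠ 0) :
    ∃ E : Fin n → Derivation k K K, (∀ i l, E i (b l) = if i = l then 1 else 0) ∧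
      (∀ i c, D i c = ∑ l, D i (b l) * E l c) ∧ ∀ a, jac D a = jac D b * jac E a := by
  set M : Matrix (Fin n) (Fin n) K := Matrix.of fun i j => D i (b j) with hM
  have hu : IsUnit M.det := isUnit_iff_ne_zero.2 h
  let E : Fin n → Derivation k K K := fun i => ∑ p, (M⁻¹) i p • D p
  have hE : ∀ i c, E i c = ∑ p, (M⁻¹) i p * D p c := by
    intro i c
    simp only [E]
    rw [Der.sum_apply]
    rfl
  have h1 : ∀ i l, E i (b l) = if i = l then 1 else 0 := by
    intro i l
    rw [hE]
    have := congrFun (congrFun (Matrix.nonsing_inv_mul M hu) i) l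
    rw [Matrix.mul_apply, Matrix.one_apply] at this
    exact this
  have h2 : ∀ i c, D i c = ∑ l, D i (b l) * E l c := by
    intro i c
    simp only [hE, Finset.mul_sum]
    rw [Finset.sum_comm]
    have key : ∀ p, ∑ l, D i (b l) * ((M⁻¹) l p * D p c) = (if i = p then 1 else 0) * D p c := by
      intro p
      have := congrFun (congrFun (Matrix.mul_nonsing_inv M hu) i) p
      rw [Matrix.mul_apply, Matrix.one_apply] at this
      rw [← this, Finset.sum_mul]
      exact Finset.sum_congr rfl fun l _ => by rw [← mul_assoc]; rfl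
    rw [Finset.sum_congr rfl fun p _ => key p]
    simp
  refine ⟨E, h1, h2, fun a => ?_⟩
  have h3 : (Matrix.of fun i j => D i (a j)) = M * (Matrix.of fun i j => E i (a j)) := by
    ext i j
    rw [Matrix.mul_apply]
    exact h2 i (a j)
  unfold jac
  rw [h3, Matrix.det_mul]

theorem jac_dual {n : ℕ} (E : Fin n → Derivation k K K) (b : Fin n → K)
    (h : ∀ i l, E i (b l) = if i = l then 1 else 0) : jac E b = 1 := by
  have : (Matrix.of fun i j => E i (b j)) = 1 := by
    ext i j
    rw [Matrix.of_apply, h, Matrix.one_apply]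
  unfold jac
  rw [this, Matrix.det_one]

theorem Der.LB_one (v : DVal k K) : LB v 0 (1 : K) := fun _ => by rw [ord_one]

theorem Der.LB_prod {ι : Type w} (v : DVal k K) (s : Finset ι) (f : ι → K)
    (hf : ∀ i ∈ s, LB v 0 (f i)) : LB v 0 (∏ i ∈ s, f i) := by
  classical
  induction s using Finset.induction_on with
  | empty =>
    rw [Finset.prod_empty]
    exact Der.LB_one v
  | insert a s ha ih =>
    rw [Finset.prod_insert ha]
    have := (hf a (Finset.mem_insert_self _ _)).mul
      (ih fun i hi => hf i (Finset.mem_insert_of_mem hi))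
    rwa [add_zero] at this

theorem Der.LB_sign {n : ℕ} (v : DVal k K) (σ : Equiv.Perm (Fin n)) {N : ℤ} {a : K}
    (h : LB v N a) : LB v N (Equiv.Perm.sign σ • a) := by
  rcases Int.units_eq_one_or (Equiv.Perm.sign σ) with h1 | h1
  · rw [h1, one_smul]
    exact h
  · rw [h1, Units.neg_smul, one_smul]
    exact LB_neg v h

theorem det_integral (v : DVal k K) {n : ℕ} (M : Matrix (Fin n) (Fin n) K)
    (h : ∀ i j, v.Integral (M i j)) : v.Integral M.det := by
  rw [integral_iff, Matrix.det_apply]
  exact LB.sum _ _ fun σ _ => Der.LB_sign v σ (Der.LB_prod v _ _ fun i _ => h _ _)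

theorem det_small (v : DVal k K) {n : ℕ} (M : Matrix (Fin n) (Fin n) K)
    (h : ∀ i j, v.Integral (M i j)) (i : Fin n) (h0 : ∀ j, v.Small (M i j)) :
    v.Small M.det := by
  rw [small_iff, Matrix.det_apply]
  refine LB.sum _ _ fun σ _ => Der.LB_sign v σ ?_
  rw [← Finset.mul_prod_erase Finset.univ (fun p => M (σ p) p) (Finset.mem_univ (σ⁻¹ i))]
  have h1 : LB v 1 (M (σ (σ⁻¹ i)) (σ⁻¹ i)) := by
    have : σ (σ⁻¹ i) = i := by simp
    rw [this]
    exact h0 _
  have := h1.mul (Der.LB_prod v (Finset.univ.erase (σ⁻¹ i)) (fun p => M (σ p) p)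
    fun p _ => h _ _)
  rwa [add_zero] at this

theorem formOrd_ex (v : DVal k K) {n : ℕ} (D : Fin n → Derivation k K K) (N : ℤ)
    (h : ∀ a : Fin n → K, (∀ i, v.Integral (a i)) → jac D a ≠ 0 → N ≤ v.ord (jac D a))
    (hne : ∃ a : Fin n → K, (∀ i, v.Integral (a i)) ∧ jac D a ≠ 0) :
    ∃ j, v.FormOrd D j ∧ j ≤ -N := by
  obtain ⟨j, ⟨a, ha, ha0, hj⟩, hmin⟩ := Int.exists_least_of_bdd
    (P := fun z => ∃ a : Fin n → K, (∀ i, v.Integral (a i)) ∧ jac D a ≠ 0 ∧ v.ord (jac D a) = z)
    ⟨N, by
      rintro z ⟨a, ha, ha0, rfl⟩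
      exact h a ha ha0⟩
    (by
      obtain ⟨a, ha, ha0⟩ := hne
      exact ⟨_, a, ha, ha0, rfl⟩)
  refine ⟨-j, ⟨fun c hc hc0 => ?_, a, ha, ha0, ?_⟩, ?_⟩
  · rw [neg_neg]
    exact hmin _ ⟨c, hc, hc0, rfl⟩
  · rw [neg_neg, hj]
  · have := h a ha ha0
    omega

theorem formOrd_unique (v : DVal k K) {n : ℕ} (D : Fin n → Derivation k K K) (j j' : ℤ)
    (h : v.FormOrd D j) (h' : v.FormOrd D j') : j = j' := by
  obtain ⟨h1, a, ha, ha0, haj⟩ := h
  obtain ⟨h2, c, hc, hc0, hcj⟩ := h'
  have e1 := h1 c hc hc0
  have e2 := h2 a ha ha0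
  omega

theorem Der.apply_eq_jac {n : ℕ} (E : Fin n → Derivation k K K) (a : Fin n → K)
    (h : ∀ i l, E i (a l) = if i = l then 1 else 0) (i : Fin n) (c : K) :
    E i c = jac E (Function.update a i c) := by
  have h1 : (Matrix.of fun p l => E p (Function.update a i c l)) =
      (1 : Matrix (Fin n) (Fin n) K).updateCol i (fun p => E p c) := by
    ext p l
    rw [Matrix.of_apply]
    rcases eq_or_ne l i with rfl | hl
    · rw [Function.update_self, Matrix.updateCol_self]
    · rw [Function.update_of_ne hl, Matrix.updateCol_ne hl, h, Matrix.one_apply]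
  unfold jac
  rw [h1, ← Matrix.cramer_apply, Matrix.cramer_one]
  rfl

/-- derivations preserving the valuation ring from a form order -/
theorem formOrd_dual (v : DVal k K) {n : ℕ} (D : Fin n → Derivation k K K) (j : ℤ)
    (h : v.FormOrd D j) : ∃ (a : Fin n → K) (E : Fin n → Derivation k K K),
      (∀ i, v.Integral (a i)) ∧ jac D a ≠ 0 ∧ v.ord (jac D a) = -j ∧
      (∀ i l, E i (a l) = if i = l then 1 else 0) ∧ (∀ i c, D i c = ∑ l, D i (a l) * E l c) ∧
      (∀ c, jac D c = jac D a * jac E c) ∧
      ∀ i c, v.Integral c → v.Integral (E i c) := by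
  obtain ⟨h1, a, ha, ha0, haj⟩ := h
  obtain ⟨E, hE1, hE2, hE3⟩ := dual D a ha0
  refine ⟨a, E, ha, ha0, haj, hE1, hE2, hE3, fun i c hc => ?_⟩
  intro hne
  have e1 : E i c = jac E (Function.update a i c) := Der.apply_eq_jac E a hE1 i c
  have e2 := hE3 (Function.update a i c)
  rw [← e1] at e2
  have h3 : jac D (Function.update a i c) ≠ 0 := by
    rw [e2]
    exact mul_ne_zero ha0 hne
  have h4 := h1 (Function.update a i c) (by
    intro l
    rcases eq_or_ne l i with rfl | hl
    · rw [Function.update_self]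
      exact hc
    · rw [Function.update_of_ne hl]
      exact ha l) h3
  rw [e2, v.ord_mul _ _ ha0 hne, haj] at h4
  omega

end DER

end Pool.Agent.MLD.Ten
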