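import Pool.Agent.Lib.MP_f23696_ag.T.Val
import Pool.Agent.Lib.MP_f23696_ag.Dvr
import Pool.Agent.Lib.MP_f23696_ag.Hart

/-!
Module IND of project TEN (MP_f23696_ag): form orders along prime divisors exist, and the value of
a local equation does not depend on the local equation.
-/

set_option autoImplicit false

open scoped TensorProduct

namespace Pool.Agent.MLD.Ten

open Pool.Agent.MLD.Jac

universe u v w

section IND
variable {k : Type u} {K : Type v} [Field k] [Field K] [Algebra k K]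

namespace Ind

theorem noeth (A : Subalgebra k K) (hA : A.FG) : IsNoetherianRing A := by
  have : Algebra.FiniteType k A := (Subalgebra.fg_iff_finiteType A).1 hA
  exact Algebra.FiniteType.isNoetherianRing k A

theorem LB_prod {ι : Type w} (v : DVal k K) (N : ℤ) (s : Finset ι) (f : ι → K)
    (h : ∀ i ∈ s, LB v N (f i)) : LB v (s.card * N) (∏ i ∈ s, f i) := by
  classical
  induction s using Finset.induction_on with
  | empty =>
    intro _
    simp [ord_one]
  | insert a s ha ih =>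
    rw [Finset.prod_insert ha, Finset.card_insert_of_notMem ha]
    have h1 := (h a (Finset.mem_insert_self a s)).mul
      (ih fun i hi => h i (Finset.mem_insert_of_mem hi))
    refine h1.mono (le_of_eq ?_)
    push_cast
    ring

theorem LB_det (v : DVal k K) (N : ℤ) {n : ℕ} (M : Matrix (Fin n) (Fin n) K)
    (h : ∀ i j, LB v N (M i j)) : LB v (n * N) M.det := by
  rw [Matrix.det_apply]
  refine LB.sum _ _ fun σ _ => ?_
  have h1 := LB_prod v N Finset.univ (fun i => M (σ i) i) fun i _ => h _ _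
  rw [Finset.card_univ, Fintype.card_fin] at h1
  rcases Int.units_eq_one_or (Equiv.Perm.sign σ) with h2 | h2
  · rw [h2, one_smul]
    exact h1
  · rw [h2]
    have : ((-1 : ℤˣ) • ∏ i, M (σ i) i) = -∏ i, M (σ i) i := by
      rw [Units.smul_def]
      simp
    rw [this]
    exact LB_neg v h1

theorem ex (v : DVal k K) {n : ℕ} (D : Fin n → Derivation k K K) (N : ℤ)
    (h : ∀ a : Fin n → K, (∀ i, v.Integral (a i)) → jac D a ≠ 0 → N ≤ v.ord (jac D a))
    (hne : ∃ a : Fin n → K, (∀ i, v.Integral (a i)) ∧ jac D a ≠ 0) :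
    ∃ j, v.FormOrd D j := by
  classical
  obtain ⟨a, ha, ha'⟩ := hne
  obtain ⟨z, ⟨b, hb, hb', hbz⟩, hmin⟩ := Int.exists_least_of_bdd
    (P := fun z => ∃ a : Fin n → K, (∀ i, v.Integral (a i)) ∧ jac D a ≠ 0 ∧ v.ord (jac D a) = z)
    ⟨N, by
      rintro z ⟨a, ha, ha', rfl⟩
      exact h a ha ha'⟩
    ⟨_, a, ha, ha', rfl⟩
  refine ⟨-z, ?_, b, hb, hb', by omega⟩
  intro c hc hc'
  have := hmin _ ⟨c, hc, hc', rfl⟩
  omega

/-- common denominators -/
theorem common_den (A : Subalgebra k K)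
    (hfrac : ∀ f : K, ∃ a b : A, (b : K) ≠ 0 ∧ f = (a : K) / b) {ι : Type w} (s : Finset ι)
    (f : ι → K) : ∃ d : A, (d : K) ≠ 0 ∧ ∀ i ∈ s, (d : K) * f i ∈ A := by
  classical
  induction s using Finset.induction_on with
  | empty => exact ⟨1, by simp, by simp⟩
  | insert a s _ ih =>
    obtain ⟨d, hd, h⟩ := ih
    obtain ⟨x, b, hb, hx⟩ := hfrac (f a)
    refine ⟨d * b, mul_ne_zero hd hb, ?_⟩
    intro i hi
    rcases Finset.mem_insert.1 hi with rfl | hi
    · have : ((d * b : A) : K) * f i = d * x := by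
        push_cast
        rw [hx]
        field_simp
      rw [this]
      exact A.mul_mem d.2 x.2
    · have : ((d * b : A) : K) * f i = b * (d * f i) := by
        push_cast
        ring
      rw [this]
      exact A.mul_mem b.2 (h i hi)

theorem der_den (A : Subalgebra k K) (hA : IsGood A) {n : ℕ} (D : Fin n → Derivation k K K) :
    ∃ d : A, (d : K) ≠ 0 ∧ ∀ i, ∀ a ∈ A, (d : K) * D i a ∈ A := by
  classical
  obtain ⟨T, hT⟩ := hA.fg
  obtain ⟨d, hd, h⟩ := common_den A hA.frac ((Finset.univ : Finset (Fin n)) ×ˢ T)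
    (fun x => D x.1 x.2)
  refine ⟨d, hd, ?_⟩
  intro i a ha
  rw [← hT] at ha
  induction ha using Algebra.adjoin_induction with
  | mem x hx => exact h (i, x) (Finset.mem_product.2 ⟨Finset.mem_univ _, hx⟩)
  | algebraMap r =>
    rw [Derivation.map_algebraMap, mul_zero]
    exact A.zero_mem
  | add x y _ _ hx hy =>
    rw [map_add, mul_add]
    exact A.add_mem hx hy
  | mul x y hx' hy' hx hy =>
    rw [hT] at hx' hy'
    rw [Derivation.leibniz]
    have : (d : K) * (x • D i y + y • D i x) = x * (d * D i y) + y * (d * D i x) := by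
      simp only [smul_eq_mul]
      ring
    rw [this]
    exact A.add_mem (A.mul_mem hx' hy) (A.mul_mem hy' hx)

theorem LB_of_mul (v : DVal k K) {s x : K} (hs : s ≠ 0) {N : ℤ} (h : LB v (v.ord s + N) (s * x)) :
    LB v N x := by
  intro hx
  have h1 := h (mul_ne_zero hs hx)
  rw [v.ord_mul s x hs hx] at h1
  omega

theorem out (v : DVal k K) {A : Subalgebra k K} {p : Ideal A} (hv : v.HasCenter A p) {s : A}
    (hs : s ∉ p) : (s : K) ≠ 0 ∧ v.ord (s : K) = 0 :=
  ord_eq_zero_of v (hv.1 s) fun h => hs ((hv.2 s).2 h)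

theorem der_LB (A : Subalgebra k K) (hA : IsGood A) {n : ℕ}
    (D : Fin n → Derivation k K K) (q : Ideal A) (hq : IsHeightOne q)
    (v : DVal k K) (hv : v.HasCenter A q) :
    ∃ N : ℤ, ∀ i f, v.Integral f → LB v N (D i f) := by
  obtain ⟨d, hd, h⟩ := der_den A hA D
  obtain ⟨w, hw, hw'⟩ := dvr A (noeth A hA.fg) hA.frac hA.norm q hq
  refine ⟨-v.ord (d : K), ?_⟩
  have hAD : ∀ i, ∀ a ∈ A, LB v (-v.ord (d : K)) (D i a) := by
    intro i a ha
    refine LB_of_mul v hd ?_
    rw [add_neg_cancel]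
    exact hv.1 ⟨_, h i a ha⟩
  intro i f hf
  by_cases hf0 : f = 0
  · rw [hf0, map_zero]
    exact LB.zero v _
  have h1 : 0 ≤ w.ord f := by
    rw [← dvr_unique A (noeth A hA.fg) hA.frac hA.norm q hq v w hv hw f hf0]
    exact hf hf0
  obtain ⟨s, hs, hsf⟩ := (hw' f hf0).1 h1
  obtain ⟨hs0, hs1⟩ := out v hv hs
  refine LB_of_mul v hs0 ?_
  rw [hs1, zero_add]
  have h2 : (s : K) * D i f = D i ((s : K) * f) - f * D i (s : K) := by
    rw [Derivation.leibniz]
    simp only [smul_eq_mul]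
    ring
  rw [h2]
  refine LB_sub v (hAD i _ hsf) ?_
  have h3 := LB.mul (v := v) (M := 0) hf (hAD i s s.2)
  rwa [zero_add] at h3

/-- the arithmetic behind the independence -/
theorem real_comb {ι : Type w} (T : Finset ι) (r : ι → ℝ) (P : Set (ι → ℤ)) (z : ι → ℤ)
    (hP : ∀ u ∈ P, ∑ g ∈ T, r g * (u g : ℝ) = 0)
    (h : ∀ n : ι → ℤ, (∀ u ∈ P, ∑ g ∈ T, n g * u g = 0) → ∑ g ∈ T, n g * z g = 0) :
    ∑ g ∈ T, r g * (z g : ℝ) = 0 := by
  classical
  let b := Module.Basis.ofVectorSpace ℚ ℝ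
  have hcoord : ∀ (l : _) (u : ι → ℤ),
      b.coord l (∑ g ∈ T, r g * (u g : ℝ)) = ∑ g ∈ T, b.coord l (r g) * (u g : ℚ) := by
    intro l u
    rw [map_sum]
    refine Finset.sum_congr rfl fun g _ => ?_
    have : r g * (u g : ℝ) = (u g : ℚ) • r g := by
      rw [Rat.smul_def]
      push_cast
      ring
    rw [this, map_smul, smul_eq_mul, mul_comm]
  rw [← b.forall_coord_eq_zero_iff]
  intro l
  rw [hcoord]
  obtain ⟨N, hN⟩ := IsLocalization.exist_integer_multiples_of_finset (nonZeroDivisors ℤ)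
    (T.image fun g => b.coord l (r g))
  have hN0 : ((N : ℤ) : ℚ) ≠ 0 := by
    exact_mod_cast nonZeroDivisors.ne_zero N.2
  have hex : ∀ g : ι, ∃ m : ℤ, g ∈ T → (m : ℚ) = ((N : ℤ) : ℚ) * b.coord l (r g) := by
    intro g
    by_cases hg : g ∈ T
    · obtain ⟨m, hm⟩ := hN _ (Finset.mem_image_of_mem _ hg)
      refine ⟨m, fun _ => ?_⟩
      have : (algebraMap ℤ ℚ) m = (m : ℚ) := rfl
      rw [← this, hm]
      rw [zsmul_eq_mul]
    · exact ⟨0, fun h => absurd h hg⟩
  choose m hm using hex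
  have key : ∀ u : ι → ℤ, ((∑ g ∈ T, m g * u g : ℤ) : ℚ) =
      ((N : ℤ) : ℚ) * ∑ g ∈ T, b.coord l (r g) * (u g : ℚ) := by
    intro u
    push_cast
    rw [Finset.mul_sum]
    refine Finset.sum_congr rfl fun g hg => ?_
    rw [hm g hg]
    ring
  have h1 := h m fun u hu => by
    have h2 := key u
    rw [← hcoord, hP u hu, map_zero, mul_zero] at h2
    exact_mod_cast h2
  have h3 := key z
  rw [h1] at h3
  have h4 : ((N : ℤ) : ℚ) * ∑ g ∈ T, b.coord l (r g) * (z g : ℚ) = 0 := by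
    rw [← h3]
    simp
  exact (mul_eq_zero.1 h4).resolve_left hN0

theorem val_eq (v : DVal k K) (T : Finset Kˣ) (γ : Kˣ →₀ ℝ) (h : γ.support ⊆ T) :
    v.val γ = ∑ g ∈ T, γ g * (v.ord (g : K) : ℝ) := by
  unfold DVal.val
  exact Finsupp.sum_of_support_subset _ h _ fun g _ => by rw [zero_mul]

theorem unit_ord (A : Subalgebra k K) (hA : IsGood A) (p : Ideal A) (hp : p.IsPrime) (f : K)
    (hf : f ≠ 0)
    (h : ∀ q : Ideal A, IsHeightOne q → q ≤ p → ∀ w : DVal k K, w.HasCenter A q → w.ord f = 0)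
    (v : DVal k K) (hv : v.HasCenter A p) : 0 ≤ v.ord f := by
  obtain ⟨s, hs, hsf⟩ := hartogs A (noeth A hA.fg) hA.frac hA.norm p hp f hf (by
    intro q hq hqp
    obtain ⟨w, hw, hw'⟩ := dvr A (noeth A hA.fg) hA.frac hA.norm q hq
    exact (hw' f hf).1 (h q hq hqp w hw).ge)
  obtain ⟨hs0, hs1⟩ := out v hv hs
  have h1 := hv.1 ⟨_, hsf⟩ (mul_ne_zero hs0 hf)
  change 0 ≤ v.ord ((s : K) * f) at h1
  rw [v.ord_mul _ _ hs0 hf, hs1, zero_add] at h1
  exact h1

end Ind

open Ind

theorem formOrd_heightOne (A : Subalgebra k K) (hA : IsGood A) {n : ℕ}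
    (D : Fin n → Derivation k K K) (hD : ∃ c, jac D c ≠ 0) (q : Ideal A) (hq : IsHeightOne q)
    (v : DVal k K) (hv : v.HasCenter A q) : ∃ j, v.FormOrd D j := by
  classical
  obtain ⟨N, hN⟩ := der_LB A hA D q hq v hv
  refine Ind.ex v D (n * N) ?_ ?_
  · intro a ha h0
    exact LB_det v N _ (fun i j => hN i _ (ha j)) h0
  · obtain ⟨c, hc⟩ := hD
    have hex : ∀ j, ∃ a l : K, v.Integral a ∧ l ≠ 0 ∧ ∀ i, D i a = l * D i (c j) := by
      intro j
      by_cases hj : v.Integral (c j)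
      · exact ⟨c j, 1, hj, one_ne_zero, fun i => (one_mul _).symm⟩
      · have hj' : c j ≠ 0 ∧ v.ord (c j) < 0 := by
          unfold DVal.Integral at hj
          push Not at hj
          exact hj
        refine ⟨(c j)⁻¹, -((c j)⁻¹ ^ 2), ?_, ?_, ?_⟩
        · intro _
          rw [ord_inv v _ hj'.1]
          omega
        · exact neg_ne_zero.2 (pow_ne_zero _ (inv_ne_zero hj'.1))
        · intro i
          rw [Derivation.leibniz_inv, smul_eq_mul]
    choose a l ha hl h using hex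
    refine ⟨a, ha, ?_⟩
    have : jac D a = (∏ j, l j) * jac D c := by
      unfold jac
      rw [← Matrix.det_mul_row]
      congr 1
      ext i j
      simp [h]
    rw [this]
    exact mul_ne_zero (Finset.prod_ne_zero_iff.2 fun j _ => hl j) hc

theorem indep_gen (A : Subalgebra k K) (hA : IsGood A) {n : ℕ}
    (D : Fin n → Derivation k K K) (hD : ∃ c, jac D c ≠ 0) (δ : Ideal A →₀ ℝ) (p : Ideal A)
    (hp : p.IsPrime) (γ γ' : Kˣ →₀ ℝ) (h : IsLocalEq A D δ p γ) (h' : IsLocalEq A D δ p γ')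
    (v : DVal k K) (hv : v.HasCenter A p) : v.val γ = v.val γ' := by
  classical
  let T := γ.support ∪ γ'.support
  have hT : γ.support ⊆ T := Finset.subset_union_left
  have hT' : γ'.support ⊆ T := Finset.subset_union_right
  have hval : ∀ w : DVal k K, w.val γ - w.val γ' = ∑ g ∈ T, (γ g - γ' g) * (w.ord (g : K) : ℝ) := by
    intro w
    rw [val_eq w T γ hT, val_eq w T γ' hT', ← Finset.sum_sub_distrib]
    exact Finset.sum_congr rfl fun g _ => by ring
  have key := real_comb T (fun g => γ g - γ' g)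
    {u : Kˣ → ℤ | ∃ q : Ideal A, IsHeightOne q ∧ q ≤ p ∧ ∃ w : DVal k K, w.HasCenter A q ∧
      u = fun g : Kˣ => w.ord (g : K)} (fun g : Kˣ => v.ord (g : K)) (by
    rintro u ⟨q, hq, hqp, w, hw, rfl⟩
    obtain ⟨j, hj⟩ := formOrd_heightOne A hA D hD q hq w hw
    have h1 := h q hqp hq w hw j hj
    have h2 := h' q hqp hq w hw j hj
    rw [← hval w]
    linarith) (by
    intro m hm
    let f : K := ∏ g ∈ T, (g : K) ^ m g
    have hf : f ≠ 0 := Finset.prod_ne_zero_iff.2 fun g _ => zpow_ne_zero _ g.ne_zero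
    have hord : ∀ w : DVal k K, w.ord f = ∑ g ∈ T, m g * w.ord (g : K) := by
      intro w
      rw [ord_prod w T _ fun g _ => zpow_ne_zero _ g.ne_zero]
      exact Finset.sum_congr rfl fun g _ => ord_zpow w _ g.ne_zero _
    have h0 : ∀ q : Ideal A, IsHeightOne q → q ≤ p → ∀ w : DVal k K, w.HasCenter A q →
        w.ord f = 0 := by
      intro q hq hqp w hw
      rw [hord w]
      exact hm _ ⟨q, hq, hqp, w, hw, rfl⟩
    have h1 := unit_ord A hA p hp f hf h0 v hv
    have h2 := unit_ord A hA p hp f⁻¹ (inv_ne_zero hf) (by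
      intro q hq hqp w hw
      rw [ord_inv w f hf, h0 q hq hqp w hw, neg_zero]) v hv
    rw [ord_inv v f hf] at h2
    rw [← hord v]
    omega)
  rw [← hval v] at key
  linarith

end IND

end Pool.Agent.MLD.Ten
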