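import Pool.Agent.Lib.MP_f23696_ag.T.Val
import Pool.Agent.Lib.MP_f23696_ag.Jind

/-!
Extension of derivations of the two factors to the function field of a product
(module JDER of project TEN).
-/

set_option autoImplicit false

open scoped TensorProduct

namespace Pool.Agent.MLD.Ten

universe u v w

section JDER
variable {k : Type u} {K₁ K₂ L : Type v} [Field k] [Field K₁] [Field K₂] [Field L]
    [Algebra k K₁] [Algebra k K₂] [Algebra k L] (J : Join k K₁ K₂ L)

namespace JDer

/-- the derivation `δ ⊗ 1` on `K₁ ⊗ K₂` -/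
noncomputable def dT (K₂ : Type v) [Field K₂] [Algebra k K₂] (δ : Derivation k K₁ K₁) :
    K₁ ⊗[k] K₂ →ₗ[k] K₁ ⊗[k] K₂ := LinearMap.rTensor K₂ δ.toLinearMap

theorem dT_tmul (δ : Derivation k K₁ K₁) (a : K₁) (b : K₂) :
    dT K₂ δ (a ⊗ₜ[k] b) = δ a ⊗ₜ[k] b := rfl

theorem dT_mul (δ : Derivation k K₁ K₁) (x y : K₁ ⊗[k] K₂) :
    dT K₂ δ (x * y) = x * dT K₂ δ y + y * dT K₂ δ x := by
  induction x using TensorProduct.induction_on with
  | zero => simp
  | add x x' hx hx' => rw [add_mul, map_add, hx, hx', map_add]; ring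
  | tmul a b =>
    induction y using TensorProduct.induction_on with
    | zero => simp
    | add y y' hy hy' => rw [mul_add, map_add, hy, hy', map_add]; ring
    | tmul c d =>
      rw [Algebra.TensorProduct.tmul_mul_tmul, dT_tmul, dT_tmul, dT_tmul,
        Algebra.TensorProduct.tmul_mul_tmul, Algebra.TensorProduct.tmul_mul_tmul, mul_comm d b,
        ← TensorProduct.add_tmul, Derivation.leibniz, smul_eq_mul, smul_eq_mul]

/-- the value of the extension at `π a / π b` -/
noncomputable def q (δ : Derivation k K₁ K₁) (a b : K₁ ⊗[k] K₂) : L :=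
  (J.π b * J.π (dT K₂ δ a) - J.π a * J.π (dT K₂ δ b)) / J.π b ^ 2

theorem q_congr (δ : Derivation k K₁ K₁) (a b a' b' : K₁ ⊗[k] K₂) (hb : J.π b ≠ 0)
    (hb' : J.π b' ≠ 0) (h : J.π a / J.π b = J.π a' / J.π b') : q J δ a b = q J δ a' b' := by
  rw [div_eq_div_iff hb hb'] at h
  have h1 : a * b' = a' * b := J.inj (by rw [map_mul, map_mul]; exact h)
  have h2 := congrArg (fun x => J.π (dT K₂ δ x)) h1
  simp only [dT_mul, map_add, map_mul] at h2
  unfold q
  rw [div_eq_div_iff (pow_ne_zero 2 hb) (pow_ne_zero 2 hb')]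
  linear_combination (J.π b * J.π b') * h2 - (J.π b' * J.π (dT K₂ δ b) +
    J.π b * J.π (dT K₂ δ b')) * h

/-- the extension of `δ` to `L` -/
noncomputable def ext (δ : Derivation k K₁ K₁) (f : L) : L :=
  q J δ (J.frac f).choose (J.frac f).choose_spec.choose

theorem ext_eq (δ : Derivation k K₁ K₁) (a b : K₁ ⊗[k] K₂) (hb : J.π b ≠ 0) :
    ext J δ (J.π a / J.π b) = q J δ a b := by
  have h := (J.frac (J.π a / J.π b)).choose_spec.choose_spec
  exact q_congr J δ _ _ _ _ h.1 hb h.2.symm

end JDer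

theorem ext_left (δ : Derivation k K₁ K₁) : ∃ δ' : Derivation k L L,
    (∀ a, δ' (J.φ a) = J.φ (δ a)) ∧ ∀ b, δ' (J.ψ b) = 0 := by
  have hadd : ∀ f g, JDer.ext J δ (f + g) = JDer.ext J δ f + JDer.ext J δ g := by
    intro f g
    obtain ⟨a, b, hb, rfl⟩ := J.frac f
    obtain ⟨a', b', hb', rfl⟩ := J.frac g
    have h1 : J.π a / J.π b + J.π a' / J.π b' = J.π (a * b' + a' * b) / J.π (b * b') := by
      rw [div_add_div _ _ hb hb', map_add, map_mul, map_mul, map_mul]
      ring
    have hbb : J.π (b * b') ≠ 0 := by rw [map_mul]; exact mul_ne_zero hb hb'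
    rw [h1, JDer.ext_eq J δ _ _ hbb, JDer.ext_eq J δ _ _ hb, JDer.ext_eq J δ _ _ hb']
    unfold JDer.q
    simp only [map_add, map_mul, JDer.dT_mul]
    field_simp
    ring
  have hsmul : ∀ (c : k) f, JDer.ext J δ (c • f) = c • JDer.ext J δ f := by
    intro c f
    obtain ⟨a, b, hb, rfl⟩ := J.frac f
    have h1 : c • (J.π a / J.π b) = J.π (c • a) / J.π b := by
      rw [map_smul, smul_div_assoc]
    rw [h1, JDer.ext_eq J δ _ _ hb, JDer.ext_eq J δ _ _ hb]
    unfold JDer.q
    rw [map_smul, map_smul, map_smul, mul_smul_comm, smul_mul_assoc, ← smul_sub, smul_div_assoc]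
  have hmul : ∀ f g, JDer.ext J δ (f * g) = f * JDer.ext J δ g + g * JDer.ext J δ f := by
    intro f g
    obtain ⟨a, b, hb, rfl⟩ := J.frac f
    obtain ⟨a', b', hb', rfl⟩ := J.frac g
    have h1 : J.π a / J.π b * (J.π a' / J.π b') = J.π (a * a') / J.π (b * b') := by
      rw [div_mul_div_comm, map_mul, map_mul]
    have hbb : J.π (b * b') ≠ 0 := by rw [map_mul]; exact mul_ne_zero hb hb'
    rw [h1, JDer.ext_eq J δ _ _ hbb, JDer.ext_eq J δ _ _ hb, JDer.ext_eq J δ _ _ hb']
    unfold JDer.q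
    simp only [map_add, map_mul, JDer.dT_mul]
    field_simp
    ring
  let lin : L →ₗ[k] L :=
    { toFun := JDer.ext J δ
      map_add' := hadd
      map_smul' := hsmul }
  refine ⟨Derivation.mk' lin hmul, fun a => ?_, fun b => ?_⟩
  · have h1 : J.φ a = J.π (a ⊗ₜ 1) / J.π 1 := by simp
    have h2 := JDer.ext_eq J δ (a ⊗ₜ 1) 1 (by simp)
    rw [← h1] at h2
    show JDer.ext J δ (J.φ a) = _
    rw [h2]
    unfold JDer.q
    rw [Algebra.TensorProduct.one_def, JDer.dT_tmul, JDer.dT_tmul]
    simp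
  · have h1 : J.ψ b = J.π (1 ⊗ₜ b) / J.π 1 := by simp
    have h2 := JDer.ext_eq J δ (1 ⊗ₜ b) 1 (by simp)
    rw [← h1] at h2
    show JDer.ext J δ (J.ψ b) = _
    rw [h2]
    unfold JDer.q
    rw [Algebra.TensorProduct.one_def, JDer.dT_tmul, JDer.dT_tmul]
    simp

/-- a derivation of `L` is determined by its values on the two factors -/
theorem join_ext (δ δ' : Derivation k L L) (h₁ : ∀ a, δ (J.φ a) = δ' (J.φ a))
    (h₂ : ∀ b, δ (J.ψ b) = δ' (J.ψ b)) : δ = δ' := by
  have h3 : ∀ x : K₁ ⊗[k] K₂, δ (J.π x) = δ' (J.π x) := by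
    intro x
    induction x using TensorProduct.induction_on with
    | zero => simp
    | add x y hx hy => rw [map_add, map_add, map_add, hx, hy]
    | tmul a b =>
      rw [Algebra.TensorProduct.productMap_apply_tmul, Derivation.leibniz, Derivation.leibniz,
        h₁, h₂]
  ext f
  obtain ⟨a, b, hb, rfl⟩ := J.frac f
  have e : ∀ d : Derivation k L L, d (J.π a) =
      (J.π a / J.π b) * d (J.π b) + J.π b * d (J.π a / J.π b) := by
    intro d
    have : J.π a = (J.π a / J.π b) * J.π b := by rw [div_mul_cancel₀ _ hb]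
    conv_lhs => rw [this]
    rw [Derivation.leibniz, smul_eq_mul, smul_eq_mul]
  have e1 := e δ
  rw [h3, h3, e δ'] at e1
  exact (mul_left_cancel₀ hb (add_left_cancel e1)).symm

theorem joint_exists {n₁ n₂ : ℕ} (D₁ : Fin n₁ → Derivation k K₁ K₁)
    (D₂ : Fin n₂ → Derivation k K₂ K₂) :
    ∃ D : Fin (n₁ + n₂) → Derivation k L L, IsJoint J D₁ D₂ D := by
  choose E₁ h₁ h₁' using fun i => ext_left J (D₁ i)
  choose E₂ h₂ h₂' using fun i => ext_left J.swap (D₂ i)
  refine ⟨Fin.append E₁ E₂, ?_, ?_, ?_, ?_⟩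
  · intro i a
    rw [Fin.append_left]
    exact h₁ i a
  · intro i b
    rw [Fin.append_left]
    exact h₁' i b
  · intro i a
    rw [Fin.append_right]
    exact h₂' i a
  · intro i b
    rw [Fin.append_right]
    exact h₂ i b

theorem JDer.det_blocks {n₁ n₂ : ℕ} (M : Matrix (Fin (n₁ + n₂)) (Fin (n₁ + n₂)) L)
    (A : Matrix (Fin n₁) (Fin n₁) L) (B : Matrix (Fin n₂) (Fin n₂) L)
    (h11 : ∀ i l, M (Fin.castAdd n₂ i) (Fin.castAdd n₂ l) = A i l)
    (h12 : ∀ i l, M (Fin.castAdd n₂ i) (Fin.natAdd n₁ l) = 0)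
    (h22 : ∀ i l, M (Fin.natAdd n₁ i) (Fin.natAdd n₁ l) = B i l) : M.det = A.det * B.det := by
  have h : M.submatrix finSumFinEquiv finSumFinEquiv =
      Matrix.fromBlocks A 0 (Matrix.of fun i l => M (Fin.natAdd n₁ i) (Fin.castAdd n₂ l)) B := by
    ext i l
    rcases i with i | i <;> rcases l with l | l
    · simpa using h11 i l
    · simpa using h12 i l
    · simp
    · simpa using h22 i l
  rw [← Matrix.det_submatrix_equiv_self finSumFinEquiv M, h, Matrix.det_fromBlocks_zero₁₂]

theorem jac_joint {n₁ n₂ : ℕ} {D₁ : Fin n₁ → Derivation k K₁ K₁}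
    {D₂ : Fin n₂ → Derivation k K₂ K₂} {D : Fin (n₁ + n₂) → Derivation k L L}
    (h : IsJoint J D₁ D₂ D) (a : Fin n₁ → K₁) (b : Fin n₂ → K₂) :
    jac D (Fin.append (fun i => J.φ (a i)) (fun i => J.ψ (b i))) =
      J.φ (jac D₁ a) * J.ψ (jac D₂ b) := by
  obtain ⟨h1, h2, h3, h4⟩ := h
  unfold jac
  rw [AlgHom.map_det, AlgHom.map_det]
  refine JDer.det_blocks _ _ _ ?_ ?_ ?_
  · intro i l
    rw [Matrix.of_apply, Fin.append_left, h1]
    rfl
  · intro i l
    rw [Matrix.of_apply, Fin.append_right, h2]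
  · intro i l
    rw [Matrix.of_apply, Fin.append_right, h4]
    rfl

theorem JDer.sum_apply {ι : Type w} (s : Finset ι) (f : ι → Derivation k L L) (c : L) :
    (∑ i ∈ s, f i) c = ∑ i ∈ s, f i c := by
  classical
  induction s using Finset.induction_on with
  | empty => simp
  | insert a s ha ih => rw [Finset.sum_insert ha, Finset.sum_insert ha, Derivation.add_apply, ih]

theorem joint_change {n₁ n₂ : ℕ} {D₁ E₁ : Fin n₁ → Derivation k K₁ K₁}
    {D₂ E₂ : Fin n₂ → Derivation k K₂ K₂} {D E : Fin (n₁ + n₂) → Derivation k L L}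
    (hD : IsJoint J D₁ D₂ D) (hE : IsJoint J E₁ E₂ E) (M₁ : Matrix (Fin n₁) (Fin n₁) K₁)
    (M₂ : Matrix (Fin n₂) (Fin n₂) K₂) (h₁ : ∀ i c, D₁ i c = ∑ l, M₁ i l * E₁ l c)
    (h₂ : ∀ i c, D₂ i c = ∑ l, M₂ i l * E₂ l c) (a : Fin (n₁ + n₂) → L) :
    jac D a = J.φ M₁.det * J.ψ M₂.det * jac E a := by
  obtain ⟨d1, d2, d3, d4⟩ := hD
  obtain ⟨e1, e2, e3, e4⟩ := hE
  have k1 : ∀ i c, D (Fin.castAdd n₂ i) c = ∑ l, J.φ (M₁ i l) * E (Fin.castAdd n₂ l) c := by
    intro i c
    have := join_ext J (D (Fin.castAdd n₂ i)) (∑ l, J.φ (M₁ i l) • E (Fin.castAdd n₂ l))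
      (by
        intro x
        rw [d1, h₁, map_sum, JDer.sum_apply]
        refine Finset.sum_congr rfl fun l _ => ?_
        rw [Derivation.smul_apply, e1, smul_eq_mul, map_mul])
      (by
        intro x
        rw [d2, JDer.sum_apply]
        refine (Finset.sum_eq_zero fun l _ => ?_).symm
        rw [Derivation.smul_apply, e2, smul_zero])
    rw [this, JDer.sum_apply]
    rfl
  have k2 : ∀ i c, D (Fin.natAdd n₁ i) c = ∑ l, J.ψ (M₂ i l) * E (Fin.natAdd n₁ l) c := by
    intro i c
    have := join_ext J (D (Fin.natAdd n₁ i)) (∑ l, J.ψ (M₂ i l) • E (Fin.natAdd n₁ l))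
      (by
        intro x
        rw [d3, JDer.sum_apply]
        refine (Finset.sum_eq_zero fun l _ => ?_).symm
        rw [Derivation.smul_apply, e3, smul_zero])
      (by
        intro x
        rw [d4, h₂, map_sum, JDer.sum_apply]
        refine Finset.sum_congr rfl fun l _ => ?_
        rw [Derivation.smul_apply, e4, smul_eq_mul, map_mul])
    rw [this, JDer.sum_apply]
    rfl
  let N : Matrix (Fin (n₁ + n₂)) (Fin (n₁ + n₂)) L := Matrix.of fun i l =>
    (Fin.append (fun i => Fin.append (fun l => J.φ (M₁ i l)) (fun _ => 0))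
      (fun i => Fin.append (fun _ => 0) (fun l => J.ψ (M₂ i l))) :
        Fin (n₁ + n₂) → Fin (n₁ + n₂) → L) i l
  have hN : N.det = J.φ M₁.det * J.ψ M₂.det := by
    rw [AlgHom.map_det, AlgHom.map_det]
    refine JDer.det_blocks _ _ _ ?_ ?_ ?_
    · intro i l
      simp [N]
    · intro i l
      simp [N]
    · intro i l
      simp [N]
  have hmul : (Matrix.of fun i j => D i (a j)) = N * (Matrix.of fun i j => E i (a j)) := by
    ext i j
    rw [Matrix.mul_apply, Fin.sum_univ_add]
    refine Fin.addCases (fun i => ?_) (fun i => ?_) i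
    · simp [N, k1]
    · simp [N, k2]
  unfold jac
  rw [hmul, Matrix.det_mul, hN]

theorem joint_dual {n₁ n₂ : ℕ} {D₁ : Fin n₁ → Derivation k K₁ K₁}
    {D₂ : Fin n₂ → Derivation k K₂ K₂} {D : Fin (n₁ + n₂) → Derivation k L L}
    (h : IsJoint J D₁ D₂ D) (a : Fin n₁ → K₁) (b : Fin n₂ → K₂)
    (ha : ∀ i l, D₁ i (a l) = if i = l then 1 else 0)
    (hb : ∀ i l, D₂ i (b l) = if i = l then 1 else 0) (i l : Fin (n₁ + n₂)) :
    D i (Fin.append (fun i => J.φ (a i)) (fun i => J.ψ (b i)) l) = if i = l then 1 else 0 := by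
  obtain ⟨h1, h2, h3, h4⟩ := h
  refine Fin.addCases (fun i => ?_) (fun i => ?_) i <;>
  refine Fin.addCases (fun l => ?_) (fun l => ?_) l
  · rw [Fin.append_left, h1, ha]
    rcases eq_or_ne i l with rfl | hil
    · simp
    · have : Fin.castAdd n₂ i ≠ Fin.castAdd n₂ l := fun h => hil (Fin.castAdd_injective _ _ h)
      rw [if_neg hil, if_neg this, map_zero]
  · rw [Fin.append_right, h2, if_neg]
    intro h
    have := congrArg Fin.val h
    simp at this
    omega
  · rw [Fin.append_left, h3, if_neg]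
    intro h
    have := congrArg Fin.val h
    simp at this
    omega
  · rw [Fin.append_right, h4, hb]
    rcases eq_or_ne i l with rfl | hil
    · simp
    · have : Fin.natAdd n₁ i ≠ Fin.natAdd n₁ l := fun h => hil (Fin.natAdd_injective _ _ h)
      rw [if_neg hil, if_neg this, map_zero]

theorem joint_swap {n₁ n₂ : ℕ} {D₁ : Fin n₁ → Derivation k K₁ K₁}
    {D₂ : Fin n₂ → Derivation k K₂ K₂} {D : Fin (n₁ + n₂) → Derivation k L L}
    (h : IsJoint J D₁ D₂ D) : ∃ D' : Fin (n₂ + n₁) → Derivation k L L,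
      IsJoint J.swap D₂ D₁ D' ∧ ∀ (v : DVal k L) (j : ℤ), v.FormOrd D j ↔ v.FormOrd D' j := by
  obtain ⟨h1, h2, h3, h4⟩ := h
  refine ⟨fun i => D (finAddFlip i), ⟨?_, ?_, ?_, ?_⟩, ?_⟩
  · intro i a
    show D (finAddFlip (Fin.castAdd n₁ i)) (J.ψ a) = J.ψ (D₂ i a)
    rw [finAddFlip_apply_castAdd, h4]
  · intro i b
    show D (finAddFlip (Fin.castAdd n₁ i)) (J.φ b) = 0
    rw [finAddFlip_apply_castAdd, h3]
  · intro i a
    show D (finAddFlip (Fin.natAdd n₂ i)) (J.ψ a) = 0
    rw [finAddFlip_apply_natAdd, h2]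
  · intro i b
    show D (finAddFlip (Fin.natAdd n₂ i)) (J.φ b) = J.φ (D₁ i b)
    rw [finAddFlip_apply_natAdd, h1]
  · have key : ∀ a : Fin (n₁ + n₂) → L,
        jac (fun i => D (finAddFlip i)) (fun i : Fin (n₂ + n₁) => a (finAddFlip i)) = jac D a := by
      intro a
      unfold jac
      exact Matrix.det_submatrix_equiv_self finAddFlip (Matrix.of fun i j => D i (a j))
    have key' : ∀ a : Fin (n₂ + n₁) → L,
        jac (fun i => D (finAddFlip i)) a = jac D (fun i => a (finAddFlip.symm i)) := by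
      intro a
      rw [← key]
      congr 1
      funext i
      simp
    intro v j
    constructor
    · rintro ⟨hle, a, ha, ha0, haj⟩
      refine ⟨?_, fun i => a (finAddFlip i), fun i => ha _, ?_, ?_⟩
      · intro a ha ha0
        rw [key'] at ha0 ⊢
        exact hle _ (fun i => ha _) ha0
      · rw [key]
        exact ha0
      · rw [key]
        exact haj
    · rintro ⟨hle, a, ha, ha0, haj⟩
      refine ⟨?_, fun i => a (finAddFlip.symm i), fun i => ha _, ?_, ?_⟩
      · intro a ha ha0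
        rw [← key] at ha0 ⊢
        exact hle _ (fun i => ha _) ha0
      · rw [← key']
        exact ha0
      · rw [← key']
        exact haj

/-- a transcendence basis of `K₂/k` is one of `L/K₁` -/
theorem JDer.basis_right {n₂ : ℕ} (y₂ : Fin n₂ → K₂) (hy₂ : IsTranscendenceBasis k y₂) :
    letI : Algebra K₁ L := J.φ.toRingHom.toAlgebra
    IsTranscendenceBasis K₁ (fun i => J.ψ (y₂ i)) := by
  let _ : Algebra K₁ L := J.φ.toRingHom.toAlgebra
  have : IsScalarTower k K₁ L := IsScalarTower.of_algebraMap_eq fun c => (J.φ.commutes c).symm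
  have hmap : ∀ a, algebraMap K₁ L a = J.φ a := fun _ => rfl
  show IsTranscendenceBasis K₁ (fun i => J.ψ (y₂ i))
  rw [isTranscendenceBasis_iff_algebraicIndependent_isAlgebraic]
  constructor
  · rw [algebraicIndependent_iff_injective_aeval]
    let e := MvPolynomial.algebraTensorAlgEquiv (σ := Fin n₂) k K₁
    have h1 : Function.Injective (LinearMap.lTensor K₁
        (MvPolynomial.aeval (R := k) y₂).toLinearMap) :=
      Module.Flat.lTensor_preserves_injective_linearMap _
        (algebraicIndependent_iff_injective_aeval.1 hy₂.1)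
    have h2 : ∀ x : K₁ ⊗[k] MvPolynomial (Fin n₂) k,
        MvPolynomial.aeval (R := K₁) (fun i => J.ψ (y₂ i)) (e x) =
          J.π (LinearMap.lTensor K₁ (MvPolynomial.aeval (R := k) y₂).toLinearMap x) := by
      intro x
      induction x using TensorProduct.induction_on with
      | zero => simp
      | add x y hx hy => rw [map_add, map_add, map_add, map_add, hx, hy]
      | tmul a p =>
        rw [MvPolynomial.algebraTensorAlgEquiv_tmul, map_smul, Algebra.smul_def, hmap,
          LinearMap.lTensor_tmul, Algebra.TensorProduct.productMap_apply_tmul]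
        congr 1
        rw [MvPolynomial.aeval_map_algebraMap]
        have := MvPolynomial.comp_aeval (R := k) y₂ J.ψ
        exact (congrArg (fun f => f p) this).symm
    have h3 : Function.Injective (fun x : K₁ ⊗[k] MvPolynomial (Fin n₂) k =>
        MvPolynomial.aeval (R := K₁) (fun i => J.ψ (y₂ i)) (e x)) := by
      have : (fun x : K₁ ⊗[k] MvPolynomial (Fin n₂) k =>
        MvPolynomial.aeval (R := K₁) (fun i => J.ψ (y₂ i)) (e x)) =
          J.π ∘ LinearMap.lTensor K₁ (MvPolynomial.aeval (R := k) y₂).toLinearMap :=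
        funext h2
      rw [this]
      exact J.inj.comp h1
    intro x y hxy
    have h4 := @h3 (e.symm x) (e.symm y) (by simpa using hxy)
    simpa using h4
  · have halg : Algebra.IsAlgebraic (Algebra.adjoin k (Set.range y₂)) K₂ :=
      (isTranscendenceBasis_iff_algebraicIndependent_isAlgebraic.1 hy₂).2
    set A := Algebra.adjoin K₁ (Set.range fun i => J.ψ (y₂ i)) with hA
    have hφ : ∀ a : K₁, IsAlgebraic A (J.φ a) := by
      intro a
      exact isAlgebraic_algebraMap (⟨J.φ a, A.algebraMap_mem a⟩ : A)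
    have hle : ∀ x ∈ Algebra.adjoin k (Set.range y₂), J.ψ x ∈ A := by
      intro x hx
      induction hx using Algebra.adjoin_induction with
      | mem x hx =>
        obtain ⟨i, rfl⟩ := hx
        exact Algebra.subset_adjoin ⟨i, rfl⟩
      | algebraMap c =>
        rw [J.ψ.commutes, IsScalarTower.algebraMap_apply k K₁ L]
        exact A.algebraMap_mem _
      | add x y _ _ hx hy => rw [map_add]; exact A.add_mem hx hy
      | mul x y _ _ hx hy => rw [map_mul]; exact A.mul_mem hx hy
    let f : Algebra.adjoin k (Set.range y₂) →+* A :=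
      { toFun := fun x => ⟨J.ψ x, hle x x.2⟩
        map_one' := Subtype.ext (by simp)
        map_mul' := fun x y => Subtype.ext (by simp)
        map_zero' := Subtype.ext (by simp)
        map_add' := fun x y => Subtype.ext (by simp) }
    have hψ : ∀ b : K₂, IsAlgebraic A (J.ψ b) := by
      intro b
      refine (halg.isAlgebraic b).ringHom_of_comp_eq f J.ψ ?_ ?_
      · intro x y hxy
        exact Subtype.ext (J.ψ.injective (congrArg Subtype.val hxy))
      · rfl
    have hπ : ∀ x : K₁ ⊗[k] K₂, IsAlgebraic A (J.π x) := by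
      intro x
      induction x using TensorProduct.induction_on with
      | zero => rw [map_zero]; exact isAlgebraic_zero
      | add x y hx hy => rw [map_add]; exact hx.add hy
      | tmul a b =>
        rw [Algebra.TensorProduct.productMap_apply_tmul]
        exact (hφ a).mul (hψ b)
    refine ⟨fun f => ?_⟩
    obtain ⟨a, b, -, rfl⟩ := J.frac f
    rw [div_eq_mul_inv]
    exact (hπ a).mul (hπ b).inv

theorem joint_basis {n₁ n₂ : ℕ} (y₁ : Fin n₁ → K₁) (hy₁ : IsTranscendenceBasis k y₁)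
    (y₂ : Fin n₂ → K₂) (hy₂ : IsTranscendenceBasis k y₂) :
    IsTranscendenceBasis k (Fin.append (fun i => J.φ (y₁ i)) (fun i => J.ψ (y₂ i))) := by
  let _ : Algebra K₁ L := J.φ.toRingHom.toAlgebra
  have : IsScalarTower k K₁ L := IsScalarTower.of_algebraMap_eq fun c => (J.φ.commutes c).symm
  have h1 := hy₁.sumElim_comp (JDer.basis_right J y₂ hy₂)
  have h2 := (isTranscendenceBasis_equiv
    (finSumFinEquiv.symm.trans (Equiv.sumComm (Fin n₁) (Fin n₂)))).2 h1
  convert h2 using 1
  funext i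
  refine Fin.addCases (fun i => ?_) (fun i => ?_) i
  · simp
    rfl
  · simp

end JDER

end Pool.Agent.MLD.Ten
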