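import Pool.Agent.Lib.MP_f23696_ag.T.Val
import Pool.Agent.Lib.MP_f23696_ag.T.Ev

/-!
Prime divisors of the product `A₁ ⊗ A₂` (module PRI of the project TEN): the prime divisors
pulled back from a factor and the other ones.
-/

set_option autoImplicit false

open scoped TensorProduct

namespace Pool.Agent.MLD.Ten

universe u v w

section PRI
set_option linter.unusedSectionVars false
variable {k : Type u} {K₁ K₂ L : Type v} [Field k] [IsAlgClosed k] [Field K₁]
    [Field K₂] [Field L] [Algebra k K₁] [Algebra k K₂] [Algebra k L] {J : Join k K₁ K₂ L}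
    {A₁ : Subalgebra k K₁} {A₂ : Subalgebra k K₂} {S : Subalgebra k L}
    {ι₁ : A₁ →ₐ[k] S} {ι₂ : A₂ →ₐ[k] S}

namespace Pri

/-- an additive map on an extended ideal -/
theorem map_induction {A : Type v} {B : Type w} {N : Type u} [CommRing A] [CommRing B]
    [AddCommGroup N] (ι : A →+* B) (P : Ideal A) (ρ : B →+ N) (T : AddSubgroup N)
    (h : ∀ a ∈ P, ∀ r, ρ (ι a * r) ∈ T) (s : B) (hs : s ∈ P.map ι) : ρ s ∈ T := by
  have key : ∀ s ∈ P.map ι, ∀ r, ρ (r * s) ∈ T := by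
    intro s hs
    refine Submodule.span_induction (p := fun s _ => ∀ r, ρ (r * s) ∈ T) ?_ ?_ ?_ ?_ hs
    · rintro _ ⟨a, ha, rfl⟩ r
      rw [mul_comm]
      exact h a ha r
    · intro r
      rw [mul_zero, map_zero]
      exact T.zero_mem
    · intro x y _ _ hx hy r
      rw [mul_add, map_add]
      exact T.add_mem (hx r) (hy r)
    · intro c x _ hx r
      rw [smul_eq_mul, ← mul_assoc]
      exact hx _
  have := key s hs 1
  rwa [one_mul] at this

omit [IsAlgClosed k] in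
theorem bij (hP : IsProd J ι₁ ι₂) :
    Function.Bijective (Algebra.TensorProduct.productMap ι₁ ι₂) := by
  constructor
  · have h1 : S.val.comp (Algebra.TensorProduct.productMap ι₁ ι₂) =
        J.π.comp (Algebra.TensorProduct.map A₁.val A₂.val) := by
      ext x
      · simp [hP.coe₁]
      · simp [hP.coe₂]
    have h2 : Function.Injective (Algebra.TensorProduct.map A₁.val A₂.val) :=
      TensorProduct.map_injective_of_flat_flat A₁.val.toLinearMap A₂.val.toLinearMap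
        Subtype.val_injective Subtype.val_injective
    have h3 : Function.Injective (S.val.comp (Algebra.TensorProduct.productMap ι₁ ι₂)) := by
      rw [h1]
      exact J.inj.comp h2
    intro x y hxy
    exact h3 (congrArg S.val hxy)
  · rw [← AlgHom.range_eq_top, Algebra.TensorProduct.productMap_range]
    have h1 : ι₁.range.map S.val = A₁.map J.φ := by
      ext x
      simp only [Subalgebra.mem_map, AlgHom.mem_range]
      constructor
      · rintro ⟨_, ⟨a, rfl⟩, rfl⟩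
        exact ⟨a, a.2, (hP.coe₁ a).symm⟩
      · rintro ⟨a, ha, rfl⟩
        exact ⟨_, ⟨⟨a, ha⟩, rfl⟩, hP.coe₁ ⟨a, ha⟩⟩
    have h2 : ι₂.range.map S.val = A₂.map J.ψ := by
      ext x
      simp only [Subalgebra.mem_map, AlgHom.mem_range]
      constructor
      · rintro ⟨_, ⟨a, rfl⟩, rfl⟩
        exact ⟨a, a.2, (hP.coe₂ a).symm⟩
      · rintro ⟨a, ha, rfl⟩
        exact ⟨_, ⟨⟨a, ha⟩, rfl⟩, hP.coe₂ ⟨a, ha⟩⟩
    have h3 : (ι₁.range ⊔ ι₂.range).map S.val = S := by
      rw [Algebra.map_sup, h1, h2]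
      exact hP.eq_sup.symm
    rw [eq_top_iff]
    rintro s -
    have h4 : (s : L) ∈ (ι₁.range ⊔ ι₂.range).map S.val := by
      rw [h3]
      exact s.2
    obtain ⟨t, ht, hts⟩ := h4
    have : t = s := Subtype.ext hts
    rw [← this]
    exact ht

omit [IsAlgClosed k] in
/-- the isomorphism `A₁ ⊗ A₂ ≃ S` -/
noncomputable def eqv (hP : IsProd J ι₁ ι₂) : A₁ ⊗[k] A₂ ≃ₐ[k] S :=
  AlgEquiv.ofBijective (Algebra.TensorProduct.productMap ι₁ ι₂) (bij hP)

theorem eqv_tmul (hP : IsProd J ι₁ ι₂) (a : A₁) (b : A₂) :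
    eqv hP (a ⊗ₜ[k] b) = ι₁ a * ι₂ b := by
  simp [eqv]

theorem eqv_symm_mul (hP : IsProd J ι₁ ι₂) (a : A₁) (b : A₂) :
    (eqv hP).symm (ι₁ a * ι₂ b) = a ⊗ₜ[k] b := by
  rw [AlgEquiv.symm_apply_eq, eqv_tmul]

theorem eqv_symm_left (hP : IsProd J ι₁ ι₂) (a : A₁) :
    (eqv hP).symm (ι₁ a) = a ⊗ₜ[k] (1 : A₂) := by
  have := eqv_symm_mul hP a 1
  rwa [map_one, mul_one] at this

theorem eqv_symm_right (hP : IsProd J ι₁ ι₂) (b : A₂) :
    (eqv hP).symm (ι₂ b) = (1 : A₁) ⊗ₜ[k] b := by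
  have := eqv_symm_mul hP 1 b
  rwa [map_one, one_mul] at this

/-- the slice map `A₁ ⊗ A₂ → A₁` of a functional on `A₂` -/
noncomputable def sliceL (hP : IsProd J ι₁ ι₂) (l : A₂ →ₗ[k] k) : S →ₗ[k] A₁ :=
  (TensorProduct.rid k A₁).toLinearMap ∘ₗ l.lTensor A₁ ∘ₗ (eqv hP).symm.toLinearMap

/-- the slice map `A₁ ⊗ A₂ → A₂` of a functional on `A₁` -/
noncomputable def sliceR (hP : IsProd J ι₁ ι₂) (l : A₁ →ₗ[k] k) : S →ₗ[k] A₂ :=
  (TensorProduct.lid k A₂).toLinearMap ∘ₗ l.rTensor A₂ ∘ₗ (eqv hP).symm.toLinearMap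

theorem sliceL_mul (hP : IsProd J ι₁ ι₂) (l : A₂ →ₗ[k] k) (a : A₁) (s : S) :
    sliceL hP l (ι₁ a * s) = a * sliceL hP l s := by
  obtain ⟨t, rfl⟩ := (eqv hP).surjective s
  have h : ∀ t : A₁ ⊗[k] A₂, sliceL hP l (eqv hP t) =
      TensorProduct.rid k A₁ (l.lTensor A₁ t) := by
    intro t
    simp [sliceL]
  have h1 : ι₁ a * eqv hP t = eqv hP ((a ⊗ₜ[k] (1 : A₂)) * t) := by
    rw [map_mul, eqv_tmul, map_one, mul_one]
  rw [h1, h, h]
  induction t with
  | zero => simp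
  | tmul x y =>
    simp
  | add x y hx hy =>
    rw [mul_add, map_add, map_add, hx, hy, map_add, map_add, mul_add]
    · rw [map_mul, eqv_tmul, map_one, mul_one]
    · rw [map_mul, eqv_tmul, map_one, mul_one]

theorem sliceR_tmul (hP : IsProd J ι₁ ι₂) (l : A₁ →ₗ[k] k) (a : A₁) (b : A₂) :
    sliceR hP l (eqv hP (a ⊗ₜ[k] b)) = l a • b := by
  simp [sliceR]

omit [IsAlgClosed k] in
theorem good_noetherian {K : Type v} [Field K] [Algebra k K] {A : Subalgebra k K}
    (h : IsGood A) : IsNoetherianRing A :=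
  isNoetherianRing_of_fg h.fg

omit [IsAlgClosed k] in
theorem prod_noetherian (hP : IsProd J ι₁ ι₂) (h₁ : IsGood A₁) (h₂ : IsGood A₂) :
    IsNoetherianRing S := by
  refine isNoetherianRing_of_fg ?_
  rw [hP.eq_sup]
  exact (h₁.fg.map _).sup (h₂.fg.map _)

omit [IsAlgClosed k] in
/-- Krull's Hauptidealsatz: minimal primes over a nonzero element have height one -/
theorem heightOne_of_minimal {K : Type v} [Field K] [Algebra k K] (A : Subalgebra k K)
    (hN : IsNoetherianRing A) (a : A) (ha : a ≠ 0) (P : Ideal A)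
    (hP : P ∈ (Ideal.span {a}).minimalPrimes) : IsHeightOne P := by
  have hPp : P.IsPrime := hP.1.1
  have haP : a ∈ P := hP.1.2 (Ideal.mem_span_singleton_self a)
  have hht : P.height ≤ 1 :=
    Ideal.height_le_one_of_isPrincipal_of_mem_minimalPrimes (Ideal.span {a}) P hP
  refine ⟨hPp, ?_, ?_⟩
  · intro h0
    apply ha
    rw [h0] at haP
    exact haP
  · intro q hq hqbot hqQ
    by_contra hne
    have hlt : q < P := lt_of_le_of_ne hqQ hne
    have hlt0 : (⊥ : Ideal A) < q := bot_lt_iff_ne_bot.2 hqbot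
    have : (⊥ : Ideal A).IsPrime := Ideal.isPrime_bot
    have e1 := Ideal.height_add_one_le_of_lt_of_isPrime hlt0
    have e2 := Ideal.height_add_one_le_of_lt_of_isPrime hlt
    have e3 : (2 : ℕ∞) ≤ P.height := by
      calc (2 : ℕ∞) = 0 + 1 + 1 := by norm_num
        _ ≤ (⊥ : Ideal A).height + 1 + 1 := by gcongr; exact bot_le
        _ ≤ q.height + 1 := by gcongr
        _ ≤ P.height := e2
    have e4 := e3.trans hht
    exact absurd e4 (by norm_num)

end Pri

open Pri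

theorem comap_map (hP : IsProd J ι₁ ι₂) (P : Ideal A₁) : (P.map ι₁).comap ι₁ = P := by
  refine le_antisymm ?_ Ideal.le_comap_map
  intro x hx
  rw [Ideal.mem_comap] at hx
  obtain ⟨l, hl, -⟩ := Submodule.exists_dual_map_eq_bot_of_notMem (R := k) (M := A₂)
    (p := ⊥) (x := 1) (by simp) inferInstance
  have h1 : sliceL hP l (ι₁ x) ∈ P := by
    refine map_induction (ι₁ : A₁ →+* S) P (sliceL hP l).toAddMonoidHom P.toAddSubgroup ?_ _ hx
    intro a ha r
    change sliceL hP l (ι₁ a * r) ∈ P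
    rw [sliceL_mul]
    exact P.mul_mem_right _ ha
  have h2 : sliceL hP l (ι₁ x) = x * algebraMap k A₁ (l 1) := by
    have := sliceL_mul hP l x 1
    rw [mul_one] at this
    rw [this]
    congr 1
    have h3 : (eqv hP).symm 1 = (1 : A₁) ⊗ₜ[k] (1 : A₂) := by
      rw [map_one]
      rfl
    simp only [sliceL, LinearMap.comp_apply, AlgEquiv.toLinearMap_apply, h3,
      LinearEquiv.coe_coe, LinearMap.lTensor_tmul, TensorProduct.rid_tmul]
    rw [Algebra.smul_def, mul_one]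
  rw [h2] at h1
  have h4 : x = (x * algebraMap k A₁ (l 1)) * algebraMap k A₁ (l 1)⁻¹ := by
    rw [mul_assoc, ← map_mul, mul_inv_cancel₀ hl, map_one, mul_one]
  rw [h4]
  exact P.mul_mem_right _ h1

theorem comap_map_other (hP : IsProd J ι₁ ι₂) (P : Ideal A₁) (h : P ≠ ⊤) :
    (P.map ι₁).comap ι₂ = ⊥ := by
  rw [eq_bot_iff]
  intro b hb
  rw [Ideal.mem_comap] at hb
  obtain ⟨l, hl, hl0⟩ := Submodule.exists_dual_map_eq_bot_of_notMem (R := k) (M := A₁)
    (p := P.restrictScalars k) (x := 1)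
    (by
      intro h1
      exact h ((Ideal.eq_top_iff_one P).2 h1)) inferInstance
  have hlP : ∀ a ∈ P, l a = 0 := by
    intro a ha
    have : l a ∈ (P.restrictScalars k).map l := Submodule.mem_map_of_mem ha
    rwa [hl0] at this
  have h1 : sliceR hP l (ι₂ b) ∈ (⊥ : AddSubgroup A₂) := by
    refine map_induction (ι₁ : A₁ →+* S) P (sliceR hP l).toAddMonoidHom ⊥ ?_ _ hb
    intro a ha r
    obtain ⟨t, rfl⟩ := (eqv hP).surjective r
    change sliceR hP l (ι₁ a * eqv hP t) ∈ (⊥ : AddSubgroup A₂)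
    rw [AddSubgroup.mem_bot]
    induction t with
    | zero => simp
    | tmul x y =>
      rw [eqv_tmul, ← mul_assoc, ← map_mul, ← eqv_tmul hP, sliceR_tmul,
        hlP _ (P.mul_mem_right _ ha), zero_smul]
    | add x y hx hy => rw [map_add, mul_add, map_add, hx, hy, add_zero]
  have h2 : sliceR hP l (ι₂ b) = l 1 • b := by
    have := sliceR_tmul hP l 1 b
    rwa [eqv_tmul, map_one, one_mul] at this
  rw [AddSubgroup.mem_bot, h2] at h1
  exact (smul_eq_zero.1 h1).resolve_left hl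

theorem map_prime (hP : IsProd J ι₁ ι₂) (P : Ideal A₁) (h : P.IsPrime) :
    (P.map ι₁).IsPrime := by
  have : IsDomain (A₁ ⧸ P) := Ideal.Quotient.isDomain P
  have : IsDomain ((A₁ ⧸ P) ⊗[k] A₂) := tensor_isDomain (k := k) (A₁ ⧸ P) A₂
  have hker : RingHom.ker (Algebra.TensorProduct.map (Ideal.Quotient.mkₐ k P)
      (AlgHom.id k A₂)) = P.map (Algebra.TensorProduct.includeLeft : A₁ →ₐ[k] A₁ ⊗[k] A₂) := by
    rw [Algebra.TensorProduct.rTensor_ker _ (Ideal.Quotient.mkₐ_surjective k P)]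
    congr 1
    exact Ideal.Quotient.mkₐ_ker k P
  have hpr : (P.map (Algebra.TensorProduct.includeLeft : A₁ →ₐ[k] A₁ ⊗[k] A₂)).IsPrime := by
    rw [← hker]
    exact RingHom.ker_isPrime _
  have hmap : P.map ι₁ = (P.map (Algebra.TensorProduct.includeLeft :
      A₁ →ₐ[k] A₁ ⊗[k] A₂)).map (eqv hP) := by
    apply le_antisymm
    · rw [Ideal.map_le_iff_le_comap]
      intro a ha
      rw [Ideal.mem_comap]
      have h1 : ι₁ a = eqv hP ((Algebra.TensorProduct.includeLeft :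
          A₁ →ₐ[k] A₁ ⊗[k] A₂) a) := by
        rw [Algebra.TensorProduct.includeLeft_apply, eqv_tmul, map_one, mul_one]
      rw [h1]
      exact Ideal.mem_map_of_mem _ (Ideal.mem_map_of_mem _ ha)
    · rw [Ideal.map_le_iff_le_comap, Ideal.map_le_iff_le_comap]
      intro a ha
      rw [Ideal.mem_comap, Ideal.mem_comap, Algebra.TensorProduct.includeLeft_apply, eqv_tmul,
        map_one, mul_one]
      exact Ideal.mem_map_of_mem _ ha
  rw [hmap]
  exact Ideal.map_isPrime_of_equiv (eqv hP)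

theorem map_height (hP : IsProd J ι₁ ι₂) (h₁ : IsGood A₁) (h₂ : IsGood A₂) (P : Ideal A₁)
    (h : IsHeightOne P) : IsHeightOne (P.map ι₁) := by
  obtain ⟨hp, hbot, hmin⟩ := h
  obtain ⟨a, haP, ha⟩ := Submodule.exists_mem_ne_zero_of_ne_bot hbot
  have hN : IsNoetherianRing S := prod_noetherian hP h₁ h₂
  have hpr : (P.map ι₁).IsPrime := map_prime hP P hp
  have ha' : ι₁ a ≠ 0 := by
    intro h0
    apply ha
    have h1 := congrArg (Subtype.val) h0
    rw [hP.coe₁] at h1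
    have h2 : J.φ (a : K₁) = 0 := h1
    have h3 : (a : K₁) = 0 := by rwa [map_eq_zero] at h2
    exact Subtype.ext h3
  refine heightOne_of_minimal S hN (ι₁ a) ha' (P.map ι₁) ⟨⟨hpr, ?_⟩, ?_⟩
  · rw [Ideal.span_singleton_le_iff_mem]
    exact Ideal.mem_map_of_mem _ haP
  · rintro q ⟨hq, haq⟩ hle
    have haq' : ι₁ a ∈ q := haq (Ideal.mem_span_singleton_self _)
    have h1 : q.comap ι₁ = P := by
      refine hmin _ (Ideal.IsPrime.comap ι₁) ?_ ?_
      · intro h0
        apply ha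
        rw [← Ideal.mem_bot, ← h0, Ideal.mem_comap]
        exact haq'
      · calc q.comap ι₁ ≤ (P.map ι₁).comap ι₁ := Ideal.comap_mono hle
          _ = P := comap_map hP P
    rw [Ideal.map_le_iff_le_comap, h1]

namespace Pri

theorem tri_left (hP : IsProd J ι₁ ι₂) (h₁ : IsGood A₁) (Q : Ideal S)
    (h : IsHeightOne Q) (h0 : Q.comap ι₁ ≠ ⊥) : ∃ P : Ideal A₁, IsHeightOne P ∧ Q = P.map ι₁ := by
  obtain ⟨a, haQ, ha⟩ := Submodule.exists_mem_ne_zero_of_ne_bot h0
  have hQ := h.1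
  have hp : (Q.comap ι₁).IsPrime := Ideal.IsPrime.comap ι₁
  obtain ⟨P, hPmin, hPle⟩ := Ideal.exists_minimalPrimes_le (I := Ideal.span {a})
    (J := Q.comap ι₁) (by rwa [Ideal.span_singleton_le_iff_mem])
  have hP1 : IsHeightOne P := heightOne_of_minimal A₁ (good_noetherian h₁) a ha P hPmin
  refine ⟨P, hP1, ?_⟩
  have hne : P.map ι₁ ≠ ⊥ := by
    intro hb
    have := comap_map hP P
    rw [hb] at this
    obtain ⟨b, hbP, hb0⟩ := Submodule.exists_mem_ne_zero_of_ne_bot hP1.2.1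
    apply hb0
    have h1 : ι₁ b = 0 := by
      have h2 : ι₁ b ∈ P.map ι₁ := Ideal.mem_map_of_mem _ hbP
      rwa [hb] at h2
    have h2 := congrArg (Subtype.val) h1
    rw [hP.coe₁] at h2
    have h3 : J.φ (b : K₁) = 0 := h2
    have h4 : (b : K₁) = 0 := by rwa [map_eq_zero] at h3
    exact Subtype.ext h4
  exact (h.2.2 _ (map_prime hP P hP1.1) hne (Ideal.map_le_iff_le_comap.2 hPle)).symm

end Pri

theorem trichotomy (hP : IsProd J ι₁ ι₂) (h₁ : IsGood A₁) (h₂ : IsGood A₂) (Q : Ideal S)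
    (h : IsHeightOne Q) : (∃ P : Ideal A₁, IsHeightOne P ∧ Q = P.map ι₁) ∨
      (∃ P : Ideal A₂, IsHeightOne P ∧ Q = P.map ι₂) ∨
      (Q.comap ι₁ = ⊥ ∧ Q.comap ι₂ = ⊥) := by
  by_cases h0 : Q.comap ι₁ = ⊥
  · by_cases h0' : Q.comap ι₂ = ⊥
    · exact Or.inr (Or.inr ⟨h0, h0'⟩)
    · exact Or.inr (Or.inl (tri_left hP.swap h₂ Q h h0'))
  · exact Or.inl (tri_left hP h₁ Q h h0)

end PRI

end Pool.Agent.MLD.Ten
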