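import Pool.Agent.Lib.MP_f23696_ag.T.Val
import Pool.Agent.Lib.MP_f23696_ag.T.Der
import Pool.Agent.Lib.MP_f23696_ag.T.JDer
import Pool.Agent.Lib.MP_f23696_ag.T.Pri
import Pool.Agent.Lib.MP_f23696_ag.Dvr

/-!
Valuations of the prime divisors of the product `A₁ ⊗ A₂` (module HVL of the project TEN).
-/

set_option autoImplicit false

open scoped TensorProduct

namespace Pool.Agent.MLD.Ten

open Pool.Agent.MLD.Jac

universe u v w

namespace Hv

section one
variable {k : Type u} [Field k] {K L : Type v} [Field K] [Field L] [Algebra k K] [Algebra k L]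

/-- elements of the valuation ring of a prime divisor are quotients -/
theorem quot {S : Subalgebra k L} (hS : IsGood S) {Q : Ideal S} (hQ : IsHeightOne Q)
    (v : DVal k L) (hv : v.HasCenter S Q) (f : L) (hf : f ≠ 0) (h : 0 ≤ v.ord f) :
    ∃ s : S, s ∉ Q ∧ (s : L) * f ∈ S := by
  have hN := Pri.good_noetherian hS
  obtain ⟨v', hv', hq⟩ := dvr S hN hS.frac hS.norm Q hQ
  rw [dvr_unique S hN hS.frac hS.norm Q hQ v v' hv hv' f hf] at h
  exact (hq f hf).1 h

theorem ord_unit {S : Subalgebra k L} {Q : Ideal S} (v : DVal k L) (hv : v.HasCenter S Q)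
    (s : S) (hs : s ∉ Q) : (s : L) ≠ 0 ∧ v.ord (s : L) = 0 :=
  ord_eq_zero_of v (hv.1 s) fun h => hs ((hv.2 s).2 h)

/-- a derivation preserving `S` up to integral elements preserves the valuation ring -/
theorem pres {S : Subalgebra k L} (hS : IsGood S) {Q : Ideal S} (hQ : IsHeightOne Q)
    (v : DVal k L) (hv : v.HasCenter S Q) (δ : Derivation k L L)
    (h : ∀ s : S, v.Integral (δ (s : L))) (f : L) (hf : v.Integral f) : v.Integral (δ f) := by
  rcases eq_or_ne f 0 with rfl | hf0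
  · rw [map_zero]
    exact LB.zero v 0
  · obtain ⟨s, hs, hsf⟩ := quot hS hQ v hv f hf0 (hf hf0)
    obtain ⟨hs0, hs1⟩ := ord_unit v hv s hs
    have h1 : v.Integral (δ ((s : L) * f)) := h ⟨_, hsf⟩
    rw [Derivation.leibniz, smul_eq_mul, smul_eq_mul] at h1
    have h2 : LB v 0 (f * δ (s : L)) := by
      have := LB.mul (v := v) (M := 0) (N := 0) hf (h s)
      rwa [add_zero] at this
    have h3 : LB v 0 ((s : L) * δ f) := by
      have := LB_sub v h1 h2
      rwa [add_sub_cancel_right] at this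
    intro h0
    have h4 := h3 (mul_ne_zero hs0 h0)
    rw [v.ord_mul _ _ hs0 h0, hs1, zero_add] at h4
    exact h4

/-- orders of the elements of the fraction field of a subalgebra of units -/
theorem triv (ψ : K →ₐ[k] L) {A : Subalgebra k K} (hA : IsGood A) (v : DVal k L)
    (h : ∀ b : A, b ≠ 0 → v.ord (ψ b) = 0) (b : K) (hb : b ≠ 0) : v.ord (ψ b) = 0 := by
  obtain ⟨p, q, hq, rfl⟩ := hA.frac b
  have hp : (p : K) ≠ 0 := by
    intro h0
    apply hb
    rw [h0, zero_div]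
  have hp' : p ≠ 0 := fun h0 => hp (by rw [h0]; rfl)
  have hq' : q ≠ 0 := fun h0 => hq (by rw [h0]; rfl)
  have e1 : ψ (p : K) ≠ 0 := (map_ne_zero ψ).2 hp
  have e2 : ψ (q : K) ≠ 0 := (map_ne_zero ψ).2 hq
  rw [map_div₀, ord_div v _ _ e1 e2, h p hp', h q hq', sub_zero]

/-- integral elements with nonzero Jacobian -/
theorem exists_jac (v : DVal k K) {n : ℕ} (D : Fin n → Derivation k K K) (y : Fin n → K)
    (hD : ∀ i l, D i (y l) = if i = l then 1 else 0) :
    ∃ a : Fin n → K, (∀ i, v.Integral (a i)) ∧ jac D a ≠ 0 := by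
  classical
  have hy : ∀ i, y i ≠ 0 := by
    intro i h0
    have := hD i i
    rw [h0, map_zero, if_pos rfl] at this
    exact zero_ne_one this
  refine ⟨fun i => if v.Integral (y i) then y i else (y i)⁻¹, fun i => ?_, ?_⟩
  · by_cases hi : v.Integral (y i)
    · simp only [hi, if_true]
    · simp only [hi, if_false]
      intro _
      have : v.ord (y i) < 0 := by
        by_contra hc
        exact hi fun _ => not_lt.1 hc
      rw [ord_inv v _ (hy i)]
      omega
  · have hM : (Matrix.of fun i l => D i (if v.Integral (y l) then y l else (y l)⁻¹)) =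
        Matrix.diagonal fun l => D l (if v.Integral (y l) then y l else (y l)⁻¹) := by
      ext i l
      rw [Matrix.of_apply, Matrix.diagonal_apply]
      by_cases hil : i = l
      · rw [if_pos hil, hil]
      · rw [if_neg hil]
        by_cases hi : v.Integral (y l)
        · simp only [hi, if_true]
          rw [hD, if_neg hil]
        · simp only [hi, if_false]
          rw [Derivation.leibniz_inv, hD, if_neg hil, smul_zero]
    unfold jac
    rw [hM, Matrix.det_diagonal]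
    refine Finset.prod_ne_zero_iff.2 fun l _ => ?_
    by_cases hi : v.Integral (y l)
    · simp only [hi, if_true]
      rw [hD, if_pos rfl]
      exact one_ne_zero
    · simp only [hi, if_false]
      rw [Derivation.leibniz_inv, hD, if_pos rfl, smul_eq_mul, mul_one, neg_ne_zero]
      exact pow_ne_zero _ (inv_ne_zero (hy l))

end one

section two
variable {k : Type u} {K₁ K₂ L : Type v} [Field k] [IsAlgClosed k] [CharZero k] [Field K₁]
    [Field K₂] [Field L] [Algebra k K₁] [Algebra k K₂] [Algebra k L] {J : Join k K₁ K₂ L}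
    {A₁ : Subalgebra k K₁} {A₂ : Subalgebra k K₂} {S : Subalgebra k L}
    {ι₁ : A₁ →ₐ[k] S} {ι₂ : A₂ →ₐ[k] S}

omit [IsAlgClosed k] [CharZero k] in
/-- integrality of a derivation on the product algebra -/
theorem onS (hP : IsProd J ι₁ ι₂) (v : DVal k L) (δ : Derivation k L L)
    (hS : ∀ s : S, v.Integral (s : L))
    (h₁ : ∀ a : A₁, v.Integral (δ (J.φ a))) (h₂ : ∀ b : A₂, v.Integral (δ (J.ψ b))) (s : S) :
    v.Integral (δ (s : L)) := by
  let T : Subalgebra k L :=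
    { carrier := {x | v.Integral x ∧ v.Integral (δ x)}
      mul_mem' := by
        rintro a b ⟨ha, ha'⟩ ⟨hb, hb'⟩
        refine ⟨(ring v).mul_mem ha hb, ?_⟩
        rw [Derivation.leibniz, smul_eq_mul, smul_eq_mul]
        exact (ring v).add_mem ((ring v).mul_mem ha hb') ((ring v).mul_mem hb ha')
      add_mem' := by
        rintro a b ⟨ha, ha'⟩ ⟨hb, hb'⟩
        refine ⟨(ring v).add_mem ha hb, ?_⟩
        rw [map_add]
        exact (ring v).add_mem ha' hb'
      algebraMap_mem' := by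
        intro c
        refine ⟨(ring v).algebraMap_mem c, ?_⟩
        rw [Derivation.map_algebraMap]
        exact (ring v).zero_mem }
  have hle : S ≤ T := by
    rw [hP.eq_sup]
    refine sup_le ?_ ?_
    · rintro _ ⟨a, ha, rfl⟩
      refine ⟨?_, h₁ ⟨a, ha⟩⟩
      have := hS (ι₁ ⟨a, ha⟩)
      rw [hP.coe₁] at this
      exact this
    · rintro _ ⟨b, hb, rfl⟩
      refine ⟨?_, h₂ ⟨b, hb⟩⟩
      have := hS (ι₂ ⟨b, hb⟩)
      rw [hP.coe₂] at this
      exact this
  exact (hle s.2).2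

/-- the restriction to the first factor of the valuation of a divisor from the first factor -/
theorem left_val (hP : IsProd J ι₁ ι₂) (h₁ : IsGood A₁) (h₂ : IsGood A₂) (hS : IsGood S)
    (P : Ideal A₁) (hht : IsHeightOne P) (v : DVal k L) (hv : v.HasCenter S (P.map ι₁)) :
    ∃ v₁ : DVal k K₁, v₁.HasCenter A₁ P ∧
      (∀ a, a ≠ 0 → v.ord (J.φ a) = v₁.ord a) ∧ (∀ b, b ≠ 0 → v.ord (J.ψ b) = 0) := by
  have hQ : IsHeightOne (P.map ι₁) := map_height hP h₁ h₂ P hht
  obtain ⟨vP, hvP, hquot⟩ := dvr A₁ (Pri.good_noetherian h₁) h₁.frac h₁.norm P hht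
  -- units
  have hu : ∀ s : A₁, s ∉ P → v.ord (J.φ s) = 0 := by
    intro s hs
    have hs' : ι₁ s ∉ P.map ι₁ := by
      intro hmem
      apply hs
      rw [← comap_map hP P]
      exact hmem
    have := (ord_unit v hv _ hs').2
    rwa [hP.coe₁] at this
  have hint : ∀ a : A₁, v.Integral (J.φ a) := by
    intro a
    have := hv.1 (ι₁ a)
    rwa [hP.coe₁] at this
  have hne : ∀ {a : K₁}, a ≠ 0 → J.φ a ≠ 0 := fun ha => (map_ne_zero J.φ).2 ha
  have hpos : ∀ a : K₁, a ≠ 0 → 0 ≤ vP.ord a → 0 ≤ v.ord (J.φ a) := by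
    intro a ha h0
    obtain ⟨s, hs, hsa⟩ := (hquot a ha).1 h0
    have hs0 := (ord_unit vP hvP s hs).1
    have h3 := hint ⟨_, hsa⟩
    have h4 := h3 (hne (mul_ne_zero hs0 ha))
    rw [map_mul, v.ord_mul _ _ (hne hs0) (hne ha), hu s hs, zero_add] at h4
    exact h4
  have hzero : ∀ a : K₁, a ≠ 0 → vP.ord a = 0 → v.ord (J.φ a) = 0 := by
    intro a ha h0
    have e1 := hpos a ha h0.ge
    have e2 := hpos a⁻¹ (inv_ne_zero ha) (by rw [ord_inv vP a ha, h0, neg_zero])
    rw [map_inv₀, ord_inv v _ (hne ha)] at e2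
    omega
  obtain ⟨t, ht0, ht1⟩ := vP.exists_ord_eq_one
  have hmul : ∀ a : K₁, a ≠ 0 → v.ord (J.φ a) = vP.ord a * v.ord (J.φ t) := by
    intro a ha
    have hz : a * t ^ (-vP.ord a) ≠ 0 := mul_ne_zero ha (zpow_ne_zero _ ht0)
    have e1 := hzero _ hz (by
      rw [vP.ord_mul _ _ ha (zpow_ne_zero _ ht0), ord_zpow vP t ht0, ht1]
      ring)
    rw [map_mul, v.ord_mul _ _ (hne ha) (hne (zpow_ne_zero _ ht0)), map_zpow₀,
      ord_zpow v _ (hne ht0)] at e1
    linarith
  -- positivity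
  have htpos : 0 < v.ord (J.φ t) := by
    obtain ⟨p, hp, hp0⟩ := Submodule.exists_mem_ne_zero_of_ne_bot hht.2.1
    have hp0' : (p : K₁) ≠ 0 := fun h => hp0 (Subtype.ext h)
    have e1 : 0 < vP.ord (p : K₁) := (hvP.2 p).1 hp hp0'
    have e2 : v.Small (J.φ p) := by
      have := (hv.2 (ι₁ p)).1 (Ideal.mem_map_of_mem ι₁ hp)
      rwa [hP.coe₁] at this
    have e3 := e2 (hne hp0')
    rw [hmul _ hp0'] at e3
    by_contra hc
    push Not at hc
    have := mul_nonpos_of_nonneg_of_nonpos e1.le hc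
    omega
  have htle : v.ord (J.φ t) ≤ 1 := by
    obtain ⟨s, hs0, hs1⟩ := v.exists_ord_eq_one
    obtain ⟨s₂, hs₂, hs⟩ := quot hS hQ v hv s hs0 (by omega)
    obtain ⟨h0, h1⟩ := ord_unit v hv s₂ hs₂
    have hord : v.ord ((s₂ : L) * s) = 1 := by
      rw [v.ord_mul _ _ h0 hs0, h1, hs1]
      norm_num
    have hmem : (⟨_, hs⟩ : S) ∈ P.map ι₁ := by
      rw [hv.2]
      intro _
      show 0 < v.ord ((s₂ : L) * s)
      rw [hord]
      norm_num
    have key : ∀ x ∈ P.map ι₁, LB v (v.ord (J.φ t)) (x : L) := by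
      intro x hx
      refine Submodule.span_induction (p := fun (x : S) _ => LB v (v.ord (J.φ t)) (x : L))
        ?_ ?_ ?_ ?_ hx
      · rintro _ ⟨p, hp, rfl⟩
        show LB v _ ((ι₁ p : S) : L)
        rw [hP.coe₁]
        intro hp1
        have hp0' : (p : K₁) ≠ 0 := fun h => hp1 (by rw [h, map_zero])
        have e1 : 0 < vP.ord (p : K₁) := (hvP.2 p).1 hp hp0'
        rw [hmul _ hp0']
        nlinarith
      · exact LB.zero v _
      · intro x y _ _ hx hy
        exact LB.add hx hy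
      · intro c x _ hx
        have := LB.mul (v := v) (M := 0) (integral_iff v |>.1 (hv.1 c)) hx
        rwa [zero_add] at this
    have := key _ hmem (mul_ne_zero h0 hs0)
    show v.ord (J.φ t) ≤ 1
    rw [← hord]
    exact this
  have ht : v.ord (J.φ t) = 1 := le_antisymm htle htpos
  refine ⟨vP, hvP, fun a ha => by rw [hmul a ha, ht, mul_one], ?_⟩
  refine triv J.ψ h₂ v fun b hb => ?_
  have hb' : ι₂ b ∉ P.map ι₁ := by
    intro hmem
    have : b ∈ (P.map ι₁).comap ι₂ := hmem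
    rw [comap_map_other hP P hht.1.ne_top] at this
    exact hb this
  have := (ord_unit v hv _ hb').2
  rwa [hP.coe₂] at this

end two

end Hv

/-! ### HVL (T/Hv.lean) -/
section HVL
variable {k : Type u} {K₁ K₂ L : Type v} [Field k] [IsAlgClosed k] [CharZero k] [Field K₁]
    [Field K₂] [Field L] [Algebra k K₁] [Algebra k K₂] [Algebra k L] {J : Join k K₁ K₂ L}
    {A₁ : Subalgebra k K₁} {A₂ : Subalgebra k K₂} {S : Subalgebra k L}
    {ι₁ : A₁ →ₐ[k] S} {ι₂ : A₂ →ₐ[k] S}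

theorem hv_left (hP : IsProd J ι₁ ι₂) (h₁ : IsGood A₁) (h₂ : IsGood A₂) (hS : IsGood S)
    {n₁ n₂ : ℕ} {D₁ : Fin n₁ → Derivation k K₁ K₁} {D₂ : Fin n₂ → Derivation k K₂ K₂}
    {D : Fin (n₁ + n₂) → Derivation k L L} (hD : IsJoint J D₁ D₂ D)
    (y₁ : Fin n₁ → K₁) (hD₁ : ∀ i l, D₁ i (y₁ l) = if i = l then 1 else 0)
    (y₂ : Fin n₂ → K₂) (hD₂ : ∀ i l, D₂ i (y₂ l) = if i = l then 1 else 0)
    (P : Ideal A₁) (hht : IsHeightOne P) (v : DVal k L) (hv : v.HasCenter S (P.map ι₁))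
    (j : ℤ) (hj : v.FormOrd D j) : ∃ v₁ : DVal k K₁, v₁.HasCenter A₁ P ∧
      (∀ a, a ≠ 0 → v.ord (J.φ a) = v₁.ord a) ∧ (∀ b, b ≠ 0 → v.ord (J.ψ b) = 0) ∧
      v₁.FormOrd D₁ j := by
  obtain ⟨v₁, hv₁, hφ, hψ⟩ := Hv.left_val hP h₁ h₂ hS P hht v hv
  refine ⟨v₁, hv₁, hφ, hψ, ?_⟩
  have hne₁ : ∀ {a : K₁}, a ≠ 0 → J.φ a ≠ 0 := fun ha => (map_ne_zero J.φ).2 ha
  have hne₂ : ∀ {a : K₂}, a ≠ 0 → J.ψ a ≠ 0 := fun ha => (map_ne_zero J.ψ).2 ha
  have hiφ : ∀ a : K₁, v₁.Integral a → v.Integral (J.φ a) := by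
    intro a ha h0
    have ha0 : a ≠ 0 := fun h => h0 (by rw [h, map_zero])
    rw [hφ a ha0]
    exact ha ha0
  have hiψ : ∀ b : K₂, v.Integral (J.ψ b) := by
    intro b h0
    have hb0 : b ≠ 0 := fun h => h0 (by rw [h, map_zero])
    rw [hψ b hb0]
  have hlow : ∀ a : Fin n₁ → K₁, (∀ i, v₁.Integral (a i)) → jac D₁ a ≠ 0 →
      -j ≤ v₁.ord (jac D₁ a) := by
    intro a ha h0
    have e1 := jac_joint J hD a y₂
    rw [jac_dual D₂ y₂ hD₂, map_one, mul_one] at e1
    have e2 := hj.1 (Fin.append (fun i => J.φ (a i)) (fun i => J.ψ (y₂ i))) (by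
      intro i
      refine Fin.addCases (fun i => ?_) (fun i => ?_) i
      · rw [Fin.append_left]
        exact hiφ _ (ha i)
      · rw [Fin.append_right]
        exact hiψ _) (by rw [e1]; exact hne₁ h0)
    rw [e1, hφ _ h0] at e2
    exact e2
  obtain ⟨j₁, hj₁, hle⟩ := formOrd_ex v₁ D₁ (-j) hlow (Hv.exists_jac v₁ D₁ y₁ hD₁)
  rw [neg_neg] at hle
  have hge : j ≤ j₁ := by
    obtain ⟨a₁, E₁, ha₁, hjne, hjord, _, hexp, _, hpres⟩ := formOrd_dual v₁ D₁ j₁ hj₁
    obtain ⟨G, hG⟩ := joint_exists J E₁ D₂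
    have hchg := joint_change J hD hG (Matrix.of fun i l => D₁ i (a₁ l)) 1 hexp (by
      intro i c
      rw [Finset.sum_eq_single i]
      · rw [Matrix.one_apply_eq, one_mul]
      · intro l _ hl
        rw [Matrix.one_apply_ne (Ne.symm hl), zero_mul]
      · intro h
        exact absurd (Finset.mem_univ i) h)
    have hQ : IsHeightOne (P.map ι₁) := map_height hP h₁ h₂ P hht
    have hGp : ∀ i f, v.Integral f → v.Integral (G i f) := by
      intro i
      refine Hv.pres hS hQ v hv (G i) (Hv.onS hP v (G i) hv.1 ?_ ?_)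
      · intro a
        refine Fin.addCases (fun i => ?_) (fun i => ?_) i
        · rw [hG.1]
          exact hiφ _ (hpres i _ (hv₁.1 a))
        · rw [hG.2.2.1]
          exact LB.zero v 0
      · intro b
        refine Fin.addCases (fun i => ?_) (fun i => ?_) i
        · rw [hG.2.1]
          exact LB.zero v 0
        · rw [hG.2.2.2]
          exact hiψ _
    obtain ⟨a, ha, ha0, haj⟩ := hj.2
    have e1 := hchg a
    rw [Matrix.det_one, map_one, mul_one] at e1
    have hdet : (Matrix.of fun i l => D₁ i (a₁ l)).det = jac D₁ a₁ := rfl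
    rw [hdet] at e1
    have e2 : jac G a ≠ 0 := by
      intro h0
      rw [h0, mul_zero] at e1
      exact ha0 e1
    rw [e1, v.ord_mul _ _ (hne₁ hjne) e2, hφ _ hjne, hjord] at haj
    have e3 : 0 ≤ v.ord (jac G a) :=
      det_integral v (Matrix.of fun i l => G i (a l)) (fun i l => hGp i _ (ha l)) e2
    omega
  rwa [le_antisymm hge hle]

theorem hv_right (hP : IsProd J ι₁ ι₂) (h₁ : IsGood A₁) (h₂ : IsGood A₂) (hS : IsGood S)
    {n₁ n₂ : ℕ} {D₁ : Fin n₁ → Derivation k K₁ K₁} {D₂ : Fin n₂ → Derivation k K₂ K₂}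
    {D : Fin (n₁ + n₂) → Derivation k L L} (hD : IsJoint J D₁ D₂ D)
    (y₁ : Fin n₁ → K₁) (hD₁ : ∀ i l, D₁ i (y₁ l) = if i = l then 1 else 0)
    (y₂ : Fin n₂ → K₂) (hD₂ : ∀ i l, D₂ i (y₂ l) = if i = l then 1 else 0)
    (P : Ideal A₂) (hht : IsHeightOne P) (v : DVal k L) (hv : v.HasCenter S (P.map ι₂))
    (j : ℤ) (hj : v.FormOrd D j) : ∃ v₂ : DVal k K₂, v₂.HasCenter A₂ P ∧
      (∀ b, b ≠ 0 → v.ord (J.ψ b) = v₂.ord b) ∧ (∀ a, a ≠ 0 → v.ord (J.φ a) = 0) ∧
      v₂.FormOrd D₂ j := by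
  obtain ⟨D', hD', hiff⟩ := joint_swap J hD
  exact hv_left hP.swap h₂ h₁ hS hD' y₂ hD₂ y₁ hD₁ P hht v hv j ((hiff v j).1 hj)

theorem hv_mixed (hP : IsProd J ι₁ ι₂) (h₁ : IsGood A₁) (h₂ : IsGood A₂) (hS : IsGood S)
    {n₁ n₂ : ℕ} {D₁ : Fin n₁ → Derivation k K₁ K₁} {D₂ : Fin n₂ → Derivation k K₂ K₂}
    {D : Fin (n₁ + n₂) → Derivation k L L} (hD : IsJoint J D₁ D₂ D)
    (y₁ : Fin n₁ → K₁) (hD₁ : ∀ i l, D₁ i (y₁ l) = if i = l then 1 else 0)
    (y₂ : Fin n₂ → K₂) (hD₂ : ∀ i l, D₂ i (y₂ l) = if i = l then 1 else 0)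
    (Q : Ideal S) (hht : IsHeightOne Q) (hQ₁ : Q.comap ι₁ = ⊥) (hQ₂ : Q.comap ι₂ = ⊥)
    (v : DVal k L) (hv : v.HasCenter S Q) (j : ℤ) (hj : v.FormOrd D j) :
    j = 0 ∧ (∀ a, a ≠ 0 → v.ord (J.φ a) = 0) ∧ (∀ b, b ≠ 0 → v.ord (J.ψ b) = 0) := by
  have hφ : ∀ a, a ≠ 0 → v.ord (J.φ a) = 0 := by
    refine Hv.triv J.φ h₁ v fun a ha => ?_
    have hmem : ι₁ a ∉ Q := by
      intro hm
      have : a ∈ Q.comap ι₁ := hm
      rw [hQ₁] at this
      exact ha this
    have := (Hv.ord_unit v hv _ hmem).2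
    rwa [hP.coe₁] at this
  have hψ : ∀ b, b ≠ 0 → v.ord (J.ψ b) = 0 := by
    refine Hv.triv J.ψ h₂ v fun a ha => ?_
    have hmem : ι₂ a ∉ Q := by
      intro hm
      have : a ∈ Q.comap ι₂ := hm
      rw [hQ₂] at this
      exact ha this
    have := (Hv.ord_unit v hv _ hmem).2
    rwa [hP.coe₂] at this
  have hiφ : ∀ b : K₁, v.Integral (J.φ b) := by
    intro b h0
    have hb0 : b ≠ 0 := fun h => h0 (by rw [h, map_zero])
    rw [hφ b hb0]
  have hiψ : ∀ b : K₂, v.Integral (J.ψ b) := by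
    intro b h0
    have hb0 : b ≠ 0 := fun h => h0 (by rw [h, map_zero])
    rw [hψ b hb0]
  refine ⟨le_antisymm ?_ ?_, hφ, hψ⟩
  · have hDp : ∀ i f, v.Integral f → v.Integral (D i f) := by
      intro i
      refine Hv.pres hS hht v hv (D i) (Hv.onS hP v (D i) hv.1 ?_ ?_)
      · intro a
        refine Fin.addCases (fun i => ?_) (fun i => ?_) i
        · rw [hD.1]
          exact hiφ _
        · rw [hD.2.2.1]
          exact LB.zero v 0
      · intro b
        refine Fin.addCases (fun i => ?_) (fun i => ?_) i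
        · rw [hD.2.1]
          exact LB.zero v 0
        · rw [hD.2.2.2]
          exact hiψ _
    obtain ⟨a, ha, ha0, haj⟩ := hj.2
    have e3 : 0 ≤ v.ord (jac D a) :=
      det_integral v (Matrix.of fun i l => D i (a l)) (fun i l => hDp i _ (ha l)) ha0
    omega
  · have e1 := jac_joint J hD y₁ y₂
    rw [jac_dual D₁ y₁ hD₁, jac_dual D₂ y₂ hD₂, map_one, map_one, mul_one] at e1
    have e2 := hj.1 (Fin.append (fun i => J.φ (y₁ i)) (fun i => J.ψ (y₂ i))) (by
      intro i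
      refine Fin.addCases (fun i => ?_) (fun i => ?_) i
      · rw [Fin.append_left]
        exact hiφ _
      · rw [Fin.append_right]
        exact hiψ _) (by rw [e1]; exact one_ne_zero)
    rw [e1, ord_one] at e2
    omega

end HVL

end Pool.Agent.MLD.Ten
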