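import Pool.Agent.Lib.MP_f23696_ag.T.Val
import Pool.Agent.Lib.MP_f23696_ag.T.Der
import Pool.Agent.Lib.MP_f23696_ag.Jind

/-!
# Adapted bases of divisorial valuations (module LOGB of project TEN)
-/

set_option autoImplicit false

open scoped TensorProduct

namespace Pool.Agent.MLD.Ten

open Pool.Agent.MLD.Jac

universe u v w

section LOGB
variable {k : Type u} {K : Type v} [Field k] [CharZero k] [Field K] [Algebra k K]

namespace LogB

omit [CharZero k] in
theorem aeval_integral (v : DVal k K) {n : ℕ} (a : Fin n → K) (ha : ∀ i, v.Integral (a i))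
    (F : MvPolynomial (Fin n) k) : v.Integral (MvPolynomial.aeval a F) := by
  have h2 : ((MvPolynomial.aeval (fun i => (⟨a i, ha i⟩ : ring v)) F : ring v) : K) =
      MvPolynomial.aeval a F := by
    have := MvPolynomial.comp_aeval (R := k) (fun i => (⟨a i, ha i⟩ : ring v)) (ring v).val
    exact congrArg (fun f => f F) this
  rw [← h2]
  exact (mem_ring v).1 (Subtype.property _)

omit [CharZero k] in
theorem aeval_cons {m : ℕ} (t : K) (u : Fin m → K) (F : MvPolynomial (Fin (m + 1)) k) :
    MvPolynomial.aeval (Fin.cons t u : Fin (m + 1) → K) F =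
      (MvPolynomial.finSuccEquiv k m F).eval₂
        (MvPolynomial.aeval u : MvPolynomial (Fin m) k →ₐ[k] K).toRingHom t := by
  have h : (MvPolynomial.aeval (Fin.cons t u : Fin (m + 1) → K) :
      MvPolynomial (Fin (m + 1)) k →ₐ[k] K) =
      (Polynomial.eval₂AlgHom (MvPolynomial.aeval u) t (fun _ => Commute.all _ _)).comp
        (MvPolynomial.finSuccEquiv k m).toAlgHom := by
    apply MvPolynomial.algHom_ext
    intro i
    refine Fin.cases ?_ (fun j => ?_) i
    · simp [MvPolynomial.finSuccEquiv_X_zero]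
    · simp [MvPolynomial.finSuccEquiv_X_succ]
  exact congrArg (fun f => f F) h

omit [CharZero k] in
theorem finSuccEquiv_pderiv {m : ℕ} (F : MvPolynomial (Fin (m + 1)) k) :
    MvPolynomial.finSuccEquiv k m (MvPolynomial.pderiv 0 F) =
      Polynomial.derivative (MvPolynomial.finSuccEquiv k m F) := by
  induction F using MvPolynomial.induction_on with
  | C c => simp [MvPolynomial.finSuccEquiv_apply]
  | add p q hp hq => simp only [map_add, hp, hq]
  | mul_X p i hp =>
    rw [MvPolynomial.pderiv_mul, map_add, map_mul, map_mul, map_mul, hp, Polynomial.derivative_mul]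
    congr 2
    refine Fin.cases ?_ (fun j => ?_) i
    · rw [MvPolynomial.pderiv_X_self, MvPolynomial.finSuccEquiv_X_zero]
      simp
    · rw [MvPolynomial.pderiv_X_of_ne (by exact Fin.succ_ne_zero j), MvPolynomial.finSuccEquiv_X_succ]
      simp

end LogB

/-- a uniformizer and elements with independent residues are independent -/
theorem indep_cons (v : DVal k K) {m : ℕ} (t : K) (ht : t ≠ 0) (ht1 : 0 < v.ord t) (u : Fin m → K)
    (hu : ∀ i, v.Integral (u i))
    (hF : ∀ F : MvPolynomial (Fin m) k, F ≠ 0 → ¬ v.Small (MvPolynomial.aeval u F)) :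
    AlgebraicIndependent k (Fin.cons t u : Fin (m + 1) → K) := by
  classical
  rw [algebraicIndependent_iff]
  intro F h0
  by_contra hne
  set q := MvPolynomial.finSuccEquiv k m F with hq
  have hq0 : q ≠ 0 := by
    intro h
    exact hne ((map_eq_zero_iff _ (MvPolynomial.finSuccEquiv k m).injective).1 (hq ▸ h))
  rw [LogB.aeval_cons, ← hq, Polynomial.eval₂_eq_sum_range] at h0
  set i0 := q.natTrailingDegree with hi0
  have hc0 : q.coeff i0 ≠ 0 := Polynomial.trailingCoeff_nonzero_iff_nonzero.2 hq0
  have hmem : i0 ∈ Finset.range (q.natDegree + 1) :=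
    Finset.mem_range.2 (Nat.lt_succ_of_le (Polynomial.natTrailingDegree_le_natDegree q))
  set f : ℕ → K := fun i => (MvPolynomial.aeval u (q.coeff i) : K) * t ^ i with hf
  have h1 : f i0 + ∑ i ∈ (Finset.range (q.natDegree + 1)).erase i0, f i = 0 := by
    rw [Finset.add_sum_erase _ _ hmem]
    exact h0
  have hci := ord_eq_zero_of v (LogB.aeval_integral v u hu (q.coeff i0)) (hF _ hc0)
  have hfi : f i0 ≠ 0 := mul_ne_zero hci.1 (pow_ne_zero _ ht)
  have hfo : v.ord (f i0) = i0 * v.ord t := by
    rw [hf]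
    simp only
    rw [v.ord_mul _ _ hci.1 (pow_ne_zero _ ht), hci.2, ord_pow v t ht, zero_add]
  have hrest : LB v (v.ord (f i0) + 1)
      (∑ i ∈ (Finset.range (q.natDegree + 1)).erase i0, f i) := by
    refine LB.sum _ _ fun i hi => ?_
    have hne' : i ≠ i0 := (Finset.mem_erase.1 hi).1
    rcases lt_or_gt_of_ne hne' with hlt | hgt
    · have : q.coeff i = 0 := Polynomial.coeff_eq_zero_of_lt_natTrailingDegree hlt
      rw [hf]
      simp only
      rw [this, map_zero, zero_mul]
      exact LB.zero v _
    · have h2 : LB v 0 (MvPolynomial.aeval u (q.coeff i) : K) :=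
        LogB.aeval_integral v u hu (q.coeff i)
      have h3 : LB v (i * v.ord t) (t ^ i) := fun _ => by rw [ord_pow v t ht]
      have h4 := h2.mul h3
      refine h4.mono ?_
      rw [hfo, zero_add]
      have h5 : (i0 : ℤ) + 1 ≤ i := by exact_mod_cast hgt
      nlinarith
  exact (ord_add_eq v hfi hrest).1 h1

namespace LogB

omit [CharZero k] in
/-- no algebraically independent family is larger than a transcendence basis -/
theorem not_indep_succ {n : ℕ} (y : Fin n → K) (hy : IsTranscendenceBasis k y)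
    (x : Fin (n + 1) → K) (hx : AlgebraicIndependent k x) : False := by
  have h1 := hx.lift_cardinalMk_le_trdeg
  have h2 := hy.lift_cardinalMk_eq_trdeg
  rw [← h2] at h1
  simp at h1

/-- the polynomial of the key step: `F(c,u)` small, `∂F/∂X_0 (c,u)` not small -/
theorem exists_poly (v : DVal k K) {m : ℕ} (y : Fin (m + 1) → K) (hy : IsTranscendenceBasis k y)
    (t : K) (ht : t ≠ 0) (ht1 : 0 < v.ord t) (u : Fin m → K) (hu : ∀ i, v.Integral (u i))
    (hF : ∀ F : MvPolynomial (Fin m) k, F ≠ 0 → ¬ v.Small (MvPolynomial.aeval u F))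
    (c : K) (hc : v.Integral c) :
    ∃ F : MvPolynomial (Fin (m + 1)) k,
      v.Small (MvPolynomial.aeval (Fin.cons c u : Fin (m + 1) → K) F) ∧
      ¬ v.Small (MvPolynomial.aeval (Fin.cons c u : Fin (m + 1) → K)
        (MvPolynomial.pderiv 0 F)) := by
  classical
  have hcu : ∀ i, v.Integral ((Fin.cons c u : Fin (m + 1) → K) i) := by
    intro i
    refine Fin.cases ?_ (fun j => ?_) i
    · exact hc
    · exact hu j
  have hex : ∃ n : ℕ, ∃ F : MvPolynomial (Fin (m + 1)) k, F ≠ 0 ∧
      v.Small (MvPolynomial.aeval (Fin.cons c u : Fin (m + 1) → K) F) ∧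
      (MvPolynomial.finSuccEquiv k m F).natDegree = n := by
    by_contra hcon
    push Not at hcon
    have hind := indep_cons v t ht ht1 (Fin.cons c u : Fin (m + 1) → K) hcu
      (fun F hF0 hs => hcon _ F hF0 hs rfl)
    exact not_indep_succ y hy _ hind
  obtain ⟨F, hF0, hFs, hFn⟩ := Nat.find_spec hex
  refine ⟨F, hFs, fun hs => ?_⟩
  set q := MvPolynomial.finSuccEquiv k m F with hq
  have hq0 : q ≠ 0 := by
    intro h
    exact hF0 ((map_eq_zero_iff _ (MvPolynomial.finSuccEquiv k m).injective).1 (hq ▸ h))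
  have hdeg : q.natDegree ≠ 0 := by
    intro h
    have h1 : q = Polynomial.C (q.coeff 0) := Polynomial.eq_C_of_natDegree_eq_zero h
    have h2 : q.coeff 0 ≠ 0 := by
      intro h3
      rw [h3, map_zero] at h1
      exact hq0 h1
    apply hF _ h2
    rw [aeval_cons, ← hq, h1, Polynomial.eval₂_C] at hFs
    exact hFs
  have hd0 : MvPolynomial.pderiv 0 F ≠ 0 := by
    intro h
    have h1 := finSuccEquiv_pderiv F
    rw [h, map_zero] at h1
    exact hdeg (Polynomial.derivative_eq_zero.1 h1.symm)
  have hlt : (MvPolynomial.finSuccEquiv k m (MvPolynomial.pderiv 0 F)).natDegree <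
      Nat.find hex := by
    rw [finSuccEquiv_pderiv, ← hFn]
    exact Polynomial.natDegree_derivative_lt hdeg
  exact Nat.find_min hex hlt ⟨_, hd0, hs, rfl⟩

omit [CharZero k] in
/-- a Jacobian with one entry replaced -/
theorem jac_update {n : ℕ} (E : Fin n → Derivation k K K) (b : Fin n → K)
    (h : ∀ i l, E i (b l) = if i = l then 1 else 0) (i : Fin n) (c : K) :
    jac E (Function.update b i c) = E i c := by
  have h1 : (Matrix.of fun r l => E r (Function.update b i c l)) =
      (1 : Matrix (Fin n) (Fin n) K).updateCol i (fun r => E r c) := by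
    ext r l
    rcases eq_or_ne l i with rfl | hl
    · simp [Matrix.updateCol_self]
    · rw [Matrix.updateCol_ne hl, Matrix.of_apply, Function.update_of_ne hl, h r l,
        Matrix.one_apply]
  unfold jac
  rw [h1, ← Matrix.cramer_apply, Matrix.cramer_one]
  rfl

end LogB

theorem logBasis (v : DVal k K) {m : ℕ} (y : Fin (m + 1) → K) (hy : IsTranscendenceBasis k y)
    (D : Fin (m + 1) → Derivation k K K) (hD : ∀ i j, D i (y j) = if i = j then 1 else 0)
    (hv : v.IsDivisorial m) (j : ℤ) (hj : v.FormOrd D j) :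
    ∃ (b : Fin (m + 1) → K) (E : Fin (m + 1) → Derivation k K K), IsLogBasis v D j b E := by
  classical
  obtain ⟨u, hu, hF⟩ := hv
  obtain ⟨t, ht, ht1⟩ := v.exists_ord_eq_one
  have ht1' : 0 < v.ord t := by omega
  set b : Fin (m + 1) → K := Fin.cons t u with hb
  have hind : AlgebraicIndependent k b := indep_cons v t ht ht1' u hu hF
  have hjac : jac D b ≠ 0 := jac_ne y hy D hD b hind
  obtain ⟨E, hE, hexp, hjE⟩ := dual D b hjac
  have hu0 : ∀ i, u i ≠ 0 ∧ v.ord (u i) = 0 := by
    intro i
    refine ord_eq_zero_of v (hu i) fun hs => ?_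
    exact hF (MvPolynomial.X i) (MvPolynomial.X_ne_zero i) (by rwa [MvPolynomial.aeval_X])
  have hbint : ∀ i, v.Integral (b i) := by
    intro i
    refine Fin.cases ?_ (fun l => ?_) i
    · intro _
      change 0 ≤ v.ord t
      omega
    · exact hu l
  -- the orders of `E i c` are bounded below
  have hbd : ∀ (i : Fin (m + 1)) (c : K), v.Integral c → E i c ≠ 0 →
      -j - v.ord (jac D b) ≤ v.ord (E i c) := by
    intro i c hc hne
    have h1 := hjE (Function.update b i c)
    rw [LogB.jac_update E b hE i c] at h1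
    have h2 : jac D (Function.update b i c) ≠ 0 := by
      rw [h1]
      exact mul_ne_zero hjac hne
    have h3 := hj.1 (Function.update b i c) (fun r => by
      rcases eq_or_ne r i with rfl | hr
      · rw [Function.update_self]; exact hc
      · rw [Function.update_of_ne hr]; exact hbint r) h2
    rw [h1, v.ord_mul _ _ hjac hne] at h3
    omega
  -- KEY CLAIM
  have key : ∀ (i : Fin (m + 1)) (c : K), v.Integral c → v.Integral (E i c) := by
    intro i
    by_contra hcon
    push Not at hcon
    obtain ⟨c1, hc1, hn1⟩ := hcon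
    have hn1' : E i c1 ≠ 0 ∧ v.ord (E i c1) < 0 := by
      unfold DVal.Integral at hn1
      push Not at hn1
      exact hn1
    obtain ⟨z, ⟨c, hc, hcne, hcz⟩, hz⟩ := Int.exists_least_of_bdd
      (P := fun z => ∃ c, v.Integral c ∧ E i c ≠ 0 ∧ v.ord (E i c) = z)
      ⟨-j - v.ord (jac D b), fun z ⟨c, hc, hne, hz⟩ => hz ▸ hbd i c hc hne⟩
      ⟨_, c1, hc1, hn1'.1, rfl⟩
    have hz0 : z < 0 := lt_of_le_of_lt (hz _ ⟨c1, hc1, hn1'.1, rfl⟩) hn1'.2
    have hLB : ∀ a, v.Integral a → LB v z (E i a) := fun a ha h0 => hz _ ⟨a, ha, h0, rfl⟩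
    obtain ⟨F, hFs, hFns⟩ := LogB.exists_poly v y hy t ht ht1' u hu hF c hc
    have hcu : ∀ l, v.Integral ((Fin.cons c u : Fin (m + 1) → K) l) := by
      intro l
      refine Fin.cases ?_ (fun l => ?_) l
      · exact hc
      · exact hu l
    set s := MvPolynomial.aeval (Fin.cons c u : Fin (m + 1) → K) F with hs
    -- first estimate
    have hEs : LB v (z + 1) (E i s) := by
      have h1 : v.Integral (s / t) := by
        intro h0
        have hs0 : s ≠ 0 := by
          rintro h
          rw [h, zero_div] at h0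
          exact h0 rfl
        rw [ord_div v s t hs0 ht]
        have := hFs hs0
        omega
      have h2 : s = t * (s / t) := by field_simp
      rw [h2, Derivation.leibniz, smul_eq_mul, smul_eq_mul]
      have h3 : LB v (z + 1) (t * E i (s / t)) := by
        have h4 := (LB_self v t).mul (hLB _ h1)
        exact h4.mono (by omega)
      have h5 : LB v (z + 1) (s / t * E i t) := by
        have h6 : E i t = if i = 0 then 1 else 0 := hE i 0
        rw [h6]
        split_ifs
        · rw [mul_one]
          exact LB.mono (N := 0) h1 (by omega)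
        · rw [mul_zero]
          exact LB.zero v _
      exact h3.add h5
    -- second expression
    have hder := Jind.der_aeval (E i) (Fin.cons c u : Fin (m + 1) → K) F
    rw [← hs, Fin.sum_univ_succ, Fin.cons_zero] at hder
    have hrest : LB v (z + 1) (∑ l : Fin m,
        MvPolynomial.aeval (Fin.cons c u : Fin (m + 1) → K) (MvPolynomial.pderiv l.succ F) *
          E i ((Fin.cons c u : Fin (m + 1) → K) l.succ)) := by
      refine LB.sum _ _ fun l _ => ?_
      rw [Fin.cons_succ]
      have h6 : E i (u l) = if i = l.succ then 1 else 0 := hE i l.succ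
      rw [h6]
      split_ifs
      · rw [mul_one]
        exact LB.mono (N := 0) (LogB.aeval_integral v _ hcu _) (by omega)
      · rw [mul_zero]
        exact LB.zero v _
    have hfin : LB v (z + 1)
        (MvPolynomial.aeval (Fin.cons c u : Fin (m + 1) → K) (MvPolynomial.pderiv 0 F) *
          E i c) := by
      have h7 := LB_sub v hEs hrest
      rw [hder] at h7
      simpa using h7
    have hunit := ord_eq_zero_of v (LogB.aeval_integral v _ hcu _) hFns
    have h8 := hfin (mul_ne_zero hunit.1 hcne)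
    rw [v.ord_mul _ _ hunit.1 hcne, hunit.2, hcz] at h8
    omega
  have hordJ : v.ord (jac D b) = -j := by
    apply le_antisymm
    · obtain ⟨a, ha, hane, hao⟩ := hj.2
      have h1 := hjE a
      have h2 : v.Integral (jac E a) :=
        det_integral v _ fun r l => by
          rw [Matrix.of_apply]
          exact key r _ (ha l)
      have h3 : jac E a ≠ 0 := by
        intro h
        rw [h, mul_zero] at h1
        exact hane h1
      rw [h1, v.ord_mul _ _ hjac h3] at hao
      have := h2 h3
      omega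
    · exact hj.1 b hbint hjac
  refine ⟨b, E, ?_, ht1, fun i => (hu0 i).2, hF, hE, hjac, hordJ, hjE, hexp, key⟩
  intro i
  refine Fin.cases ?_ (fun l => ?_) i
  · exact ht
  · exact (hu0 l).1

namespace LogB

variable {v : DVal k K} {m : ℕ} {D : Fin (m + 1) → Derivation k K K} {j : ℤ}
    {b : Fin (m + 1) → K} {E : Fin (m + 1) → Derivation k K K}

omit [CharZero k] in
/-- splitting off the power of the uniformizer -/
theorem split (h : IsLogBasis v D j b E) (c : K) (hc : c ≠ 0) :
    ∃ c' : K, c' ≠ 0 ∧ v.ord c' = 0 ∧ c = b 0 ^ v.ord c * c' := by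
  have hb0 := h.ne_zero 0
  refine ⟨c * b 0 ^ (-v.ord c), mul_ne_zero hc (zpow_ne_zero _ hb0), ?_, ?_⟩
  · rw [v.ord_mul _ _ hc (zpow_ne_zero _ hb0), ord_zpow v _ hb0, h.ord_zero]
    ring
  · rw [zpow_neg]
    field_simp

end LogB

theorem IsLogBasis.le_succ {v : DVal k K} {m : ℕ} {D : Fin (m + 1) → Derivation k K K} {j : ℤ}
    {b : Fin (m + 1) → K} {E : Fin (m + 1) → Derivation k K K} (h : IsLogBasis v D j b E)
    (i : Fin m) (c : K) (hc : c ≠ 0) (hE : E i.succ c ≠ 0) : v.ord c ≤ v.ord (E i.succ c) := by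
  have hb0 := h.ne_zero 0
  obtain ⟨c', hc', hco, hcc⟩ := LogB.split h c hc
  have h0 : E i.succ (b 0) = 0 := by
    rw [h.dual]
    simp
  have h1 : E i.succ c = b 0 ^ v.ord c * E i.succ c' := by
    conv_lhs => rw [hcc]
    rw [Derivation.leibniz, Derivation.leibniz_zpow, h0]
    simp
  have h2 : E i.succ c' ≠ 0 := by
    intro hz
    rw [h1, hz, mul_zero] at hE
    exact hE rfl
  have h3 := h.integral i.succ c' (fun _ => by rw [hco]) h2
  rw [h1, v.ord_mul _ _ (zpow_ne_zero _ hb0) h2, ord_zpow v _ hb0, h.ord_zero]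
  omega

theorem IsLogBasis.euler {v : DVal k K} {m : ℕ} {D : Fin (m + 1) → Derivation k K K} {j : ℤ}
    {b : Fin (m + 1) → K} {E : Fin (m + 1) → Derivation k K K} (h : IsLogBasis v D j b E)
    (c : K) (hc : c ≠ 0) (hE : b 0 * E 0 c - (v.ord c : K) * c ≠ 0) :
    v.ord c + 1 ≤ v.ord (b 0 * E 0 c - (v.ord c : K) * c) := by
  have hb0 := h.ne_zero 0
  obtain ⟨c', hc', hco, hcc⟩ := LogB.split h c hc
  have h0 : E 0 (b 0) = 1 := by
    rw [h.dual]
    simp
  have h1 : b 0 * E 0 c - (v.ord c : K) * c = b 0 ^ (v.ord c + 1) * E 0 c' := by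
    have h2 : E 0 c = b 0 ^ v.ord c * E 0 c' + c' * ((v.ord c : K) * b 0 ^ (v.ord c - 1)) := by
      conv_lhs => rw [hcc]
      rw [Derivation.leibniz, Derivation.leibniz_zpow, h0]
      simp only [smul_eq_mul, zsmul_eq_mul, mul_one]
    have h3 : (v.ord c : K) * c = (v.ord c : K) * (b 0 ^ v.ord c * c') := by rw [← hcc]
    rw [h2, h3, zpow_add_one₀ hb0, zpow_sub_one₀ hb0]
    field_simp
    ring
  rw [h1] at hE ⊢
  have h2 : E 0 c' ≠ 0 := right_ne_zero_of_mul hE
  have h3 := h.integral 0 c' (fun _ => by rw [hco]) h2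
  rw [v.ord_mul _ _ (zpow_ne_zero _ hb0) h2, ord_zpow v _ hb0, h.ord_zero]
  omega

end LOGB

end Pool.Agent.MLD.Ten
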