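import Pool.Agent.Lib.MP_f23696_ag.T.Val

/-!
# TEN, module RES: restriction of a divisorial valuation to a subfield
-/

set_option autoImplicit false

namespace Pool.Agent.MLD.Ten

open Pool.Agent.MLD.Jac

universe u v w

namespace ResM

section
variable {k : Type u} {K₁ L : Type v} [Field k] [Field K₁] [Field L] [Algebra k K₁] [Algebra k L]

/-- the values of `v` on a subfield, as a subgroup -/
def vals (φ : K₁ →ₐ[k] L) (v : DVal k L) : AddSubgroup ℤ where
  carrier := {n | ∃ a : K₁, a ≠ 0 ∧ v.ord (φ a) = n}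
  zero_mem' := ⟨1, one_ne_zero, by rw [map_one, ord_one]⟩
  add_mem' := by
    rintro x y ⟨a, ha, hx⟩ ⟨b, hb, hy⟩
    refine ⟨a * b, mul_ne_zero ha hb, ?_⟩
    rw [map_mul, v.ord_mul _ _ (by simpa using ha) (by simpa using hb), hx, hy]
  neg_mem' := by
    rintro x ⟨a, ha, hx⟩
    refine ⟨a⁻¹, inv_ne_zero ha, ?_⟩
    rw [map_inv₀, ord_inv v _ (by simpa using ha), hx]

end

section
variable {k : Type u} {K₁ L : Type v} [Field k] [Field K₁] [Field L] [Algebra k K₁] [Algebra k L]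

/-- transcendence degree over a subfield -/
theorem trdeg_le (φ : K₁ →ₐ[k] L) (s : ℕ) (ξ : Fin s → L)
    (hξ : ∀ f : L, IsAlgebraic (IntermediateField.adjoin k (Set.range φ ∪ Set.range ξ)) f) :
    letI : Algebra K₁ L := φ.toRingHom.toAlgebra
    Algebra.trdeg K₁ L ≤ s := by
  let _ : Algebra K₁ L := φ.toRingHom.toAlgebra
  have : IsScalarTower k K₁ L := IsScalarTower.of_algebraMap_eq fun x => (φ.commutes x).symm
  have hle : ∀ x ∈ IntermediateField.adjoin k (Set.range φ ∪ Set.range ξ),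
      x ∈ (IntermediateField.adjoin K₁ (Set.range ξ)).restrictScalars k := by
    have : IntermediateField.adjoin k (Set.range φ ∪ Set.range ξ) ≤
        (IntermediateField.adjoin K₁ (Set.range ξ)).restrictScalars k := by
      rw [IntermediateField.adjoin_le_iff]
      rintro x (⟨a, rfl⟩ | hx)
      · exact (IntermediateField.adjoin K₁ (Set.range ξ)).algebraMap_mem a
      · exact IntermediateField.subset_adjoin K₁ _ hx
    exact fun x hx => this hx
  let j : IntermediateField.adjoin k (Set.range φ ∪ Set.range ξ) →+*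
      IntermediateField.adjoin K₁ (Set.range ξ) :=
    { toFun := fun x => ⟨x.1, hle x.1 x.2⟩
      map_one' := rfl
      map_mul' := fun _ _ => rfl
      map_zero' := rfl
      map_add' := fun _ _ => rfl }
  have h1 : Algebra.IsAlgebraic (IntermediateField.adjoin K₁ (Set.range ξ)) L := by
    refine ⟨fun f => ?_⟩
    obtain ⟨p, hp, hpf⟩ := hξ f
    refine ⟨p.map j, (Polynomial.map_ne_zero_iff j.injective).2 hp, ?_⟩
    rw [Polynomial.aeval_def, Polynomial.eval₂_map]
    exact hpf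
  open scoped IntermediateField.algebraAdjoinAdjoin in
  haveI h2 : Algebra.IsAlgebraic (Algebra.adjoin K₁ (Set.range ξ)) L :=
    (IsFractionRing.comap_isAlgebraic_iff (A := Algebra.adjoin K₁ (Set.range ξ))
      (K := IntermediateField.adjoin K₁ (Set.range ξ))).2 h1
  refine (Algebra.IsAlgebraic.trdeg_le_cardinalMk K₁ (Set.range ξ)).trans ?_
  have h3 := Cardinal.mk_range_le_lift (f := ξ)
  simpa using h3

/-- the induced map of valuation rings -/
def rho (φ : K₁ →ₐ[k] L) (v : DVal k L) (e : ℕ) (v₁ : DVal k K₁)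
    (h : ∀ a, a ≠ 0 → v.ord (φ a) = e * v₁.ord a) : ring v₁ →ₐ[k] ring v :=
  (φ.comp (ring v₁).val).codRestrict (ring v) (by
    intro a h0
    have ha : (a : K₁) ≠ 0 := by
      intro h'
      exact h0 (by simp [h'])
    have h1 := h a ha
    have h2 : 0 ≤ v₁.ord (a : K₁) := a.2 ha
    change 0 ≤ v.ord (φ a)
    rw [h1]
    positivity)

theorem rho_coe (φ : K₁ →ₐ[k] L) (v : DVal k L) (e : ℕ) (v₁ : DVal k K₁)
    (h : ∀ a, a ≠ 0 → v.ord (φ a) = e * v₁.ord a) (a : ring v₁) :
    (rho φ v e v₁ h a : L) = φ a := rfl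

theorem rho_small (φ : K₁ →ₐ[k] L) (v : DVal k L) (e : ℕ) (he : 1 ≤ e) (v₁ : DVal k K₁)
    (h : ∀ a, a ≠ 0 → v.ord (φ a) = e * v₁.ord a) (a : ring v₁) :
    v₁.Small (a : K₁) → v.Small (rho φ v e v₁ h a : L) := by
  intro hs h0
  rw [rho_coe] at h0 ⊢
  have ha : (a : K₁) ≠ 0 := by
    intro h'
    exact h0 (by simp [h'])
  rw [h a ha]
  have h2 : 0 < v₁.ord (a : K₁) := hs ha
  have h3 : (0 : ℤ) < e := by exact_mod_cast he
  positivity

/-- the induced map of residue fields -/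
noncomputable def psi (φ : K₁ →ₐ[k] L) (v : DVal k L) (e : ℕ) (he : 1 ≤ e) (v₁ : DVal k K₁)
    (h : ∀ a, a ≠ 0 → v.ord (φ a) = e * v₁.ord a) : Res v₁ →ₐ[k] Res v :=
  Ideal.quotientMapₐ (maxI v) (rho φ v e v₁ h) (fun a ha => rho_small φ v e he v₁ h a ha)

theorem psi_res (φ : K₁ →ₐ[k] L) (v : DVal k L) (e : ℕ) (he : 1 ≤ e) (v₁ : DVal k K₁)
    (h : ∀ a, a ≠ 0 → v.ord (φ a) = e * v₁.ord a) (a : ring v₁) :
    psi φ v e he v₁ h (res v₁ a) = res v (rho φ v e v₁ h a) := rfl

/-- residues independent over the residue field have independent lifts -/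
theorem indep_lift (φ : K₁ →ₐ[k] L) (v : DVal k L) (e : ℕ) (he : 1 ≤ e) (v₁ : DVal k K₁)
    (h : ∀ a, a ≠ 0 → v.ord (φ a) = e * v₁.ord a) {ι : Type w} (w : ι → ring v)
    (hw : letI : Algebra (Res v₁) (Res v) := (psi φ v e he v₁ h).toRingHom.toAlgebra
      AlgebraicIndependent (Res v₁) fun i => res v (w i)) :
    letI : Algebra K₁ L := φ.toRingHom.toAlgebra
    AlgebraicIndependent K₁ fun i => (w i : L) := by
  classical
  letI : Algebra (Res v₁) (Res v) := (psi φ v e he v₁ h).toRingHom.toAlgebra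
  letI : Algebra K₁ L := φ.toRingHom.toAlgebra
  rw [algebraicIndependent_iff]
  intro F hF
  by_contra hF0
  have hne : F.support.Nonempty := MvPolynomial.support_nonempty.2 hF0
  obtain ⟨d₀, hd₀, hmin⟩ := F.support.exists_min_image (fun d => v₁.ord (F.coeff d)) hne
  have hc₀ : F.coeff d₀ ≠ 0 := MvPolynomial.mem_support_iff.1 hd₀
  have hint : ∀ d, (F.coeff d₀)⁻¹ * F.coeff d ∈ ring v₁ := by
    intro d h0
    have hd : F.coeff d ≠ 0 := right_ne_zero_of_mul h0
    rw [v₁.ord_mul _ _ (inv_ne_zero hc₀) hd, ord_inv v₁ _ hc₀]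
    have := hmin d (MvPolynomial.mem_support_iff.2 hd)
    omega
  -- the polynomial over the valuation ring
  let G : MvPolynomial ι (ring v₁) :=
    ∑ d ∈ F.support, MvPolynomial.monomial d ⟨(F.coeff d₀)⁻¹ * F.coeff d, hint d⟩
  have hG1 : MvPolynomial.map (ring v₁).val.toRingHom G = MvPolynomial.C (F.coeff d₀)⁻¹ * F := by
    have : ∀ d ∈ F.support, MvPolynomial.map (ring v₁).val.toRingHom
        (MvPolynomial.monomial d ⟨(F.coeff d₀)⁻¹ * F.coeff d, hint d⟩) =
        MvPolynomial.C (F.coeff d₀)⁻¹ * MvPolynomial.monomial d (F.coeff d) := by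
      intro d _
      rw [MvPolynomial.map_monomial, MvPolynomial.C_mul_monomial]
      rfl
    rw [map_sum, Finset.sum_congr rfl this, ← Finset.mul_sum, MvPolynomial.support_sum_monomial_coeff]
  have hG2 : MvPolynomial.map (res v₁).toRingHom G ≠ 0 := by
    intro h0
    have h1 : MvPolynomial.coeff d₀ (MvPolynomial.map (res v₁).toRingHom G) = 0 := by
      rw [h0, MvPolynomial.coeff_zero]
    rw [MvPolynomial.coeff_map] at h1
    have h2 : v₁.Small ((MvPolynomial.coeff d₀ G : ring v₁) : K₁) := (res_eq_zero v₁).1 h1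
    have h3 : ((MvPolynomial.coeff d₀ G : ring v₁) : K₁) = 1 := by
      have : (ring v₁).val.toRingHom (MvPolynomial.coeff d₀ G) =
          MvPolynomial.coeff d₀ (MvPolynomial.C (F.coeff d₀)⁻¹ * F) := by
        rw [← hG1, MvPolynomial.coeff_map]
      rw [MvPolynomial.coeff_C_mul, inv_mul_cancel₀ hc₀] at this
      exact this
    rw [h3] at h2
    exact small_one v₁ h2
  refine hG2 ((algebraicIndependent_iff.1 hw) _ ?_)
  -- evaluate
  have e1 : MvPolynomial.aeval (fun i => res v (w i)) (MvPolynomial.map (res v₁).toRingHom G) =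
      res v (MvPolynomial.eval₂ (rho φ v e v₁ h).toRingHom w G) := by
    rw [MvPolynomial.aeval_def, MvPolynomial.eval₂_map]
    have := MvPolynomial.eval₂_comp_left (res v).toRingHom (rho φ v e v₁ h).toRingHom w G
    exact this.symm
  have e2 : ((MvPolynomial.eval₂ (rho φ v e v₁ h).toRingHom w G : ring v) : L) =
      MvPolynomial.aeval (fun i => (w i : L)) (MvPolynomial.C (F.coeff d₀)⁻¹ * F) := by
    rw [← hG1, MvPolynomial.aeval_def, MvPolynomial.eval₂_map]
    exact MvPolynomial.eval₂_comp_left (ring v).val.toRingHom (rho φ v e v₁ h).toRingHom w G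
  have e3 : MvPolynomial.eval₂ (rho φ v e v₁ h).toRingHom w G = 0 := by
    apply Subtype.ext
    rw [e2, map_mul, hF, mul_zero]
    rfl
  rw [e1, e3, map_zero]

end

end ResM

open ResM

section RES
variable {k : Type u} {K₁ L : Type v} [Field k] [Field K₁] [Field L] [Algebra k K₁] [Algebra k L]

theorem restrict (φ : K₁ →ₐ[k] L) (v : DVal k L) (h : ∃ a : K₁, a ≠ 0 ∧ v.ord (φ a) ≠ 0) :
    ∃ (e : ℕ) (v₁ : DVal k K₁), 1 ≤ e ∧ ∀ a, a ≠ 0 → v.ord (φ a) = e * v₁.ord a := by
  classical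
  obtain ⟨g, hg⟩ := Int.subgroup_cyclic (vals φ v)
  have hmem : ∀ n : ℤ, n ∈ vals φ v ↔ g ∣ n := by
    intro n
    rw [hg, AddSubgroup.mem_closure_singleton]
    constructor
    · rintro ⟨c, hc⟩
      exact ⟨c, by rw [← hc, smul_eq_mul, mul_comm]⟩
    · rintro ⟨c, hc⟩
      exact ⟨c, by rw [hc, smul_eq_mul, mul_comm]⟩
  have hdvd : ∀ a : K₁, a ≠ 0 → (g.natAbs : ℤ) ∣ v.ord (φ a) := by
    intro a ha
    rw [Int.natAbs_dvd]
    exact (hmem _).1 ⟨a, ha, rfl⟩
  have hg0 : g ≠ 0 := by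
    obtain ⟨a, ha, h0⟩ := h
    intro hg0
    have := (hmem (v.ord (φ a))).1 ⟨a, ha, rfl⟩
    rw [hg0, zero_dvd_iff] at this
    exact h0 this
  have hepos : 0 < g.natAbs := Int.natAbs_pos.2 hg0
  have hez : (0 : ℤ) < g.natAbs := by exact_mod_cast hepos
  have hq : ∀ a : K₁, a ≠ 0 → v.ord (φ a) = g.natAbs * (v.ord (φ a) / g.natAbs) := by
    intro a ha
    exact (Int.mul_ediv_cancel' (hdvd a ha)).symm
  have hφ : ∀ a : K₁, a ≠ 0 → φ a ≠ 0 := fun a ha => by simpa using ha
  refine ⟨g.natAbs,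
    { ord := fun a => v.ord (φ a) / g.natAbs
      ord_mul := ?_
      ord_add := ?_
      ord_algebraMap := ?_
      exists_ord_eq_one := ?_ }, hepos, hq⟩
  · intro a b ha hb
    have h1 := v.ord_mul (φ a) (φ b) (hφ a ha) (hφ b hb)
    rw [← map_mul, hq a ha, hq b hb, hq (a * b) (mul_ne_zero ha hb), ← mul_add] at h1
    exact mul_left_cancel₀ hez.ne' h1
  · intro a b ha hb hab
    have h1 := v.ord_add (φ a) (φ b) (hφ a ha) (hφ b hb) (by rw [← map_add]; exact hφ _ hab)
    rw [← map_add, hq a ha, hq b hb, hq (a + b) hab, ← mul_min_of_nonneg _ _ hez.le] at h1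
    exact le_of_mul_le_mul_left h1 hez
  · intro c hc
    rw [AlgHom.commutes, v.ord_algebraMap c hc, Int.zero_ediv]
  · have h1 : (g.natAbs : ℤ) ∈ vals φ v := by
      rw [hmem, Int.dvd_natAbs]
    obtain ⟨a, ha, ha1⟩ := h1
    refine ⟨a, ha, ?_⟩
    rw [ha1, Int.ediv_self hez.ne']

theorem restrict_div (φ : K₁ →ₐ[k] L) (v : DVal k L) (m s : ℕ) (hv : v.IsDivisorial (m + s))
    (ξ : Fin s → L)
    (hξ : ∀ f : L, IsAlgebraic (IntermediateField.adjoin k (Set.range φ ∪ Set.range ξ)) f)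
    (e : ℕ) (he : 1 ≤ e) (v₁ : DVal k K₁) (h : ∀ a, a ≠ 0 → v.ord (φ a) = e * v₁.ord a) :
    v₁.IsDivisorial m := by
  classical
  letI : Algebra K₁ L := φ.toRingHom.toAlgebra
  letI : Algebra (Res v₁) (Res v) := (psi φ v e he v₁ h).toRingHom.toAlgebra
  haveI : IsScalarTower k (Res v₁) (Res v) :=
    IsScalarTower.of_algebraMap_eq fun x => ((psi φ v e he v₁ h).commutes x).symm
  -- the residue field extension has transcendence degree at most `s`
  have h1 : Algebra.trdeg (Res v₁) (Res v) ≤ s := by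
    obtain ⟨B, hB⟩ := exists_isTranscendenceBasis (Res v₁) (Res v)
    rw [← hB.cardinalMk_eq_trdeg]
    choose w hw using fun b : B => res_surjective v (b : Res v)
    have h2 : AlgebraicIndependent (Res v₁) fun b : B => res v (w b) := by
      have : (fun b : B => res v (w b)) = ((↑) : B → Res v) := funext hw
      rw [this]
      exact hB.1
    have h3 := indep_lift φ v e he v₁ h w h2
    exact h3.cardinalMk_le_trdeg.trans (trdeg_le φ s ξ hξ)
  have h2 : ((m + s : ℕ) : Cardinal) ≤ Algebra.trdeg k (Res v) := by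
    obtain ⟨t, ht, hF⟩ := hv
    have h3 : AlgebraicIndependent k fun i => res v ⟨t i, ht i⟩ :=
      (indep_res_iff v fun i => ⟨t i, ht i⟩).2 hF
    have h4 := h3.lift_cardinalMk_le_trdeg
    simpa using h4
  have h3 : ((m : ℕ) : Cardinal) ≤ Algebra.trdeg k (Res v₁) := by
    rw [← _root_.trdeg_add_eq (R := k) (S := Res v₁) (A := Res v)] at h2
    have h4 : ((m : ℕ) : Cardinal) + s ≤ Algebra.trdeg k (Res v₁) + s := by
      refine le_trans ?_ (add_le_add_right h1 _)
      exact_mod_cast h2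
    exact (Cardinal.add_le_add_iff_of_lt_aleph0 (Cardinal.natCast_lt_aleph0)).1 h4
  obtain ⟨B, hB⟩ := exists_isTranscendenceBasis k (Res v₁)
  rw [← hB.cardinalMk_eq_trdeg] at h3
  have h4 : Nonempty (Fin m ↪ B) := by
    have h5 : Cardinal.lift.{v} (Cardinal.mk (Fin m)) ≤ Cardinal.lift.{0} (Cardinal.mk B) := by
      simpa using h3
    exact Cardinal.lift_mk_le'.1 h5
  obtain ⟨j⟩ := h4
  choose t ht using fun i : Fin m => res_surjective v₁ ((j i : B) : Res v₁)
  refine ⟨fun i => (t i : K₁), fun i => (t i).2, ?_⟩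
  refine (indep_res_iff v₁ t).1 ?_
  have h5 : (fun i => res v₁ (t i)) = ((↑) : B → Res v₁) ∘ j := funext ht
  rw [h5]
  exact hB.1.comp j j.injective

end RES

end Pool.Agent.MLD.Ten
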