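import Pool.Agent.Lib.MP_f23696_ag.T.Val
import Pool.Agent.Lib.MP_f23696_ag.T.Der
import Pool.Agent.Lib.MP_f23696_ag.T.JDer
import Pool.Agent.Lib.MP_f23696_ag.T.LogB
import Pool.Agent.Lib.MP_f23696_ag.T.Res

set_option autoImplicit false

open scoped TensorProduct

namespace Pool.Agent.MLD.Ten

universe u v w

section LOW
variable {k : Type u} {K₁ K₂ L : Type v} [Field k] [CharZero k] [Field K₁] [Field K₂] [Field L]
    [Algebra k K₁] [Algebra k K₂] [Algebra k L] (J : Join k K₁ K₂ L)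

theorem Low.alg {n : ℕ} (y₂ : Fin n → K₂) (hy₂ : IsTranscendenceBasis k y₂) (f : L) :
    IsAlgebraic (IntermediateField.adjoin k
      (Set.range J.φ ∪ Set.range (fun i => J.ψ (y₂ i)))) f := by
  set F := IntermediateField.adjoin k (Set.range J.φ ∪ Set.range (fun i => J.ψ (y₂ i))) with hF
  have halg : Algebra.IsAlgebraic (Algebra.adjoin k (Set.range y₂)) K₂ :=
    (isTranscendenceBasis_iff_algebraicIndependent_isAlgebraic.1 hy₂).2
  have hφ : ∀ a : K₁, IsAlgebraic F (J.φ a) := by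
    intro a
    have : J.φ a ∈ F := IntermediateField.subset_adjoin _ _ (Or.inl ⟨a, rfl⟩)
    exact isAlgebraic_algebraMap (⟨J.φ a, this⟩ : F)
  have hle : ∀ x ∈ Algebra.adjoin k (Set.range y₂), J.ψ x ∈ F := by
    intro x hx
    induction hx using Algebra.adjoin_induction with
    | mem x hx =>
      obtain ⟨i, rfl⟩ := hx
      exact IntermediateField.subset_adjoin _ _ (Or.inr ⟨i, rfl⟩)
    | algebraMap c =>
      rw [J.ψ.commutes]
      exact F.algebraMap_mem _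
    | add x y _ _ hx hy => rw [map_add]; exact F.add_mem hx hy
    | mul x y _ _ hx hy => rw [map_mul]; exact F.mul_mem hx hy
  let g : Algebra.adjoin k (Set.range y₂) →+* F :=
    { toFun := fun x => ⟨J.ψ x, hle x x.2⟩
      map_one' := Subtype.ext (by simp)
      map_mul' := fun x y => Subtype.ext (by simp)
      map_zero' := Subtype.ext (by simp)
      map_add' := fun x y => Subtype.ext (by simp) }
  have hψ : ∀ b : K₂, IsAlgebraic F (J.ψ b) := by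
    intro b
    refine (halg.isAlgebraic b).ringHom_of_comp_eq g J.ψ ?_ ?_
    · intro x y hxy
      exact Subtype.ext (J.ψ.injective (congrArg Subtype.val hxy))
    · rfl
  have hπ : ∀ x : K₁ ⊗[k] K₂, IsAlgebraic F (J.π x) := by
    intro x
    induction x using TensorProduct.induction_on with
    | zero => rw [map_zero]; exact isAlgebraic_zero
    | add x y hx hy => rw [map_add]; exact hx.add hy
    | tmul a b =>
      rw [Algebra.TensorProduct.productMap_apply_tmul]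
      exact (hφ a).mul (hψ b)
  obtain ⟨a, b, -, rfl⟩ := J.frac f
  rw [div_eq_mul_inv]
  exact (hπ a).mul (hπ b).inv

/-- an integral family with nonzero Jacobian -/
theorem Low.exists_int {K : Type v} [Field K] [Algebra k K] (v : DVal k K) {m : ℕ}
    (y : Fin (m + 1) → K) (hy : IsTranscendenceBasis k y)
    (D : Fin (m + 1) → Derivation k K K) (hD : ∀ i j, D i (y j) = if i = j then 1 else 0)
    (hv : v.IsDivisorial m) : ∃ c : Fin (m + 1) → K, (∀ i, v.Integral (c i)) ∧ jac D c ≠ 0 := by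
  obtain ⟨t, ht, ht1⟩ := v.exists_ord_eq_one
  obtain ⟨u, hu, hF⟩ := hv
  refine ⟨Fin.cons t u, ?_, jac_ne y hy D hD _ (indep_cons v t ht (by omega) u hu hF)⟩
  intro i
  refine Fin.cases ?_ (fun i => ?_) i
  · rw [Fin.cons_zero]
    intro _
    omega
  · rw [Fin.cons_succ]
    exact hu i

theorem low {m₁ m₂ : ℕ} (y₁ : Fin (m₁ + 1) → K₁) (hy₁ : IsTranscendenceBasis k y₁)
    (D₁ : Fin (m₁ + 1) → Derivation k K₁ K₁) (hD₁ : ∀ i j, D₁ i (y₁ j) = if i = j then 1 else 0)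
    (y₂ : Fin (m₂ + 1) → K₂) (hy₂ : IsTranscendenceBasis k y₂)
    (D₂ : Fin (m₂ + 1) → Derivation k K₂ K₂) (hD₂ : ∀ i j, D₂ i (y₂ j) = if i = j then 1 else 0)
    (D : Fin ((m₁ + 1) + (m₂ + 1)) → Derivation k L L) (hD : IsJoint J D₁ D₂ D)
    (v : DVal k L) (hv : v.IsDivisorial (m₁ + 1 + m₂)) (j : ℤ) (hj : v.FormOrd D j)
    (h₁ : ∃ a : K₁, a ≠ 0 ∧ 0 < v.ord (J.φ a)) (h₂ : ∃ b : K₂, b ≠ 0 ∧ 0 < v.ord (J.ψ b)) :
    ∃ (e₁ e₂ : ℕ) (v₁ : DVal k K₁) (v₂ : DVal k K₂) (j₁ j₂ : ℤ), 1 ≤ e₁ ∧ 1 ≤ e₂ ∧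
      (∀ a, a ≠ 0 → v.ord (J.φ a) = e₁ * v₁.ord a) ∧ (∀ b, b ≠ 0 → v.ord (J.ψ b) = e₂ * v₂.ord b) ∧
      v₁.IsDivisorial m₁ ∧ v₂.IsDivisorial m₂ ∧ v₁.FormOrd D₁ j₁ ∧ v₂.FormOrd D₂ j₂ ∧
      e₁ * (j₁ + 1) + e₂ * (j₂ + 1) ≤ j + 1 := by
  obtain ⟨a₁, ha₁, hp₁⟩ := h₁
  obtain ⟨a₂, ha₂, hp₂⟩ := h₂
  obtain ⟨e₁, v₁, he₁, ho₁⟩ := restrict J.φ v ⟨a₁, ha₁, hp₁.ne'⟩
  obtain ⟨e₂, v₂, he₂, ho₂⟩ := restrict J.ψ v ⟨a₂, ha₂, hp₂.ne'⟩
  have he₁' : (0 : ℤ) < e₁ := by exact_mod_cast he₁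
  have he₂' : (0 : ℤ) < e₂ := by exact_mod_cast he₂
  have hd₁ : v₁.IsDivisorial m₁ := by
    refine restrict_div J.φ v m₁ (m₂ + 1) ?_ (fun i => J.ψ (y₂ i)) (Low.alg J y₂ hy₂) e₁ he₁ v₁ ho₁
    have : m₁ + (m₂ + 1) = m₁ + 1 + m₂ := by omega
    rw [this]
    exact hv
  have hd₂ : v₂.IsDivisorial m₂ := by
    refine restrict_div J.ψ v m₂ (m₁ + 1) ?_ (fun i => J.φ (y₁ i)) (Low.alg J.swap y₁ hy₁) e₂ he₂
      v₂ ho₂
    have : m₂ + (m₁ + 1) = m₁ + 1 + m₂ := by omega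
    rw [this]
    exact hv
  have int₁ : ∀ a, v₁.Integral a → v.Integral (J.φ a) := by
    intro a ha h0
    have ha0 : a ≠ 0 := by rintro rfl; exact h0 (map_zero _)
    rw [ho₁ a ha0]
    exact mul_nonneg he₁'.le (ha ha0)
  have int₂ : ∀ a, v₂.Integral a → v.Integral (J.ψ a) := by
    intro a ha h0
    have ha0 : a ≠ 0 := by rintro rfl; exact h0 (map_zero _)
    rw [ho₂ a ha0]
    exact mul_nonneg he₂'.le (ha ha0)
  obtain ⟨c₁, hc₁, hcj₁⟩ := Low.exists_int v₁ y₁ hy₁ D₁ hD₁ hd₁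
  obtain ⟨c₂, hc₂, hcj₂⟩ := Low.exists_int v₂ y₂ hy₂ D₂ hD₂ hd₂
  have happ : ∀ (a : Fin (m₁ + 1) → K₁) (b : Fin (m₂ + 1) → K₂), (∀ i, v₁.Integral (a i)) →
      (∀ i, v₂.Integral (b i)) → ∀ i, v.Integral
        (Fin.append (fun i => J.φ (a i)) (fun i => J.ψ (b i)) i) := by
    intro a b ha hb i
    refine Fin.addCases (fun i => ?_) (fun i => ?_) i
    · rw [Fin.append_left]
      exact int₁ _ (ha i)
    · rw [Fin.append_right]
      exact int₂ _ (hb i)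
  have hmain : ∀ (a : Fin (m₁ + 1) → K₁) (b : Fin (m₂ + 1) → K₂), (∀ i, v₁.Integral (a i)) →
      (∀ i, v₂.Integral (b i)) → jac D₁ a ≠ 0 → jac D₂ b ≠ 0 →
      -j ≤ e₁ * v₁.ord (jac D₁ a) + e₂ * v₂.ord (jac D₂ b) := by
    intro a b ha hb ha0 hb0
    have hne : jac D (Fin.append (fun i => J.φ (a i)) (fun i => J.ψ (b i))) ≠ 0 := by
      rw [jac_joint J hD]
      exact mul_ne_zero (by rwa [Ne, map_eq_zero]) (by rwa [Ne, map_eq_zero])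
    have h3 := hj.1 _ (happ a b ha hb) hne
    rw [jac_joint J hD, v.ord_mul _ _ (by rwa [Ne, map_eq_zero]) (by rwa [Ne, map_eq_zero]),
      ho₁ _ ha0, ho₂ _ hb0] at h3
    exact h3
  obtain ⟨j₁, hj₁, -⟩ := formOrd_ex v₁ D₁ (-|j| - |(e₂ : ℤ) * v₂.ord (jac D₂ c₂)|) (by
    intro a ha ha0
    have h3 := hmain a c₂ ha hc₂ ha0 hcj₂
    by_contra hcon
    push Not at hcon
    have h4 := neg_abs_le (v₁.ord (jac D₁ a))
    have h5 := le_abs_self j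
    have h6 := le_abs_self ((e₂ : ℤ) * v₂.ord (jac D₂ c₂))
    have h7 : v₁.ord (jac D₁ a) < 0 := by
      have := abs_nonneg j
      have := abs_nonneg ((e₂ : ℤ) * v₂.ord (jac D₂ c₂))
      linarith
    have h8 : (e₁ : ℤ) * v₁.ord (jac D₁ a) ≤ v₁.ord (jac D₁ a) := by nlinarith
    linarith) ⟨c₁, hc₁, hcj₁⟩
  obtain ⟨j₂, hj₂, -⟩ := formOrd_ex v₂ D₂ (-|j| - |(e₁ : ℤ) * v₁.ord (jac D₁ c₁)|) (by
    intro a ha ha0
    have h3 := hmain c₁ a hc₁ ha hcj₁ ha0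
    by_contra hcon
    push Not at hcon
    have h5 := le_abs_self j
    have h6 := le_abs_self ((e₁ : ℤ) * v₁.ord (jac D₁ c₁))
    have h7 : v₂.ord (jac D₂ a) < 0 := by
      have := abs_nonneg j
      have := abs_nonneg ((e₁ : ℤ) * v₁.ord (jac D₁ c₁))
      linarith
    have h8 : (e₂ : ℤ) * v₂.ord (jac D₂ a) ≤ v₂.ord (jac D₂ a) := by nlinarith
    linarith) ⟨c₂, hc₂, hcj₂⟩
  obtain ⟨b₁, E₁, hb₁⟩ := logBasis v₁ y₁ hy₁ D₁ hD₁ hd₁ j₁ hj₁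
  obtain ⟨b₂, E₂, hb₂⟩ := logBasis v₂ y₂ hy₂ D₂ hD₂ hd₂ j₂ hj₂
  refine ⟨e₁, e₂, v₁, v₂, j₁, j₂, he₁, he₂, ho₁, ho₂, hd₁, hd₂, hj₁, hj₂, ?_⟩
  have hne : ∀ i, Fin.append (fun i => J.φ (b₁ i)) (fun i => J.ψ (b₂ i)) i ≠ 0 := by
    intro i
    refine Fin.addCases (fun i => ?_) (fun i => ?_) i
    · rw [Fin.append_left, Ne, map_eq_zero]
      exact hb₁.ne_zero i
    · rw [Fin.append_right, Ne, map_eq_zero]
      exact hb₂.ne_zero i
  have hjne : jac D (Fin.append (fun i => J.φ (b₁ i)) (fun i => J.ψ (b₂ i))) ≠ 0 := by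
    rw [jac_joint J hD]
    exact mul_ne_zero (by rw [Ne, map_eq_zero]; exact hb₁.jac_ne)
      (by rw [Ne, map_eq_zero]; exact hb₂.jac_ne)
  have h3 := log_ineq v D j hj _ hne hjne
  rw [jac_joint J hD, v.ord_mul _ _ (by rw [Ne, map_eq_zero]; exact hb₁.jac_ne)
    (by rw [Ne, map_eq_zero]; exact hb₂.jac_ne), ho₁ _ hb₁.jac_ne, ho₂ _ hb₂.jac_ne,
    hb₁.ord_jac, hb₂.ord_jac, Fin.sum_univ_add] at h3
  have s₁ : ∑ i : Fin (m₁ + 1), v.ord (Fin.append (fun i => J.φ (b₁ i)) (fun i => J.ψ (b₂ i))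
      (Fin.castAdd (m₂ + 1) i)) = e₁ := by
    rw [Fin.sum_univ_succ]
    simp only [Fin.append_left]
    rw [ho₁ _ (hb₁.ne_zero 0), hb₁.ord_zero, Finset.sum_eq_zero, mul_one, add_zero]
    intro i _
    rw [ho₁ _ (hb₁.ne_zero i.succ), hb₁.ord_succ, mul_zero]
  have s₂ : ∑ i : Fin (m₂ + 1), v.ord (Fin.append (fun i => J.φ (b₁ i)) (fun i => J.ψ (b₂ i))
      (Fin.natAdd (m₁ + 1) i)) = e₂ := by
    rw [Fin.sum_univ_succ]
    simp only [Fin.append_right]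
    rw [ho₂ _ (hb₂.ne_zero 0), hb₂.ord_zero, Finset.sum_eq_zero, mul_one, add_zero]
    intro i _
    rw [ho₂ _ (hb₂.ne_zero i.succ), hb₂.ord_succ, mul_zero]
  rw [s₁, s₂] at h3
  linarith

end LOW

end Pool.Agent.MLD.Ten
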