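import Pool.Agent.Lib.MP_f23696_ag.T.Val
import Pool.Agent.Lib.MP_f23696_ag.T.Ev

/-!
# TEN, module NORM: normality of the product
-/

set_option autoImplicit false

open scoped TensorProduct

namespace Pool.Agent.MLD.Ten

universe u v w

namespace NORM

section Ev
variable {k : Type u} {K₁ K₂ L : Type v} [Field k] [IsAlgClosed k] [Field K₁]
    [Field K₂] [Field L] [Algebra k K₁] [Algebra k K₂] [Algebra k L] (J : Join k K₁ K₂ L)
    {A₁ : Subalgebra k K₁} {A₂ : Subalgebra k K₂} {S : Subalgebra k L}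
    {ι₁ : A₁ →ₐ[k] S} {ι₂ : A₂ →ₐ[k] S}

/-- one half of `ev_closed`: membership in `A₁ ⊗ K₂` -/
theorem step (hP : IsProd J ι₁ ι₂) (h₁ : IsGood A₁) (h₂ : IsGood A₂) (g : K₁ ⊗[k] K₂)
    (hi : IsIntegral S (J.π g)) :
    ∃ g₁ : A₁ ⊗[k] K₂, Algebra.TensorProduct.map A₁.val (AlgHom.id k K₂) g₁ = g := by
  classical
  obtain ⟨s, hs⟩ := EVL.lift_fg g
  obtain ⟨t, ht⟩ := h₂.fg
  let B : Subalgebra k K₂ := Algebra.adjoin k ((s ∪ t : Finset K₂) : Set K₂)
  have hsub : ((s ∪ t : Finset K₂) : Set K₂) ⊆ B := Algebra.subset_adjoin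
  rw [Finset.coe_union] at hsub
  obtain ⟨g', hg'⟩ := hs B (Set.subset_union_left.trans hsub)
  have hA₂ : A₂ ≤ B := by
    rw [← ht]
    exact Algebra.adjoin_le (Set.subset_union_right.trans hsub)
  have : Algebra.FiniteType k B := (Subalgebra.fg_iff_finiteType _).1 ⟨s ∪ t, rfl⟩
  -- the embedding of `K₁ ⊗ B`
  let j : K₁ ⊗[k] B →ₐ[k] L := J.π.comp (Algebra.TensorProduct.map (AlgHom.id k K₁) B.val)
  have hj : Function.Injective j := J.inj.comp (EVL.map_val_injective B)
  have hjr : S ≤ j.range := by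
    rw [hP.eq_sup]
    refine sup_le ?_ ?_
    · rintro _ ⟨a, ha, rfl⟩
      exact ⟨a ⊗ₜ 1, by simp [j]⟩
    · rintro _ ⟨b, hb, rfl⟩
      exact ⟨1 ⊗ₜ ⟨b, hA₂ hb⟩, by simp [j]⟩
  let e := (AlgEquiv.ofInjective j hj)
  let r : S →ₐ[k] K₁ ⊗[k] B := e.symm.toAlgHom.comp (Subalgebra.inclusion hjr)
  have hr : ∀ s : S, j (r s) = s := by
    intro s
    have : (e (e.symm (Subalgebra.inclusion hjr s)) : L) = s := by
      rw [AlgEquiv.apply_symm_apply]
      rfl
    exact this
  have hjg : j g' = J.π g := by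
    rw [← hg']
    rfl
  -- `g'` is integral over `S`
  have hev : ∀ β : B →ₐ[k] k, EVL.ev β g' ∈ A₁ := by
    intro β
    let q : K₁ ⊗[k] B →ₐ[k] K₁ := EVL.ev β
    have hq : ∀ s : S, q (r s) ∈ A₁ := by
      have h1 : S ≤ (A₁.comap (q.comp e.symm.toAlgHom)).map j.range.val := by
        rw [hP.eq_sup]
        refine sup_le ?_ ?_
        · rintro _ ⟨a, ha, rfl⟩
          refine ⟨e (a ⊗ₜ 1), ?_, ?_⟩
          · change q (e.symm (e (a ⊗ₜ 1))) ∈ A₁
            rw [AlgEquiv.symm_apply_apply]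
            simpa [q, EVL.ev] using ha
          · change j (a ⊗ₜ 1) = J.φ a
            simp [j]
        · rintro _ ⟨b, hb, rfl⟩
          refine ⟨e (1 ⊗ₜ ⟨b, hA₂ hb⟩), ?_, ?_⟩
          · change q (e.symm (e _)) ∈ A₁
            rw [AlgEquiv.symm_apply_apply]
            have : q (1 ⊗ₜ[k] (⟨b, hA₂ hb⟩ : B)) = algebraMap k K₁ (β ⟨b, hA₂ hb⟩) := by
              simp [q, EVL.ev, Algebra.algebraMap_eq_smul_one]
            rw [this]
            exact A₁.algebraMap_mem _
          · change j (1 ⊗ₜ ⟨b, hA₂ hb⟩) = J.ψ b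
            simp [j]
      intro s
      obtain ⟨x, hx, hxs⟩ := h1 s.2
      have : x = Subalgebra.inclusion hjr s := Subtype.ext hxs
      rw [this] at hx
      exact hx
    obtain ⟨p, hp, hp0⟩ := hi
    apply h₁.norm
    let q' : S →ₐ[k] A₁ := (q.comp r).codRestrict A₁ hq
    refine ⟨p.map q'.toRingHom, hp.map _, ?_⟩
    have h2 : Polynomial.eval₂ r.toRingHom g' p = 0 := by
      apply hj
      have : j (Polynomial.eval₂ r.toRingHom g' p) =
          Polynomial.eval₂ (j.toRingHom.comp r.toRingHom) (j g') p := Polynomial.hom_eval₂ _ _ _ _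
      rw [this, map_zero, hjg]
      have h3 : j.toRingHom.comp r.toRingHom = algebraMap S L := by
        ext s
        exact hr s
      rw [h3]
      exact hp0
    rw [Polynomial.eval₂_map]
    have h4 : q (Polynomial.eval₂ r.toRingHom g' p) =
          Polynomial.eval₂ (q.toRingHom.comp r.toRingHom) (q g') p := Polynomial.hom_eval₂ _ _ _ _
    rw [h2, map_zero] at h4
    exact h4.symm
  -- the image in `(K₁ / A₁) ⊗ B` is zero
  let V := Subalgebra.toSubmodule A₁
  have hex := rTensor_exact B (f := V.subtype) (g := V.mkQ) (LinearMap.exact_subtype_mkQ V)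
    V.mkQ_surjective
  have h0 : LinearMap.rTensor B V.mkQ g' = 0 := by
    apply ev_zero
    intro β
    have h5 : LinearMap.lTensor (K₁ ⧸ V) β.toLinearMap (LinearMap.rTensor B V.mkQ g') =
        LinearMap.rTensor k V.mkQ (LinearMap.lTensor K₁ β.toLinearMap g') := by
      rw [← LinearMap.comp_apply, ← LinearMap.comp_apply, LinearMap.lTensor_comp_rTensor,
        LinearMap.rTensor_comp_lTensor]
    have h6 : ∀ x : K₁ ⊗[k] k, TensorProduct.rid k (K₁ ⧸ V) (LinearMap.rTensor k V.mkQ x) =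
        V.mkQ (TensorProduct.rid k K₁ x) := by
      intro x
      induction x with
      | zero => simp
      | add x y hx hy => rw [map_add, map_add, hx, hy, map_add, map_add]
      | tmul a b => simp
    rw [h5, h6, ← EVL.ev_apply]
    exact (Submodule.Quotient.mk_eq_zero _).2 (hev β)
  obtain ⟨g₀, hg₀⟩ := (hex g').1 h0
  refine ⟨Algebra.TensorProduct.map (AlgHom.id k A₁) B.val g₀, ?_⟩
  rw [← hg', ← hg₀]
  clear hg₀
  induction g₀ with
  | zero => simp
  | add x y hx hy => simp only [map_add, hx, hy]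
  | tmul a b => simp [V]

end Ev

section Swap
variable {k : Type u} {K₁ K₂ L : Type v} [Field k] [Field K₁]
    [Field K₂] [Field L] [Algebra k K₁] [Algebra k K₂] [Algebra k L]

theorem swap_π (J : Join k K₁ K₂ L) (x : K₁ ⊗[k] K₂) :
    J.swap.π (Algebra.TensorProduct.comm k K₁ K₂ x) = J.π x := by
  induction x with
  | zero => simp
  | add x y hx hy => rw [map_add, map_add, hx, hy, map_add]
  | tmul a b => simp [Join.swap, mul_comm]

theorem swap_range (J : Join k K₁ K₂ L) : J.swap.π.range = J.π.range := by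
  apply le_antisymm
  · rintro _ ⟨x, rfl⟩
    refine ⟨(Algebra.TensorProduct.comm k K₁ K₂).symm x, ?_⟩
    change J.π _ = J.swap.π x
    rw [← swap_π, AlgEquiv.apply_symm_apply]
  · rintro _ ⟨x, rfl⟩
    exact ⟨_, swap_π J x⟩

end Swap

/-! ### `K₁ ⊗ K₂` is integrally closed -/

/-- the derivative trick: an element integral over `R` is, after multiplication by `P'(θ)`, a
polynomial in `θ` with coefficients in `R` -/
theorem key {R F F₂ K₂ L : Type*} [CommRing R] [IsDomain R] [IsIntegrallyClosed R] [Field F]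
    [Field F₂] [Field K₂] [Field L] [Algebra R F] [IsFractionRing R F] [Algebra F L] [Algebra R L]
    [IsScalarTower R F L] [Algebra F₂ K₂] (i : F₂ →+* R) (ψ : K₂ →+* L)
    (hc : ∀ x, ψ (algebraMap F₂ K₂ x) = algebraMap R L (i x)) (θ : K₂) (hθ : IsIntegral F₂ θ)
    (lin : ∀ q : Polynomial F, q.natDegree < (minpoly F₂ θ).natDegree →
      Polynomial.aeval (ψ θ) q = 0 → q = 0)
    (span : Algebra.adjoin F {ψ θ} = ⊤) (f : L) (hf : IsIntegral R f) :
    ∃ g : Polynomial R, ψ (Polynomial.aeval θ (Polynomial.derivative (minpoly F₂ θ))) * f =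
      Polynomial.aeval (ψ θ) g := by
  classical
  let P := minpoly F₂ θ
  let G : Polynomial F := P.map ((algebraMap R F).comp i)
  have hcF : ψ.comp (algebraMap F₂ K₂) = (algebraMap F L).comp ((algebraMap R F).comp i) := by
    ext x
    have h1 := hc x
    have h2 : algebraMap R L (i x) = algebraMap F L (algebraMap R F (i x)) :=
      IsScalarTower.algebraMap_apply R F L _
    simpa [h2] using h1
  have haev : ∀ p : Polynomial F₂, Polynomial.aeval (ψ θ) (p.map ((algebraMap R F).comp i)) =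
      ψ (Polynomial.aeval θ p) := by
    intro p
    rw [Polynomial.aeval_def, Polynomial.eval₂_map, ← hcF, Polynomial.aeval_def,
      Polynomial.hom_eval₂]
  have hPm : P.Monic := minpoly.monic hθ
  have hGm : G.Monic := hPm.map _
  have hG0 : Polynomial.aeval (ψ θ) G = 0 := by
    rw [haev]
    simp [P]
  have hGdeg : G.natDegree = P.natDegree := hPm.natDegree_map _
  have hmin : G = minpoly F (ψ θ) := by
    refine minpoly.unique F (ψ θ) hGm hG0 ?_
    intro q hq hq0
    by_contra hlt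
    push Not at hlt
    have h1 : q.natDegree < G.natDegree := Polynomial.natDegree_lt_natDegree hq.ne_zero hlt
    rw [hGdeg] at h1
    exact hq.ne_zero (lin q h1 hq0)
  let φ : Polynomial F →ₐ[R] L := (Polynomial.aeval (R := F) (ψ θ)).restrictScalars R
  have hφ : Function.Surjective φ := by
    intro x
    have hx : x ∈ Algebra.adjoin F {ψ θ} := by rw [span]; trivial
    rw [Algebra.adjoin_singleton_eq_range_aeval] at hx
    exact hx
  have hker : RingHom.ker φ.toRingHom = Ideal.span {G} := by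
    rw [hmin, Ideal.span, ← minpoly.ker_aeval_eq_span_minpoly]
    rfl
  have hint : ∀ n, IsIntegral R (G.coeff n) := by
    intro n
    rw [Polynomial.coeff_map]
    exact isIntegral_algebraMap
  obtain ⟨g, hg, hgi⟩ := exists_derivative_mul_eq_and_isIntegral_coeff hφ hGm hint hker hf
  have hgl : ∃ g' : Polynomial R, g'.map (algebraMap R F) = g := by
    have : g ∈ Polynomial.lifts (algebraMap R F) := by
      rw [Polynomial.lifts_iff_coeff_lifts]
      intro n
      obtain ⟨r, hr⟩ := IsIntegrallyClosed.isIntegral_iff.1 (hgi n)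
      exact ⟨r, hr⟩
    exact (Polynomial.mem_lifts _).1 this
  obtain ⟨g', rfl⟩ := hgl
  refine ⟨g', ?_⟩
  have h1 : φ (Polynomial.derivative G) = ψ (Polynomial.aeval θ (Polynomial.derivative P)) := by
    change Polynomial.aeval (ψ θ) (Polynomial.derivative G) = _
    rw [Polynomial.derivative_map, haev]
  have h2 : φ (g'.map (algebraMap R F)) = Polynomial.aeval (ψ θ) g' := by
    change Polynomial.aeval (ψ θ) (g'.map (algebraMap R F)) = _
    rw [Polynomial.aeval_map_algebraMap]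
  rw [← h1, hg, h2]

theorem intClosed_loc {k A F M : Type*} [Field k] [CommRing A] [Field F] [Field M]
    [Algebra k A] [Algebra k F] [Algebra A F] [IsScalarTower k A F] [IsFractionRing A F]
    [Algebra k M] [IsDomain (A ⊗[k] M)] [IsIntegrallyClosed (A ⊗[k] M)] :
    IsIntegrallyClosed (F ⊗[k] M) := by
  have hinj : Function.Injective (Algebra.TensorProduct.includeLeft : A →ₐ[k] A ⊗[k] M) :=
    Algebra.TensorProduct.includeLeft_injective (FaithfulSMul.algebraMap_injective k M)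
  let q : A ⊗[k] M →ₐ[k] F ⊗[k] M :=
    Algebra.TensorProduct.map (IsScalarTower.toAlgHom k A F) (AlgHom.id k M)
  let _ : Algebra (A ⊗[k] M) (F ⊗[k] M) :=
    RingHom.toAlgebra (R := A ⊗[k] M) (S := F ⊗[k] M) q.toRingHom
  have : IsScalarTower A (A ⊗[k] M) (F ⊗[k] M) := by
    refine IsScalarTower.of_algebraMap_eq fun x => ?_
    change _ = q (x ⊗ₜ 1)
    simp [q]
  have := IsLocalization.tensorProduct_tensorProduct k M (nonZeroDivisors A) F (by
    ext x
    change q (1 ⊗ₜ x) = 1 ⊗ₜ x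
    simp [q])
  refine isIntegrallyClosed_of_isLocalization (F ⊗[k] M)
    (Algebra.algebraMapSubmonoid (A ⊗[k] M) (nonZeroDivisors A)) ?_
  rintro _ ⟨a, ha, rfl⟩
  rw [mem_nonZeroDivisors_iff_ne_zero]
  intro h0
  have : Nontrivial A := (algebraMap A F).domain_nontrivial
  exact nonZeroDivisors.ne_zero ha (hinj (h0.trans (map_zero _).symm))

open scoped IntermediateField.algebraAdjoinAdjoin in
/-- `F₂ ⊗ K₁` is integrally closed if `F₂` is purely transcendental -/
theorem intClosed {k : Type u} {K₁ K₂ : Type v} [Field k] [Field K₁] [Field K₂] [Algebra k K₁]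
    [Algebra k K₂] {n : ℕ} (y : Fin n → K₂) (hy : AlgebraicIndependent k y) :
    IsIntegrallyClosed (IntermediateField.adjoin k (Set.range y) ⊗[k] K₁) := by
  let e : MvPolynomial (Fin n) K₁ ≃+* Algebra.adjoin k (Set.range y) ⊗[k] K₁ :=
    ((MvPolynomial.algebraTensorAlgEquiv k K₁).symm.toRingEquiv.trans
      (Algebra.TensorProduct.comm k K₁ (MvPolynomial (Fin n) k)).toRingEquiv).trans
      (Algebra.TensorProduct.congr hy.aevalEquiv (AlgEquiv.refl (R := k) (A₁ := K₁))).toRingEquiv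
  have : IsDomain (Algebra.adjoin k (Set.range y) ⊗[k] K₁) := e.symm.toMulEquiv.isDomain
  have hI : IsIntegrallyClosed (MvPolynomial (Fin n) K₁) :=
    UniqueFactorizationMonoid.instIsIntegrallyClosed
  have : IsIntegrallyClosed (Algebra.adjoin k (Set.range y) ⊗[k] K₁) :=
    IsIntegrallyClosed.of_equiv e
  exact intClosed_loc (k := k) (A := Algebra.adjoin k (Set.range y))

/-- powers of `θ` are independent over `F₂ ⊗ K₁` -/
theorem lin_indep {k F₂ K₁ K₂ L : Type*} [Field k] [Field F₂] [Field K₁] [Field K₂] [Field L]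
    [Algebra k F₂] [Algebra k K₁] [Algebra k K₂] [Algebra k L] [Algebra F₂ K₂]
    [IsScalarTower k F₂ K₂] (π : K₂ ⊗[k] K₁ →ₐ[k] L) (hπ : Function.Injective π)
    [Algebra (F₂ ⊗[k] K₁) L]
    (hR : ∀ (x : F₂) (a : K₁), algebraMap (F₂ ⊗[k] K₁) L (x ⊗ₜ a) = π (algebraMap F₂ K₂ x ⊗ₜ a))
    {ι : Type*} (b : Module.Basis ι F₂ K₂) :
    LinearIndependent (F₂ ⊗[k] K₁) (fun i => π (b i ⊗ₜ 1)) := by
  let R := F₂ ⊗[k] K₁
  let _ : Algebra F₂ L := ((algebraMap R L).comp (algebraMap F₂ R)).toAlgebra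
  have : IsScalarTower F₂ R L := IsScalarTower.of_algebraMap_eq fun _ => rfl
  let ψ : K₂ →ₐ[F₂] L :=
    { (π.toRingHom.comp Algebra.TensorProduct.includeLeftRingHom : K₂ →+* L) with
      commutes' := by
        intro x
        change π (algebraMap F₂ K₂ x ⊗ₜ 1) = algebraMap R L (x ⊗ₜ 1)
        rw [hR] }
  let H : R ⊗[F₂] K₂ →ₐ[R] L := Algebra.TensorProduct.lift (Algebra.ofId R L) ψ
    (fun _ _ => Commute.all _ _)
  have hH : ∀ x : R ⊗[F₂] K₂, H x = π (Algebra.TensorProduct.cancelBaseChange k F₂ F₂ K₂ K₁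
      (Algebra.TensorProduct.comm F₂ R K₂ x)) := by
    intro x
    induction x with
    | zero => simp
    | add x y hx hy => rw [map_add, hx, hy, map_add, map_add, map_add]
    | tmul r c =>
      induction r using TensorProduct.induction_on with
      | zero => simp
      | add r r' hr hr' =>
        rw [TensorProduct.add_tmul, map_add, hr, hr', map_add, map_add, map_add]
      | tmul s a =>
        rw [Algebra.TensorProduct.comm_tmul, Algebra.TensorProduct.cancelBaseChange_tmul]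
        have h1 : H ((s ⊗ₜ a : R) ⊗ₜ[F₂] c) = algebraMap R L (s ⊗ₜ a) * π (c ⊗ₜ 1) := rfl
        rw [h1, hR, ← map_mul, Algebra.TensorProduct.tmul_mul_tmul, mul_one, Algebra.smul_def]
  have hinj : Function.Injective H := by
    have : (H : R ⊗[F₂] K₂ → L) = π ∘ (Algebra.TensorProduct.cancelBaseChange k F₂ F₂ K₂ K₁) ∘
        (Algebra.TensorProduct.comm F₂ R K₂) := by
      funext x
      exact hH x
    rw [this]
    exact hπ.comp ((AlgEquiv.injective _).comp (AlgEquiv.injective _))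
  have hb := (b.baseChange R).linearIndependent
  have h2 := hb.map' H.toLinearMap (LinearMap.ker_eq_bot.2 hinj)
  have h3 : H.toLinearMap ∘ (b.baseChange R) = fun i => π (b i ⊗ₜ 1) := by
    funext i
    change H ((b.baseChange R) i) = _
    rw [Module.Basis.baseChange_apply]
    change algebraMap R L 1 * π (b i ⊗ₜ 1) = _
    rw [map_one, one_mul]
  rwa [h3] at h2

/-- a field which is the fraction field of a finitely generated algebra is finitely generated -/
theorem finite_of_good {k : Type u} {K₂ : Type v} [Field k] [Field K₂] [Algebra k K₂]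
    {A₂ : Subalgebra k K₂} (h₂ : IsGood A₂) (F₂ : IntermediateField k K₂)
    [Algebra.IsAlgebraic F₂ K₂] : FiniteDimensional F₂ K₂ := by
  obtain ⟨t, ht⟩ := h₂.fg
  have h1 : FiniteDimensional F₂ (IntermediateField.adjoin F₂ (t : Set K₂)) :=
    IntermediateField.finiteDimensional_adjoin fun x _ =>
      (Algebra.IsAlgebraic.isAlgebraic (R := F₂) x).isIntegral
  have h2 : IntermediateField.adjoin F₂ (t : Set K₂) = ⊤ := by
    rw [eq_top_iff]
    intro x _
    have h3 : A₂ ≤ ((IntermediateField.adjoin F₂ (t : Set K₂)).restrictScalars k).toSubalgebra := by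
      rw [← ht]
      exact Algebra.adjoin_le (IntermediateField.subset_adjoin F₂ _)
    obtain ⟨a, b, _, rfl⟩ := h₂.frac x
    exact div_mem (h3 a.2) (h3 b.2)
  rw [h2] at h1
  exact Module.Finite.equiv (IntermediateField.topEquiv (F := F₂) (E := K₂)).toLinearEquiv

theorem join_closed_aux {k F₂ K₁ K₂ L : Type*} [Field k] [Field F₂] [Field K₁] [Field K₂]
    [Field L] [Algebra k F₂] [Algebra k K₁] [Algebra k K₂] [Algebra k L] [Algebra F₂ K₂]
    [IsScalarTower k F₂ K₂] [FiniteDimensional F₂ K₂] [Algebra.IsSeparable F₂ K₂]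
    [IsIntegrallyClosed (F₂ ⊗[k] K₁)]
    (π : K₂ ⊗[k] K₁ →ₐ[k] L) (hπ : Function.Injective π)
    (hfrac : ∀ f : L, ∃ a b : K₂ ⊗[k] K₁, π b ≠ 0 ∧ f = π a / π b)
    (f : L) (hf : IsIntegral π.range f) : f ∈ π.range := by
  classical
  let jR : F₂ ⊗[k] K₁ →ₐ[k] L := π.comp
    (Algebra.TensorProduct.map (IsScalarTower.toAlgHom k F₂ K₂) (AlgHom.id k K₁))
  have hjR : Function.Injective jR := by
    refine hπ.comp ?_
    have h : Function.Injective
        (LinearMap.rTensor K₁ (IsScalarTower.toAlgHom k F₂ K₂).toLinearMap) :=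
      Module.Flat.rTensor_preserves_injective_linearMap _ (algebraMap F₂ K₂).injective
    exact h
  let iR : Algebra (F₂ ⊗[k] K₁) L := jR.toRingHom.toAlgebra
  have hdom : IsDomain (F₂ ⊗[k] K₁) := hjR.isDomain jR.toRingHom
  have hR : ∀ (x : F₂) (a : K₁), algebraMap (F₂ ⊗[k] K₁) L (x ⊗ₜ a) =
      π (algebraMap F₂ K₂ x ⊗ₜ a) := fun _ _ => rfl
  let F := FractionRing (F₂ ⊗[k] K₁)
  let iF : Algebra F L := (IsFractionRing.lift (A := F₂ ⊗[k] K₁) (K := F) (g := jR.toRingHom)
    hjR).toAlgebra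
  have : IsScalarTower (F₂ ⊗[k] K₁) F L := by
    refine IsScalarTower.of_algebraMap_eq fun x => ?_
    exact (IsFractionRing.lift_algebraMap (A := F₂ ⊗[k] K₁) (K := F) (g := jR.toRingHom)
      hjR x).symm
  let pb : PowerBasis F₂ K₂ := Field.powerBasisOfFiniteOfSeparable F₂ K₂
  let ψ : K₂ →+* L := π.toRingHom.comp Algebra.TensorProduct.includeLeftRingHom
  let i : F₂ →+* F₂ ⊗[k] K₁ := Algebra.TensorProduct.includeLeftRingHom
  have hc : ∀ x, ψ (algebraMap F₂ K₂ x) = algebraMap (F₂ ⊗[k] K₁) L (i x) := fun _ => rfl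
  have hint : IsIntegral F₂ pb.gen := Algebra.IsIntegral.isIntegral _
  have hψalg : ∀ x : K₂, IsIntegral (F₂ ⊗[k] K₁) (ψ x) := by
    intro x
    have h1 : IsIntegral F₂ x := Algebra.IsIntegral.isIntegral _
    refine h1.map_of_comp_eq i ψ ?_
    ext x
    exact (hc x).symm
  -- independence
  have hlin1 := NORM.lin_indep π hπ hR pb.basis
  have hlin2 : LinearIndependent F (fun i => π (pb.basis i ⊗ₜ 1)) :=
    (LinearIndependent.iff_fractionRing (F₂ ⊗[k] K₁) F).1 hlin1
  have hlin : ∀ q : Polynomial F, q.natDegree < (minpoly F₂ pb.gen).natDegree →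
      Polynomial.aeval (ψ pb.gen) q = 0 → q = 0 := by
    intro q hq hq0
    rw [pb.natDegree_minpoly] at hq
    rw [Polynomial.aeval_eq_sum_range' hq, ← Fin.sum_univ_eq_sum_range
      (fun j => q.coeff j • (ψ pb.gen) ^ j)] at hq0
    have h1 := Fintype.linearIndependent_iff.1 hlin2 (fun j => q.coeff j) (by
      rw [← hq0]
      refine Finset.sum_congr rfl fun j _ => ?_
      rw [pb.basis_eq_pow, ← map_pow]
      rfl)
    ext j
    rw [Polynomial.coeff_zero]
    by_cases hj : j < pb.dim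
    · exact h1 ⟨j, hj⟩
    · exact Polynomial.coeff_eq_zero_of_natDegree_lt (by omega)
  -- span
  have hintπ : ∀ x : K₂ ⊗[k] K₁, IsIntegral (F₂ ⊗[k] K₁) (π x) := by
    intro x
    induction x with
    | zero => rw [map_zero]; exact isIntegral_zero
    | add x y hx hy => rw [map_add]; exact hx.add hy
    | tmul c a =>
      have h1 : c ⊗ₜ[k] a = (c ⊗ₜ 1) * (1 ⊗ₜ a) := by simp
      rw [h1, map_mul]
      refine (hψalg c).mul ?_
      have h2 : π (1 ⊗ₜ a) = algebraMap (F₂ ⊗[k] K₁) L (1 ⊗ₜ a) := by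
        rw [hR, map_one]
      rw [h2]
      exact isIntegral_algebraMap
  have hmem1 : ∀ x : K₂ ⊗[k] K₁, π x ∈ Algebra.adjoin F {ψ pb.gen} := by
    intro x
    induction x with
    | zero => rw [map_zero]; exact zero_mem _
    | add x y hx hy => rw [map_add]; exact add_mem hx hy
    | tmul c a =>
      have h1 : c ⊗ₜ[k] a = (c ⊗ₜ 1) * (1 ⊗ₜ a) := by simp
      rw [h1, map_mul]
      refine mul_mem ?_ ?_
      · obtain ⟨p, hp⟩ := pb.exists_eq_aeval' c
        have h3 : π (c ⊗ₜ 1) = Polynomial.aeval (ψ pb.gen)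
            (p.map ((algebraMap (F₂ ⊗[k] K₁) F).comp i)) := by
          rw [Polynomial.aeval_def, Polynomial.eval₂_map, ← RingHom.comp_assoc,
            ← IsScalarTower.algebraMap_eq]
          have h4 : (algebraMap (F₂ ⊗[k] K₁) L).comp i = ψ.comp (algebraMap F₂ K₂) := by
            ext x
            exact (hc x).symm
          rw [h4, ← Polynomial.hom_eval₂, ← Polynomial.aeval_def, ← hp]
          rfl
        rw [h3, Algebra.adjoin_singleton_eq_range_aeval]
        exact ⟨_, rfl⟩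
      · have h2 : π (1 ⊗ₜ a) = algebraMap F L (algebraMap (F₂ ⊗[k] K₁) F (1 ⊗ₜ a)) := by
          rw [← IsScalarTower.algebraMap_apply, hR, map_one]
        rw [h2]
        exact Subalgebra.algebraMap_mem _ _
  have hspan : Algebra.adjoin F {ψ pb.gen} = ⊤ := by
    rw [eq_top_iff]
    intro x _
    obtain ⟨a, b, hb, rfl⟩ := hfrac x
    rw [div_eq_mul_inv]
    refine mul_mem (hmem1 a) ?_
    have h1 : IsAlgebraic F (π b) := ((hintπ b).tower_top (A := F)).isAlgebraic
    exact Subalgebra.inv_mem_of_algebraic _ (x := ⟨π b, hmem1 b⟩) h1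
  -- integrality over `R`
  have hfR : IsIntegral (F₂ ⊗[k] K₁) f := by
    let C := integralClosure (F₂ ⊗[k] K₁) L
    let σ : π.range →+* C :=
      { toFun := fun z => ⟨z, by obtain ⟨x, hx⟩ := z.2; rw [← hx]; exact hintπ x⟩
        map_one' := rfl
        map_mul' := fun _ _ => rfl
        map_zero' := rfl
        map_add' := fun _ _ => rfl }
    have h1 : IsIntegral C f := by
      obtain ⟨p, hp, hp0⟩ := hf
      refine ⟨p.map σ, hp.map _, ?_⟩
      rw [Polynomial.eval₂_map]
      exact hp0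
    exact isIntegral_trans (R := F₂ ⊗[k] K₁) (A := C) f h1
  obtain ⟨g, hg⟩ := NORM.key i ψ hc pb.gen hint hlin hspan f hfR
  have hne : Polynomial.aeval pb.gen (Polynomial.derivative (minpoly F₂ pb.gen)) ≠ 0 :=
    (Algebra.IsSeparable.isSeparable F₂ pb.gen).aeval_derivative_ne_zero (minpoly.aeval _ _)
  have hg' : Polynomial.aeval (ψ pb.gen) g ∈ π.range := by
    rw [Polynomial.aeval_eq_sum_range]
    refine sum_mem fun j _ => ?_
    rw [Algebra.smul_def]
    have h5 : algebraMap (F₂ ⊗[k] K₁) L (g.coeff j) ∈ π.range := ⟨_, rfl⟩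
    have h6 : ψ pb.gen ∈ π.range := ⟨pb.gen ⊗ₜ 1, rfl⟩
    exact mul_mem h5 (pow_mem h6 _)
  have h1 : f = ψ (Polynomial.aeval pb.gen (Polynomial.derivative (minpoly F₂ pb.gen)))⁻¹ *
      Polynomial.aeval (ψ pb.gen) g := by
    rw [← hg, ← mul_assoc, ← map_mul, inv_mul_cancel₀ hne, map_one, one_mul]
  rw [h1]
  have h2 : ψ (Polynomial.aeval pb.gen (Polynomial.derivative (minpoly F₂ pb.gen)))⁻¹ ∈
      π.range := ⟨_ ⊗ₜ 1, rfl⟩
  exact mul_mem h2 hg'

end NORM

section NORM
variable {k : Type u} {K₁ K₂ L : Type v} [Field k] [IsAlgClosed k] [CharZero k] [Field K₁]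
    [Field K₂] [Field L] [Algebra k K₁] [Algebra k K₂] [Algebra k L] (J : Join k K₁ K₂ L)
    {A₁ : Subalgebra k K₁} {A₂ : Subalgebra k K₂} {S : Subalgebra k L}
    {ι₁ : A₁ →ₐ[k] S} {ι₂ : A₂ →ₐ[k] S}

/-- `K₁ ⊗ K₂` is integrally closed in `L` -/
theorem join_closed (h₂ : IsGood A₂) {n : ℕ} (y₂ : Fin n → K₂)
    (hy₂ : IsTranscendenceBasis k y₂) (f : L) (hf : IsIntegral J.π.range f) :
    f ∈ J.π.range := by
  have halg : Algebra.IsAlgebraic (IntermediateField.adjoin k (Set.range y₂)) K₂ :=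
    hy₂.isAlgebraic_field
  have hfin := NORM.finite_of_good h₂ (IntermediateField.adjoin k (Set.range y₂))
  have : CharZero (IntermediateField.adjoin k (Set.range y₂)) :=
    charZero_of_injective_algebraMap (algebraMap k _).injective
  have hIC := NORM.intClosed (K₁ := K₁) y₂ hy₂.1
  rw [← NORM.swap_range] at hf ⊢
  exact NORM.join_closed_aux (F₂ := IntermediateField.adjoin k (Set.range y₂)) J.swap.π
    J.swap.inj J.swap.frac f hf

/-- `A₁ ⊗ A₂` is integrally closed in `K₁ ⊗ K₂` -/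
theorem ev_closed (hP : IsProd J ι₁ ι₂) (h₁ : IsGood A₁) (h₂ : IsGood A₂) (f : L)
    (hf : f ∈ J.π.range) (hi : IsIntegral S f) : f ∈ S := by
  obtain ⟨g, rfl⟩ := hf
  obtain ⟨g₁, hg₁⟩ := NORM.step J hP h₁ h₂ g hi
  have hsw := NORM.swap_π J g
  obtain ⟨g₂, hg₂⟩ := NORM.step J.swap hP.swap h₂ h₁ (Algebra.TensorProduct.comm k K₁ K₂ g)
    (by rw [hsw]; exact hi)
  let V := Subalgebra.toSubmodule A₂
  -- `g` dies in `K₁ ⊗ (K₂ / A₂)`
  have h0 : LinearMap.lTensor K₁ V.mkQ g = 0 := by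
    have h1 : g = Algebra.TensorProduct.comm k K₂ K₁
        (Algebra.TensorProduct.map A₂.val (AlgHom.id k K₁) g₂) := by
      rw [hg₂]
      exact (AlgEquiv.symm_apply_apply (Algebra.TensorProduct.comm k K₁ K₂) g).symm
    rw [h1]
    clear h1 hg₂
    induction g₂ with
    | zero => simp
    | add x y hx hy => simp only [map_add, hx, hy, add_zero]
    | tmul a b =>
      have : V.mkQ (a : K₂) = 0 := (Submodule.Quotient.mk_eq_zero _).2 a.2
      simp [this]
  have h1 : LinearMap.rTensor (K₂ ⧸ V) A₁.val.toLinearMap (LinearMap.lTensor A₁ V.mkQ g₁) = 0 := by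
    rw [← LinearMap.comp_apply, LinearMap.rTensor_comp_lTensor, ← LinearMap.lTensor_comp_rTensor,
      LinearMap.comp_apply]
    have : LinearMap.rTensor K₂ A₁.val.toLinearMap g₁ = g := hg₁
    rw [this, h0]
  have h2 : LinearMap.lTensor A₁ V.mkQ g₁ = 0 := by
    have hinj : Function.Injective (LinearMap.rTensor (K₂ ⧸ V) A₁.val.toLinearMap) :=
      Module.Flat.rTensor_preserves_injective_linearMap _ Subtype.val_injective
    exact hinj (by rw [h1, map_zero])
  have hex := lTensor_exact A₁ (f := V.subtype) (g := V.mkQ) (LinearMap.exact_subtype_mkQ V)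
    V.mkQ_surjective
  obtain ⟨g₀, hg₀⟩ := (hex g₁).1 h2
  rw [← hg₁, ← hg₀, hP.eq_sup]
  clear hg₀
  induction g₀ with
  | zero => simp
  | add x y hx hy =>
    rw [map_add, map_add, map_add]
    exact add_mem hx hy
  | tmul a b =>
    have h3 : J.φ (a : K₁) ∈ A₁.map J.φ ⊔ A₂.map J.ψ :=
      (le_sup_left : A₁.map J.φ ≤ _) ⟨a, a.2, rfl⟩
    have h4 : J.ψ (b : K₂) ∈ A₁.map J.φ ⊔ A₂.map J.ψ :=
      (le_sup_right : A₂.map J.ψ ≤ _) ⟨b, b.2, rfl⟩
    simpa using mul_mem h3 h4

theorem prod_good (hP : IsProd J ι₁ ι₂) (h₁ : IsGood A₁) (h₂ : IsGood A₂) {n : ℕ} (y₂ : Fin n → K₂)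
    (hy₂ : IsTranscendenceBasis k y₂) : IsGood S := by
  have hl : A₁.map J.φ ≤ S := by rw [hP.eq_sup]; exact le_sup_left
  have hr : A₂.map J.ψ ≤ S := by rw [hP.eq_sup]; exact le_sup_right
  have hSR : S ≤ J.π.range := by
    rw [hP.eq_sup]
    refine sup_le ?_ ?_
    · rintro _ ⟨a, _, rfl⟩
      exact ⟨a ⊗ₜ 1, by simp⟩
    · rintro _ ⟨b, _, rfl⟩
      exact ⟨1 ⊗ₜ b, by simp⟩
  have hfr : ∀ x : K₁ ⊗[k] K₂, ∃ a b : S, (b : L) ≠ 0 ∧ J.π x = (a : L) / b := by
    intro x
    induction x with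
    | zero => exact ⟨0, 1, by simp, by simp⟩
    | add x y hx hy =>
      obtain ⟨a, b, hb, h⟩ := hx
      obtain ⟨a', b', hb', h'⟩ := hy
      refine ⟨a * b' + b * a', b * b', ?_, ?_⟩
      · exact mul_ne_zero hb hb'
      · rw [map_add, h, h', div_add_div _ _ hb hb']
        simp
    | tmul c d =>
      obtain ⟨a, b, hb, h⟩ := h₁.frac c
      obtain ⟨a', b', hb', h'⟩ := h₂.frac d
      refine ⟨⟨J.φ a * J.ψ a', mul_mem (hl ⟨a, a.2, rfl⟩) (hr ⟨a', a'.2, rfl⟩)⟩,
        ⟨J.φ b * J.ψ b', mul_mem (hl ⟨b, b.2, rfl⟩) (hr ⟨b', b'.2, rfl⟩)⟩, ?_, ?_⟩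
      · exact mul_ne_zero (by simpa using hb) (by simpa using hb')
      · rw [h, h']
        simp only [Algebra.TensorProduct.productMap_apply_tmul, map_div₀]
        rw [div_mul_div_comm]
  refine ⟨?_, ?_, ?_⟩
  · rw [hP.eq_sup]
    exact (h₁.fg.map J.φ).sup (h₂.fg.map J.ψ)
  · intro f
    obtain ⟨x, y, hy, hf⟩ := J.frac f
    obtain ⟨a, b, hb, h⟩ := hfr x
    obtain ⟨a', b', hb', h'⟩ := hfr y
    have ha' : (a' : L) ≠ 0 := by
      intro h0
      apply hy
      change J.π y = 0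
      rw [h', h0, zero_div]
    refine ⟨a * b', b * a', ?_, ?_⟩
    · exact mul_ne_zero hb ha'
    · have h3 : f = J.π x / J.π y := hf
      rw [h3, h, h', div_div_div_eq]
      simp
  · intro f hf
    have h1 : IsIntegral J.π.range f := by
      obtain ⟨p, hp, hp0⟩ := hf
      refine ⟨p.map (Subalgebra.inclusion hSR).toRingHom, hp.map _, ?_⟩
      rw [Polynomial.eval₂_map]
      exact hp0
    exact ev_closed J hP h₁ h₂ f (join_closed J h₂ y₂ hy₂ f h1) hf

end NORM

end Pool.Agent.MLD.Ten
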