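import Pool.Agent.Lib.MP_f23696_ag.T.TvA

/-!
# The monomial valuation of the join (module TVB of project TEN)
-/

set_option autoImplicit false

open scoped TensorProduct

namespace Pool.Agent.MLD.Ten

open Pool.Agent.MLD.Jac

universe u v w

namespace TVB

section Order
variable {k : Type u} {K₁ K₂ : Type v} [Field k] [Field K₁] [Field K₂]
    [Algebra k K₁] [Algebra k K₂] (v₁ : DVal k K₁) (v₂ : DVal k K₂) (w : ℕ)

theorem tmul_mem {a : K₁} {b : K₂} (ha : a ≠ 0) (hb : b ≠ 0) {N : ℤ}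
    (h : N ≤ w * v₁.ord a + v₂.ord b) : a ⊗ₜ[k] b ∈ Fil v₁ v₂ w N :=
  Submodule.subset_span ⟨a, b, ha, hb, h, rfl⟩

theorem one_tmul_zpow_mem {t₂ : K₂} (h₂ : t₂ ≠ 0) (ht₂ : v₂.ord t₂ = 1) (m : ℤ) :
    (1 : K₁) ⊗ₜ[k] (t₂ ^ m) ∈ Fil v₁ v₂ w m := by
  refine tmul_mem v₁ v₂ w one_ne_zero (zpow_ne_zero m h₂) ?_
  rw [ord_one, ord_zpow v₂ _ h₂, ht₂]
  simp

/-- multiplication by a power of the uniformizer -/
theorem shift_mem {t₂ : K₂} (h₂ : t₂ ≠ 0) (ht₂ : v₂.ord t₂ = 1) (m N : ℤ) (f : K₁ ⊗[k] K₂) :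
    f * ((1 : K₁) ⊗ₜ[k] (t₂ ^ m)) ∈ Fil v₁ v₂ w (N + m) ↔ f ∈ Fil v₁ v₂ w N := by
  constructor
  · intro h
    have h1 := fil_mul v₁ v₂ w h (one_tmul_zpow_mem v₁ v₂ w h₂ ht₂ (-m))
    have h2 : f * ((1 : K₁) ⊗ₜ[k] (t₂ ^ m)) * ((1 : K₁) ⊗ₜ[k] (t₂ ^ (-m))) = f := by
      rw [mul_assoc, Algebra.TensorProduct.tmul_mul_tmul, mul_one, ← zpow_add₀ h₂,
        add_neg_cancel, zpow_zero, ← Algebra.TensorProduct.one_def, mul_one]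
    rw [h2] at h1
    have h3 : N + m + -m = N := by ring
    rwa [h3] at h1
  · intro h
    exact fil_mul v₁ v₂ w h (one_tmul_zpow_mem v₁ v₂ w h₂ ht₂ m)

/-- `f` has order `N`. -/
def IsOrd (f : K₁ ⊗[k] K₂) (N : ℤ) : Prop := f ∈ Fil v₁ v₂ w N ∧ f ∉ Fil v₁ v₂ w (N + 1)

variable {v₁ v₂ w}

theorem IsOrd.ne_zero {f : K₁ ⊗[k] K₂} {N : ℤ} (h : IsOrd v₁ v₂ w f N) : f ≠ 0 := by
  rintro rfl
  exact h.2 (Submodule.zero_mem _)

theorem IsOrd.le {f : K₁ ⊗[k] K₂} {N M : ℤ} (h : IsOrd v₁ v₂ w f N)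
    (hM : f ∈ Fil v₁ v₂ w M) : M ≤ N := by
  by_contra hlt
  push Not at hlt
  exact h.2 (fil_anti v₁ v₂ w (by omega) hM)

theorem IsOrd.unique {f : K₁ ⊗[k] K₂} {N M : ℤ} (h : IsOrd v₁ v₂ w f N)
    (h' : IsOrd v₁ v₂ w f M) : N = M :=
  le_antisymm (h'.le h.1) (h.le h'.1)

variable (v₁ v₂ w)

theorem exists_isOrd (f : K₁ ⊗[k] K₂) (hf : f ≠ 0) : ∃ N, IsOrd v₁ v₂ w f N := by
  classical
  obtain ⟨B, hB⟩ := fil_sep v₁ v₂ w f hf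
  obtain ⟨N, hN, hmax⟩ := Int.exists_greatest_of_bdd (P := fun N => f ∈ Fil v₁ v₂ w N)
    ⟨B, fun z hz => by
      by_contra hlt
      push Not at hlt
      exact hB (fil_anti v₁ v₂ w hlt.le hz)⟩ (fil_exists v₁ v₂ w f)
  refine ⟨N, hN, fun h => ?_⟩
  have := hmax _ h
  omega

theorem isOrd_mul [IsAlgClosed k] (hw : 1 ≤ w) {f g : K₁ ⊗[k] K₂} {N M : ℤ}
    (hf : IsOrd v₁ v₂ w f N) (hg : IsOrd v₁ v₂ w g M) : IsOrd v₁ v₂ w (f * g) (N + M) := by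
  obtain ⟨t₁, h₁, ht₁⟩ := v₁.exists_ord_eq_one
  obtain ⟨t₂, h₂, ht₂⟩ := v₂.exists_ord_eq_one
  obtain ⟨R, _, _, _, ρ, hmul, hker, -⟩ := exists_rho v₁ v₂ w hw t₁ h₁ ht₁ t₂ h₂ ht₂
  refine ⟨fil_mul v₁ v₂ w hf.1 hg.1, fun hfg => ?_⟩
  have key : ∀ (f : K₁ ⊗[k] K₂) (N : ℤ), IsOrd v₁ v₂ w f N →
      f * ((1 : K₁) ⊗ₜ[k] (t₂ ^ (-N))) ∈ Fil v₁ v₂ w 0 ∧
      f * ((1 : K₁) ⊗ₜ[k] (t₂ ^ (-N))) ∉ Fil v₁ v₂ w 1 := by
    intro f N hf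
    have h1 := shift_mem v₁ v₂ w h₂ ht₂ (-N) N f
    have h2 := shift_mem v₁ v₂ w h₂ ht₂ (-N) (N + 1) f
    rw [show N + -N = 0 by ring] at h1
    rw [show N + 1 + -N = 1 by ring] at h2
    exact ⟨h1.2 hf.1, fun h => hf.2 (h2.1 h)⟩
  obtain ⟨hf0, hf1⟩ := key f N hf
  obtain ⟨hg0, hg1⟩ := key g M hg
  have hprod : f * ((1 : K₁) ⊗ₜ[k] (t₂ ^ (-N))) * (g * ((1 : K₁) ⊗ₜ[k] (t₂ ^ (-M)))) =
      f * g * ((1 : K₁) ⊗ₜ[k] (t₂ ^ (-(N + M)))) := by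
    rw [mul_mul_mul_comm, Algebra.TensorProduct.tmul_mul_tmul, mul_one, ← zpow_add₀ h₂]
    congr 3
    ring
  have h1 : f * g * ((1 : K₁) ⊗ₜ[k] (t₂ ^ (-(N + M)))) ∈ Fil v₁ v₂ w 1 := by
    have h2 := shift_mem v₁ v₂ w h₂ ht₂ (-(N + M)) (N + M + 1) (f * g)
    rw [show N + M + 1 + -(N + M) = 1 by ring] at h2
    exact h2.2 hfg
  have h0 : f * g * ((1 : K₁) ⊗ₜ[k] (t₂ ^ (-(N + M)))) ∈ Fil v₁ v₂ w 0 :=
    fil_anti v₁ v₂ w (by norm_num) h1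
  have h3 := hmul ⟨_, hf0⟩ ⟨_, hg0⟩ ⟨_, h0⟩ hprod.symm
  rw [(hker ⟨_, h0⟩).2 h1] at h3
  rcases mul_eq_zero.1 h3.symm with h | h
  · exact hf1 ((hker _).1 h)
  · exact hg1 ((hker _).1 h)

open Classical in
/-- the order of an element of `K₁ ⊗ K₂` -/
noncomputable def o (f : K₁ ⊗[k] K₂) : ℤ :=
  if h : f ≠ 0 then (exists_isOrd v₁ v₂ w f h).choose else 0

theorem isOrd_o {f : K₁ ⊗[k] K₂} (hf : f ≠ 0) : IsOrd v₁ v₂ w f (o v₁ v₂ w f) := by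
  unfold o
  rw [dif_pos hf]
  exact (exists_isOrd v₁ v₂ w f hf).choose_spec

theorem le_o {f : K₁ ⊗[k] K₂} (hf : f ≠ 0) {N : ℤ} (h : f ∈ Fil v₁ v₂ w N) :
    N ≤ o v₁ v₂ w f := (isOrd_o v₁ v₂ w hf).le h

theorem o_mul [IsAlgClosed k] (hw : 1 ≤ w) {f g : K₁ ⊗[k] K₂} (hf : f ≠ 0) (hg : g ≠ 0) :
    o v₁ v₂ w (f * g) = o v₁ v₂ w f + o v₁ v₂ w g := by
  have h := isOrd_mul v₁ v₂ w hw (isOrd_o v₁ v₂ w hf) (isOrd_o v₁ v₂ w hg)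
  exact (isOrd_o v₁ v₂ w h.ne_zero).unique h

theorem o_add {f g : K₁ ⊗[k] K₂} (hf : f ≠ 0) (hg : g ≠ 0) (hfg : f + g ≠ 0) :
    min (o v₁ v₂ w f) (o v₁ v₂ w g) ≤ o v₁ v₂ w (f + g) := by
  refine le_o v₁ v₂ w hfg (Submodule.add_mem _ ?_ ?_)
  · exact fil_anti v₁ v₂ w (min_le_left _ _) (isOrd_o v₁ v₂ w hf).1
  · exact fil_anti v₁ v₂ w (min_le_right _ _) (isOrd_o v₁ v₂ w hg).1

theorem one_ne : (1 : K₁ ⊗[k] K₂) ≠ 0 := by
  have := Algebra.TensorProduct.nontrivial_of_algebraMap_injective_of_isDomain k K₁ K₂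
    (algebraMap k K₁).injective (algebraMap k K₂).injective
  exact one_ne_zero

theorem o_one [IsAlgClosed k] (hw : 1 ≤ w) : o v₁ v₂ w (1 : K₁ ⊗[k] K₂) = 0 := by
  have h := o_mul v₁ v₂ w hw (one_ne (k := k) (K₁ := K₁) (K₂ := K₂)) one_ne
  rw [mul_one] at h
  omega

theorem o_smul (c : k) (hc : c ≠ 0) {f : K₁ ⊗[k] K₂} (hf : f ≠ 0) :
    o v₁ v₂ w (c • f) = o v₁ v₂ w f := by
  have h := isOrd_o v₁ v₂ w hf
  have h' : IsOrd v₁ v₂ w (c • f) (o v₁ v₂ w f) := by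
    refine ⟨Submodule.smul_mem _ c h.1, fun h2 => h.2 ?_⟩
    exact (Submodule.smul_mem_iff _ hc).1 h2
  exact (isOrd_o v₁ v₂ w h'.ne_zero).unique h'

theorem tmul_ne {a : K₁} {b : K₂} (ha : a ≠ 0) (hb : b ≠ 0) : a ⊗ₜ[k] b ≠ 0 := by
  intro h
  have h1 : a ⊗ₜ[k] b * (a⁻¹ ⊗ₜ[k] b⁻¹) = 1 := by
    rw [Algebra.TensorProduct.tmul_mul_tmul, mul_inv_cancel₀ ha, mul_inv_cancel₀ hb]
    rfl
  rw [h, zero_mul] at h1
  exact one_ne h1.symm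

theorem o_tmul [IsAlgClosed k] (hw : 1 ≤ w) {a : K₁} {b : K₂} (ha : a ≠ 0) (hb : b ≠ 0) :
    o v₁ v₂ w (a ⊗ₜ[k] b) = w * v₁.ord a + v₂.ord b := by
  have h1 : a ⊗ₜ[k] b * (a⁻¹ ⊗ₜ[k] b⁻¹) = 1 := by
    rw [Algebra.TensorProduct.tmul_mul_tmul, mul_inv_cancel₀ ha, mul_inv_cancel₀ hb]
    rfl
  have ha' := inv_ne_zero ha
  have hb' := inv_ne_zero hb
  have h2 := o_mul v₁ v₂ w hw (tmul_ne (k := k) ha hb) (tmul_ne (k := k) ha' hb')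
  rw [h1, o_one v₁ v₂ w hw] at h2
  have h3 := le_o v₁ v₂ w (tmul_ne (k := k) ha hb) (tmul_mem v₁ v₂ w ha hb le_rfl)
  have h4 := le_o v₁ v₂ w (tmul_ne (k := k) ha' hb') (tmul_mem v₁ v₂ w ha' hb' le_rfl)
  rw [ord_inv v₁ _ ha, ord_inv v₂ _ hb] at h4
  have h5 : (w : ℤ) * -v₁.ord a + -v₂.ord b = -((w : ℤ) * v₁.ord a + v₂.ord b) := by ring
  omega

end Order

section Val
variable {k : Type u} {K₁ K₂ L : Type v} [Field k] [Field K₁] [Field K₂] [Field L]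
    [Algebra k K₁] [Algebra k K₂] [Algebra k L] (J : Join k K₁ K₂ L)
    (v₁ : DVal k K₁) (v₂ : DVal k K₂) (w : ℕ)

theorem pi_ne {a : K₁ ⊗[k] K₂} (ha : a ≠ 0) : J.π a ≠ 0 := by
  intro h
  exact ha (J.inj (by rw [h, map_zero]))

theorem exists_frac (x : L) (hx : x ≠ 0) : ∃ ab : (K₁ ⊗[k] K₂) × (K₁ ⊗[k] K₂),
    ab.1 ≠ 0 ∧ ab.2 ≠ 0 ∧ x = J.π ab.1 / J.π ab.2 := by
  obtain ⟨a, b, hb, h⟩ := J.frac x
  refine ⟨(a, b), ?_, ?_, h⟩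
  · rintro rfl
    apply hx
    rw [h, map_zero, zero_div]
  · rintro rfl
    exact hb (map_zero _)

open Classical in
/-- the order on `L` -/
noncomputable def ordL (x : L) : ℤ :=
  if h : x ≠ 0 then o v₁ v₂ w (exists_frac J x h).choose.1 -
    o v₁ v₂ w (exists_frac J x h).choose.2 else 0

theorem ordL_eq [IsAlgClosed k] (hw : 1 ≤ w) {a b : K₁ ⊗[k] K₂} (ha : a ≠ 0) (hb : b ≠ 0) :
    ordL J v₁ v₂ w (J.π a / J.π b) = o v₁ v₂ w a - o v₁ v₂ w b := by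
  have hx : J.π a / J.π b ≠ 0 := div_ne_zero (pi_ne J ha) (pi_ne J hb)
  unfold ordL
  rw [dif_pos hx]
  obtain ⟨hc, hd, h⟩ := (exists_frac J _ hx).choose_spec
  set c := (exists_frac J _ hx).choose.1
  set d := (exists_frac J _ hx).choose.2
  rw [div_eq_div_iff (pi_ne J hb) (pi_ne J hd), ← map_mul, ← map_mul] at h
  have h1 := J.inj h
  have h2 := o_mul v₁ v₂ w hw ha hd
  have h3 := o_mul v₁ v₂ w hw hc hb
  rw [h1] at h2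
  omega

theorem ordL_pi [IsAlgClosed k] (hw : 1 ≤ w) {a : K₁ ⊗[k] K₂} (ha : a ≠ 0) :
    ordL J v₁ v₂ w (J.π a) = o v₁ v₂ w a := by
  have h := ordL_eq J v₁ v₂ w hw ha (one_ne (k := k) (K₁ := K₁) (K₂ := K₂))
  rw [map_one, div_one, o_one v₁ v₂ w hw] at h
  omega

/-- the valuation -/
noncomputable def val [IsAlgClosed k] (hw : 1 ≤ w) : DVal k L where
  ord := ordL J v₁ v₂ w
  ord_mul := by
    intro x y hx hy
    obtain ⟨⟨a, b⟩, ha, hb, rfl⟩ := exists_frac J x hx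
    obtain ⟨⟨c, d⟩, hc, hd, rfl⟩ := exists_frac J y hy
    have hac : a * c ≠ 0 := fun h => mul_ne_zero (pi_ne J ha) (pi_ne J hc) (by
      rw [← map_mul, h, map_zero])
    have hbd : b * d ≠ 0 := fun h => mul_ne_zero (pi_ne J hb) (pi_ne J hd) (by
      rw [← map_mul, h, map_zero])
    have h : J.π a / J.π b * (J.π c / J.π d) = J.π (a * c) / J.π (b * d) := by
      rw [div_mul_div_comm, map_mul, map_mul]
    show ordL J v₁ v₂ w (J.π a / J.π b * (J.π c / J.π d)) =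
      ordL J v₁ v₂ w (J.π a / J.π b) + ordL J v₁ v₂ w (J.π c / J.π d)
    rw [h, ordL_eq J v₁ v₂ w hw hac hbd, ordL_eq J v₁ v₂ w hw ha hb, ordL_eq J v₁ v₂ w hw hc hd,
      o_mul v₁ v₂ w hw ha hc, o_mul v₁ v₂ w hw hb hd]
    ring
  ord_add := by
    intro x y hx hy hxy
    obtain ⟨⟨a, b⟩, ha, hb, rfl⟩ := exists_frac J x hx
    obtain ⟨⟨c, d⟩, hc, hd, rfl⟩ := exists_frac J y hy
    have had : a * d ≠ 0 := fun h => mul_ne_zero (pi_ne J ha) (pi_ne J hd) (by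
      rw [← map_mul, h, map_zero])
    have hbc : b * c ≠ 0 := fun h => mul_ne_zero (pi_ne J hb) (pi_ne J hc) (by
      rw [← map_mul, h, map_zero])
    have hbd : b * d ≠ 0 := fun h => mul_ne_zero (pi_ne J hb) (pi_ne J hd) (by
      rw [← map_mul, h, map_zero])
    have h : J.π a / J.π b + J.π c / J.π d = J.π (a * d + b * c) / J.π (b * d) := by
      rw [div_add_div _ _ (pi_ne J hb) (pi_ne J hd), map_add, map_mul, map_mul, map_mul]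
    have hs : a * d + b * c ≠ 0 := by
      intro h0
      apply hxy
      show J.π a / J.π b + J.π c / J.π d = 0
      rw [h, h0, map_zero, zero_div]
    show min (ordL J v₁ v₂ w (J.π a / J.π b)) (ordL J v₁ v₂ w (J.π c / J.π d)) ≤
      ordL J v₁ v₂ w (J.π a / J.π b + J.π c / J.π d)
    rw [h, ordL_eq J v₁ v₂ w hw hs hbd, ordL_eq J v₁ v₂ w hw ha hb, ordL_eq J v₁ v₂ w hw hc hd,
      o_mul v₁ v₂ w hw hb hd]
    have h1 := o_add v₁ v₂ w had hbc hs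
    rw [o_mul v₁ v₂ w hw ha hd, o_mul v₁ v₂ w hw hb hc] at h1
    rcases min_le_iff.1 h1 with h2 | h2
    · refine (min_le_left _ _).trans ?_
      linarith
    · refine (min_le_right _ _).trans ?_
      linarith
  ord_algebraMap := by
    intro c hc
    have h : algebraMap k L c = J.π (c • 1) := by
      rw [map_smul, map_one, Algebra.algebraMap_eq_smul_one]
    have h1 : c • (1 : K₁ ⊗[k] K₂) ≠ 0 := smul_ne_zero hc one_ne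
    show ordL J v₁ v₂ w (algebraMap k L c) = 0
    rw [h, ordL_pi J v₁ v₂ w hw h1, o_smul v₁ v₂ w c hc one_ne, o_one v₁ v₂ w hw]
  exists_ord_eq_one := by
    obtain ⟨t₂, h₂, ht₂⟩ := v₂.exists_ord_eq_one
    have h1 : (1 : K₁) ⊗ₜ[k] t₂ ≠ 0 := tmul_ne one_ne_zero h₂
    refine ⟨J.π ((1 : K₁) ⊗ₜ[k] t₂), pi_ne J h1, ?_⟩
    show ordL J v₁ v₂ w (J.π ((1 : K₁) ⊗ₜ[k] t₂)) = 1
    rw [ordL_pi J v₁ v₂ w hw h1, o_tmul v₁ v₂ w hw one_ne_zero h₂, ord_one, ht₂]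
    simp

end Val

end TVB

section TVB
variable {k : Type u} {K₁ K₂ L : Type v} [Field k] [IsAlgClosed k] [Field K₁] [Field K₂] [Field L]
    [Algebra k K₁] [Algebra k K₂] [Algebra k L] (J : Join k K₁ K₂ L)

theorem tensorVal_exists (v₁ : DVal k K₁) (v₂ : DVal k K₂) (w : ℕ) (hw : 1 ≤ w) :
    ∃ v : DVal k L, IsTensorVal J v₁ v₂ w v := by
  refine ⟨TVB.val J v₁ v₂ w hw, hw, ?_, ?_, ?_, ?_⟩
  · intro a ha
    have h : J.φ a = J.π (a ⊗ₜ[k] (1 : K₂)) := by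
      simp [Join.π]
    have h1 : a ⊗ₜ[k] (1 : K₂) ≠ 0 := TVB.tmul_ne ha one_ne_zero
    show TVB.ordL J v₁ v₂ w (J.φ a) = _
    rw [h, TVB.ordL_pi J v₁ v₂ w hw h1, TVB.o_tmul v₁ v₂ w hw ha one_ne_zero, ord_one, add_zero]
  · intro b hb
    have h : J.ψ b = J.π ((1 : K₁) ⊗ₜ[k] b) := by
      simp [Join.π]
    have h1 : (1 : K₁) ⊗ₜ[k] b ≠ 0 := TVB.tmul_ne one_ne_zero hb
    show TVB.ordL J v₁ v₂ w (J.ψ b) = _
    rw [h, TVB.ordL_pi J v₁ v₂ w hw h1, TVB.o_tmul v₁ v₂ w hw one_ne_zero hb, ord_one, mul_zero,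
      zero_add]
  · intro f hf
    show f ∈ Fil v₁ v₂ w (TVB.ordL J v₁ v₂ w (J.π f))
    rw [TVB.ordL_pi J v₁ v₂ w hw hf]
    exact (TVB.isOrd_o v₁ v₂ w hf).1
  · intro N f hf h
    show N ≤ TVB.ordL J v₁ v₂ w (J.π f)
    rw [TVB.ordL_pi J v₁ v₂ w hw hf]
    exact TVB.le_o v₁ v₂ w hf h

theorem tensorVal_div {v₁ : DVal k K₁} {v₂ : DVal k K₂} {w : ℕ} {v : DVal k L}
    (h : IsTensorVal J v₁ v₂ w v) {m₁ m₂ : ℕ} (h₁ : v₁.IsDivisorial m₁) (h₂ : v₂.IsDivisorial m₂) :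
    v.IsDivisorial (m₁ + 1 + m₂) := by
  obtain ⟨t₁, ht₁, ht₁'⟩ := v₁.exists_ord_eq_one
  obtain ⟨t₂, ht₂, ht₂'⟩ := v₂.exists_ord_eq_one
  obtain ⟨R, _, _, _, ρ, -, -, hρ⟩ := exists_rho v₁ v₂ w h.one_le t₁ ht₁ ht₁' t₂ ht₂ ht₂'
  obtain ⟨u₁, hu₁, hu₁'⟩ := h₁
  obtain ⟨u₂, hu₂, hu₂'⟩ := h₂
  have key := hρ u₁ u₂ hu₁ hu₂ hu₁' hu₂'
  set s : Fin (m₁ + 1 + m₂) → K₁ ⊗[k] K₂ :=
    Fin.append (Fin.append (fun i => u₁ i ⊗ₜ[k] (1 : K₂))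
            (fun _ : Fin 1 => t₁ ⊗ₜ[k] (t₂ ^ w)⁻¹)) (fun i => (1 : K₁) ⊗ₜ[k] u₂ i) with hs
  have hint : ∀ i, s i ∈ Fil v₁ v₂ w 0 := by
    intro i
    refine Fin.addCases (fun i => ?_) (fun i => ?_) i
    · rw [hs, Fin.append_left]
      refine Fin.addCases (fun i => ?_) (fun i => ?_) i
      · rw [Fin.append_left]
        rcases eq_or_ne (u₁ i) 0 with h0 | h0
        · rw [h0, TensorProduct.zero_tmul]
          exact Submodule.zero_mem _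
        · refine TVB.tmul_mem v₁ v₂ w h0 one_ne_zero ?_
          rw [ord_one, add_zero]
          exact mul_nonneg (Int.natCast_nonneg w) (hu₁ i h0)
      · rw [Fin.append_right]
        refine TVB.tmul_mem v₁ v₂ w ht₁ (inv_ne_zero (pow_ne_zero w ht₂)) ?_
        rw [ht₁', ord_inv v₂ _ (pow_ne_zero w ht₂), ord_pow v₂ _ ht₂, ht₂']
        simp
    · rw [hs, Fin.append_right]
      rcases eq_or_ne (u₂ i) 0 with h0 | h0
      · rw [h0, TensorProduct.tmul_zero]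
        exact Submodule.zero_mem _
      · refine TVB.tmul_mem v₁ v₂ w one_ne_zero h0 ?_
        rw [ord_one, mul_zero, zero_add]
        exact hu₂ i h0
  refine ⟨fun i => J.π (s i), fun i h0 => ?_, fun F hF hsm => ?_⟩
  · have hs0 : s i ≠ 0 := by
      intro h1
      exact h0 (by show J.π (s i) = 0; rw [h1, map_zero])
    exact h.le_of_mem 0 (s i) hs0 (hint i)
  · have h1 : MvPolynomial.aeval (fun i => J.π (s i)) F = J.π (MvPolynomial.aeval s F) := by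
      have := MvPolynomial.comp_aeval (R := k) s J.π
      exact (congrArg (fun f => f F) this).symm
    rw [h1] at hsm
    have h2 := key F hF
    have h3 : MvPolynomial.aeval s F ≠ 0 := by
      intro h4
      rw [h4] at h2
      exact h2 (Submodule.zero_mem _)
    have h4 := hsm (TVB.pi_ne J h3)
    exact h2 (fil_anti v₁ v₂ w (by omega) (h.mem_fil _ h3))

end TVB

end Pool.Agent.MLD.Ten
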