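import Pool.Agent.Lib.MP_f23696_ag.T.Val
import Pool.Agent.Lib.MP_f23696_ag.T.Der
import Pool.Agent.Lib.MP_f23696_ag.T.JDer
import Pool.Agent.Lib.MP_f23696_ag.T.LogB

/-!
Module TVD of the product method (MP_f23696_ag): the order of the canonical form along the monomial
valuation of a join of two function fields.
-/

set_option autoImplicit false

open scoped TensorProduct

namespace Pool.Agent.MLD.Ten

open Pool.Agent.MLD.Jac

universe u v w

namespace TVD

section
variable {k : Type u} {K₁ K₂ L : Type v} [Field k] [Field K₁] [Field K₂] [Field L]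
    [Algebra k K₁] [Algebra k K₂] [Algebra k L] {J : Join k K₁ K₂ L}
    {v₁ : DVal k K₁} {v₂ : DVal k K₂} {w : ℕ} {v : DVal k L}

theorem LB_φ (h : IsTensorVal J v₁ v₂ w v) {N : ℤ} {a : K₁} (ha : LB v₁ N a) :
    LB v (w * N) (J.φ a) := by
  intro h0
  have ha0 : a ≠ 0 := by
    rintro rfl
    simp at h0
  rw [h.ord_φ a ha0]
  exact mul_le_mul_of_nonneg_left (ha ha0) (by positivity)

theorem LB_ψ (h : IsTensorVal J v₁ v₂ w v) {N : ℤ} {b : K₂} (hb : LB v₂ N b) :
    LB v N (J.ψ b) := by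
  intro h0
  have hb0 : b ≠ 0 := by
    rintro rfl
    simp at h0
  rw [h.ord_ψ b hb0]
  exact hb hb0

theorem π_ne (J : Join k K₁ K₂ L) {f : K₁ ⊗[k] K₂} (hf : J.π f ≠ 0) : f ≠ 0 := by
  rintro rfl
  simp at hf

theorem LB_inv (v : DVal k L) {g : L} (hg : g ≠ 0) : LB v (-v.ord g) g⁻¹ := by
  intro _
  rw [ord_inv v g hg]

theorem LB_intCast (v : DVal k L) (n : ℤ) : LB v 0 ((n : ℤ) : L) := by
  have := LB_algebraMap v (n : k)
  simpa using this

/-- the operator `G - N` on `Fil N` -/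
theorem filB (h : IsTensorVal J v₁ v₂ w v) (G : Derivation k L L)
    (hG : ∀ a b, a ≠ 0 → b ≠ 0 → LB v (w * v₁.ord a + v₂.ord b + 1)
      (G (J.φ a * J.ψ b) - ((w * v₁.ord a + v₂.ord b : ℤ) : L) * (J.φ a * J.ψ b))) (N : ℤ)
    (f : K₁ ⊗[k] K₂) (hf : f ∈ Fil v₁ v₂ w N) :
    LB v (N + 1) (G (J.π f) - ((N : ℤ) : L) * J.π f) := by
  unfold Fil at hf
  induction hf using Submodule.span_induction with
  | mem x hx =>
    obtain ⟨a, b, ha, hb, hN, rfl⟩ := hx
    have hπ : J.π (a ⊗ₜ[k] b) = J.φ a * J.ψ b := by simp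
    rw [hπ]
    have h1 := hG a b ha hb
    set N' : ℤ := w * v₁.ord a + v₂.ord b with hN'
    rcases hN.eq_or_lt with he | hlt
    · rw [he]; exact h1
    · have h2 : LB v (N + 1) (J.φ a * J.ψ b) := by
        have := (LB_φ h (LB_self v₁ a)).mul (LB_ψ h (LB_self v₂ b))
        exact this.mono (by rw [← hN']; omega)
      have h3 : ∀ n : ℤ, LB v (N + 1) (((n : ℤ) : L) * (J.φ a * J.ψ b)) := by
        intro n
        have := (LB_intCast v n).mul h2
        rwa [zero_add] at this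
      have h4 : G (J.φ a * J.ψ b) - ((N : ℤ) : L) * (J.φ a * J.ψ b) =
          (G (J.φ a * J.ψ b) - ((N' : ℤ) : L) * (J.φ a * J.ψ b)) +
            ((N' - N : ℤ) : L) * (J.φ a * J.ψ b) := by
        push_cast
        ring
      rw [h4]
      exact (h1.mono (by omega)).add (h3 _)
  | zero => simpa using LB.zero v (N + 1)
  | add x y _ _ hx hy =>
    have e : G (J.π (x + y)) - ((N : ℤ) : L) * J.π (x + y) =
        (G (J.π x) - ((N : ℤ) : L) * J.π x) + (G (J.π y) - ((N : ℤ) : L) * J.π y) := by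
      rw [map_add, map_add]
      ring
    rw [e]
    exact hx.add hy
  | smul c x _ hx =>
    have e : G (J.π (c • x)) - ((N : ℤ) : L) * J.π (c • x) =
        c • (G (J.π x) - ((N : ℤ) : L) * J.π x) := by
      rw [map_smul, Derivation.map_smul, smul_sub, mul_smul_comm]
    rw [e]
    exact LB_smul v c hx

/-- derivation of a quotient -/
theorem der_div (G : Derivation k L L) (a b : L) (hb : b ≠ 0) :
    G (a / b) = (b * G a - a * G b) * (b⁻¹ * b⁻¹) := by
  have h1 : a / b * b = a := div_mul_cancel₀ a hb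
  have h2 : G (a / b * b) = G a := by rw [h1]
  rw [Derivation.leibniz, smul_eq_mul, smul_eq_mul] at h2
  have h3 : G (a / b) * b = G a - a / b * G b := by
    rw [← h2]; ring
  have h4 : G (a / b) = (G a - a / b * G b) * b⁻¹ := by
    rw [← h3, mul_assoc, mul_inv_cancel₀ hb, mul_one]
  rw [h4]
  field_simp

/-- the Euler operator on `L` -/
theorem euler (h : IsTensorVal J v₁ v₂ w v) (G : Derivation k L L)
    (hG : ∀ a b, a ≠ 0 → b ≠ 0 → LB v (w * v₁.ord a + v₂.ord b + 1)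
      (G (J.φ a * J.ψ b) - ((w * v₁.ord a + v₂.ord b : ℤ) : L) * (J.φ a * J.ψ b)))
    (f : L) (hf : f ≠ 0) : LB v (v.ord f + 1) (G f - ((v.ord f : ℤ) : L) * f) := by
  obtain ⟨a, b, hb, rfl⟩ := J.frac f
  have ha : J.π a ≠ 0 := by
    intro h0
    apply hf
    change J.π a / J.π b = 0
    rw [h0, zero_div]
  change J.π b ≠ 0 at hb
  change LB v (v.ord (J.π a / J.π b) + 1)
    (G (J.π a / J.π b) - ((v.ord (J.π a / J.π b) : ℤ) : L) * (J.π a / J.π b))
  have h1 := filB h G hG _ a (h.mem_fil a (π_ne J ha))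
  have h2 := filB h G hG _ b (h.mem_fil b (π_ne J hb))
  rw [ord_div v _ _ ha hb, der_div G _ _ hb]
  set A := J.π a
  set B := J.π b
  have e : (B * G A - A * G B) * (B⁻¹ * B⁻¹) - ((v.ord A - v.ord B : ℤ) : L) * (A / B) =
      (B * (G A - ((v.ord A : ℤ) : L) * A) - A * (G B - ((v.ord B : ℤ) : L) * B)) *
        (B⁻¹ * B⁻¹) := by
    push_cast
    field_simp
    ring
  rw [e]
  have h3 := (LB_self v B).mul h1
  have h4 := (LB_self v A).mul h2
  have h5 := (LB_inv v hb).mul (LB_inv v hb)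
  have h6 := LB_sub v (h3.mono (le_of_eq (by ring : v.ord A + v.ord B + 1 = _)))
    (h4.mono (le_of_eq (by ring : v.ord A + v.ord B + 1 = _)))
  exact (h6.mul h5).mono (le_of_eq (by ring))

/-- operators preserving the filtration -/
theorem filA (_h : IsTensorVal J v₁ v₂ w v) (δ : Derivation k L L)
    (hδ : ∀ a b, a ≠ 0 → b ≠ 0 → LB v (w * v₁.ord a + v₂.ord b) (δ (J.φ a * J.ψ b))) (N : ℤ)
    (f : K₁ ⊗[k] K₂) (hf : f ∈ Fil v₁ v₂ w N) : LB v N (δ (J.π f)) := by
  unfold Fil at hf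
  induction hf using Submodule.span_induction with
  | mem x hx =>
    obtain ⟨a, b, ha, hb, hN, rfl⟩ := hx
    have hπ : J.π (a ⊗ₜ[k] b) = J.φ a * J.ψ b := by simp
    rw [hπ]
    exact (hδ a b ha hb).mono hN
  | zero => simpa using LB.zero v N
  | add x y _ _ hx hy =>
    rw [map_add, map_add]
    exact hx.add hy
  | smul c x _ hx =>
    rw [map_smul, Derivation.map_smul]
    exact LB_smul v c hx

theorem presA (h : IsTensorVal J v₁ v₂ w v) (δ : Derivation k L L)
    (hδ : ∀ a b, a ≠ 0 → b ≠ 0 → LB v (w * v₁.ord a + v₂.ord b) (δ (J.φ a * J.ψ b)))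
    (f : L) (hf : v.Integral f) : v.Integral (δ f) := by
  by_cases hf0 : f = 0
  · rw [hf0, map_zero]
    exact fun h => absurd rfl h
  have hv : 0 ≤ v.ord f := hf hf0
  obtain ⟨a, b, hb, rfl⟩ := J.frac f
  have ha : J.π a ≠ 0 := by
    intro h0
    apply hf0
    change J.π a / J.π b = 0
    rw [h0, zero_div]
  change J.π b ≠ 0 at hb
  change 0 ≤ v.ord (J.π a / J.π b) at hv
  change v.Integral (δ (J.π a / J.π b))
  have h1 := filA h δ hδ _ a (h.mem_fil a (π_ne J ha))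
  have h2 := filA h δ hδ _ b (h.mem_fil b (π_ne J hb))
  rw [ord_div v _ _ ha hb] at hv
  rw [der_div δ _ _ hb]
  set A := J.π a
  set B := J.π b
  have h3 := (LB_self v B).mul h1
  have h4 := (LB_self v A).mul h2
  have h5 := (LB_inv v hb).mul (LB_inv v hb)
  have h6 := LB_sub v (h3.mono (le_of_eq (by ring : v.ord A + v.ord B = _))) h4
  exact (h6.mul h5).mono (by omega)

end

section
variable {L : Type v} [Field L]

/-- the two row operations -/
theorem det_rows {n : ℕ} (M : Matrix (Fin n) (Fin n) L) (i₁ i₂ : Fin n) (hi : i₁ ≠ i₂)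
    (s t c : L) :
    (Matrix.of fun i l => if i = i₂ then t * M i₂ l + c * (s * M i₁ l) else
      if i = i₁ then s * M i₁ l else M i l).det = s * t * M.det := by
  set A := M.updateRow i₁ (s • M i₁) with hA
  have hAi₂ : A i₂ = M i₂ := Matrix.updateRow_ne hi.symm
  have hAi₁ : A i₁ = s • M i₁ := Matrix.updateRow_self
  have e : (Matrix.of fun i l => if i = i₂ then t * M i₂ l + c * (s * M i₁ l) else
      if i = i₁ then s * M i₁ l else M i l) =
      A.updateRow i₂ (t • A i₂ + c • A i₁) := by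
    ext i l
    by_cases h2 : i = i₂
    · subst h2
      rw [Matrix.updateRow_self, hAi₂, hAi₁]
      simp
    · rw [Matrix.updateRow_ne h2]
      by_cases h1 : i = i₁
      · subst h1
        rw [hAi₁]
        simp [h2]
      · rw [hA, Matrix.updateRow_ne h1]
        simp [h1, h2]
  rw [e, Matrix.det_updateRow_add, Matrix.det_updateRow_smul, Matrix.det_updateRow_smul,
    Matrix.updateRow_eq_self]
  have h0 : (A.updateRow i₂ (A i₁)).det = 0 := by
    apply Matrix.det_zero_of_row_eq hi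
    rw [Matrix.updateRow_ne hi, Matrix.updateRow_self]
  rw [h0, hA, Matrix.det_updateRow_smul, Matrix.updateRow_eq_self]
  ring

end

end TVD

section TVD
variable {k : Type u} {K₁ K₂ L : Type v} [Field k] [CharZero k] [Field K₁] [Field K₂] [Field L]
    [Algebra k K₁] [Algebra k K₂] [Algebra k L] (J : Join k K₁ K₂ L)

theorem TVD.jac_bound {v₁ : DVal k K₁} {v₂ : DVal k K₂} {w : ℕ} {v : DVal k L}
    (h : IsTensorVal J v₁ v₂ w v) {m₁ m₂ : ℕ} {D₁ : Fin (m₁ + 1) → Derivation k K₁ K₁}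
    {D₂ : Fin (m₂ + 1) → Derivation k K₂ K₂}
    {E : Fin ((m₁ + 1) + (m₂ + 1)) → Derivation k L L} {j₁ j₂ : ℤ} {b₁ : Fin (m₁ + 1) → K₁}
    {E₁ : Fin (m₁ + 1) → Derivation k K₁ K₁} (hb₁ : IsLogBasis v₁ D₁ j₁ b₁ E₁)
    {b₂ : Fin (m₂ + 1) → K₂}
    {E₂ : Fin (m₂ + 1) → Derivation k K₂ K₂} (hb₂ : IsLogBasis v₂ D₂ j₂ b₂ E₂)
    (hE : IsJoint J E₁ E₂ E) (a : Fin ((m₁ + 1) + (m₂ + 1)) → L) (ha : ∀ i, v.Integral (a i)) :
    LB v (-w) (jac E a) := by
  obtain ⟨hE1, hE2, hE3, hE4⟩ := hE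
  have he₁ : ∀ c : K₁, c ≠ 0 → LB v₁ (v₁.ord c + 1) (b₁ 0 * E₁ 0 c - (v₁.ord c : K₁) * c) :=
    fun c hc h0 => hb₁.euler c hc h0
  have he₂ : ∀ c : K₂, c ≠ 0 → LB v₂ (v₂.ord c + 1) (b₂ 0 * E₂ 0 c - (v₂.ord c : K₂) * c) :=
    fun c hc h0 => hb₂.euler c hc h0
  have hs₁ : ∀ (i : Fin m₁) (c : K₁), c ≠ 0 → LB v₁ (v₁.ord c) (E₁ i.succ c) :=
    fun i c hc h0 => hb₁.le_succ i c hc h0
  have hs₂ : ∀ (i : Fin m₂) (c : K₂), c ≠ 0 → LB v₂ (v₂.ord c) (E₂ i.succ c) :=
    fun i c hc h0 => hb₂.le_succ i c hc h0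
  set i₁ : Fin ((m₁ + 1) + (m₂ + 1)) := Fin.castAdd (m₂ + 1) 0 with hi₁
  set i₂ : Fin ((m₁ + 1) + (m₂ + 1)) := Fin.natAdd (m₁ + 1) 0 with hi₂
  have hne : i₁ ≠ i₂ := by
    intro hh
    have := congrArg Fin.val hh
    simp [hi₁, hi₂] at this
  set s := J.φ (b₁ 0) with hs
  set t := J.ψ (b₂ 0) with ht
  have hs0 : s ≠ 0 := by
    rw [hs]
    exact (map_ne_zero_iff _ (J.φ : K₁ →+* L).injective).mpr (hb₁.ne_zero 0)
  have ht0 : t ≠ 0 := by
    rw [ht]
    exact (map_ne_zero_iff _ (J.ψ : K₂ →+* L).injective).mpr (hb₂.ne_zero 0)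
  have hsv : v.ord s = w := by
    rw [hs, h.ord_φ _ (hb₁.ne_zero 0), hb₁.ord_zero, mul_one]
  have htv : v.ord t = 1 := by
    rw [ht, h.ord_ψ _ (hb₂.ne_zero 0), hb₂.ord_zero]
  -- the operator `s E_{1,0}`
  have hG1 : ∀ f, v.Integral f → v.Integral (s * E i₁ f) := by
    intro f hf
    have := TVD.presA h (s • E i₁) (fun a b ha hb => by
      have e1 : (s • E i₁) (J.φ a * J.ψ b) =
          J.φ ((b₁ 0 * E₁ 0 a - (v₁.ord a : K₁) * a) + (v₁.ord a : K₁) * a) * J.ψ b := by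
        rw [Derivation.smul_apply, Derivation.leibniz, hi₁, hE1, hE2, hs]
        simp only [smul_eq_mul, mul_zero, zero_add, sub_add_cancel, map_mul]
        ring
      rw [e1]
      have e2 : LB v₁ (v₁.ord a) ((b₁ 0 * E₁ 0 a - (v₁.ord a : K₁) * a) + (v₁.ord a : K₁) * a) := by
        refine ((he₁ a ha).mono (by omega)).add ?_
        have := (TVD.LB_intCast v₁ (v₁.ord a)).mul (LB_self v₁ a)
        rwa [zero_add] at this
      exact (TVD.LB_φ h e2).mul (TVD.LB_ψ h (LB_self v₂ b))) f hf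
    exact this
  have hG2 : ∀ (i : Fin m₁) f, v.Integral f → v.Integral (E (Fin.castAdd (m₂ + 1) i.succ) f) := by
    intro i f hf
    refine TVD.presA h _ (fun a b ha hb => ?_) f hf
    have e1 : (E (Fin.castAdd (m₂ + 1) i.succ)) (J.φ a * J.ψ b) =
        J.φ (E₁ i.succ a) * J.ψ b := by
      rw [Derivation.leibniz, hE1, hE2]
      simp only [smul_eq_mul, mul_zero, zero_add]
      ring
    rw [e1]
    exact (TVD.LB_φ h (hs₁ i a ha)).mul (TVD.LB_ψ h (LB_self v₂ b))
  have hG3 : ∀ (i : Fin m₂) f, v.Integral f → v.Integral (E (Fin.natAdd (m₁ + 1) i.succ) f) := by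
    intro i f hf
    refine TVD.presA h _ (fun a b ha hb => ?_) f hf
    have e1 : (E (Fin.natAdd (m₁ + 1) i.succ)) (J.φ a * J.ψ b) =
        J.φ a * J.ψ (E₂ i.succ b) := by
      rw [Derivation.leibniz, hE3, hE4]
      simp only [smul_eq_mul, mul_zero, add_zero]
    rw [e1]
    exact (TVD.LB_φ h (LB_self v₁ a)).mul (TVD.LB_ψ h (hs₂ i b hb))
  -- the Euler operator
  have hG4 : ∀ f, v.Integral f → v.Small (t * E i₂ f + (w : L) * (s * E i₁ f)) := by
    intro f hf
    by_cases hf0 : f = 0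
    · rw [hf0]
      simp only [map_zero, mul_zero, add_zero]
      exact fun h => absurd rfl h
    have h0 : 0 ≤ v.ord f := hf hf0
    have key := TVD.euler h (t • E i₂ + ((w : L) * s) • E i₁) (fun a b ha hb => by
      have e1 : (t • E i₂ + ((w : L) * s) • E i₁) (J.φ a * J.ψ b) -
          ((w * v₁.ord a + v₂.ord b : ℤ) : L) * (J.φ a * J.ψ b) =
          (w : L) * (J.φ (b₁ 0 * E₁ 0 a - (v₁.ord a : K₁) * a) * J.ψ b) +
            J.φ a * J.ψ (b₂ 0 * E₂ 0 b - (v₂.ord b : K₂) * b) := by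
        rw [Derivation.add_apply, Derivation.smul_apply, Derivation.smul_apply,
          Derivation.leibniz, Derivation.leibniz, hi₁, hi₂, hE1, hE2, hE3, hE4, hs, ht]
        simp only [smul_eq_mul, mul_zero, zero_add, add_zero, map_mul, map_sub, map_intCast]
        push_cast
        ring
      rw [e1]
      have hw := h.one_le
      have c1 := (TVD.LB_φ h (he₁ a ha)).mul (TVD.LB_ψ h (LB_self v₂ b))
      have c2 : LB v 0 (w : L) := by
        have := TVD.LB_intCast v (w : ℤ)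
        simpa using this
      have c3 := c2.mul c1
      have c4 := (TVD.LB_φ h (LB_self v₁ a)).mul (TVD.LB_ψ h (he₂ b hb))
      refine (c3.mono ?_).add (c4.mono (by omega))
      have : (1 : ℤ) ≤ w := by exact_mod_cast hw
      nlinarith) f hf0
    have e2 : t * E i₂ f + (w : L) * (s * E i₁ f) =
        ((t • E i₂ + ((w : L) * s) • E i₁) f - ((v.ord f : ℤ) : L) * f) +
          ((v.ord f : ℤ) : L) * f := by
      rw [Derivation.add_apply, Derivation.smul_apply, Derivation.smul_apply]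
      simp only [smul_eq_mul]
      ring
    rw [e2]
    refine LB.add (v := v) (N := 1) (key.mono (by omega)) ?_
    rcases h0.eq_or_lt with h1 | h1
    · rw [← h1]
      simpa using LB.zero v 1
    · have := (TVD.LB_intCast v (v.ord f)).mul (LB_self v f)
      exact this.mono (by omega)
  -- the determinant
  have hdet := TVD.det_rows (Matrix.of fun i l => E i (a l)) i₁ i₂ hne s t (w : L)
  simp only [Matrix.of_apply] at hdet
  have hsm : v.Small (s * t * jac E a) := by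
    unfold jac
    rw [← hdet]
    refine det_small v _ (fun i l => ?_) i₂ (fun l => ?_)
    · rw [Matrix.of_apply]
      by_cases h2 : i = i₂
      · rw [if_pos h2]
        exact (integral_iff v).mpr (((small_iff v).mp (hG4 _ (ha l))).mono (by omega))
      · rw [if_neg h2]
        by_cases h1 : i = i₁
        · rw [if_pos h1]
          exact hG1 _ (ha l)
        · rw [if_neg h1]
          refine Fin.addCases (motive := fun i => i ≠ i₂ → i ≠ i₁ → v.Integral (E i (a l)))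
            (fun i => ?_) (fun i => ?_) i h2 h1
          · refine Fin.cases ?_ (fun i => ?_) i
            · intro _ h; exact absurd rfl h
            · intro _ _; exact hG2 i _ (ha l)
          · refine Fin.cases ?_ (fun i => ?_) i
            · intro h _; exact absurd rfl h
            · intro _ _; exact hG3 i _ (ha l)
    · rw [Matrix.of_apply, if_pos rfl]
      exact hG4 _ (ha l)
  intro hj0
  have h1 := hsm (mul_ne_zero (mul_ne_zero hs0 ht0) hj0)
  rw [v.ord_mul _ _ (mul_ne_zero hs0 ht0) hj0, v.ord_mul _ _ hs0 ht0, hsv, htv] at h1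
  omega

theorem tensorVal_form {v₁ : DVal k K₁} {v₂ : DVal k K₂} {w : ℕ} {v : DVal k L}
    (h : IsTensorVal J v₁ v₂ w v) {m₁ m₂ : ℕ} {D₁ : Fin (m₁ + 1) → Derivation k K₁ K₁}
    {D₂ : Fin (m₂ + 1) → Derivation k K₂ K₂}
    {D : Fin ((m₁ + 1) + (m₂ + 1)) → Derivation k L L}
    (hD : IsJoint J D₁ D₂ D) {j₁ j₂ : ℤ} {b₁ : Fin (m₁ + 1) → K₁}
    {E₁ : Fin (m₁ + 1) → Derivation k K₁ K₁} (hb₁ : IsLogBasis v₁ D₁ j₁ b₁ E₁)
    {b₂ : Fin (m₂ + 1) → K₂}
    {E₂ : Fin (m₂ + 1) → Derivation k K₂ K₂} (hb₂ : IsLogBasis v₂ D₂ j₂ b₂ E₂) :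
    ∃ j, v.FormOrd D j ∧ j + 1 ≤ w * (j₁ + 1) + (j₂ + 1) := by
  obtain ⟨E, hE⟩ := joint_exists J E₁ E₂
  have hch := joint_change J hD hE (Matrix.of fun i l => D₁ i (b₁ l))
    (Matrix.of fun i l => D₂ i (b₂ l)) (fun i c => hb₁.expand i c) (fun i c => hb₂.expand i c)
  have hφ : J.φ (jac D₁ b₁) ≠ 0 :=
    (map_ne_zero_iff _ (J.φ : K₁ →+* L).injective).mpr hb₁.jac_ne
  have hψ : J.ψ (jac D₂ b₂) ≠ 0 :=
    (map_ne_zero_iff _ (J.ψ : K₂ →+* L).injective).mpr hb₂.jac_ne
  have hcoef : ∀ a, jac D a = J.φ (jac D₁ b₁) * J.ψ (jac D₂ b₂) * jac E a := hch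
  obtain ⟨j, hj, hj'⟩ := formOrd_ex v D (-(w * j₁) - j₂ - w) (fun a ha h0 => by
      have h1 := TVD.jac_bound J h hb₁ hb₂ hE a ha
      have hE0 : jac E a ≠ 0 := by
        intro h2
        apply h0
        rw [hcoef, h2, mul_zero]
      rw [hcoef, v.ord_mul _ _ (mul_ne_zero hφ hψ) hE0, v.ord_mul _ _ hφ hψ,
        h.ord_φ _ hb₁.jac_ne, h.ord_ψ _ hb₂.jac_ne, hb₁.ord_jac, hb₂.ord_jac]
      have := h1 hE0
      linarith)
    ⟨Fin.append (fun i => J.φ (b₁ i)) (fun i => J.ψ (b₂ i)), fun i => by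
      refine Fin.addCases (fun i => ?_) (fun i => ?_) i
      · rw [Fin.append_left]
        intro _
        rw [h.ord_φ _ (hb₁.ne_zero i)]
        refine Fin.cases ?_ (fun i => ?_) i
        · rw [hb₁.ord_zero]; positivity
        · rw [hb₁.ord_succ]; simp
      · rw [Fin.append_right]
        intro _
        rw [h.ord_ψ _ (hb₂.ne_zero i)]
        refine Fin.cases ?_ (fun i => ?_) i
        · rw [hb₂.ord_zero]; positivity
        · rw [hb₂.ord_succ], by
      rw [hcoef, jac_dual E _ (fun i l => joint_dual J hE b₁ b₂ hb₁.dual hb₂.dual i l), mul_one]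
      exact mul_ne_zero hφ hψ⟩
  refine ⟨j, hj, ?_⟩
  linarith

end TVD

end Pool.Agent.MLD.Ten
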