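import Pool.Agent.Lib.MP_f23696_ag.T.Fin
import Pool.Agent.Lib.MP_f23696_ag.T.TvB
import Pool.Agent.Lib.MP_f23696_ag.T.TvD
import Pool.Agent.Lib.MP_f23696_ag.T.Low
import Pool.Agent.Lib.MP_f23696_ag.T.Norm
import Pool.Agent.Lib.MP_f23696_ag.T.Pts
import Pool.Agent.Lib.MP_f23696_ag.T.Pri
import Pool.Agent.Lib.MP_f23696_ag.T.Hv
import Pool.Agent.Lib.MP_f23696_ag.T.Ind

/-!
Product method: the product of two pairs.
-/

set_option autoImplicit false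

open scoped TensorProduct

namespace Pool.Agent.MLD.Ten

universe u v

section Basic
variable {k : Type u} [Field k] {m : ℕ}

theorem Pair.good (X : Pair k m) : IsGood X.A := by
  have := X.frac
  have := X.normal
  refine ⟨X.fg, ?_, ?_⟩
  · intro f
    obtain ⟨a, b, hb, hab⟩ := IsFractionRing.div_surjective (A := X.A) f
    refine ⟨a, b, ?_, hab.symm⟩
    have := nonZeroDivisors.ne_zero hb
    intro h
    exact this (Subtype.ext h)
  · intro f hf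
    obtain ⟨a, ha⟩ := IsIntegrallyClosed.isIntegral_iff.1 hf
    rw [← ha]
    exact a.2

theorem frac_of_good {K : Type v} [Field K] [Algebra k K] {A : Subalgebra k K} (h : IsGood A) :
    IsFractionRing A K := by
  have : FaithfulSMul A K := by
    rw [faithfulSMul_iff_algebraMap_injective]
    exact Subtype.val_injective
  refine IsFractionRing.of_field A K ?_
  intro f
  obtain ⟨a, b, hb, hab⟩ := h.frac f
  exact ⟨a, b, hab⟩

theorem normal_of_good {K : Type v} [Field K] [Algebra k K] {A : Subalgebra k K} (h : IsGood A) :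
    IsIntegrallyClosed A := by
  have := frac_of_good h
  rw [isIntegrallyClosed_iff K]
  intro f hf
  exact ⟨⟨f, h.norm f hf⟩, rfl⟩

end Basic

section Val
variable {k : Type u} {K₁ K₂ L : Type v} [Field k] [Field K₁] [Field K₂] [Field L]
    [Algebra k K₁] [Algebra k K₂] [Algebra k L]

/-- the image of a formal combination -/
noncomputable def push {K L : Type v} [Field K] [Field L] [Algebra k K] [Algebra k L]
    (φ : K →ₐ[k] L) (γ : Kˣ →₀ ℝ) : Lˣ →₀ ℝ := γ.mapDomain (Units.map (φ : K →* L))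

theorem val_add (v : DVal k L) (γ γ' : Lˣ →₀ ℝ) : v.val (γ + γ') = v.val γ + v.val γ' := by
  unfold DVal.val
  exact Finsupp.sum_add_index' (fun _ => by simp) (fun _ _ _ => by ring)

theorem val_push {K L : Type v} [Field K] [Field L] [Algebra k K] [Algebra k L]
    (φ : K →ₐ[k] L) (v : DVal k L) (v₁ : DVal k K) (e : ℝ)
    (h : ∀ a : K, a ≠ 0 → (v.ord (φ a) : ℝ) = e * v₁.ord a) (γ : Kˣ →₀ ℝ) :
    v.val (push φ γ) = e * v₁.val γ := by
  unfold DVal.val push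
  rw [Finsupp.sum_mapDomain_index (fun _ => by simp) (fun _ _ _ => by ring), Finsupp.mul_sum]
  refine Finsupp.sum_congr fun g _ => ?_
  rw [Units.coe_map]
  have := h g g.ne_zero
  show γ g * (v.ord (φ (g : K)) : ℝ) = _
  rw [this]
  ring

theorem val_push_zero {K L : Type v} [Field K] [Field L] [Algebra k K] [Algebra k L]
    (φ : K →ₐ[k] L) (v : DVal k L)
    (h : ∀ a : K, a ≠ 0 → v.ord (φ a) = 0) (γ : Kˣ →₀ ℝ) :
    v.val (push φ γ) = 0 := by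
  unfold DVal.val push
  rw [Finsupp.sum_mapDomain_index (fun _ => by simp) (fun _ _ _ => by ring)]
  refine Finset.sum_eq_zero fun g _ => ?_
  have := h g g.ne_zero
  show γ g * (v.ord (φ (g : K)) : ℝ) = _
  rw [this]
  simp

end Val

section Loc
variable {k : Type u} {K₁ K₂ L : Type v} [Field k] [IsAlgClosed k] [CharZero k] [Field K₁]
    [Field K₂] [Field L] [Algebra k K₁] [Algebra k K₂] [Algebra k L] {J : Join k K₁ K₂ L}
    {A₁ : Subalgebra k K₁} {A₂ : Subalgebra k K₂} {S : Subalgebra k L}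
    {ι₁ : A₁ →ₐ[k] S} {ι₂ : A₂ →ₐ[k] S}

/-- the local equation of the product -/
theorem isLocalEq_prod (hP : IsProd J ι₁ ι₂) (h₁ : IsGood A₁) (h₂ : IsGood A₂) (hS : IsGood S)
    {n₁ n₂ : ℕ} {D₁ : Fin n₁ → Derivation k K₁ K₁} {D₂ : Fin n₂ → Derivation k K₂ K₂}
    {D : Fin (n₁ + n₂) → Derivation k L L} (hD : IsJoint J D₁ D₂ D)
    (y₁ : Fin n₁ → K₁) (hD₁ : ∀ i l, D₁ i (y₁ l) = if i = l then 1 else 0)
    (y₂ : Fin n₂ → K₂) (hD₂ : ∀ i l, D₂ i (y₂ l) = if i = l then 1 else 0)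
    {δ₁ : Ideal A₁ →₀ ℝ} {δ₂ : Ideal A₂ →₀ ℝ} {δ : Ideal S →₀ ℝ}
    (hδ₁ : ∀ P, IsHeightOne P → δ (P.map ι₁) = δ₁ P)
    (hδ₂ : ∀ P, IsHeightOne P → δ (P.map ι₂) = δ₂ P)
    (hδ₃ : ∀ Q, IsHeightOne Q → Q.comap ι₁ = ⊥ → Q.comap ι₂ = ⊥ → δ Q = 0)
    {z : MaximalSpectrum S} {x₁ : MaximalSpectrum A₁} {x₂ : MaximalSpectrum A₂}
    (hz : Over ι₁ ι₂ z x₁ x₂) {γ₁ : K₁ˣ →₀ ℝ} {γ₂ : K₂ˣ →₀ ℝ}
    (e₁ : IsLocalEq A₁ D₁ δ₁ x₁.asIdeal γ₁) (e₂ : IsLocalEq A₂ D₂ δ₂ x₂.asIdeal γ₂)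
    {γ : Lˣ →₀ ℝ}
    (hγ : ∀ v : DVal k L, v.val γ = v.val (push J.φ γ₁) + v.val (push J.ψ γ₂)) :
    IsLocalEq S D δ z.asIdeal γ := by
  intro q hq hht v hv j hj
  rcases trichotomy hP h₁ h₂ q hht with ⟨P, hPh, rfl⟩ | ⟨P, hPh, rfl⟩ | ⟨hq₁, hq₂⟩
  · obtain ⟨v₁, hv₁, ho, ht, hf⟩ := hv_left hP h₁ h₂ hS hD y₁ hD₁ y₂ hD₂ P hPh v hv j hj
    have hle : P ≤ x₁.asIdeal := by
      rw [← hz.1]
      exact (Ideal.le_comap_map).trans (Ideal.comap_mono hq)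
    rw [hγ, val_push_zero J.ψ v ht, add_zero, val_push J.φ v v₁ 1 (by
      intro a ha; rw [ho a ha, one_mul]), one_mul, ← e₁ P hle hPh v₁ hv₁ j hf, hδ₁ P hPh]
  · obtain ⟨v₂, hv₂, ho, ht, hf⟩ := hv_right hP h₁ h₂ hS hD y₁ hD₁ y₂ hD₂ P hPh v hv j hj
    have hle : P ≤ x₂.asIdeal := by
      rw [← hz.2]
      exact (Ideal.le_comap_map).trans (Ideal.comap_mono hq)
    rw [hγ, val_push_zero J.φ v ht, zero_add, val_push J.ψ v v₂ 1 (by
      intro a ha; rw [ho a ha, one_mul]), one_mul, ← e₂ P hle hPh v₂ hv₂ j hf, hδ₂ P hPh]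
  · obtain ⟨hj0, ht₁, ht₂⟩ := hv_mixed hP h₁ h₂ hS hD y₁ hD₁ y₂ hD₂ q hht hq₁ hq₂ v hv j hj
    rw [hγ, val_push_zero J.φ v ht₁, val_push_zero J.ψ v ht₂, hδ₃ q hht hq₁ hq₂, hj0]
    simp

end Loc

/-- closed points are not generic -/
theorem exists_mem_ne {k : Type u} [Field k] [IsAlgClosed k] {m : ℕ} (X : Pair k m) (x : X.Pt) :
    ∃ a ∈ x.asIdeal, (a : X.K) ≠ 0 := by
  by_contra hcon
  push Not at hcon
  have hft : Algebra.FiniteType k X.A := (Subalgebra.fg_iff_finiteType _).1 X.fg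
  have := x.isMaximal
  obtain ⟨β, hβ⟩ := point (k := k) x.asIdeal
  have hconst : ∀ a : X.A, (a : X.K) = algebraMap k X.K (β a) := by
    intro a
    have h1 : a - algebraMap k X.A (β a) ∈ x.asIdeal := by
      rw [← hβ, RingHom.mem_ker]
      show β (a - algebraMap k X.A (β a)) = 0
      rw [map_sub, AlgHom.commutes]
      simp
    have h2 := hcon _ h1
    have h3 : (a : X.K) - algebraMap k X.K (β a) = 0 := h2
    exact sub_eq_zero.1 h3
  obtain ⟨a, b, hb, hab⟩ := X.good.frac (X.y 0)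
  have htr : Transcendental k (X.y 0) := X.basis.1.transcendental 0
  apply htr
  rw [hab, hconst a, hconst b, ← map_div₀]
  exact isAlgebraic_algebraMap _

theorem product (k : Type u) [Field k] [IsAlgClosed k] [CharZero k] : ProductStatement k := by
  intro m₁ m₂ X₁ X₂
  obtain ⟨L, instL, instA, ⟨J⟩⟩ := exists_join (k := k) X₁.K X₂.K
  obtain ⟨D, hD⟩ := joint_exists J X₁.D X₂.D
  set S : Subalgebra k L := X₁.A.map J.φ ⊔ X₂.A.map J.ψ with hSdef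
  let ι₁ : X₁.A →ₐ[k] S := (J.φ.comp X₁.A.val).codRestrict S fun a =>
    (le_sup_left : X₁.A.map J.φ ≤ S) ⟨a, a.2, rfl⟩
  let ι₂ : X₂.A →ₐ[k] S := (J.ψ.comp X₂.A.val).codRestrict S fun a =>
    (le_sup_right : X₂.A.map J.ψ ≤ S) ⟨a, a.2, rfl⟩
  have hP : IsProd J ι₁ ι₂ := ⟨fun _ => rfl, fun _ => rfl, hSdef⟩
  have g₁ := X₁.good
  have g₂ := X₂.good
  have hS : IsGood S := prod_good J hP g₁ g₂ X₂.y X₂.basis
  set f₁ : Ideal X₁.A → Ideal S := fun P => P.map ι₁ with hf₁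
  set f₂ : Ideal X₂.A → Ideal S := fun P => P.map ι₂ with hf₂
  have inj₁ : Function.Injective f₁ := fun P P' h => by
    have h1 := congrArg (Ideal.comap ι₁) h
    simp only [hf₁] at h1
    rwa [comap_map hP, comap_map hP] at h1
  have inj₂ : Function.Injective f₂ := fun P P' h => by
    have h1 := congrArg (Ideal.comap ι₂) h
    simp only [hf₂] at h1
    rwa [comap_map hP.swap, comap_map hP.swap] at h1
  set δ : Ideal S →₀ ℝ := X₁.δ.mapDomain f₁ + X₂.δ.mapDomain f₂ with hδ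
  have ne_top₁ : ∀ P : Ideal X₁.A, IsHeightOne P → f₁ P ≠ ⊤ := by
    intro P hPh h
    exact (map_prime hP P hPh.1).ne_top h
  have ne_top₂ : ∀ P : Ideal X₂.A, IsHeightOne P → f₂ P ≠ ⊤ := by
    intro P hPh h
    exact (map_prime hP.swap P hPh.1).ne_top h
  have hδ₁ : ∀ P, IsHeightOne P → δ (P.map ι₁) = X₁.δ P := by
    intro P hPh
    have h1 : (X₁.δ.mapDomain f₁) (P.map ι₁) = X₁.δ P := Finsupp.mapDomain_apply inj₁ _ P
    have h2 : (X₂.δ.mapDomain f₂) (P.map ι₁) = 0 := by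
      apply Finsupp.mapDomain_of_notMem_range
      rintro ⟨P₂, h⟩
      by_cases ht : P₂ = ⊤
      · subst ht
        apply ne_top₁ P hPh
        show P.map ι₁ = ⊤
        rw [← h]
        exact Ideal.map_top _
      · have h3 := comap_map_other hP.swap P₂ ht
        have h4 : (P₂.map ι₂).comap ι₁ = P := by
          have : P₂.map ι₂ = P.map ι₁ := h
          rw [this, comap_map hP]
        exact hPh.2.1 (h4.symm.trans h3)
    rw [hδ, Finsupp.add_apply, h1, h2, add_zero]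
  have hδ₂ : ∀ P, IsHeightOne P → δ (P.map ι₂) = X₂.δ P := by
    intro P hPh
    have h1 : (X₂.δ.mapDomain f₂) (P.map ι₂) = X₂.δ P := Finsupp.mapDomain_apply inj₂ _ P
    have h2 : (X₁.δ.mapDomain f₁) (P.map ι₂) = 0 := by
      apply Finsupp.mapDomain_of_notMem_range
      rintro ⟨P₂, h⟩
      by_cases ht : P₂ = ⊤
      · subst ht
        apply ne_top₂ P hPh
        show P.map ι₂ = ⊤
        rw [← h]
        exact Ideal.map_top _
      · have h3 := comap_map_other hP P₂ ht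
        have h4 : (P₂.map ι₁).comap ι₂ = P := by
          have : P₂.map ι₁ = P.map ι₂ := h
          rw [this, comap_map hP.swap]
        exact hPh.2.1 (h4.symm.trans h3)
    rw [hδ, Finsupp.add_apply, h1, h2, zero_add]
  have hδ₃ : ∀ Q, IsHeightOne Q → Q.comap ι₁ = ⊥ → Q.comap ι₂ = ⊥ → δ Q = 0 := by
    intro Q hQ hc₁ hc₂
    have h1 : (X₁.δ.mapDomain f₁) Q = 0 := by
      apply Finsupp.mapDomain_of_notMem_range
      rintro ⟨P, h⟩
      have h3 : P.map ι₁ = Q := h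
      rw [← h3, comap_map hP] at hc₁
      rw [hc₁, Ideal.map_bot] at h3
      exact hQ.2.1 h3.symm
    have h2 : (X₂.δ.mapDomain f₂) Q = 0 := by
      apply Finsupp.mapDomain_of_notMem_range
      rintro ⟨P, h⟩
      have h3 : P.map ι₂ = Q := h
      rw [← h3, comap_map hP.swap] at hc₂
      rw [hc₂, Ideal.map_bot] at h3
      exact hQ.2.1 h3.symm
    rw [hδ, Finsupp.add_apply, h1, h2, add_zero]
  have height : ∀ Q, δ Q ≠ 0 → IsHeightOne Q := by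
    intro Q hQ
    have hor : (X₁.δ.mapDomain f₁) Q ≠ 0 ∨ (X₂.δ.mapDomain f₂) Q ≠ 0 := by
      by_contra hcon
      push Not at hcon
      apply hQ
      rw [hδ, Finsupp.add_apply, hcon.1, hcon.2, add_zero]
    rcases hor with h | h
    · obtain ⟨P, rfl⟩ : Q ∈ Set.range f₁ := by
        by_contra hr
        exact h (Finsupp.mapDomain_of_notMem_range _ _ hr)
      rw [Finsupp.mapDomain_apply inj₁] at h
      exact map_height hP g₁ g₂ P (X₁.height P h)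
    · obtain ⟨P, rfl⟩ : Q ∈ Set.range f₂ := by
        by_contra hr
        exact h (Finsupp.mapDomain_of_notMem_range _ _ hr)
      rw [Finsupp.mapDomain_apply inj₂] at h
      exact map_height hP.swap g₂ g₁ P (X₂.height P h)
  have hcart : ∀ (z : MaximalSpectrum S) (x₁ : X₁.Pt) (x₂ : X₂.Pt), Over ι₁ ι₂ z x₁ x₂ →
      ∀ γ₁ γ₂, IsLocalEq X₁.A X₁.D X₁.δ x₁.asIdeal γ₁ → IsLocalEq X₂.A X₂.D X₂.δ x₂.asIdeal γ₂ →
      IsLocalEq S D δ z.asIdeal (push J.φ γ₁ + push J.ψ γ₂) := by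
    intro z x₁ x₂ hz γ₁ γ₂ e₁ e₂
    exact isLocalEq_prod hP g₁ g₂ hS hD X₁.y X₁.D_y X₂.y X₂.D_y hδ₁ hδ₂ hδ₃ hz e₁ e₂
      fun v => val_add v _ _
  have hjac : ∃ c, jac D c ≠ 0 := by
    refine ⟨Fin.append (fun i => J.φ (X₁.y i)) (fun i => J.ψ (X₂.y i)), ?_⟩
    rw [jac_joint J hD, jac_dual X₁.D X₁.y X₁.D_y, jac_dual X₂.D X₂.y X₂.D_y]
    simp
  let yy : Fin ((m₁ + 1) + (m₂ + 1)) → L :=
    Fin.append (fun i => J.φ (X₁.y i)) (fun i => J.ψ (X₂.y i))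
  refine ⟨{ K := L
            y := yy
            basis := joint_basis J X₁.y X₁.basis X₂.y X₂.basis
            D := D
            D_y := joint_dual J hD X₁.y X₂.y X₁.D_y X₂.D_y
            A := S
            fg := hS.fg
            frac := frac_of_good hS
            normal := normal_of_good hS
            δ := δ
            height := height
            gorenstein := ?_
            cartier := ?_ }, fun z x₁ x₂ => Over ι₁ ι₂ z x₁ x₂, ?_, ?_, ?_, ?_, ?_⟩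
  · intro z
    obtain ⟨x₁, x₂, hz⟩ := over_pts hP g₁ g₂ z
    obtain ⟨N₁, F₁, hN₁, e₁⟩ := X₁.gorenstein x₁
    obtain ⟨N₂, F₂, hN₂, e₂⟩ := X₂.gorenstein x₂
    refine ⟨N₁ * N₂, Units.map (J.φ : X₁.K →* L) F₁ ^ N₂ * Units.map (J.ψ : X₂.K →* L) F₂ ^ N₁,
      Nat.mul_pos hN₁ hN₂, ?_⟩
    refine isLocalEq_prod hP g₁ g₂ hS hD X₁.y X₁.D_y X₂.y X₂.D_y (δ₁ := 0) (δ₂ := 0) (δ := 0)
      (by simp) (by simp) (by simp) hz e₁ e₂ ?_
    intro v
    have hN₁' : (N₁ : ℝ) ≠ 0 := by exact_mod_cast hN₁.ne'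
    have hN₂' : (N₂ : ℝ) ≠ 0 := by exact_mod_cast hN₂.ne'
    have hF₁ : J.φ (F₁ : X₁.K) ≠ 0 := by
      rw [Ne, map_eq_zero]; exact F₁.ne_zero
    have hF₂ : J.ψ (F₂ : X₂.K) ≠ 0 := by
      rw [Ne, map_eq_zero]; exact F₂.ne_zero
    unfold DVal.val push
    rw [Finsupp.mapDomain_single, Finsupp.mapDomain_single, Finsupp.sum_single_index (by simp),
      Finsupp.sum_single_index (by simp), Finsupp.sum_single_index (by simp)]
    have hord : v.ord ((Units.map (J.φ : X₁.K →* L) F₁ ^ N₂ *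
        Units.map (J.ψ : X₂.K →* L) F₂ ^ N₁ : Lˣ) : L) =
        N₂ * v.ord (J.φ (F₁ : X₁.K)) + N₁ * v.ord (J.ψ (F₂ : X₂.K)) := by
      have h1 : ((Units.map (J.φ : X₁.K →* L) F₁ ^ N₂ *
        Units.map (J.ψ : X₂.K →* L) F₂ ^ N₁ : Lˣ) : L) =
        J.φ (F₁ : X₁.K) ^ N₂ * J.ψ (F₂ : X₂.K) ^ N₁ := by
        push_cast
        rfl
      rw [h1, v.ord_mul _ _ (pow_ne_zero _ hF₁) (pow_ne_zero _ hF₂), Jac.ord_pow v _ hF₁,
        Jac.ord_pow v _ hF₂]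
    have hc₁ : ((Units.map (J.φ : X₁.K →* L) F₁ : Lˣ) : L) = J.φ (F₁ : X₁.K) := rfl
    have hc₂ : ((Units.map (J.ψ : X₂.K →* L) F₂ : Lˣ) : L) = J.ψ (F₂ : X₂.K) := rfl
    rw [hord, hc₁, hc₂]
    push_cast
    field_simp
  · intro z
    obtain ⟨x₁, x₂, hz⟩ := over_pts hP g₁ g₂ z
    obtain ⟨γ₁, e₁⟩ := X₁.cartier x₁
    obtain ⟨γ₂, e₂⟩ := X₂.cartier x₂
    exact ⟨_, hcart z x₁ x₂ hz γ₁ γ₂ e₁ e₂⟩
  · intro Q
    show δ Q = 0 ∨ (∃ q₁, δ Q = X₁.δ q₁) ∨ ∃ q₂, δ Q = X₂.δ q₂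
    by_cases h0 : δ Q = 0
    · exact Or.inl h0
    · rcases trichotomy hP g₁ g₂ Q (height Q h0) with ⟨P, hPh, rfl⟩ | ⟨P, hPh, rfl⟩ | ⟨hc₁, hc₂⟩
      · exact Or.inr (Or.inl ⟨P, hδ₁ P hPh⟩)
      · exact Or.inr (Or.inr ⟨P, hδ₂ P hPh⟩)
      · exact Or.inl (hδ₃ Q (height Q h0) hc₁ hc₂)
  · exact over_exists hP g₁ g₂
  · intro z x₁ x₂ hz l hl
    obtain ⟨v, hdiv, hcen, j, hj, γ, hγ, rfl⟩ := hl
    obtain ⟨γ₁, e₁⟩ := X₁.cartier x₁
    obtain ⟨γ₂, e₂⟩ := X₂.cartier x₂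
    have e₁₂ := hcart z x₁ x₂ hz γ₁ γ₂ e₁ e₂
    have hval : v.val γ = v.val (push J.φ γ₁ + push J.ψ γ₂) :=
      indep_gen S hS D hjac δ z.asIdeal z.isMaximal.isPrime γ _ hγ e₁₂ v hcen
    have hc := (over_center hP g₁ g₂ x₁ x₂ z hz v).1 hcen
    obtain ⟨⟨hi₁, hs₁⟩, hi₂, hs₂⟩ := hc
    obtain ⟨a, ha, ha0⟩ := exists_mem_ne X₁ x₁
    obtain ⟨b, hb, hb0⟩ := exists_mem_ne X₂ x₂
    have hposa : 0 < v.ord (J.φ (a : X₁.K)) := (hs₁ a).1 ha (by rw [Ne, map_eq_zero]; exact ha0)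
    have hposb : 0 < v.ord (J.ψ (b : X₂.K)) := (hs₂ b).1 hb (by rw [Ne, map_eq_zero]; exact hb0)
    obtain ⟨n₁, n₂, v₁, v₂, j₁, j₂, hn₁, hn₂, ho₁, ho₂, hd₁, hd₂, hf₁', hf₂', hle⟩ :=
      low J X₁.y X₁.basis X₁.D X₁.D_y X₂.y X₂.basis X₂.D X₂.D_y D hD v hdiv j hj
        ⟨a, ha0, hposa⟩ ⟨b, hb0, hposb⟩
    have hn₁' : (0 : ℤ) < n₁ := by exact_mod_cast hn₁
    have hn₂' : (0 : ℤ) < n₂ := by exact_mod_cast hn₂
    have c₁ : v₁.HasCenter X₁.A x₁.asIdeal := by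
      refine ⟨fun a ha => ?_, fun a => ?_⟩
      · have h1 := hi₁ a (by rw [Ne, map_eq_zero]; exact ha)
        rw [ho₁ _ ha] at h1
        exact nonneg_of_mul_nonneg_right h1 hn₁'
      · rw [hs₁ a]
        constructor
        · intro h ha
          have h1 := h (by rw [Ne, map_eq_zero]; exact ha)
          rw [ho₁ _ ha] at h1
          exact (mul_pos_iff_of_pos_left hn₁').1 h1
        · intro h ha
          have ha' : (a : X₁.K) ≠ 0 := by
            intro h0; apply ha; rw [h0, map_zero]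
          rw [ho₁ _ ha']
          exact mul_pos hn₁' (h ha')
    have c₂ : v₂.HasCenter X₂.A x₂.asIdeal := by
      refine ⟨fun a ha => ?_, fun a => ?_⟩
      · have h1 := hi₂ a (by rw [Ne, map_eq_zero]; exact ha)
        rw [ho₂ _ ha] at h1
        exact nonneg_of_mul_nonneg_right h1 hn₂'
      · rw [hs₂ a]
        constructor
        · intro h ha
          have h1 := h (by rw [Ne, map_eq_zero]; exact ha)
          rw [ho₂ _ ha] at h1
          exact (mul_pos_iff_of_pos_left hn₂').1 h1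
        · intro h ha
          have ha' : (a : X₂.K) ≠ 0 := by
            intro h0; apply ha; rw [h0, map_zero]
          rw [ho₂ _ ha']
          exact mul_pos hn₂' (h ha')
    refine ⟨1 + (j₁ : ℝ) - v₁.val γ₁, ⟨v₁, hd₁, c₁, j₁, hf₁', γ₁, e₁, rfl⟩,
      1 + (j₂ : ℝ) - v₂.val γ₂, ⟨v₂, hd₂, c₂, j₂, hf₂', γ₂, e₂, rfl⟩, n₁, n₂, hn₁, hn₂, ?_⟩
    rw [hval, val_add, val_push J.φ v v₁ n₁ (by intro a ha; rw [ho₁ a ha]; push_cast; rfl),
      val_push J.ψ v v₂ n₂ (by intro a ha; rw [ho₂ a ha]; push_cast; rfl)]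
    have hle' : (n₁ : ℝ) * (j₁ + 1) + n₂ * (j₂ + 1) ≤ j + 1 := by exact_mod_cast hle
    linarith
  · intro z x₁ x₂ hz l₁ hl₁ l₂ hl₂ w hw
    obtain ⟨v₁, hd₁, c₁, j₁, hf₁', γ₁, e₁, rfl⟩ := hl₁
    obtain ⟨v₂, hd₂, c₂, j₂, hf₂', γ₂, e₂, rfl⟩ := hl₂
    obtain ⟨v, hv⟩ := tensorVal_exists J v₁ v₂ w hw
    obtain ⟨b₁, E₁, hb₁⟩ := logBasis v₁ X₁.y X₁.basis X₁.D X₁.D_y hd₁ j₁ hf₁'
    obtain ⟨b₂, E₂, hb₂⟩ := logBasis v₂ X₂.y X₂.basis X₂.D X₂.D_y hd₂ j₂ hf₂'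
    obtain ⟨j, hj, hjle⟩ := tensorVal_form J hv hD hb₁ hb₂
    have e₁₂ := hcart z x₁ x₂ hz γ₁ γ₂ e₁ e₂
    have hw' : (0 : ℤ) < w := by exact_mod_cast hw
    have hcen : v.HasCenter S z.asIdeal := by
      rw [over_center hP g₁ g₂ x₁ x₂ z hz v]
      refine ⟨⟨fun a ha => ?_, fun a => ?_⟩, fun b hb => ?_, fun b => ?_⟩
      · have ha' : (a : X₁.K) ≠ 0 := by
          intro h0; apply ha; rw [h0, map_zero]
        rw [hv.ord_φ _ ha']
        exact mul_nonneg hw'.le (c₁.1 a ha')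
      · rw [c₁.2 a]
        constructor
        · intro h ha
          have ha' : (a : X₁.K) ≠ 0 := by
            intro h0; apply ha; rw [h0, map_zero]
          rw [hv.ord_φ _ ha']
          exact mul_pos hw' (h ha')
        · intro h ha
          have h1 := h (by rw [Ne, map_eq_zero]; exact ha)
          rw [hv.ord_φ _ ha] at h1
          exact (mul_pos_iff_of_pos_left hw').1 h1
      · have hb' : (b : X₂.K) ≠ 0 := by
          intro h0; apply hb; rw [h0, map_zero]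
        rw [hv.ord_ψ _ hb']
        exact c₂.1 b hb'
      · rw [c₂.2 b]
        constructor
        · intro h hb
          have hb' : (b : X₂.K) ≠ 0 := by
            intro h0; apply hb; rw [h0, map_zero]
          rw [hv.ord_ψ _ hb']
          exact h hb'
        · intro h hb
          have h1 := h (by rw [Ne, map_eq_zero]; exact hb)
          rwa [hv.ord_ψ _ hb] at h1
    refine ⟨1 + (j : ℝ) - v.val (push J.φ γ₁ + push J.ψ γ₂),
      ⟨v, tensorVal_div J hv hd₁ hd₂, hcen, j, hj, _, e₁₂, rfl⟩, ?_⟩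
    rw [val_add, val_push J.φ v v₁ w (by intro a ha; rw [hv.ord_φ a ha]; push_cast; rfl),
      val_push J.ψ v v₂ 1 (by intro a ha; rw [hv.ord_ψ a ha, one_mul])]
    have hle' : (j : ℝ) + 1 ≤ w * (j₁ + 1) + (j₂ + 1) := by exact_mod_cast hjle
    linarith
  · intro Z₁ Z₂ x₁ x₂ z hx₁ hx₂ hz
    exact over_closure hP g₁ g₂ Z₁ Z₂ x₁ x₂ z hz hx₁ hx₂

end Pool.Agent.MLD.Ten
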