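import Pool.Agent.Lib.MP_f23696_ag.T.Val
import Pool.Agent.Lib.MP_f23696_ag.Ord

/-!
Module LIN: the affine line with one weighted point.
-/

set_option autoImplicit false

open scoped TensorProduct Polynomial

namespace Pool.Agent.MLD.Ten

open Pool.Agent.MLD.Jac

universe u v w

namespace Lin

noncomputable section

variable {k : Type u} [Field k]

/-- polynomials as rational functions -/
abbrev im (p : k[X]) : RatFunc k := algebraMap k[X] (RatFunc k) p

theorem im_ne {p : k[X]} (hp : p ≠ 0) : im p ≠ 0 := by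
  intro h
  exact hp ((map_eq_zero_iff _ (RatFunc.algebraMap_injective k)).1 h)

theorem im_C (c : k) : im (Polynomial.C c) = algebraMap k (RatFunc k) c := by
  change algebraMap k[X] (RatFunc k) (Polynomial.C c) = algebraMap k (RatFunc k) c
  rw [RatFunc.algebraMap_C, RatFunc.algebraMap_eq_C]

theorem aeval_im (p : k[X]) : Polynomial.aeval (RatFunc.X : RatFunc k) p = im p := by
  rw [← RatFunc.algebraMap_X, Polynomial.aeval_algebraMap_apply, Polynomial.aeval_X_left_apply]

/-- the derivation `d/dX` -/
theorem exists_der (k : Type u) [Field k] : ∃ D : Derivation k (RatFunc k) (RatFunc k),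
    D RatFunc.X = 1 := by
  let T := TrivSqZeroExt (RatFunc k) (RatFunc k)
  let g : k[X] →ₐ[k] T := Polynomial.aeval (TrivSqZeroExt.inl RatFunc.X + TrivSqZeroExt.inr 1)
  have hg1 : ∀ p : k[X], (g p).fst = im p := by
    intro p
    have h : (TrivSqZeroExt.fstHom k (RatFunc k) (RatFunc k)).comp g =
        IsScalarTower.toAlgHom k k[X] (RatFunc k) := by
      apply Polynomial.algHom_ext
      change TrivSqZeroExt.fst (Polynomial.aeval (TrivSqZeroExt.inl RatFunc.X +
        TrivSqZeroExt.inr 1 : TrivSqZeroExt (RatFunc k) (RatFunc k)) (Polynomial.X : k[X])) =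
        algebraMap k[X] (RatFunc k) Polynomial.X
      rw [Polynomial.aeval_X, TrivSqZeroExt.fst_add, TrivSqZeroExt.fst_inl, TrivSqZeroExt.fst_inr,
        add_zero, RatFunc.algebraMap_X]
    exact congrArg (fun f => f p) h
  have hu : ∀ y : nonZeroDivisors k[X], IsUnit (g y) := by
    intro y
    rw [TrivSqZeroExt.isUnit_iff_isUnit_fst, hg1]
    exact isUnit_iff_ne_zero.2 (im_ne (nonZeroDivisors.coe_ne_zero y))
  let h : RatFunc k →ₐ[k] T := IsLocalization.liftAlgHom (M := nonZeroDivisors k[X]) hu
  have hh : ∀ p : k[X], h (im p) = g p := fun p => IsLocalization.lift_eq _ p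
  have hf : ∀ x : RatFunc k, (h x).fst = x := by
    intro x
    have h1 : ((TrivSqZeroExt.fstHom k (RatFunc k) (RatFunc k)).comp h) x = x := by
      rw [← RatFunc.num_div_denom x, map_div₀]
      congr 1
      · change (h (im x.num)).fst = im x.num
        rw [hh, hg1]
      · change (h (im x.denom)).fst = im x.denom
        rw [hh, hg1]
    exact h1
  have hadd : ∀ a b : RatFunc k, (h (a + b)).snd = (h a).snd + (h b).snd := by
    intro a b
    rw [map_add]
    exact TrivSqZeroExt.snd_add _ _
  have hsmul : ∀ (c : k) (x : RatFunc k), (h (c • x)).snd = c • (h x).snd := by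
    intro c x
    rw [map_smul]
    exact TrivSqZeroExt.snd_smul _ _
  refine ⟨Derivation.mk' ⟨⟨fun x => (h x).snd, hadd⟩, hsmul⟩ ?_, ?_⟩
  · intro a b
    change (h (a * b)).snd = a • (h b).snd + b • (h a).snd
    rw [map_mul]
    refine (TrivSqZeroExt.snd_mul (h a) (h b)).trans ?_
    rw [hf, hf]
    simp only [smul_eq_mul, MulOpposite.smul_eq_mul_unop, MulOpposite.unop_op]
    ring
  · change (h RatFunc.X).snd = 1
    rw [← RatFunc.algebraMap_X]
    change (h (im Polynomial.X)).snd = 1
    rw [hh]
    change (Polynomial.aeval (TrivSqZeroExt.inl RatFunc.X + TrivSqZeroExt.inr 1 :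
      TrivSqZeroExt (RatFunc k) (RatFunc k)) (Polynomial.X : k[X])).snd = 1
    rw [Polynomial.aeval_X, TrivSqZeroExt.snd_add, TrivSqZeroExt.snd_inl, TrivSqZeroExt.snd_inr,
      zero_add]

/-- the derivation `d/dX` -/
def dd (k : Type u) [Field k] : Derivation k (RatFunc k) (RatFunc k) :=
  Classical.choose (exists_der k)

theorem dd_X : dd k RatFunc.X = 1 := Classical.choose_spec (exists_der k)

theorem dd_im (p : k[X]) : dd k (im p) = im (Polynomial.derivative p) := by
  rw [← aeval_im, Derivation.map_aeval, dd_X, smul_eq_mul, mul_one, aeval_im]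

/-! ### valuations centred at `X = a` -/

/-- the centre of `v` is `X = a` -/
def At (v : DVal k (RatFunc k)) (a : k) : Prop :=
  (∀ p : k[X], v.Integral (im p)) ∧ ∀ p : k[X], v.Small (im p) ↔ p.eval a = 0

variable {v : DVal k (RatFunc k)} {a : k} (hv : At v a)
include hv

theorem ord_unit {p : k[X]} (hp : p.eval a ≠ 0) : im p ≠ 0 ∧ v.ord (im p) = 0 :=
  ord_eq_zero_of v (hv.1 p) fun h => hp ((hv.2 p).1 h)

theorem ord_poly {p : k[X]} (hp : p ≠ 0) :
    v.ord (im p) = p.rootMultiplicity a * v.ord (im (Polynomial.X - Polynomial.C a)) := by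
  obtain ⟨q, hq, hq2⟩ := Polynomial.exists_eq_pow_rootMultiplicity_mul_and_not_dvd p hp a
  have hq3 : q.eval a ≠ 0 := fun h => hq2 (Polynomial.dvd_iff_isRoot.2 h)
  have h1 := ord_unit hv hq3
  have h2 : im (Polynomial.X - Polynomial.C a) ≠ 0 := im_ne (Polynomial.X_sub_C_ne_zero a)
  have h3 : im p = im (Polynomial.X - Polynomial.C a) ^ p.rootMultiplicity a * im q := by
    conv_lhs => rw [hq]
    rw [im, map_mul, map_pow]
  rw [h3, v.ord_mul _ _ (pow_ne_zero _ h2) h1.1, h1.2, ord_pow v _ h2, add_zero]

theorem ord_lin : v.ord (im (Polynomial.X - Polynomial.C a)) = 1 := by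
  obtain ⟨f, hf, h1⟩ := v.exists_ord_eq_one
  have hn : f.num ≠ 0 := RatFunc.num_ne_zero hf
  have hd : f.denom ≠ 0 := RatFunc.denom_ne_zero f
  rw [← RatFunc.num_div_denom f] at h1
  have h2 : v.ord (im f.num / im f.denom) = 1 := h1
  rw [ord_div v _ _ (im_ne hn) (im_ne hd), ord_poly hv hn, ord_poly hv hd, ← sub_mul] at h2
  have h3 : 0 < v.ord (im (Polynomial.X - Polynomial.C a)) :=
    ((hv.2 _).2 (by simp)) (im_ne (Polynomial.X_sub_C_ne_zero a))
  exact Int.eq_one_of_dvd_one h3.le ⟨_, by rw [mul_comm]; exact h2.symm⟩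

theorem der_int {b : RatFunc k} (hb : v.Integral b) : v.Integral (dd k b) := by
  by_cases hb0 : b = 0
  · rw [hb0, map_zero]
    exact fun h => absurd rfl h
  have hn : b.num ≠ 0 := RatFunc.num_ne_zero hb0
  have hd : b.denom ≠ 0 := RatFunc.denom_ne_zero b
  have hb1 : b = im b.num / im b.denom := (RatFunc.num_div_denom b).symm
  have h0 := hb hb0
  have hde : b.denom.eval a ≠ 0 := by
    intro h
    have hne : b.num.eval a ≠ 0 := by
      intro h'
      obtain ⟨r, s, hrs⟩ := RatFunc.isCoprime_num_denom b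
      have := congrArg (Polynomial.eval a) hrs
      simp [h, h'] at this
    rw [hb1, ord_div v _ _ (im_ne hn) (im_ne hd), (ord_unit hv hne).2] at h0
    have h1 := ((hv.2 _).2 h) (im_ne hd)
    omega
  have hu := ord_unit hv hde
  have h2 : dd k b = (im b.denom)⁻¹ ^ 2 *
      im (b.denom * Polynomial.derivative b.num - b.num * Polynomial.derivative b.denom) := by
    conv_lhs => rw [hb1]
    rw [Derivation.leibniz_div, dd_im, dd_im, smul_eq_mul, smul_eq_mul, smul_eq_mul]
    simp only [im, map_sub, map_mul]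
  rw [h2]
  have h3 : LB v 0 ((im b.denom)⁻¹ ^ 2) := by
    intro _
    rw [ord_pow v _ (inv_ne_zero hu.1), ord_inv v _ hu.1, hu.2]
    simp
  have h4 := h3.mul (N := 0) (hv.1
    (b.denom * Polynomial.derivative b.num - b.num * Polynomial.derivative b.denom))
  rwa [add_zero] at h4

omit hv in
theorem jac_one (c : Fin (0 + 1) → RatFunc k) :
    jac (fun _ : Fin (0 + 1) => dd k) c = dd k (c 0) := by
  exact Matrix.det_fin_one _

theorem form_zero : v.FormOrd (fun _ : Fin (0 + 1) => dd k) 0 := by
  refine ⟨?_, fun _ => RatFunc.X, ?_, ?_, ?_⟩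
  · intro c hc hj
    rw [jac_one] at hj ⊢
    rw [neg_zero]
    exact der_int hv (hc 0) hj
  · intro _
    rw [← RatFunc.algebraMap_X]
    exact hv.1 _
  · rw [jac_one, dd_X]
    exact one_ne_zero
  · rw [jac_one, dd_X, ord_one, neg_zero]

theorem form_unique {j : ℤ} (h : v.FormOrd (fun _ : Fin (0 + 1) => dd k) j) : j = 0 := by
  obtain ⟨h1, c, hc, hj, ho⟩ := h
  have h0 := form_zero hv
  obtain ⟨g1, d, hd, gj, go⟩ := h0
  have e1 := h1 d hd gj
  have e2 := g1 c hc hj
  omega

omit hv

/-! ### the ring of polynomials as a subalgebra -/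

/-- the coordinate ring of the line -/
def AA (k : Type u) [Field k] : Subalgebra k (RatFunc k) :=
  (IsScalarTower.toAlgHom k k[X] (RatFunc k)).range

/-- polynomials as elements of the coordinate ring -/
def ee (k : Type u) [Field k] : k[X] ≃ₐ[k] AA k :=
  AlgEquiv.ofInjective (IsScalarTower.toAlgHom k k[X] (RatFunc k))
    (RatFunc.algebraMap_injective k)

theorem coe_ee (p : k[X]) : (ee k p : RatFunc k) = im p := rfl

theorem AA_fg : (AA k).FG := by
  rw [Subalgebra.fg_iff_finiteType]
  exact Algebra.FiniteType.equiv inferInstance (ee k)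

theorem AA_frac : IsFractionRing (AA k) (RatFunc k) := by
  refine IsFractionRing.of_field (AA k) (RatFunc k) fun z => ?_
  exact ⟨ee k z.num, ee k z.denom, (RatFunc.num_div_denom z).symm⟩

theorem AA_norm : IsIntegrallyClosed (AA k) :=
  IsIntegrallyClosed.of_equiv (ee k).toRingEquiv

/-- the point `c` of the line -/
def PP (c : k) : Ideal (AA k) :=
  RingHom.ker ((Polynomial.aeval c : k[X] →ₐ[k] k).comp (ee k).symm.toAlgHom)

theorem mem_PP (c : k) (p : k[X]) : ee k p ∈ PP c ↔ p.eval c = 0 := by
  unfold PP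
  rw [RingHom.mem_ker]
  change Polynomial.aeval c ((ee k).symm (ee k p)) = 0 ↔ _
  rw [AlgEquiv.symm_apply_apply, Polynomial.coe_aeval_eq_eval]

theorem PP_max (c : k) : (PP c).IsMaximal := by
  apply RingHom.ker_isMaximal_of_surjective
  intro r
  exact ⟨ee k (Polynomial.C r), by
    change Polynomial.aeval c ((ee k).symm (ee k (Polynomial.C r))) = r
    rw [AlgEquiv.symm_apply_apply, Polynomial.aeval_C]
    rfl⟩

theorem prime_form [IsAlgClosed k] (q : Ideal (AA k)) (hq : q.IsPrime) (h0 : q ≠ ⊥) :
    ∃ c : k, ∀ p : k[X], ee k p ∈ q ↔ p.eval c = 0 := by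
  let q' : Ideal k[X] := q.comap (ee k)
  have hq' : q'.IsPrime := Ideal.IsPrime.comap _
  obtain ⟨x, hx, hx0⟩ := Submodule.exists_mem_ne_zero_of_ne_bot h0
  have h1 : q' ≠ ⊥ := by
    intro h
    have h2 : (ee k).symm x ∈ q' := by
      change ee k ((ee k).symm x) ∈ q
      rw [AlgEquiv.apply_symm_apply]
      exact hx
    rw [h, Ideal.mem_bot] at h2
    apply hx0
    rw [← (ee k).apply_symm_apply x, h2, map_zero]
  have hpr : Prime (Submodule.IsPrincipal.generator q') :=
    Submodule.IsPrincipal.prime_generator_of_isPrime q' h1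
  have hdeg := IsAlgClosed.degree_eq_one_of_irreducible k hpr.irreducible
  obtain ⟨c, hc⟩ := Polynomial.exists_root_of_degree_eq_one hdeg
  refine ⟨c, fun p => ?_⟩
  have h3 : ee k p ∈ q ↔ Submodule.IsPrincipal.generator q' ∣ p :=
    Submodule.IsPrincipal.mem_iff_generator_dvd q'
  rw [h3]
  have h4 : Polynomial.X - Polynomial.C c ∣ Submodule.IsPrincipal.generator q' :=
    Polynomial.dvd_iff_isRoot.2 hc
  have h5 : Associated (Polynomial.X - Polynomial.C c) (Submodule.IsPrincipal.generator q') :=
    ((Polynomial.prime_X_sub_C c).irreducible).associated_of_dvd hpr.irreducible h4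
  rw [← h5.dvd_iff_dvd_left]
  exact Polynomial.dvd_iff_isRoot

theorem eq_PP {q : Ideal (AA k)} {c : k} (h : ∀ p : k[X], ee k p ∈ q ↔ p.eval c = 0) :
    q = PP c := by
  ext x
  obtain ⟨p, rfl⟩ := (ee k).surjective x
  rw [h, mem_PP]

theorem PP_inj {c d : k} (h : PP c ≤ PP d) : c = d := by
  have h1 : ee k (Polynomial.X - Polynomial.C c) ∈ PP d := h ((mem_PP c _).2 (by simp))
  rw [mem_PP] at h1
  simp only [Polynomial.eval_sub, Polynomial.eval_X, Polynomial.eval_C, sub_eq_zero] at h1
  exact h1.symm

theorem PP_height [IsAlgClosed k] (c : k) : IsHeightOne (PP c) := by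
  refine ⟨(PP_max c).isPrime, ?_, ?_⟩
  · intro h
    have h1 : ee k (Polynomial.X - Polynomial.C c) ∈ PP c := (mem_PP c _).2 (by simp)
    rw [h, Ideal.mem_bot, map_eq_zero_iff _ (ee k).injective] at h1
    exact Polynomial.X_sub_C_ne_zero c h1
  · intro q hq h0 hle
    obtain ⟨d, hd⟩ := prime_form q hq h0
    rw [eq_PP hd] at hle ⊢
    rw [PP_inj hle]

theorem height_form [IsAlgClosed k] {q : Ideal (AA k)} (hq : IsHeightOne q) : ∃ c, q = PP c := by
  obtain ⟨c, hc⟩ := prime_form q hq.1 hq.2.1
  exact ⟨c, eq_PP hc⟩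

theorem at_of {v : DVal k (RatFunc k)} {c : k} (h : v.HasCenter (AA k) (PP c)) : At v c :=
  ⟨fun p => h.1 (ee k p), fun p => by rw [← mem_PP, h.2]; rfl⟩

theorem exists_val (c : k) : ∃ v : DVal k (RatFunc k), v.HasCenter (AA k) (PP c) := by
  have hX : (RatFunc.X - RatFunc.C c : RatFunc k) = im (Polynomial.X - Polynomial.C c) := by
    change _ = algebraMap k[X] (RatFunc k) _
    rw [map_sub, RatFunc.algebraMap_X, RatFunc.algebraMap_C]
  have h1 : ordAt (some c) (RatFunc.X - RatFunc.C c : RatFunc k) = 1 := by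
    rw [ordAt_X_sub]
    simp
  have hpol : ∀ p : k[X], p ≠ 0 → ordAt (some c) (im p) = p.rootMultiplicity c := by
    intro p hp
    have h := Ord.some_div c hp (one_ne_zero (α := k[X]))
    have h2 : Ord.im (1 : k[X]) = 1 := map_one _
    have h3 : Polynomial.rootMultiplicity c (1 : k[X]) = 0 := by
      rw [← Polynomial.C_1, Polynomial.rootMultiplicity_C]
    rw [h2, div_one, h3] at h
    rw [show im p = Ord.im p from rfl, h]
    simp
  let v : DVal k (RatFunc k) := ⟨ordAt (some c), fun a b ha hb => ordAt_mul _ ha hb,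
    fun a b ha hb h => ordAt_add _ ha hb h, fun r _ => by
      rw [RatFunc.algebraMap_eq_C]
      exact ordAt_C _ r, _, by
        rw [hX]
        exact im_ne (Polynomial.X_sub_C_ne_zero c), h1⟩
  refine ⟨v, ?_, ?_⟩
  · intro x hx
    obtain ⟨p, rfl⟩ := (ee k).surjective x
    have hp : p ≠ 0 := by
      rintro rfl
      exact hx (by rw [map_zero]; rfl)
    change 0 ≤ ordAt (some c) (im p)
    rw [hpol p hp]
    positivity
  · intro x
    obtain ⟨p, rfl⟩ := (ee k).surjective x
    rw [mem_PP]
    by_cases hp : p = 0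
    · subst hp
      simp only [Polynomial.eval_zero, map_zero, true_iff]
      intro h
      exact absurd rfl h
    · constructor
      · intro h _
        change 0 < ordAt (some c) (im p)
        rw [hpol p hp]
        have := (Polynomial.rootMultiplicity_pos hp).2 h
        exact_mod_cast this
      · intro h
        have h2 : 0 < ordAt (some c) (im p) := h (im_ne hp)
        rw [hpol p hp] at h2
        exact (Polynomial.rootMultiplicity_pos hp).1 (by exact_mod_cast h2)

theorem divisorial_zero (v : DVal k (RatFunc k)) : v.IsDivisorial 0 := by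
  refine ⟨Fin.elim0, fun i => i.elim0, ?_⟩
  intro F hF hs
  obtain ⟨c, rfl⟩ := MvPolynomial.C_surjective (Fin 0) F
  have hc : c ≠ 0 := by
    rintro rfl
    exact hF (map_zero _)
  rw [MvPolynomial.aeval_C] at hs
  have h1 := hs ((map_ne_zero _).2 hc)
  rw [v.ord_algebraMap c hc] at h1
  exact lt_irrefl _ h1

theorem basis_X : IsTranscendenceBasis k (fun _ : Fin (0 + 1) => (RatFunc.X : RatFunc k)) := by
  have h1 : AlgebraicIndependent k (fun _ : Fin (0 + 1) => (RatFunc.X : RatFunc k)) := by
    have : Unique (Fin (0 + 1)) := inferInstanceAs (Unique (Fin 1))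
    rw [algebraicIndependent_unique_type_iff]
    exact RatFunc.transcendental_X
  rw [isTranscendenceBasis_iff_algebraicIndependent_isAlgebraic]
  have hmem : ∀ p : k[X], im p ∈ Algebra.adjoin k
      (Set.range fun _ : Fin (0 + 1) => (RatFunc.X : RatFunc k)) := by
    intro p
    rw [← aeval_im, Set.range_const]
    exact Polynomial.aeval_mem_adjoin_singleton _ _
  refine ⟨h1, ⟨fun f => ?_⟩⟩
  have h2 : f = im f.num * (im f.denom)⁻¹ := by
    rw [← div_eq_mul_inv]
    exact (RatFunc.num_div_denom f).symm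
  rw [h2]
  exact (isAlgebraic_algebraMap (⟨im f.num, hmem _⟩ : Algebra.adjoin k
      (Set.range fun _ : Fin (0 + 1) => (RatFunc.X : RatFunc k)))).mul
    (isAlgebraic_algebraMap (⟨im f.denom, hmem _⟩ : Algebra.adjoin k
      (Set.range fun _ : Fin (0 + 1) => (RatFunc.X : RatFunc k)))).inv

end

end Lin

/-- the affine line with one weighted point -/
theorem line (k : Type u) [Field k] [IsAlgClosed k] [CharZero k] (β : ℝ) :
    ∃ (X : Pair k 0) (x : X.Pt), (∀ q, X.δ q = 0 ∨ X.δ q = β) ∧ X.ld x = {1 - β} := by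
  classical
  have hone : ∀ (q : Ideal (Lin.AA k)) (c : k), q = Lin.PP c → ∀ v : DVal k (RatFunc k),
      v.HasCenter (Lin.AA k) q → Lin.At v c := by
    intro q c hq v hv
    rw [hq] at hv
    exact Lin.at_of hv
  let X : Pair k 0 :=
    { K := RatFunc k
      y := fun _ => RatFunc.X
      basis := Lin.basis_X
      D := fun _ => Lin.dd k
      D_y := by
        intro i j
        rw [Lin.dd_X, if_pos (Subsingleton.elim (α := Fin 1) i j)]
      A := Lin.AA k
      fg := Lin.AA_fg
      frac := Lin.AA_frac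
      normal := Lin.AA_norm
      δ := Finsupp.single (Lin.PP 0) β
      height := by
        intro q hq
        rw [Finsupp.single_apply] at hq
        have : Lin.PP 0 = q := by
          by_contra h
          exact hq (if_neg h)
        rw [← this]
        exact Lin.PP_height 0
      gorenstein := by
        intro x
        refine ⟨1, 1, one_pos, ?_⟩
        intro q _ hq v hv j hj
        obtain ⟨c, hc⟩ := Lin.height_form hq
        have hj0 := Lin.form_unique (hone q c hc v hv) hj
        rw [hj0]
        simp [DVal.val, ord_one]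
      cartier := by
        intro x
        by_cases hx : x.asIdeal = Lin.PP 0
        · refine ⟨Finsupp.single (Units.mk0 (RatFunc.X : RatFunc k) RatFunc.X_ne_zero) β, ?_⟩
          intro q hle hq v hv j hj
          have hq0 : q = Lin.PP 0 := by
            rw [hx] at hle
            exact (Lin.PP_height 0).2.2 q hq.1 hq.2.1 hle
          have hat := hone q 0 hq0 v hv
          have hj0 := Lin.form_unique hat hj
          have hX : v.ord (RatFunc.X : RatFunc k) = 1 := by
            have h := Lin.ord_lin hat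
            have h' : Lin.im (Polynomial.X - Polynomial.C (0 : k)) = RatFunc.X := by
              rw [Polynomial.C_0, sub_zero]
              exact RatFunc.algebraMap_X
            rw [h'] at h
            exact h
          rw [hj0, hq0, Finsupp.single_eq_same]
          unfold DVal.val
          rw [Finsupp.sum_single_index (by simp), Units.val_mk0, hX]
          simp
        · refine ⟨0, ?_⟩
          intro q hle hq v hv j hj
          obtain ⟨c, hc⟩ := Lin.height_form hq
          have hj0 := Lin.form_unique (hone q c hc v hv) hj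
          have hne : Lin.PP 0 ≠ q := by
            intro h
            apply hx
            rw [← h] at hle
            exact ((Lin.PP_max (0 : k)).eq_of_le x.isMaximal.ne_top hle).symm
          rw [hj0, Finsupp.single_apply, if_neg hne]
          simp [DVal.val] }
  let x : X.Pt := ⟨Lin.PP 0, Lin.PP_max 0⟩
  refine ⟨X, x, ?_, ?_⟩
  · intro q
    change Finsupp.single (Lin.PP 0) β q = 0 ∨ Finsupp.single (Lin.PP 0) β q = β
    rw [Finsupp.single_apply]
    split_ifs
    · exact Or.inr rfl
    · exact Or.inl rfl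
  · ext l
    rw [Set.mem_singleton_iff]
    constructor
    · rintro ⟨v, _, hc, j, hj, γ, hγ, rfl⟩
      have hat : Lin.At v (0 : k) := Lin.at_of hc
      have hj0 := Lin.form_unique hat hj
      have h := hγ (Lin.PP 0) le_rfl (Lin.PP_height 0) v hc j hj
      have h2 : X.δ (Lin.PP 0) = β := Finsupp.single_eq_same
      rw [h2] at h
      rw [← h, hj0]
      ring
    · rintro rfl
      obtain ⟨v, hv⟩ := Lin.exists_val (0 : k)
      obtain ⟨γ, hγ⟩ := X.cartier x
      have hat : Lin.At v (0 : k) := Lin.at_of hv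
      have hf := Lin.form_zero hat
      refine ⟨v, Lin.divisorial_zero v, hv, 0, hf, γ, hγ, ?_⟩
      have h := hγ (Lin.PP 0) le_rfl (Lin.PP_height 0) v hv 0 hf
      have h2 : X.δ (Lin.PP 0) = β := Finsupp.single_eq_same
      rw [h2] at h
      rw [← h]
      push_cast
      ring

end Pool.Agent.MLD.Ten
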