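import Pool.Agent.Lib.MP_f23696_ag.Defs

/-!
Definitions for the product method (MP_f23696_ag): pairs `(X, Δ)`, `X = Spec A` a normal affine
ℚ-Gorenstein variety, and the approximate form of lower semicontinuity.
Divisors over `X`, log discrepancies and minimal log discrepancies are those of
`Pool.Agent.Lib.MP_f23696_ag.Defs`.
-/

set_option autoImplicit false

namespace Pool.Agent.MLD.Ten

universe u

/-- A pair `(X, Δ)` over `k`: `X = Spec A` is a normal affine variety of dimension `m + 1` with
function field `K`, `K_X` is `ℚ`-Cartier, `Δ = ∑ δ(q) V(q)` is a divisor with real (not necessarily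
nonnegative) coefficients and `K_X + Δ` is `ℝ`-Cartier.  The order of `dy_0 ∧ ⋯ ∧ dy_m` is computed
with the partial derivatives `D i = ∂/∂y_i`, `y` a transcendence basis of `K/k`. -/
structure Pair (k : Type u) [Field k] (m : ℕ) where
  K : Type u
  [field : Field K]
  [algebra : Algebra k K]
  y : Fin (m + 1) → K
  basis : IsTranscendenceBasis k y
  D : Fin (m + 1) → Derivation k K K
  D_y : ∀ i j, D i (y j) = if i = j then 1 else 0
  A : Subalgebra k K
  fg : A.FG
  frac : IsFractionRing A K
  normal : IsIntegrallyClosed A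
  δ : Ideal A →₀ ℝ
  height : ∀ q, δ q ≠ 0 → IsHeightOne q
  gorenstein : ∀ x : MaximalSpectrum A, ∃ (N : ℕ) (f : Kˣ), 0 < N ∧
    IsLocalEq A D 0 x.asIdeal (Finsupp.single f (1 / (N : ℝ)))
  cartier : ∀ x : MaximalSpectrum A, ∃ γ : Kˣ →₀ ℝ, IsLocalEq A D δ x.asIdeal γ

attribute [instance] Pair.field Pair.algebra

variable {k : Type u} [Field k] {m : ℕ}

/-- The closed points of `X`, with the Zariski topology. -/
abbrev Pair.Pt (X : Pair k m) : Type u := MaximalSpectrum X.A

/-- The log discrepancies over `(X, Δ)` of the divisors with centre the closed point `x`. -/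
def Pair.ld (X : Pair k m) (x : X.Pt) : Set ℝ := logDiscs X.A X.D X.δ x

/-- The minimal log discrepancy at the closed point `x`. -/
noncomputable def Pair.mld (X : Pair k m) (x : X.Pt) : EReal := MLD.mld X.A X.D X.δ x

/-- The coefficients of `Δ` lie in `I`. -/
def Pair.CoeffIn (X : Pair k m) (I : Set ℝ) : Prop := ∀ q, X.δ q ∈ I

/-- Approximate lower semicontinuity at the threshold `a` with error `e`, for all pairs of dimension
`m + 1` with coefficients in `I`: if the closed point `x` is in the closure of `{mld ≤ a}` then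
`mld x ≤ a + e`. -/
def ApproxLSC (k : Type u) [Field k] (I : Set ℝ) (m : ℕ) (a e : ℝ) : Prop :=
  ∀ X : Pair k m, X.CoeffIn I →
    ∀ x ∈ closure {z : X.Pt | X.mld z ≤ (a : EReal)}, X.mld x ≤ ((a + e : ℝ) : EReal)

/-- Lower semicontinuity of the minimal log discrepancy on closed points, for all pairs of dimension
`m + 1` with coefficients in `I`. -/
def LSC (k : Type u) [Field k] (I : Set ℝ) (m : ℕ) : Prop :=
  ∀ X : Pair k m, X.CoeffIn I → LowerSemicontinuous X.mld

end Pool.Agent.MLD.Ten
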