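import Pool.Agent.Lib.MP_f23696_ag.T.Defs

/-!
Product method: the final reduction, from the theorems `product` and `line`.
-/

set_option autoImplicit false

namespace Pool.Agent.MLD.Ten

universe u

/-- The conclusion of the theorem on products of two pairs. -/
def ProductStatement (k : Type u) [Field k] : Prop :=
  ∀ {m₁ m₂ : ℕ} (X₁ : Pair k m₁) (X₂ : Pair k m₂),
    ∃ (X : Pair k (m₁ + 1 + m₂)) (R : X.Pt → X₁.Pt → X₂.Pt → Prop),
      (∀ q, X.δ q = 0 ∨ (∃ q₁, X.δ q = X₁.δ q₁) ∨ ∃ q₂, X.δ q = X₂.δ q₂) ∧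
      (∀ x₁ x₂, ∃ z, R z x₁ x₂) ∧
      (∀ z x₁ x₂, R z x₁ x₂ → ∀ l ∈ X.ld z, ∃ l₁ ∈ X₁.ld x₁, ∃ l₂ ∈ X₂.ld x₂,
        ∃ e₁ e₂ : ℕ, 1 ≤ e₁ ∧ 1 ≤ e₂ ∧ e₁ * l₁ + e₂ * l₂ ≤ l) ∧
      (∀ z x₁ x₂, R z x₁ x₂ → ∀ l₁ ∈ X₁.ld x₁, ∀ l₂ ∈ X₂.ld x₂, ∀ w : ℕ, 1 ≤ w →
        ∃ l ∈ X.ld z, l ≤ w * l₁ + l₂) ∧
      (∀ Z₁ Z₂ x₁ x₂ z, x₁ ∈ closure Z₁ → x₂ ∈ closure Z₂ → R z x₁ x₂ →
        z ∈ closure {z' | ∃ y₁ ∈ Z₁, ∃ y₂ ∈ Z₂, R z' y₁ y₂})

/-- The conclusion of the theorem on the affine line. -/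
def LineStatement (k : Type u) [Field k] : Prop :=
  ∀ β : ℝ, ∃ (X : Pair k 0) (x : X.Pt), (∀ q, X.δ q = 0 ∨ X.δ q = β) ∧ X.ld x = {1 - β}

section
variable {k : Type u} [Field k] {m : ℕ}

theorem mld_le_of (X : Pair k m) (y : X.Pt) (α : ℝ) (h : ∀ η > 0, ∃ l ∈ X.ld y, l < α + η) :
    X.mld y ≤ (α : EReal) := by
  unfold Pair.mld MLD.mld
  split_ifs with h0
  · exact bot_le
  · refine EReal.le_of_forall_lt_iff_le.1 ?_
    intro z hz
    obtain ⟨l, hl, hlz⟩ := h (z - α) (by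
      have : α < z := by exact_mod_cast hz
      linarith)
    refine (iInf₂_le l hl).trans ?_
    have : l ≤ z := by linarith
    exact_mod_cast this

theorem exists_lt_of_mld {X : Pair k m} {y : X.Pt} {α : ℝ} (hα : 0 ≤ α)
    (h : X.mld y ≤ (α : EReal)) : ∀ η > 0, ∃ l ∈ X.ld y, l < α + η := by
  intro η hη
  unfold Pair.mld MLD.mld at h
  split_ifs at h with h0
  · obtain ⟨l, hl, hl0⟩ := h0
    exact ⟨l, hl, by linarith⟩
  · have h1 : (⨅ l ∈ logDiscs X.A X.D X.δ y, (l : EReal)) < ((α + η : ℝ) : EReal) := by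
      refine h.trans_lt ?_
      have : α < α + η := by linarith
      exact_mod_cast this
    obtain ⟨l, h1⟩ := iInf_lt_iff.1 h1
    obtain ⟨hl, hlt⟩ := iInf_lt_iff.1 h1
    exact ⟨l, hl, by exact_mod_cast hlt⟩

theorem exists_neg_of_mld {X : Pair k m} {y : X.Pt} {α : ℝ} (hα : α < 0)
    (h : X.mld y ≤ (α : EReal)) : ∃ l ∈ X.ld y, l < 0 := by
  unfold Pair.mld MLD.mld at h
  split_ifs at h with h0
  · exact h0
  · have h1 : (⨅ l ∈ logDiscs X.A X.D X.δ y, (l : EReal)) < ((0 : ℝ) : EReal) := by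
      refine h.trans_lt ?_
      exact_mod_cast hα
    obtain ⟨l, h1⟩ := iInf_lt_iff.1 h1
    obtain ⟨hl, hlt⟩ := iInf_lt_iff.1 h1
    exact ⟨l, hl, by exact_mod_cast hlt⟩

theorem mld_eq_bot {X : Pair k m} {y : X.Pt} (h : ∃ l ∈ X.ld y, l < 0) : X.mld y = ⊥ := by
  unfold Pair.mld MLD.mld
  exact if_pos h

theorem nonneg_of_lt {X : Pair k m} {y : X.Pt} {c : EReal} (h : c < X.mld y) :
    ∀ l ∈ X.ld y, 0 ≤ l := by
  intro l hl
  by_contra hneg
  push Not at hneg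
  rw [mld_eq_bot ⟨l, hl, hneg⟩] at h
  exact not_lt_bot h

theorem le_of_lt_mld {X : Pair k m} {y : X.Pt} {c : ℝ} (h : (c : EReal) < X.mld y) :
    ∀ l ∈ X.ld y, c ≤ l := by
  intro l hl
  have h0 : ¬ ∃ l ∈ logDiscs X.A X.D X.δ y, l < 0 := by
    rintro ⟨l, hl, hneg⟩
    exact absurd (nonneg_of_lt h l hl) (by linarith)
  unfold Pair.mld MLD.mld at h
  rw [if_neg h0] at h
  have := h.le.trans (iInf₂_le l hl)
  exact_mod_cast this

theorem le_mld {X : Pair k m} {y : X.Pt} {c : ℝ} (hc : 0 ≤ c) (h : ∀ l ∈ X.ld y, c ≤ l) :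
    (c : EReal) ≤ X.mld y := by
  have h0 : ¬ ∃ l ∈ logDiscs X.A X.D X.δ y, l < 0 := by
    rintro ⟨l, hl, hneg⟩
    have := h l hl
    linarith
  unfold Pair.mld MLD.mld
  rw [if_neg h0]
  refine le_iInf₂ fun l hl => ?_
  exact_mod_cast h l hl

/-- data with a jump at a nonnegative threshold -/
def Q (k : Type u) [Field k] (I : Set ℝ) (n : ℕ) (α β : ℝ) : Prop :=
  ∃ m, m + 1 = n ∧ ∃ X : Pair k m, X.CoeffIn I ∧ ∃ x : X.Pt,
    x ∈ closure {y : X.Pt | ∀ η > 0, ∃ l ∈ X.ld y, l < α + η} ∧ ∀ l ∈ X.ld x, β ≤ l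

/-- data with a jump at a negative threshold -/
def Qn (k : Type u) [Field k] (I : Set ℝ) (n : ℕ) (β : ℝ) : Prop :=
  ∃ m, m + 1 = n ∧ ∃ X : Pair k m, X.CoeffIn I ∧ ∃ x : X.Pt,
    x ∈ closure {y : X.Pt | ∃ l ∈ X.ld y, l < 0} ∧ ∀ l ∈ X.ld x, β ≤ l

theorem Q.prod (hP : ProductStatement k) {I : Set ℝ} (hI : (0 : ℝ) ∈ I) {n₁ n₂ : ℕ}
    {α₁ β₁ α₂ β₂ : ℝ} (h₁ : Q k I n₁ α₁ β₁) (h₂ : Q k I n₂ α₂ β₂) (hβ₁ : 0 ≤ β₁) (hβ₂ : 0 ≤ β₂) :
    Q k I (n₁ + n₂) (α₁ + α₂) (β₁ + β₂) := by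
  obtain ⟨m₁, rfl, X₁, hc₁, x₁, hx₁, hl₁⟩ := h₁
  obtain ⟨m₂, rfl, X₂, hc₂, x₂, hx₂, hl₂⟩ := h₂
  obtain ⟨X, R, hδ, hR, hlow, hup, hcl⟩ := hP X₁ X₂
  obtain ⟨z, hz⟩ := hR x₁ x₂
  refine ⟨m₁ + 1 + m₂, rfl, X, ?_, z, ?_, ?_⟩
  · intro q
    rcases hδ q with h | ⟨q₁, h⟩ | ⟨q₂, h⟩
    · rw [h]; exact hI
    · rw [h]; exact hc₁ q₁
    · rw [h]; exact hc₂ q₂
  · refine closure_mono ?_ (hcl _ _ x₁ x₂ z hx₁ hx₂ hz)
    rintro z' ⟨y₁, hy₁, y₂, hy₂, hz'⟩ η hη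
    obtain ⟨l₁, hm₁, h1⟩ := hy₁ (η / 2) (by linarith)
    obtain ⟨l₂, hm₂, h2⟩ := hy₂ (η / 2) (by linarith)
    obtain ⟨l, hl, hle⟩ := hup z' y₁ y₂ hz' l₁ hm₁ l₂ hm₂ 1 le_rfl
    refine ⟨l, hl, ?_⟩
    push_cast at hle
    linarith
  · intro l hl
    obtain ⟨l₁, hm₁, l₂, hm₂, e₁, e₂, he₁, he₂, hle⟩ := hlow z x₁ x₂ hz l hl
    have h1 := hl₁ l₁ hm₁
    have h2 := hl₂ l₂ hm₂
    have g1 : (1 : ℝ) ≤ e₁ := by exact_mod_cast he₁
    have g2 : (1 : ℝ) ≤ e₂ := by exact_mod_cast he₂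
    nlinarith [mul_nonneg (by linarith : (0 : ℝ) ≤ e₁ - 1) (by linarith : (0 : ℝ) ≤ l₁),
      mul_nonneg (by linarith : (0 : ℝ) ≤ e₂ - 1) (by linarith : (0 : ℝ) ≤ l₂)]

theorem Q.line (hL : LineStatement k) {I : Set ℝ} (hI : (0 : ℝ) ∈ I) {b : ℝ} (hb : b ∈ I) :
    Q k I 1 (1 - b) (1 - b) := by
  obtain ⟨X, x, hδ, hld⟩ := hL b
  refine ⟨0, rfl, X, ?_, x, subset_closure ?_, ?_⟩
  · intro q
    rcases hδ q with h | h
    · rw [h]; exact hI
    · rw [h]; exact hb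
  · intro η hη
    exact ⟨1 - b, by rw [hld]; rfl, by linarith⟩
  · intro l hl
    rw [hld] at hl
    exact (Set.mem_singleton_iff.1 hl).ge

theorem Q.pow (hP : ProductStatement k) {I : Set ℝ} (hI : (0 : ℝ) ∈ I) {n : ℕ} {α β : ℝ}
    (h : Q k I n α β) (hβ : 0 ≤ β) (N : ℕ) (hN : 1 ≤ N) : Q k I (N * n) (N * α) (N * β) := by
  induction N, hN using Nat.le_induction with
  | base => simpa using h
  | succ N hN ih =>
    have := Q.prod hP hI ih h (by positivity) hβ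
    have e1 : (N + 1) * n = N * n + n := by ring
    have e2 : ((N + 1 : ℕ) : ℝ) * α = N * α + α := by push_cast; ring
    have e3 : ((N + 1 : ℕ) : ℝ) * β = N * β + β := by push_cast; ring
    rw [e1, e2, e3]
    exact this

theorem Q.lines (hP : ProductStatement k) (hL : LineStatement k) {I : Set ℝ} (hI : (0 : ℝ) ∈ I)
    {n : ℕ} {α β : ℝ} (h : Q k I n α β) (hβ : 0 ≤ β) {b : ℝ} (hb : b ∈ I) (hb1 : b ≤ 1) (r : ℕ) :
    Q k I (n + r) (α + r * (1 - b)) (β + r * (1 - b)) := by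
  induction r with
  | zero => simpa using h
  | succ r ih =>
    have h1 : 0 ≤ β + r * (1 - b) := by
      have : (0 : ℝ) ≤ r * (1 - b) := mul_nonneg (Nat.cast_nonneg _) (by linarith)
      linarith
    have := Q.prod hP hI ih (Q.line hL hI hb) h1 (by linarith)
    have e2 : α + ((r + 1 : ℕ) : ℝ) * (1 - b) = α + r * (1 - b) + (1 - b) := by push_cast; ring
    have e3 : β + ((r + 1 : ℕ) : ℝ) * (1 - b) = β + r * (1 - b) + (1 - b) := by push_cast; ring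
    rw [e2, e3]
    exact this

theorem Qn.lines (hP : ProductStatement k) (hL : LineStatement k) {I : Set ℝ}
    (hI : (0 : ℝ) ∈ I) {n : ℕ} {β : ℝ} (h : Qn k I n β) (hβ : 0 ≤ β) {b : ℝ} (hb : b ∈ I)
    (hb1 : b ≤ 1) (r : ℕ) : Qn k I (n + r) (β + r * (1 - b)) := by
  induction r with
  | zero => simpa using h
  | succ r ih =>
    have h1 : 0 ≤ β + r * (1 - b) := by
      have : (0 : ℝ) ≤ r * (1 - b) := mul_nonneg (Nat.cast_nonneg _) (by linarith)
      linarith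
    have e3 : β + ((r + 1 : ℕ) : ℝ) * (1 - b) = β + r * (1 - b) + (1 - b) := by push_cast; ring
    rw [e3]
    obtain ⟨m₁, hm₁, X₁, hc₁, x₁, hx₁, hl₁⟩ := ih
    obtain ⟨X₂, x₂, hδ₂, hld₂⟩ := hL b
    obtain ⟨X, R, hδ, hR, hlow, hup, hcl⟩ := hP X₁ X₂
    obtain ⟨z, hz⟩ := hR x₁ x₂
    refine ⟨m₁ + 1 + 0, by omega, X, ?_, z, ?_, ?_⟩
    · intro q
      rcases hδ q with h | ⟨q₁, h⟩ | ⟨q₂, h⟩
      · rw [h]; exact hI
      · rw [h]; exact hc₁ q₁
      · rw [h]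
        rcases hδ₂ q₂ with h | h
        · rw [h]; exact hI
        · rw [h]; exact hb
    · refine closure_mono ?_ (hcl _ {x₂} x₁ x₂ z hx₁ (subset_closure rfl) hz)
      rintro z' ⟨y₁, ⟨l₁, hm₁, hneg⟩, y₂, hy₂, hz'⟩
      rw [Set.mem_singleton_iff] at hy₂
      subst hy₂
      obtain ⟨w, hw⟩ := exists_nat_gt ((1 - b) / (-l₁))
      have hpos : 0 < -l₁ := by linarith
      have hw1 : 1 - b < w * (-l₁) := (div_lt_iff₀ hpos).1 hw
      have hw0 : 1 ≤ w := by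
        by_contra hcon
        have : w = 0 := by omega
        rw [this] at hw1
        simp at hw1
        linarith
      obtain ⟨l, hl, hle⟩ := hup z' y₁ y₂ hz' l₁ hm₁ (1 - b) (by rw [hld₂]; rfl) w hw0
      exact ⟨l, hl, by nlinarith⟩
    · intro l hl
      obtain ⟨l₁, hm₁, l₂, hm₂, e₁, e₂, he₁, he₂, hle⟩ := hlow z x₁ x₂ hz l hl
      have h1 := hl₁ l₁ hm₁
      rw [hld₂] at hm₂
      have h2 : l₂ = 1 - b := hm₂
      have g1 : (1 : ℝ) ≤ e₁ := by exact_mod_cast he₁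
      have g2 : (1 : ℝ) ≤ e₂ := by exact_mod_cast he₂
      nlinarith [mul_nonneg (by linarith : (0 : ℝ) ≤ e₁ - 1) (by linarith : (0 : ℝ) ≤ l₁),
        mul_nonneg (by linarith : (0 : ℝ) ≤ e₂ - 1) (by linarith : (0 : ℝ) ≤ l₂)]

theorem ApproxLSC.le {I : Set ℝ} {m : ℕ} {α e β : ℝ} (h : ApproxLSC k I m α e)
    (hQ : Q k I (m + 1) α β) (hβ : 0 ≤ β) : β ≤ α + e := by
  obtain ⟨m', hm', X, hc, x, hx, hl⟩ := hQ
  have : m' = m := by omega
  subst this
  have h1 := h X hc x (closure_mono (fun y hy => mld_le_of X y α hy) hx)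
  have h2 := (le_mld hβ hl).trans h1
  exact_mod_cast h2

theorem ApproxLSC.le' {I : Set ℝ} {m : ℕ} {α e β : ℝ} (h : ApproxLSC k I m α e)
    (hQ : Qn k I (m + 1) β) (hβ : 0 ≤ β) : β ≤ α + e := by
  obtain ⟨m', hm', X, hc, x, hx, hl⟩ := hQ
  have : m' = m := by omega
  subst this
  have h1 := h X hc x (closure_mono (fun y hy => by
    show X.mld y ≤ α
    rw [mld_eq_bot hy]; exact bot_le) hx)
  have h2 := (le_mld hβ hl).trans h1
  exact_mod_cast h2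

/-- a failure of semicontinuity gives jump data -/
theorem exists_jump {I : Set ℝ} (X : Pair k m) (hc : X.CoeffIn I) (h : ¬ LowerSemicontinuous X.mld) :
    (∃ α β : ℝ, 0 ≤ α ∧ α < β ∧ Q k I (m + 1) α β) ∨ Qn k I (m + 1) 0 := by
  by_contra hcon
  push Not at hcon
  obtain ⟨h1, h2⟩ := hcon
  apply h
  have main : ∀ a : ℝ, IsClosed {y : X.Pt | X.mld y ≤ (a : EReal)} := by
    intro a
    rw [← closure_subset_iff_isClosed]
    intro x hx
    by_contra hlt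
    have hlt' : (a : EReal) < X.mld x := not_le.1 hlt
    rcases le_or_gt 0 a with ha | ha
    · obtain ⟨β, hβ1, hβ2⟩ := EReal.lt_iff_exists_real_btwn.1 hlt'
      refine h1 a β ha (by exact_mod_cast hβ1) ⟨m, rfl, X, hc, x, ?_, le_of_lt_mld hβ2⟩
      exact closure_mono (fun y hy => exists_lt_of_mld ha hy) hx
    · refine h2 ⟨m, rfl, X, hc, x, ?_, nonneg_of_lt hlt'⟩
      exact closure_mono (fun y hy => exists_neg_of_mld ha hy) hx
  rw [lowerSemicontinuous_iff_isClosed_preimage]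
  intro c
  induction c with
  | bot =>
    have : X.mld ⁻¹' Set.Iic ⊥ = ⋂ a : ℝ, {y : X.Pt | X.mld y ≤ (a : EReal)} := by
      ext y
      simp only [Set.mem_preimage, Set.mem_Iic, Set.mem_iInter, Set.mem_ofPred_eq]
      constructor
      · intro hy a
        exact hy.trans bot_le
      · intro hy
        rw [le_bot_iff, EReal.eq_bot_iff_forall_lt]
        intro a
        refine (hy (a - 1)).trans_lt ?_
        have : a - 1 < a := by linarith
        exact_mod_cast this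
    rw [this]
    exact isClosed_iInter main
  | coe a => exact main a
  | top =>
    have : X.mld ⁻¹' Set.Iic ⊤ = Set.univ := by
      ext y; simp
    rw [this]
    exact isClosed_univ

end

theorem fin_all_of (k : Type u) [Field k] (hP : ProductStatement k) (hL : LineStatement k)
    (I : Set ℝ) (h0 : (0 : ℝ) ∈ I)
    (H : ∀ M : ℝ, ∃ (m : ℕ) (e : ℝ), 0 ≤ e ∧ M * (1 + e) ≤ m + 1 ∧
      ∀ a : ℝ, m + 1 - M * (1 + e) ≤ a → ApproxLSC k I m a e) (m : ℕ) : LSC k I m := by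
  intro X hc
  by_contra hn
  rcases exists_jump X hc hn with ⟨α, β, hα, hαβ, hQ⟩ | hQ
  · set δ := β - α with hδ
    have hδ0 : 0 < δ := by linarith
    set n₀ : ℝ := (m : ℝ) + 1 with hn₀
    have hn1 : 1 ≤ n₀ := by rw [hn₀]; linarith [(Nat.cast_nonneg m : (0 : ℝ) ≤ m)]
    obtain ⟨m', e, he, hM, hA⟩ := H (n₀ * (1 + 1 / δ))
    set s : ℝ := (1 + 1 / δ) * (1 + e) with hs
    have hs1 : 1 ≤ s := by
      have : 0 < 1 / δ := by positivity
      rw [hs]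
      nlinarith
    set N := ⌊s⌋₊ with hNdef
    have hN1 : 1 ≤ N := by
      rw [hNdef, Nat.one_le_floor_iff]
      exact hs1
    have hNs : (N : ℝ) ≤ s := Nat.floor_le (by linarith)
    have hNs' : s < N + 1 := Nat.lt_floor_add_one s
    have hMs : n₀ * (1 + 1 / δ) * (1 + e) = n₀ * s := by rw [hs]; ring
    rw [hMs] at hM hA
    have hle : N * (m + 1) ≤ m' + 1 := by
      have : (N : ℝ) * n₀ ≤ m' + 1 := by nlinarith
      have h2 : ((N * (m + 1) : ℕ) : ℝ) ≤ ((m' + 1 : ℕ) : ℝ) := by push_cast; exact this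
      exact_mod_cast h2
    set r := m' + 1 - N * (m + 1) with hr
    have hsum : N * (m + 1) + r = m' + 1 := by omega
    have hQ1 := Q.pow hP h0 hQ (by linarith) N hN1
    have hNβ : (0 : ℝ) ≤ N * β := mul_nonneg (Nat.cast_nonneg N) (by linarith)
    have hQ2 := Q.lines hP hL h0 hQ1 hNβ h0 zero_le_one r
    rw [hsum, sub_zero, mul_one] at hQ2
    have hr' : (r : ℝ) = m' + 1 - N * n₀ := by
      have : ((N * (m + 1) + r : ℕ) : ℝ) = ((m' + 1 : ℕ) : ℝ) := by rw [hsum]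
      push_cast at this
      linarith
    have h3 : (m' : ℝ) + 1 - n₀ * s ≤ N * α + r := by
      rw [hr']
      nlinarith [mul_nonneg (Nat.cast_nonneg N : (0 : ℝ) ≤ N) hα]
    have h4 := (hA _ h3).le hQ2 (add_nonneg hNβ (Nat.cast_nonneg r))
    have h5 : (N : ℝ) * δ ≤ e := by rw [hδ]; nlinarith
    have h6 : s * δ = (δ + 1) * (1 + e) := by
      rw [hs]
      field_simp
    nlinarith
  · obtain ⟨m', e, he, hM, hA⟩ := H ((m : ℝ) + 1 + 1)
    have hm0 : (0 : ℝ) ≤ m := Nat.cast_nonneg m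
    have hle : m + 1 ≤ m' + 1 := by
      have : (m : ℝ) + 1 ≤ m' + 1 := by nlinarith
      exact_mod_cast this
    set r := m' + 1 - (m + 1) with hr
    have hsum : m + 1 + r = m' + 1 := by omega
    have hQ2 := Qn.lines hP hL h0 hQ le_rfl h0 zero_le_one r
    rw [hsum, sub_zero, mul_one, zero_add] at hQ2
    have hr' : (r : ℝ) = m' + 1 - (m + 1) := by
      have : ((m + 1 + r : ℕ) : ℝ) = ((m' + 1 : ℕ) : ℝ) := by rw [hsum]
      push_cast at this
      linarith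
    have h4 := (hA _ le_rfl).le' hQ2 (by positivity)
    rw [hr'] at h4
    nlinarith

theorem fin_one_of (k : Type u) [Field k] (hP : ProductStatement k) (hL : LineStatement k)
    (I : Set ℝ)
    (H : ∀ M : ℝ, ∃ (m : ℕ) (e c a : ℝ), 0 ≤ e ∧ 0 ≤ c ∧ Set.Icc (-c) 1 ⊆ I ∧
      M * (1 + e) ≤ a ∧ a ≤ (1 + c) * (m + 1 - M * (1 + e)) ∧ ApproxLSC k I m a e) (m : ℕ) :
    LSC k I m := by
  have h0 : (0 : ℝ) ∈ I := by
    obtain ⟨m, e, c, a, he, hc, hI, -⟩ := H 0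
    exact hI ⟨by linarith, by norm_num⟩
  intro X hc
  by_contra hn
  rcases exists_jump X hc hn with ⟨α, β, hα, hαβ, hQ⟩ | hQ
  · set δ := β - α with hδ
    have hδ0 : 0 < δ := by linarith
    set n₀ : ℝ := (m : ℝ) + 1 with hn₀
    have hn1 : 1 ≤ n₀ := by rw [hn₀]; linarith [(Nat.cast_nonneg m : (0 : ℝ) ≤ m)]
    set C : ℝ := n₀ + α with hC
    obtain ⟨m', e, c, a, he, hc0, hI, hMa, haM, hA⟩ := H (C * (1 + 1 / δ))
    set s : ℝ := (1 + 1 / δ) * (1 + e) with hs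
    have hs1 : 1 ≤ s := by
      have : 0 < 1 / δ := by positivity
      rw [hs]
      nlinarith
    set N := ⌊s⌋₊ with hNdef
    have hN1 : 1 ≤ N := by
      rw [hNdef, Nat.one_le_floor_iff]
      exact hs1
    have hN0 : (0 : ℝ) ≤ N := Nat.cast_nonneg N
    have hNs : (N : ℝ) ≤ s := Nat.floor_le (by linarith)
    have hNs' : s < N + 1 := Nat.lt_floor_add_one s
    have hMs : C * (1 + 1 / δ) * (1 + e) = C * s := by rw [hs]; ring
    rw [hMs] at hMa haM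
    have hCs : 0 < C * s := by
      have : 0 < C := by linarith
      positivity
    have hNC : N * C ≤ C * s := by
      have : 0 ≤ C := by linarith
      nlinarith
    have hNn : (N : ℝ) * n₀ ≤ C * s := by
      have : (N : ℝ) * n₀ ≤ N * C := by
        rw [hC]
        nlinarith [mul_nonneg hN0 hα]
      linarith
    have hNα : (N : ℝ) * α ≤ C * s := by
      have : (N : ℝ) * α ≤ N * C := by
        rw [hC]
        nlinarith [mul_nonneg hN0 (by linarith : (0 : ℝ) ≤ n₀)]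
      linarith
    have hpos : 0 < (m' : ℝ) + 1 - C * s := by
      by_contra hcon
      push Not at hcon
      nlinarith
    have hlt : N * (m + 1) < m' + 1 := by
      have : (N : ℝ) * n₀ < m' + 1 := by linarith
      have h2 : ((N * (m + 1) : ℕ) : ℝ) < ((m' + 1 : ℕ) : ℝ) := by push_cast; exact this
      exact_mod_cast h2
    set r := m' + 1 - N * (m + 1) with hr
    have hsum : N * (m + 1) + r = m' + 1 := by omega
    have hr1 : 1 ≤ r := by omega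
    have hr' : (r : ℝ) = m' + 1 - N * n₀ := by
      have : ((N * (m + 1) + r : ℕ) : ℝ) = ((m' + 1 : ℕ) : ℝ) := by rw [hsum]
      push_cast at this
      linarith
    have hr0 : (0 : ℝ) < r := by exact_mod_cast hr1
    set b : ℝ := 1 - (a - N * α) / r with hb
    have hb1 : b ≤ 1 := by
      have : 0 ≤ (a - N * α) / r := div_nonneg (by linarith) hr0.le
      linarith
    have hb2 : -c ≤ b := by
      have : (a - N * α) / r ≤ 1 + c := by
        rw [div_le_iff₀ hr0, hr']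
        have h1 : (1 + c) * (m' + 1 - C * s) ≤ (1 + c) * (m' + 1 - N * n₀) :=
          mul_le_mul_of_nonneg_left (by linarith) (by linarith)
        have h2 : 0 ≤ N * α := mul_nonneg hN0 hα
        linarith
      linarith
    have hbI : b ∈ I := hI ⟨hb2, hb1⟩
    have hQ1 := Q.pow hP h0 hQ (by linarith) N hN1
    have hQ2 := Q.lines hP hL h0 hQ1 (mul_nonneg hN0 (by linarith)) hbI hb1 r
    have hrb : (r : ℝ) * (1 - b) = a - N * α := by
      rw [hb]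
      field_simp
      ring
    rw [hsum, hrb] at hQ2
    have e1 : (N : ℝ) * α + (a - N * α) = a := by ring
    rw [e1] at hQ2
    have hβ' : 0 ≤ (N : ℝ) * β + (a - N * α) := by
      have : 0 ≤ (N : ℝ) * β := mul_nonneg hN0 (by linarith)
      linarith
    have h4 := hA.le hQ2 hβ'
    have h5 : (N : ℝ) * δ ≤ e := by rw [hδ]; nlinarith
    have h6 : s * δ = (δ + 1) * (1 + e) := by
      rw [hs]
      field_simp
    nlinarith
  · obtain ⟨m', e, c, a, he, hc0, hI, hMa, haM, hA⟩ := H ((m : ℝ) + 1 + 1)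
    have hm0 : (0 : ℝ) ≤ m := Nat.cast_nonneg m
    have hMe : (m : ℝ) + 1 < (m + 1 + 1) * (1 + e) := by nlinarith
    have hpos : 0 < (m' : ℝ) + 1 - (m + 1 + 1) * (1 + e) := by
      by_contra hcon
      push Not at hcon
      nlinarith
    have hle : m + 1 ≤ m' + 1 := by
      have : (m : ℝ) + 1 ≤ m' + 1 := by linarith
      exact_mod_cast this
    set r := m' + 1 - (m + 1) with hr
    have hsum : m + 1 + r = m' + 1 := by omega
    have hbI : -c ∈ I := hI ⟨le_rfl, by linarith⟩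
    have hQ2 := Qn.lines hP hL h0 hQ le_rfl hbI (by linarith) r
    rw [hsum, zero_add, sub_neg_eq_add] at hQ2
    have hr' : (r : ℝ) = m' + 1 - (m + 1) := by
      have : ((m + 1 + r : ℕ) : ℝ) = ((m' + 1 : ℕ) : ℝ) := by rw [hsum]
      push_cast at this
      linarith
    have h4 := hA.le' hQ2 (by positivity)
    rw [hr'] at h4
    have h5 : (1 + c) * ((m + 1 + 1) * (1 + e) - (m + 1)) ≤ e := by nlinarith
    have h6 : 1 + e ≤ (m + 1 + 1) * (1 + e) - (m + 1) := by nlinarith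
    nlinarith

end Pool.Agent.MLD.Ten
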