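import Pool.Agent.Lib.MP_f23696_ag.T.Fin

/-!
Product method: the reduction to one threshold per dimension, for every set of coefficients
containing `[-c, 0]` (in particular for varieties without boundary).
-/

set_option autoImplicit false

namespace Pool.Agent.MLD.Ten

universe u

/-- The conclusion of the theorem on the cones over rational normal curves. -/
def SurfStatement (k : Type u) [Field k] : Prop :=
  ∀ r : ℕ, 1 ≤ r → ∃ (X : Pair k 1) (x : X.Pt), X.δ = 0 ∧ (2 / r : ℝ) ∈ X.ld x ∧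
    ∀ l ∈ X.ld x, (2 / r : ℝ) ≤ l

section
variable {k : Type u} [Field k] {m : ℕ}

theorem Q.surf (hS : SurfStatement k) {I : Set ℝ} (hI : (0 : ℝ) ∈ I) (r : ℕ) (hr : 1 ≤ r) :
    Q k I 2 (2 / r) (2 / r) := by
  obtain ⟨X, x, hδ, h1, h2⟩ := hS r hr
  refine ⟨1, rfl, X, ?_, x, subset_closure ?_, h2⟩
  · intro q
    rw [hδ]
    exact hI
  · intro η hη
    exact ⟨2 / r, h1, by linarith⟩

theorem Q.surfs (hP : ProductStatement k) (hS : SurfStatement k) {I : Set ℝ} (hI : (0 : ℝ) ∈ I)
    {n : ℕ} {α β : ℝ} (h : Q k I n α β) (hβ : 0 ≤ β) (r : ℕ) (hr : 1 ≤ r) (p : ℕ) :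
    Q k I (n + 2 * p) (α + p * (2 / r)) (β + p * (2 / r)) := by
  induction p with
  | zero => simpa using h
  | succ p ih =>
    have h0 : (0 : ℝ) ≤ 2 / r := by positivity
    have h1 : 0 ≤ β + p * (2 / r : ℝ) := by
      have : (0 : ℝ) ≤ p * (2 / r) := mul_nonneg (Nat.cast_nonneg _) h0
      linarith
    have := Q.prod hP hI ih (Q.surf hS hI r hr) h1 h0
    have e1 : n + 2 * (p + 1) = n + 2 * p + 2 := by ring
    have e2 : α + ((p + 1 : ℕ) : ℝ) * (2 / r) = α + p * (2 / r) + 2 / r := by push_cast; ring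
    have e3 : β + ((p + 1 : ℕ) : ℝ) * (2 / r) = β + p * (2 / r) + 2 / r := by push_cast; ring
    rw [e1, e2, e3]
    exact this

theorem Q.mono {I : Set ℝ} {n : ℕ} {α α' β : ℝ} (h : Q k I n α β) (hα : α ≤ α') :
    Q k I n α' β := by
  obtain ⟨m, hm, X, hc, x, hx, hl⟩ := h
  refine ⟨m, hm, X, hc, x, closure_mono ?_ hx, hl⟩
  intro y hy η hη
  obtain ⟨l, hl, hlt⟩ := hy η hη
  exact ⟨l, hl, by linarith⟩

end

theorem fin_of (k : Type u) [Field k] (hP : ProductStatement k) (hL : LineStatement k)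
    (hS : SurfStatement k) (I : Set ℝ)
    (H : ∀ M : ℝ, ∃ (m : ℕ) (e c a : ℝ), 0 ≤ e ∧ 0 ≤ c ∧ Set.Icc (-c) 0 ⊆ I ∧
      M * (1 + e) ≤ a ∧ a ≤ (1 + c) * (m + 1 - M * (1 + e)) ∧ ApproxLSC k I m a e) (m : ℕ) :
    LSC k I m := by
  have h0 : (0 : ℝ) ∈ I := by
    obtain ⟨m, e, c, a, he, hc, hI, -⟩ := H 0
    exact hI ⟨by linarith, le_rfl⟩
  intro X hc
  by_contra hn
  rcases exists_jump X hc hn with ⟨α, β, hα, hαβ, hQ⟩ | hQ
  · set δ := β - α with hδ
    have hδ0 : 0 < δ := by linarith
    have hβ0 : 0 ≤ β := by linarith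
    set n₀ : ℝ := (m : ℝ) + 1 with hn₀
    have hn1 : 1 ≤ n₀ := by rw [hn₀]; linarith [(Nat.cast_nonneg m : (0 : ℝ) ≤ m)]
    set C : ℝ := n₀ + α with hC
    have hC1 : 1 ≤ C := by linarith
    obtain ⟨m', e, c, a, he, hc0, hI, hMa, haM, hA⟩ := H (C * (1 + 3 / δ) + 2)
    set s : ℝ := (1 + 3 / δ) * (1 + e) with hs
    have hs1 : 1 ≤ s := by
      have : 0 < 3 / δ := by positivity
      rw [hs]
      nlinarith
    set N := ⌊s⌋₊ with hNdef
    have hN1 : 1 ≤ N := by
      rw [hNdef, Nat.one_le_floor_iff]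
      exact hs1
    have hN0 : (0 : ℝ) ≤ N := Nat.cast_nonneg N
    have hNs : (N : ℝ) ≤ s := Nat.floor_le (by linarith)
    have hNs' : s < N + 1 := Nat.lt_floor_add_one s
    have hMs : (C * (1 + 3 / δ) + 2) * (1 + e) = C * s + 2 * (1 + e) := by rw [hs]; ring
    rw [hMs] at hMa haM
    have hCs : 0 < C * s := by positivity
    have hNC : N * C ≤ C * s := by nlinarith
    have hNn : (N : ℝ) * n₀ ≤ C * s := by
      have : (N : ℝ) * n₀ ≤ N * C := by
        rw [hC]
        nlinarith [mul_nonneg hN0 hα]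
      linarith
    have hNα : (N : ℝ) * α ≤ C * s := by
      have : (N : ℝ) * α ≤ N * C := by
        rw [hC]
        nlinarith [mul_nonneg hN0 (by linarith : (0 : ℝ) ≤ n₀)]
      linarith
    have hpos : 0 < (m' : ℝ) + 1 - (C * s + 2 * (1 + e)) := by
      by_contra hcon
      push Not at hcon
      nlinarith
    have hlt : N * (m + 1) < m' + 1 := by
      have : (N : ℝ) * n₀ < m' + 1 := by linarith
      have h2 : ((N * (m + 1) : ℕ) : ℝ) < ((m' + 1 : ℕ) : ℝ) := by push_cast; exact this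
      exact_mod_cast h2
    set R := m' + 1 - N * (m + 1) with hR
    have hsum : N * (m + 1) + R = m' + 1 := by omega
    have hR1 : 1 ≤ R := by omega
    have hR' : (R : ℝ) = m' + 1 - N * n₀ := by
      have : ((N * (m + 1) + R : ℕ) : ℝ) = ((m' + 1 : ℕ) : ℝ) := by rw [hsum]
      push_cast at this
      linarith
    have hR0 : (0 : ℝ) < R := by exact_mod_cast hR1
    set T : ℝ := a - N * α with hT
    have hT2 : 2 ≤ T := by
      rw [hT]
      linarith
    have hNβ : (0 : ℝ) ≤ N * β := mul_nonneg hN0 hβ0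
    have hQ1 := Q.pow hP h0 hQ hβ0 N hN1
    -- the window
    have key : ∃ t : ℝ, T - 2 ≤ t ∧ t ≤ T ∧ Q k I (m' + 1) (N * α + t) (N * β + t) := by
      rcases le_or_gt T R with hTR | hTR
      · set p := ⌊(R - T) / 2⌋₊ + 1 with hp
        have hfl1 : (⌊(R - T) / 2⌋₊ : ℝ) ≤ (R - T) / 2 := Nat.floor_le (by linarith)
        have hfl2 : (R - T) / 2 < ⌊(R - T) / 2⌋₊ + 1 := Nat.lt_floor_add_one _
        have hpR : (p : ℝ) = ⌊(R - T) / 2⌋₊ + 1 := by rw [hp]; push_cast; ring
        have hp2 : 2 * (p : ℝ) ≤ R := by rw [hpR]; linarith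
        have hp2' : 2 * p ≤ R := by
          have : ((2 * p : ℕ) : ℝ) ≤ R := by push_cast; exact hp2
          exact_mod_cast this
        set q := R - 2 * p with hq
        have hqR : (q : ℝ) = R - 2 * p := by
          have : q + 2 * p = R := by omega
          have h2 : ((q + 2 * p : ℕ) : ℝ) = (R : ℝ) := by rw [this]
          push_cast at h2
          linarith
        have hqT : (q : ℝ) < T := by rw [hqR, hpR]; linarith
        have hqT' : T - 2 ≤ q := by rw [hqR, hpR]; linarith
        have hpp : (0 : ℝ) < p := by rw [hpR]; positivity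
        obtain ⟨r, hr⟩ := exists_nat_gt (2 * p / (T - q) : ℝ)
        have hTq : 0 < T - q := by linarith
        have hr0 : (0 : ℝ) < r := lt_trans (by positivity) hr
        have hr1 : 1 ≤ r := by
          have : 0 < r := by exact_mod_cast hr0
          omega
        have hr2 : p * (2 / r : ℝ) ≤ T - q := by
          rw [div_lt_iff₀ hTq] at hr
          have : (p : ℝ) * (2 / r) = 2 * p / r := by ring
          rw [this, div_le_iff₀ hr0]
          linarith
        have h3 := Q.lines hP hL h0 hQ1 hNβ h0 zero_le_one q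
        rw [sub_zero, mul_one] at h3
        have h4 := Q.surfs hP hS h0 h3 (add_nonneg hNβ (Nat.cast_nonneg q)) r hr1 p
        have h5 : N * (m + 1) + q + 2 * p = m' + 1 := by omega
        rw [h5, add_assoc, add_assoc] at h4
        have h6 : (0 : ℝ) ≤ p * (2 / r) := by positivity
        exact ⟨q + p * (2 / r), by linarith, by linarith, h4⟩
      · set b : ℝ := 1 - T / R with hb
        have hTR' : 1 ≤ T / R := by
          rw [le_div_iff₀ hR0]
          linarith
        have hb0 : b ≤ 0 := by linarith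
        have hb2 : -c ≤ b := by
          have : T / R ≤ 1 + c := by
            rw [div_le_iff₀ hR0, hR']
            have h1 : (1 + c) * (m' + 1 - (C * s + 2 * (1 + e))) ≤ (1 + c) * (m' + 1 - N * n₀) :=
              mul_le_mul_of_nonneg_left (by linarith) (by linarith)
            have h2 : 0 ≤ N * α := mul_nonneg hN0 hα
            linarith
          linarith
        have hbI : b ∈ I := hI ⟨hb2, hb0⟩
        have h3 := Q.lines hP hL h0 hQ1 hNβ hbI (by linarith) R
        have hrb : (R : ℝ) * (1 - b) = T := by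
          rw [hb]
          field_simp
          ring
        rw [hsum, hrb] at h3
        exact ⟨T, by linarith, le_rfl, h3⟩
    obtain ⟨t, ht1, ht2, hQt⟩ := key
    have hQa : Q k I (m' + 1) a (N * β + t) := hQt.mono (by
      have : N * α + T = a := by rw [hT]; ring
      linarith)
    have h4 := hA.le hQa (by linarith)
    have h5 : (N : ℝ) * δ ≤ e + 2 := by
      rw [hδ]
      have : N * β + T - 2 ≤ a + e := by linarith
      rw [hT] at this
      linarith
    have h6 : s * δ = (δ + 3) * (1 + e) := by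
      rw [hs]
      field_simp
    nlinarith
  · obtain ⟨m', e, c, a, he, hc0, hI, hMa, haM, hA⟩ := H ((m : ℝ) + 1 + 1)
    have hm0 : (0 : ℝ) ≤ m := Nat.cast_nonneg m
    have hMe : (m : ℝ) + 1 < (m + 1 + 1) * (1 + e) := by nlinarith
    have hpos : 0 < (m' : ℝ) + 1 - (m + 1 + 1) * (1 + e) := by
      by_contra hcon
      push Not at hcon
      nlinarith
    have hle : m + 1 ≤ m' + 1 := by
      have : (m : ℝ) + 1 ≤ m' + 1 := by linarith
      exact_mod_cast this
    set r := m' + 1 - (m + 1) with hr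
    have hsum : m + 1 + r = m' + 1 := by omega
    have hbI : -c ∈ I := hI ⟨le_rfl, by linarith⟩
    have hQ2 := Qn.lines hP hL h0 hQ le_rfl hbI (by linarith) r
    rw [hsum, zero_add, sub_neg_eq_add] at hQ2
    have hr' : (r : ℝ) = m' + 1 - (m + 1) := by
      have : ((m + 1 + r : ℕ) : ℝ) = ((m' + 1 : ℕ) : ℝ) := by rw [hsum]
      push_cast at this
      linarith
    have h4 := hA.le' hQ2 (by positivity)
    rw [hr'] at h4
    have h5 : (1 + c) * ((m + 1 + 1) * (1 + e) - (m + 1)) ≤ e := by nlinarith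
    have h6 : 1 + e ≤ (m + 1 + 1) * (1 + e) - (m + 1) := by nlinarith
    nlinarith

end Pool.Agent.MLD.Ten
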