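import Pool.Agent.Lib.MP_f23696_ag.T.SurfA
import Pool.Agent.Lib.MP_f23696_ag.Dvr

/-!
# TEN, module SURF: cones over rational normal curves
-/

set_option autoImplicit false

namespace Pool.Agent.MLD.Ten

open Pool.Agent.MLD.Jac

universe u v w

namespace Surf

noncomputable section

variable {k : Type u} [Field k]

/-! ### the involution -/

section Sig

variable [CharZero k] (r : ℕ)

theorem bb_indep : AlgebraicIndependent k (bb k r) := jac_indep (dd k) (bb k r) (jac_bb_ne r)

theorem aeval_bb_ne {p : P k} (hp : p ≠ 0) : MvPolynomial.aeval (bb k r) p ≠ 0 := fun h =>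
  hp ((injective_iff_map_eq_zero _).1 (bb_indep r) p h)

variable (k) in
/-- the exchange of the two charts -/
def sg : KK k →ₐ[k] KK k :=
  IsLocalization.liftAlgHom (M := nonZeroDivisors (P k)) (f := MvPolynomial.aeval (bb k r))
    fun y => isUnit_iff_ne_zero.2 (aeval_bb_ne r (nonZeroDivisors.coe_ne_zero y))

theorem sg_im (p : P k) : sg k r (im p) = MvPolynomial.aeval (bb k r) p :=
  IsLocalization.lift_eq _ p

theorem sg_U : sg k r (U k) = U k * W k ^ r := by
  rw [U, sg_im, MvPolynomial.aeval_X]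
  rfl

theorem sg_W : sg k r (W k) = (W k)⁻¹ := by
  rw [W, sg_im, MvPolynomial.aeval_X]
  rfl

theorem sg_aeval (p : P k) : sg k r (MvPolynomial.aeval (bb k r) p) = im p := by
  have h : (sg k r).comp (MvPolynomial.aeval (bb k r)) = IsScalarTower.toAlgHom k (P k) (KK k) := by
    apply MvPolynomial.algHom_ext
    intro i
    change sg k r (MvPolynomial.aeval (bb k r) (MvPolynomial.X i)) = im (MvPolynomial.X i)
    rw [MvPolynomial.aeval_X]
    fin_cases i
    · change sg k r (U k * W k ^ r) = U k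
      rw [map_mul, map_pow, sg_U, sg_W, mul_assoc, ← mul_pow, mul_inv_cancel₀ W_ne, one_pow,
        mul_one]
    · change sg k r (W k)⁻¹ = W k
      rw [map_inv₀, sg_W, inv_inv]
  exact congrArg (fun f => f p) h

theorem sg_sg (f : KK k) : sg k r (sg k r f) = f := by
  obtain ⟨p, q, -, rfl⟩ := frac f
  rw [map_div₀, map_div₀, sg_im, sg_im, sg_aeval, sg_aeval]

end Sig

/-! ### the cone -/

variable (k) in
/-- the generators `u w^i` -/
def gen (i : ℕ) : KK k := U k * W k ^ i

variable (k) in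
/-- the coordinate ring of the cone over the rational normal curve of degree `r` -/
def AA (r : ℕ) : Subalgebra k (KK k) :=
  Algebra.adjoin k (Set.range fun i : Fin (r + 1) => gen k i)

theorem gen_mem (r : ℕ) {i : ℕ} (hi : i ≤ r) : gen k i ∈ AA k r :=
  Algebra.subset_adjoin ⟨⟨i, Nat.lt_succ_of_le hi⟩, rfl⟩

theorem AA_fg (r : ℕ) : (AA k r).FG := by
  refine ⟨(Set.finite_range fun i : Fin (r + 1) => gen k i).toFinset, ?_⟩
  rw [Set.Finite.coe_toFinset]
  rfl

theorem mon_mem (r : ℕ) (i : ℕ) : ∀ j : ℕ, j ≤ r * i → U k ^ i * W k ^ j ∈ AA k r := by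
  induction i with
  | zero =>
    intro j hj
    have : j = 0 := by simpa using hj
    rw [this, pow_zero, pow_zero, one_mul]
    exact (AA k r).one_mem
  | succ i ih =>
    intro j hj
    have h1 : j - min j r ≤ r * i := by
      rcases le_total j r with h | h
      · rw [min_eq_left h, Nat.sub_self]
        exact Nat.zero_le _
      · rw [min_eq_right h, Nat.sub_le_iff_le_add]
        rw [Nat.mul_succ] at hj
        exact hj
    have h2 : U k ^ (i + 1) * W k ^ j = gen k (min j r) * (U k ^ i * W k ^ (j - min j r)) := by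
      conv_lhs => rw [← Nat.add_sub_of_le (min_le_left j r)]
      rw [gen, pow_add, pow_succ]
      ring
    rw [h2]
    exact (AA k r).mul_mem (gen_mem r (min_le_right j r)) (ih _ h1)

theorem im_monomial (s : Fin 2 →₀ ℕ) (c : k) :
    im (MvPolynomial.monomial s c) = algebraMap k (KK k) c * (U k ^ s 0 * W k ^ s 1) := by
  rw [← aeval_UW, MvPolynomial.aeval_monomial, Finsupp.prod_fintype _ _ fun i => pow_zero _,
    Fin.prod_univ_two]
  rfl

theorem bb_monomial (r : ℕ) (s : Fin 2 →₀ ℕ) (c : k) :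
    MvPolynomial.aeval (bb k r) (MvPolynomial.monomial s c) =
      algebraMap k (KK k) c * ((U k * W k ^ r) ^ s 0 * (W k)⁻¹ ^ s 1) := by
  rw [MvPolynomial.aeval_monomial, Finsupp.prod_fintype _ _ fun i => pow_zero _,
    Fin.prod_univ_two]
  rfl

theorem mem_of_supp (r : ℕ) (p : P k) (h : ∀ s ∈ p.support, s 1 ≤ r * s 0) : im p ∈ AA k r := by
  have h1 : im p = ∑ s ∈ p.support, im (MvPolynomial.monomial s (p.coeff s)) := by
    conv_lhs => rw [p.as_sum]
    rw [im, map_sum]
  rw [h1]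
  refine (AA k r).sum_mem fun s hs => ?_
  rw [im_monomial]
  exact (AA k r).mul_mem ((AA k r).algebraMap_mem _) (mon_mem r _ _ (h s hs))

theorem supp_of (r : ℕ) (p q : P k) (h : im p = MvPolynomial.aeval (bb k r) q) :
    ∀ s ∈ p.support, s 1 ≤ r * s 0 := by
  classical
  set N := q.totalDegree with hN
  let ex : (Fin 2 →₀ ℕ) → (Fin 2 →₀ ℕ) := fun m =>
    Finsupp.single 0 (m 0) + Finsupp.single 1 (r * m 0 + N - m 1)
  let q' : P k := ∑ m ∈ q.support, MvPolynomial.monomial (ex m) (q.coeff m)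
  have hm : ∀ m ∈ q.support, m 1 ≤ N := by
    intro m hm
    refine le_trans ?_ (MvPolynomial.le_totalDegree hm)
    rw [Finsupp.sum_fintype _ _ fun i => rfl, Fin.sum_univ_two]
    exact Nat.le_add_left _ _
  have h1 : im (p * MvPolynomial.X 1 ^ N) = im q' := by
    have h2 : im (p * MvPolynomial.X 1 ^ N) = im p * W k ^ N := by
      rw [im, map_mul, map_pow]
      rfl
    rw [h2, h]
    conv_lhs => rw [q.as_sum]
    rw [map_sum, Finset.sum_mul]
    have h3 : im q' = ∑ m ∈ q.support, im (MvPolynomial.monomial (ex m) (q.coeff m)) := by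
      rw [im, map_sum]
    rw [h3]
    refine Finset.sum_congr rfl fun m hmq => ?_
    rw [bb_monomial, im_monomial]
    have h4 : ex m 0 = m 0 := by simp [ex]
    have h5 : ex m 1 = r * m 0 + N - m 1 := by simp [ex]
    rw [h4, h5]
    have h6 : r * m 0 + N = (r * m 0 + N - m 1) + m 1 :=
      (Nat.sub_add_cancel ((hm m hmq).trans (Nat.le_add_left _ _))).symm
    have h7 : W k ^ (r * m 0) * W k ^ N = W k ^ (r * m 0 + N - m 1) * W k ^ m 1 := by
      rw [← pow_add, ← pow_add, ← h6]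
    have h8 : W k ^ m 1 ≠ 0 := pow_ne_zero _ W_ne
    rw [mul_pow, ← pow_mul, inv_pow]
    field_simp
    linear_combination (algebraMap k (KK k) (q.coeff m) * U k ^ m 0) * h7
  have h2 : p * MvPolynomial.X 1 ^ N = q' := im_inj h1
  intro s hs
  have h3 : MvPolynomial.coeff (s + Finsupp.single 1 N) q' ≠ 0 := by
    rw [← h2, MvPolynomial.X_pow_eq_monomial, MvPolynomial.coeff_mul_monomial, mul_one]
    exact MvPolynomial.mem_support_iff.1 hs
  have h4 : MvPolynomial.coeff (s + Finsupp.single 1 N) q' =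
      ∑ m ∈ q.support, MvPolynomial.coeff (s + Finsupp.single 1 N)
        (MvPolynomial.monomial (ex m) (q.coeff m)) := by
    rw [MvPolynomial.coeff_sum]
  rw [h4] at h3
  obtain ⟨m, hmq, hm0⟩ := Finset.exists_ne_zero_of_sum_ne_zero h3
  rw [MvPolynomial.coeff_monomial] at hm0
  have h5 : ex m = s + Finsupp.single 1 N := by
    by_contra hc
    exact hm0 (if_neg hc)
  have h6 := congrArg (fun f => f 0) h5
  have h7 := congrArg (fun f => f 1) h5
  simp [ex] at h6 h7
  rw [← h6]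
  omega

variable (k) in
/-- the polynomials, as a subalgebra -/
def BB : Subalgebra k (KK k) := (IsScalarTower.toAlgHom k (P k) (KK k)).range

theorem mem_BB {f : KK k} : f ∈ BB k ↔ ∃ p : P k, im p = f := Iff.rfl

theorem im_mem (p : P k) : im p ∈ BB k := ⟨p, rfl⟩

theorem U_mem : U k ∈ BB k := im_mem _

theorem W_mem : W k ∈ BB k := im_mem _

theorem AA_le (r : ℕ) : AA k r ≤ BB k := by
  refine Algebra.adjoin_le ?_
  rintro _ ⟨i, rfl⟩
  exact (BB k).mul_mem U_mem ((BB k).pow_mem W_mem _)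

/-- a map to the field with values in the polynomials comes from a map to the polynomials -/
theorem exists_lift {A : Subalgebra k (KK k)} (g : A →ₐ[k] KK k) (hg : ∀ a, g a ∈ BB k) :
    ∃ ρ : A →ₐ[k] P k, ∀ a, im (ρ a) = g a := by
  let e : P k ≃ₐ[k] BB k := AlgEquiv.ofInjective (IsScalarTower.toAlgHom k (P k) (KK k)) im_inj
  refine ⟨(e.symm : BB k →ₐ[k] P k).comp (g.codRestrict (BB k) hg), fun a => ?_⟩
  have h1 : e (e.symm (g.codRestrict (BB k) hg a)) = g.codRestrict (BB k) hg a :=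
    AlgEquiv.apply_symm_apply e _
  exact congrArg Subtype.val h1

/-- integral elements -/
theorem integral_lift {A : Subalgebra k (KK k)} (g : KK k →ₐ[k] KK k)
    (hg : ∀ a : A, g (a : KK k) ∈ BB k) (f : KK k) (hf : IsIntegral A f) : g f ∈ BB k := by
  obtain ⟨ρ, hρ⟩ := exists_lift (g.comp A.val) hg
  have h1 : IsIntegral (P k) (g f) := by
    refine IsIntegral.map_of_comp_eq (ρ : A →+* P k) (g : KK k →+* KK k) ?_ hf
    exact RingHom.ext fun a => hρ a
  obtain ⟨p, hp⟩ := IsIntegrallyClosed.isIntegral_iff.1 h1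
  exact ⟨p, hp⟩

section Cone

variable [CharZero k] (r : ℕ)

theorem sg_gen {i : ℕ} (hi : i ≤ r) : sg k r (gen k i) = gen k (r - i) := by
  rw [gen, gen, map_mul, map_pow, sg_U, sg_W, inv_pow, mul_assoc]
  congr 1
  have h1 : W k ^ r = W k ^ (r - i) * W k ^ i := by
    rw [← pow_add, Nat.sub_add_cancel hi]
  have h2 : W k ^ i ≠ 0 := pow_ne_zero _ W_ne
  rw [h1, mul_assoc, mul_inv_cancel₀ h2, mul_one]

theorem sg_AA {f : KK k} (hf : f ∈ AA k r) : sg k r f ∈ AA k r := by
  have h1 : AA k r ≤ (AA k r).comap (sg k r) := by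
    refine Algebra.adjoin_le ?_
    rintro _ ⟨i, rfl⟩
    change sg k r (gen k i) ∈ AA k r
    rw [sg_gen r (Nat.le_of_lt_succ i.2)]
    exact gen_mem r (Nat.sub_le _ _)
  exact h1 hf

theorem mem_AA {f : KK k} (h1 : f ∈ BB k) (h2 : sg k r f ∈ BB k) : f ∈ AA k r := by
  obtain ⟨p, hp⟩ := mem_BB.1 h1
  obtain ⟨q, hq⟩ := mem_BB.1 h2
  rw [← hp]
  refine mem_of_supp r p (supp_of r p q ?_)
  rw [← sg_im, hq, sg_sg, hp]

theorem AA_norm (f : KK k) (hf : IsIntegral (AA k r) f) : f ∈ AA k r := by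
  refine mem_AA r ?_ ?_
  · exact integral_lift (AlgHom.id k (KK k)) (fun a => AA_le r a.2) f hf
  · exact integral_lift (sg k r) (fun a => AA_le r (sg_AA r a.2)) f hf

end Cone

theorem exists_pow (r : ℕ) (hr : 1 ≤ r) (p : P k) : ∃ N : ℕ, U k ^ N * im p ∈ AA k r := by
  have hU : U k ∈ AA k r := by
    have h := gen_mem (k := k) r (Nat.zero_le r)
    rwa [gen, pow_zero, mul_one] at h
  have hUW : U k * W k ∈ AA k r := by
    have h := gen_mem (k := k) r hr
    rwa [gen, pow_one] at h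
  induction p using MvPolynomial.induction_on with
  | C a => exact ⟨0, by
      rw [pow_zero, one_mul]
      exact (AA k r).algebraMap_mem a⟩
  | add p q hp hq =>
    obtain ⟨N, hN⟩ := hp
    obtain ⟨M, hM⟩ := hq
    refine ⟨N + M, ?_⟩
    have h : U k ^ (N + M) * im (p + q) = U k ^ M * (U k ^ N * im p) +
        U k ^ N * (U k ^ M * im q) := by
      rw [im, map_add, pow_add]
      ring
    rw [h]
    exact (AA k r).add_mem ((AA k r).mul_mem ((AA k r).pow_mem hU _) hN)
      ((AA k r).mul_mem ((AA k r).pow_mem hU _) hM)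
  | mul_X p i hp =>
    obtain ⟨N, hN⟩ := hp
    refine ⟨N + 1, ?_⟩
    have h : U k ^ (N + 1) * im (p * MvPolynomial.X i) =
        (U k ^ N * im p) * (U k * im (MvPolynomial.X i)) := by
      rw [im, map_mul, pow_succ]
      ring
    rw [h]
    refine (AA k r).mul_mem hN ?_
    fin_cases i
    · exact (AA k r).mul_mem hU hU
    · exact hUW

theorem AA_frac (r : ℕ) (hr : 1 ≤ r) (f : KK k) :
    ∃ a b : AA k r, (b : KK k) ≠ 0 ∧ f = (a : KK k) / b := by
  obtain ⟨p, q, hq, rfl⟩ := frac f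
  obtain ⟨N, hN⟩ := exists_pow r hr p
  obtain ⟨M, hM⟩ := exists_pow r hr q
  have hU : U k ∈ AA k r := by
    have h := gen_mem (k := k) r (Nat.zero_le r)
    rwa [gen, pow_zero, mul_one] at h
  have hne : ∀ N, U k ^ N ≠ 0 := fun N => pow_ne_zero _ U_ne
  refine ⟨⟨U k ^ M * (U k ^ N * im p), (AA k r).mul_mem ((AA k r).pow_mem hU _) hN⟩,
    ⟨U k ^ N * (U k ^ M * im q), (AA k r).mul_mem ((AA k r).pow_mem hU _) hM⟩,
    mul_ne_zero (hne N) (mul_ne_zero (hne M) hq), ?_⟩
  change im p / im q = U k ^ M * (U k ^ N * im p) / (U k ^ N * (U k ^ M * im q))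
  have h1 := hne N
  have h2 := hne M
  field_simp

theorem AA_good [CharZero k] (r : ℕ) (hr : 1 ≤ r) : IsGood (AA k r) :=
  ⟨AA_fg r, AA_frac r hr, AA_norm r⟩

/-! ### the vertex -/

theorem exists_th (r : ℕ) : ∃ ρ : AA k r →ₐ[k] P k, ∀ a : AA k r, im (ρ a) = (a : KK k) :=
  exists_lift (AA k r).val fun a => AA_le r a.2

variable (k) in
/-- the inclusion of the cone ring in the polynomials -/
def th (r : ℕ) : AA k r →ₐ[k] P k := Classical.choose (exists_th r)

theorem im_th (r : ℕ) (a : AA k r) : im (th k r a) = (a : KK k) :=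
  Classical.choose_spec (exists_th r) a

variable (k) in
/-- the generators in the ring -/
def gA (r : ℕ) (i : ℕ) (hi : i ≤ r) : AA k r := ⟨gen k i, gen_mem r hi⟩

theorem th_gA (r : ℕ) {i : ℕ} (hi : i ≤ r) :
    th k r (gA k r i hi) = MvPolynomial.X 0 * MvPolynomial.X 1 ^ i := by
  apply im_inj
  change im (th k r (gA k r i hi)) = _
  rw [im_th, map_mul, map_pow]
  rfl

variable (k) in
/-- the vertex, as a homomorphism -/
def pt (r : ℕ) : AA k r →ₐ[k] k := (MvPolynomial.aeval fun _ : Fin 2 => (0 : k)).comp (th k r)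

theorem pt_gA (r : ℕ) {i : ℕ} (hi : i ≤ r) : pt k r (gA k r i hi) = 0 := by
  change MvPolynomial.aeval (fun _ : Fin 2 => (0 : k)) (th k r (gA k r i hi)) = 0
  rw [th_gA, map_mul, MvPolynomial.aeval_X, zero_mul]

variable (k) in
/-- the ideal of the vertex -/
def MM (r : ℕ) : Ideal (AA k r) := RingHom.ker (pt k r)

theorem pt_surj (r : ℕ) : Function.Surjective (pt k r) := fun c =>
  ⟨algebraMap k _ c, (pt k r).commutes c⟩

theorem MM_max (r : ℕ) : (MM k r).IsMaximal := RingHom.ker_isMaximal_of_surjective _ (pt_surj r)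

theorem gA_mem (r : ℕ) {i : ℕ} (hi : i ≤ r) : gA k r i hi ∈ MM k r := pt_gA r hi

theorem eq_MM (r : ℕ) (q : Ideal (AA k r)) (hq : q ≠ ⊤)
    (h : ∀ (i : ℕ) (hi : i ≤ r), gA k r i hi ∈ q) : q = MM k r := by
  have h1 : Ideal.Quotient.mkₐ k q = (Algebra.ofId k (AA k r ⧸ q)).comp (pt k r) := by
    apply AlgHom.adjoin_ext
    rintro _ ⟨i, rfl⟩
    have hi : (i : ℕ) ≤ r := Nat.le_of_lt_succ i.2
    have h2 : Ideal.Quotient.mkₐ k q (gA k r i hi) = 0 := Ideal.Quotient.eq_zero_iff_mem.2 (h i hi)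
    have h3 : ((Algebra.ofId k (AA k r ⧸ q)).comp (pt k r)) (gA k r i hi) = 0 := by
      change Algebra.ofId k (AA k r ⧸ q) (pt k r (gA k r i hi)) = 0
      rw [pt_gA, map_zero]
    exact h2.trans h3.symm
  have h2 : MM k r ≤ q := by
    intro a ha
    have h3 : Ideal.Quotient.mkₐ k q a = 0 := by
      rw [h1]
      change Algebra.ofId k (AA k r ⧸ q) (pt k r a) = 0
      have : pt k r a = 0 := ha
      rw [this, map_zero]
    exact Ideal.Quotient.eq_zero_iff_mem.1 h3
  exact ((MM_max r).eq_of_le hq h2).symm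

variable (k) in
/-- restriction to a ruling -/
def rul (r : ℕ) : AA k r →ₐ[k] P k :=
  (MvPolynomial.aeval ![(MvPolynomial.X 0 : P k), 0]).comp (th k r)

theorem rul_le (r : ℕ) : RingHom.ker (rul k r) ≤ MM k r := by
  intro a ha
  have h1 : (MvPolynomial.aeval fun _ : Fin 2 => (0 : k)) (rul k r a) = pt k r a := by
    have h2 : (MvPolynomial.aeval fun _ : Fin 2 => (0 : k)).comp
        (MvPolynomial.aeval ![(MvPolynomial.X 0 : P k), 0] : P k →ₐ[k] P k) =
        (MvPolynomial.aeval fun _ : Fin 2 => (0 : k)) := by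
      apply MvPolynomial.algHom_ext
      intro i
      fin_cases i
      · simp
      · simp
    exact congrArg (fun f => f (th k r a)) h2
  have h2 : rul k r a = 0 := ha
  change pt k r a = 0
  rw [← h1, h2, map_zero]

theorem not_height (r : ℕ) (hr : 1 ≤ r) : ¬ IsHeightOne (MM k r) := by
  rintro ⟨-, -, h⟩
  have h0 : rul k r (gA k r 0 (Nat.zero_le r)) ≠ 0 := by
    change MvPolynomial.aeval ![(MvPolynomial.X 0 : P k), 0] (th k r (gA k r 0 (Nat.zero_le r))) ≠ 0
    rw [th_gA, pow_zero, mul_one, MvPolynomial.aeval_X]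
    exact MvPolynomial.X_ne_zero 0
  have h1 : rul k r (gA k r 1 hr) = 0 := by
    change MvPolynomial.aeval ![(MvPolynomial.X 0 : P k), 0] (th k r (gA k r 1 hr)) = 0
    rw [th_gA, map_mul, map_pow, MvPolynomial.aeval_X, MvPolynomial.aeval_X]
    simp
  have h2 : gA k r 1 hr ≠ 0 := by
    intro hc
    have := congrArg Subtype.val hc
    exact mul_ne_zero U_ne (pow_ne_zero _ W_ne) this
  have h3 := h (RingHom.ker (rul k r)) (RingHom.ker_isPrime _) (by
    intro hc
    have h4 : gA k r 1 hr ∈ RingHom.ker (rul k r) := h1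
    rw [hc] at h4
    exact h2 h4) (rul_le r)
  have h4 : gA k r 0 (Nat.zero_le r) ∈ RingHom.ker (rul k r) := by
    rw [h3]
    exact gA_mem r _
  exact h0 h4

/-- one of the two charts meets every prime divisor -/
theorem one_chart (r : ℕ) (hr : 1 ≤ r) (q : Ideal (AA k r)) (hq : IsHeightOne q) :
    gA k r 0 (Nat.zero_le r) ∉ q ∨ gA k r r le_rfl ∉ q := by
  by_contra hc
  push Not at hc
  refine not_height (k := k) r hr ?_
  rw [← eq_MM r q hq.1.ne_top ?_]
  · exact hq
  intro i hi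
  refine hq.1.mem_of_pow_mem r ?_
  have h1 : gA k r i hi ^ r = gA k r 0 (Nat.zero_le r) ^ (r - i) * gA k r r le_rfl ^ i := by
    apply Subtype.ext
    change gen k i ^ r = gen k 0 ^ (r - i) * gen k r ^ i
    rw [gen, gen, gen, pow_zero, mul_one, mul_pow, mul_pow, ← pow_mul, ← pow_mul, ← mul_assoc,
      ← pow_add, Nat.sub_add_cancel hi, mul_comm i r]
  rw [h1]
  rcases Nat.eq_zero_or_pos i with h | h
  · rw [h, Nat.sub_zero, pow_zero, mul_one]
    exact q.pow_mem_of_mem hc.1 r hr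
  · exact q.mul_mem_left _ (q.pow_mem_of_mem hc.2 i h)

/-! ### the local equation -/

section Form

variable [CharZero k] (r : ℕ) (hr : 1 ≤ r)
include hr

theorem frac_of (q : Ideal (AA k r)) (hq : IsHeightOne q) (v : DVal k (KK k))
    (hv : v.HasCenter (AA k r) q) (f : KK k) (hf : v.Integral f) :
    ∃ a s : AA k r, (s : KK k) ≠ 0 ∧ v.ord (s : KK k) = 0 ∧ (s : KK k) * f = a := by
  by_cases h0 : f = 0
  · refine ⟨0, 1, one_ne_zero, ord_one v, ?_⟩
    rw [h0, mul_zero]
    rfl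
  have hN := Ind.noeth (AA k r) (AA_fg r)
  obtain ⟨w, hw, hw2⟩ := dvr (AA k r) hN (AA_frac r hr) (AA_norm r) q hq
  have h1 := dvr_unique (AA k r) hN (AA_frac r hr) (AA_norm r) q hq v w hv hw f h0
  obtain ⟨s, hs, hsf⟩ := (hw2 f h0).1 (by rw [← h1]; exact hf h0)
  have h2 := Ind.out v hv hs
  exact ⟨⟨_, hsf⟩, s, h2.1, h2.2, rfl⟩

theorem chart_one (q : Ideal (AA k r)) (hq : IsHeightOne q) (v : DVal k (KK k))
    (hv : v.HasCenter (AA k r) q) (h : gA k r 0 (Nat.zero_le r) ∉ q) :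
    v.ord (U k) = 0 ∧ IsChart v ![U k, W k] := by
  have h1 : v.ord (U k) = 0 := by
    have h2 := (Ind.out v hv h).2
    change v.ord (gen k 0) = 0 at h2
    rwa [gen, pow_zero, mul_one] at h2
  refine ⟨h1, ?_, ?_⟩
  · intro i
    fin_cases i
    · intro _
      exact h1.ge
    · intro _
      have h2 := hv.1 (gA k r 1 hr) (mul_ne_zero U_ne (pow_ne_zero _ W_ne))
      change 0 ≤ v.ord (gen k 1) at h2
      rw [gen, pow_one, v.ord_mul _ _ U_ne W_ne, h1, zero_add] at h2
      exact h2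
  · intro f hf
    obtain ⟨a, s, h2, h3, h4⟩ := frac_of r hr q hq v hv f hf
    refine ⟨th k r a, th k r s, ?_, ?_, ?_⟩
    · rw [aeval_UW, im_th]
      exact h2
    · rw [aeval_UW, im_th]
      exact h3
    · rw [aeval_UW, aeval_UW, im_th, im_th]
      exact h4

theorem chart_two (q : Ideal (AA k r)) (hq : IsHeightOne q) (v : DVal k (KK k))
    (hv : v.HasCenter (AA k r) q) (h : gA k r r le_rfl ∉ q) :
    v.ord (U k) = -(r * v.ord (W k)) ∧ IsChart v (bb k r) := by
  have h1 : v.ord (U k * W k ^ r) = 0 := (Ind.out v hv h).2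
  have h1' : v.ord (U k) = -(r * v.ord (W k)) := by
    rw [v.ord_mul _ _ U_ne (pow_ne_zero _ W_ne), ord_pow v _ W_ne] at h1
    omega
  refine ⟨h1', ?_, ?_⟩
  · intro i
    fin_cases i
    · intro _
      exact h1.ge
    · intro _
      have h2 := hv.1 (gA k r (r - 1) (Nat.sub_le _ _)) (mul_ne_zero U_ne (pow_ne_zero _ W_ne))
      change 0 ≤ v.ord (gen k (r - 1)) at h2
      rw [gen, v.ord_mul _ _ U_ne (pow_ne_zero _ W_ne), ord_pow v _ W_ne, h1'] at h2
      change 0 ≤ v.ord (W k)⁻¹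
      rw [ord_inv v _ W_ne]
      have h3 : ((r - 1 : ℕ) : ℤ) = (r : ℤ) - 1 := by
        push_cast [Nat.cast_sub hr]
        ring
      rw [h3] at h2
      linarith
  · intro f hf
    obtain ⟨a, s, h2, h3, h4⟩ := frac_of r hr q hq v hv f hf
    have h5 : ∀ a : AA k r, ∃ p : P k, MvPolynomial.aeval (bb k r) p = (a : KK k) := by
      intro a
      obtain ⟨p, hp⟩ := mem_BB.1 (AA_le r (sg_AA r a.2))
      refine ⟨p, ?_⟩
      rw [← sg_im, hp, sg_sg]
    obtain ⟨p, hp⟩ := h5 a
    obtain ⟨t, ht⟩ := h5 s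
    refine ⟨p, t, ?_, ?_, ?_⟩
    · rw [ht]
      exact h2
    · rw [ht]
      exact h3
    · rw [ht, hp]
      exact h4

theorem form_eq (q : Ideal (AA k r)) (hq : IsHeightOne q) (v : DVal k (KK k))
    (hv : v.HasCenter (AA k r) q) (j : ℤ) (hj : v.FormOrd (dd k) j) :
    (r : ℤ) * j = ((r : ℤ) - 2) * v.ord (U k) := by
  rcases one_chart r hr q hq with h | h
  · obtain ⟨h1, h2⟩ := chart_one r hr q hq v hv h
    have h3 := h2.form_eq (dd k) (by rw [jac_one]; exact one_ne_zero) hj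
    rw [jac_one, ord_one, neg_zero] at h3
    rw [h3, h1, mul_zero, mul_zero]
  · obtain ⟨h1, h2⟩ := chart_two r hr q hq v hv h
    have h3 := h2.form_eq (dd k) (jac_bb_ne r) hj
    rw [jac_bb, ord_neg v _ (zpow_ne_zero _ W_ne), ord_zpow v _ W_ne] at h3
    rw [h3, h1]
    ring

end Form

variable (k) in
/-- the local equation of the canonical divisor -/
def eqU (r : ℕ) : (KK k)ˣ := Units.mk0 (U k) U_ne ^ ((r : ℤ) - 2)

theorem ord_eqU (r : ℕ) (v : DVal k (KK k)) :
    v.ord ((eqU k r : (KK k)ˣ) : KK k) = ((r : ℤ) - 2) * v.ord (U k) := by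
  rw [eqU, Units.val_zpow_eq_zpow_val, Units.val_mk0, ord_zpow v _ U_ne]

theorem val_eqU (r : ℕ) (v : DVal k (KK k)) :
    v.val (Finsupp.single (eqU k r) (1 / (r : ℝ))) = ((r : ℝ) - 2) / r * v.ord (U k) := by
  rw [DVal.val, Finsupp.sum_single_index (by rw [zero_mul]), ord_eqU]
  push_cast
  ring

theorem localEq [CharZero k] (r : ℕ) (hr : 1 ≤ r) (p : Ideal (AA k r)) :
    IsLocalEq (AA k r) (dd k) 0 p (Finsupp.single (eqU k r) (1 / (r : ℝ))) := by
  intro q _ hq v hv j hj
  have h1 := form_eq r hr q hq v hv j hj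
  have h2 : (r : ℝ) * j = ((r : ℝ) - 2) * v.ord (U k) := by exact_mod_cast h1
  have h3 : (r : ℝ) ≠ 0 := by
    have : r ≠ 0 := by omega
    exact_mod_cast this
  rw [val_eqU, Finsupp.coe_zero, Pi.zero_apply, add_zero]
  field_simp
  linarith

theorem basis_UW [CharZero k] : IsTranscendenceBasis k ![U k, W k] := by
  have h1 : AlgebraicIndependent k ![U k, W k] :=
    jac_indep (dd k) _ (by
      have h := jac_one (k := k)
      unfold jac at h
      rw [h]
      exact one_ne_zero)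
  rw [isTranscendenceBasis_iff_algebraicIndependent_isAlgebraic]
  have hmem : ∀ p : P k, im p ∈ Algebra.adjoin k (Set.range ![U k, W k]) := by
    intro p
    rw [← aeval_UW, Algebra.adjoin_range_eq_range_aeval]
    exact ⟨p, rfl⟩
  refine ⟨h1, ⟨fun f => ?_⟩⟩
  obtain ⟨p, q, -, rfl⟩ := frac f
  rw [div_eq_mul_inv]
  exact (isAlgebraic_algebraMap (⟨im p, hmem p⟩ : Algebra.adjoin k
      (Set.range ![U k, W k]))).mul
    (isAlgebraic_algebraMap (⟨im q, hmem q⟩ : Algebra.adjoin k
      (Set.range ![U k, W k]))).inv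

/-! ### the valuation of the exceptional curve -/

variable (k) in
/-- the polynomials are isomorphic to their image -/
def eB : P k ≃ₐ[k] BB k := AlgEquiv.ofInjective (IsScalarTower.toAlgHom k (P k) (KK k)) im_inj

theorem coe_eB (p : P k) : (eB k p : KK k) = im p := rfl

variable (k) in
/-- the variable `u` in the image -/
def uB : BB k := eB k (MvPolynomial.X 0)

theorem prime_X : Prime (MvPolynomial.X 0 : P k) := MvPolynomial.X_prime

theorem dvd_iff (a : P k) : uB k ∣ eB k a ↔ (MvPolynomial.X 0 : P k) ∣ a :=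
  map_dvd_iff (eB k)

theorem prime_uB : Prime (uB k) := (MulEquiv.prime_iff (eB k).toMulEquiv).2 prime_X

variable (k) in
/-- the ideal of the exceptional curve -/
def pB : Ideal (BB k) := Ideal.span {uB k}

theorem mem_pB {a : BB k} : a ∈ pB k ↔ uB k ∣ a := Ideal.mem_span_singleton

theorem BB_fg : (BB k).FG := by
  rw [BB, ← Algebra.map_top]
  exact Subalgebra.FG.map _ Algebra.FiniteType.out

theorem BB_noeth : IsNoetherianRing (BB k) := Ind.noeth (BB k) BB_fg

theorem pB_height : IsHeightOne (pB k) := by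
  have hN : IsNoetherianRing (BB k) := BB_noeth
  have hp : (pB k).IsPrime := (Ideal.span_singleton_prime prime_uB.ne_zero).2 prime_uB
  refine ⟨hp, ?_, ?_⟩
  · intro h
    exact prime_uB.ne_zero (Ideal.span_singleton_eq_bot.1 h)
  · intro q hq hq0 hle
    obtain ⟨a, ha, ha0⟩ := Submodule.exists_mem_ne_zero_of_ne_bot hq0
    obtain ⟨n, b, hb, hab⟩ := WfDvdMonoid.max_power_factor ha0 prime_uB.irreducible
    have h1 : b ∉ q := fun h => hb (mem_pB.1 (hle h))
    rw [hab] at ha
    have h2 : uB k ∈ q := hq.mem_of_pow_mem n ((hq.mem_or_mem ha).resolve_right h1)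
    refine le_antisymm hle ?_
    rw [pB, Ideal.span_le, Set.singleton_subset_iff]
    exact h2

theorem BB_frac (f : KK k) : ∃ a b : BB k, (b : KK k) ≠ 0 ∧ f = (a : KK k) / b := by
  obtain ⟨p, q, hq, rfl⟩ := frac f
  exact ⟨⟨im p, im_mem p⟩, ⟨im q, im_mem q⟩, hq, rfl⟩

theorem BB_norm (f : KK k) (hf : IsIntegral (BB k) f) : f ∈ BB k :=
  integral_lift (AlgHom.id k (KK k)) (fun a => a.2) f hf

/-- the valuation of the exceptional curve of the cone -/
theorem exists_val (k : Type u) [Field k] : ∃ v : DVal k (KK k), v.HasCenter (BB k) (pB k) ∧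
    v.ord (U k) = 1 ∧ IsChart v ![U k, W k] := by
  obtain ⟨v, hv, hv2⟩ := dvr (BB k) BB_noeth BB_frac BB_norm (pB k) pB_height
  have hs : ∀ s : BB k, s ∉ pB k → (s : KK k) ≠ 0 ∧ v.ord (s : KK k) = 0 := fun s hs =>
    Ind.out v hv hs
  refine ⟨v, hv, ?_, ?_, ?_⟩
  · have h1 : 0 < v.ord (U k) := by
      have h2 : uB k ∈ pB k := Ideal.mem_span_singleton_self _
      exact (hv.2 _).1 h2 U_ne
    obtain ⟨t, ht, ht1⟩ := v.exists_ord_eq_one
    obtain ⟨s, hsp, hst⟩ := (hv2 t ht).1 (by rw [ht1]; exact zero_le_one)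
    have h2 := hs s hsp
    have h3 : v.ord ((s : KK k) * t) = 1 := by rw [v.ord_mul _ _ h2.1 ht, h2.2, ht1, zero_add]
    have h4 : (⟨_, hst⟩ : BB k) ∈ pB k := by
      rw [hv.2]
      intro _
      rw [h3]
      exact one_pos
    obtain ⟨c, hc⟩ := mem_pB.1 h4
    have h5 : (s : KK k) * t = U k * c := congrArg Subtype.val hc
    have h6 : (c : KK k) ≠ 0 := by
      intro h
      rw [h, mul_zero] at h5
      exact mul_ne_zero h2.1 ht h5
    rw [h5, v.ord_mul _ _ U_ne h6] at h3
    have h7 := hv.1 c h6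
    omega
  · intro i
    fin_cases i
    · exact hv.1 ⟨U k, U_mem⟩
    · exact hv.1 ⟨W k, W_mem⟩
  · intro f hf
    by_cases h0 : f = 0
    · refine ⟨0, 1, ?_, ?_, ?_⟩
      · rw [map_one]
        exact one_ne_zero
      · rw [map_one, ord_one]
      · rw [h0, map_zero, mul_zero]
    obtain ⟨s, hsp, hst⟩ := (hv2 f h0).1 (hf h0)
    have h2 := hs s hsp
    obtain ⟨p, hp⟩ := mem_BB.1 hst
    obtain ⟨q, hq⟩ := mem_BB.1 s.2
    refine ⟨p, q, ?_, ?_, ?_⟩
    · rw [aeval_UW, hq]
      exact h2.1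
    · rw [aeval_UW, hq]
      exact h2.2
    · rw [aeval_UW, aeval_UW, hq, hp]

theorem val_center (r : ℕ) (v : DVal k (KK k)) (hv : v.HasCenter (BB k) (pB k)) :
    v.HasCenter (AA k r) (MM k r) := by
  let ι : AA k r →ₐ[k] BB k := Subalgebra.inclusion (AA_le r)
  have h1 : (pB k).comap ι = MM k r := by
    refine eq_MM r _ (Ideal.IsPrime.comap _ (hK := pB_height.1)).ne_top ?_
    intro i hi
    rw [Ideal.mem_comap, mem_pB]
    refine ⟨⟨W k ^ i, (BB k).pow_mem W_mem i⟩, Subtype.ext rfl⟩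
  refine ⟨fun a => hv.1 ⟨(a : KK k), AA_le r a.2⟩, fun a => ?_⟩
  rw [← h1, Ideal.mem_comap, hv.2]
  rfl

theorem val_div (v : DVal k (KK k)) (hv : v.HasCenter (BB k) (pB k)) : v.IsDivisorial 1 := by
  refine ⟨fun _ => W k, fun _ => hv.1 ⟨W k, W_mem⟩, ?_⟩
  intro F hF hs
  let g : MvPolynomial (Fin 1) k →ₐ[k] P k := MvPolynomial.aeval fun _ => MvPolynomial.X 1
  have h1 : MvPolynomial.aeval (fun _ : Fin 1 => W k) F = im (g F) := by
    have h2 : (MvPolynomial.aeval (fun _ : Fin 1 => W k) : MvPolynomial (Fin 1) k →ₐ[k] KK k) =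
        (IsScalarTower.toAlgHom k (P k) (KK k)).comp g := by
      apply MvPolynomial.algHom_ext
      intro i
      rw [MvPolynomial.aeval_X]
      change W k = im (g (MvPolynomial.X i))
      rw [show g (MvPolynomial.X i) = MvPolynomial.X 1 from MvPolynomial.aeval_X _ _]
      rfl
    exact congrArg (fun f => f F) h2
  rw [h1] at hs
  have h3 : eB k (g F) ∈ pB k := (hv.2 _).2 hs
  rw [mem_pB, dvd_iff] at h3
  obtain ⟨c, hc⟩ := h3
  let e : P k →ₐ[k] MvPolynomial (Fin 1) k := MvPolynomial.aeval ![0, MvPolynomial.X 0]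
  have h4 : e (g F) = F := by
    have h5 : e.comp g = AlgHom.id k _ := by
      apply MvPolynomial.algHom_ext
      intro i
      change e (g (MvPolynomial.X i)) = MvPolynomial.X i
      rw [show g (MvPolynomial.X i) = MvPolynomial.X 1 from MvPolynomial.aeval_X _ _]
      rw [show e (MvPolynomial.X 1) = MvPolynomial.X 0 from MvPolynomial.aeval_X _ _]
      congr 1
      exact Subsingleton.elim _ _
    exact congrArg (fun f => f F) h5
  have h6 : e (MvPolynomial.X 0 * c) = 0 := by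
    rw [map_mul, show e (MvPolynomial.X 0) = 0 from MvPolynomial.aeval_X _ _, zero_mul]
  rw [← hc, h4] at h6
  exact hF h6

end

end Surf

/-- the cone over the rational normal curve of degree `r` (no boundary): minimal log discrepancy
`2 / r` at the vertex -/
theorem surf (k : Type u) [Field k] [IsAlgClosed k] [CharZero k] (r : ℕ) (hr : 1 ≤ r) :
    ∃ (X : Pair k 1) (x : X.Pt), X.δ = 0 ∧ (2 / r : ℝ) ∈ X.ld x ∧
      ∀ l ∈ X.ld x, (2 / r : ℝ) ≤ l := by
  have hr0 : (0 : ℝ) < r := by exact_mod_cast hr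
  have hN := Ind.noeth (Surf.AA k r) (Surf.AA_fg r)
  have hfr : IsFractionRing (Surf.AA k r) (Surf.KK k) :=
    IsFractionRing.of_field _ _ fun z => by
      obtain ⟨a, b, _, h⟩ := Surf.AA_frac r hr z
      exact ⟨a, b, h⟩
  let X : Pair k 1 :=
    { K := Surf.KK k
      y := ![Surf.U k, Surf.W k]
      basis := Surf.basis_UW
      D := Surf.dd k
      D_y := Surf.dd_y
      A := Surf.AA k r
      fg := Surf.AA_fg r
      frac := hfr
      normal := by
        rw [isIntegrallyClosed_iff (Surf.KK k)]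
        intro x hx
        exact ⟨⟨x, Surf.AA_norm r x hx⟩, rfl⟩
      δ := 0
      height := fun q hq => absurd rfl hq
      gorenstein := fun x => ⟨r, Surf.eqU k r, hr, Surf.localEq r hr _⟩
      cartier := fun x => ⟨_, Surf.localEq r hr _⟩ }
  let x : X.Pt := ⟨Surf.MM k r, Surf.MM_max r⟩
  refine ⟨X, x, rfl, ?_, ?_⟩
  · obtain ⟨v, hv, hv1, hc⟩ := Surf.exists_val k
    refine ⟨v, Surf.val_div v hv, Surf.val_center r v hv, 0, ?_, _,
      Surf.localEq r hr _, ?_⟩
    · have h := hc.form (Surf.dd k) (by rw [Surf.jac_one]; exact one_ne_zero)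
      rwa [Surf.jac_one, ord_one, neg_zero] at h
    · rw [Surf.val_eqU, hv1]
      field_simp
      push_cast
      ring
  · rintro l ⟨v, -, hv, j, hj, γ, hγ, rfl⟩
    have h1 : v.val γ = ((r : ℝ) - 2) / r * v.ord (Surf.U k) := by
      rw [← Surf.val_eqU]
      exact indep_gen (Surf.AA k r) (Surf.AA_good r hr) (Surf.dd k)
        ⟨_, by rw [Surf.jac_one]; exact one_ne_zero⟩ 0 _ (Surf.MM_max r).isPrime _ _ hγ
        (Surf.localEq r hr _) v hv
    have h2 := log_ineq v (Surf.dd k) j hj ![Surf.U k, Surf.W k] (by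
      intro i
      fin_cases i
      · exact Surf.U_ne
      · exact Surf.W_ne) (by rw [Surf.jac_one]; exact one_ne_zero)
    rw [Surf.jac_one, ord_one, Fin.sum_univ_two] at h2
    change v.ord (Surf.U k) + v.ord (Surf.W k) - 1 - j ≤ 0 at h2
    have h3 : 0 < v.ord (Surf.U k) := by
      have h := (hv.2 _).1 (Surf.gA_mem r (Nat.zero_le r))
      have h' := h (mul_ne_zero Surf.U_ne (pow_ne_zero _ Surf.W_ne))
      change 0 < v.ord (Surf.gen k 0) at h'
      rwa [Surf.gen, pow_zero, mul_one] at h'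
    have h4 : 0 < v.ord (Surf.U k) + r * v.ord (Surf.W k) := by
      have h := (hv.2 _).1 (Surf.gA_mem r le_rfl)
      have h' := h (mul_ne_zero Surf.U_ne (pow_ne_zero _ Surf.W_ne))
      change 0 < v.ord (Surf.gen k r) at h'
      rwa [Surf.gen, v.ord_mul _ _ Surf.U_ne (pow_ne_zero _ Surf.W_ne),
        ord_pow v _ Surf.W_ne] at h'
    have h2' : (v.ord (Surf.U k) : ℝ) + v.ord (Surf.W k) - 1 - j ≤ 0 := by exact_mod_cast h2
    have h3' : (1 : ℝ) ≤ v.ord (Surf.U k) := by exact_mod_cast h3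
    have h4' : (1 : ℝ) ≤ v.ord (Surf.U k) + r * v.ord (Surf.W k) := by exact_mod_cast h4
    rw [h1, div_le_iff₀ hr0]
    have h5 : (1 + (j : ℝ) - (r - 2) / r * v.ord (Surf.U k)) * r =
        (1 + j) * r - (r - 2) * v.ord (Surf.U k) := by
      field_simp
    rw [h5]
    nlinarith [mul_le_mul_of_nonneg_right (show (v.ord (Surf.U k) : ℝ) + v.ord (Surf.W k) ≤ 1 + j
      by linarith) hr0.le]

end Pool.Agent.MLD.Ten
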