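import Pool.Agent.Lib.MP_f23696_ag.T.Ind
import Pool.Agent.Lib.MP_f23696_ag.T.Der

/-!
# TEN, module SURF, part 1: charts; the field of rational functions in two variables
-/

set_option autoImplicit false

namespace Pool.Agent.MLD.Ten

open Pool.Agent.MLD.Jac

universe u v w

namespace Surf

noncomputable section

/-! ### charts -/

section Chart

variable {k : Type u} {K : Type v} [Field k] [Field K] [Algebra k K]

theorem jac_two (D : Fin 2 → Derivation k K K) (b : Fin 2 → K) :
    jac D b = D 0 (b 0) * D 1 (b 1) - D 0 (b 1) * D 1 (b 0) := by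
  unfold jac
  rw [Matrix.det_fin_two]
  rfl

/-- the valuation `v` is centred on the chart with coordinates `b` -/
structure IsChart (v : DVal k K) (b : Fin 2 → K) : Prop where
  int : ∀ i, v.Integral (b i)
  frac : ∀ f, v.Integral f → ∃ p q : MvPolynomial (Fin 2) k, MvPolynomial.aeval b q ≠ 0 ∧
    v.ord (MvPolynomial.aeval b q) = 0 ∧ MvPolynomial.aeval b q * f = MvPolynomial.aeval b p

theorem aeval_int {v : DVal k K} {b : Fin 2 → K} (hb : ∀ i, v.Integral (b i))
    (p : MvPolynomial (Fin 2) k) : v.Integral (MvPolynomial.aeval b p) := by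
  have h1 : MvPolynomial.aeval b p ∈ ring v := by
    have h2 : (fun i => (⟨b i, hb i⟩ : ring v)) = fun i => (⟨b i, hb i⟩ : ring v) := rfl
    have h3 : MvPolynomial.aeval b p =
        ((MvPolynomial.aeval (fun i => (⟨b i, hb i⟩ : ring v)) p : ring v) : K) := by
      have := MvPolynomial.comp_aeval (R := k) (fun i => (⟨b i, hb i⟩ : ring v)) (ring v).val
      exact (congrArg (fun f => f p) this).symm
    rw [h3]
    exact Subtype.mem _
  exact h1

theorem IsChart.der {v : DVal k K} {b : Fin 2 → K} (hb : IsChart v b)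
    (E : Fin 2 → Derivation k K K) (hE : ∀ i l, E i (b l) = if i = l then 1 else 0) (i : Fin 2)
    (f : K) (hf : v.Integral f) : v.Integral (E i f) := by
  have h1 : ∀ p : MvPolynomial (Fin 2) k, v.Integral (E i (MvPolynomial.aeval b p)) := by
    intro p
    rw [Jind.der_aeval]
    refine LB.sum _ _ fun l _ => ?_
    have h2 : LB v 0 (E i (b l)) := by
      rw [hE]
      split_ifs
      · exact Der.LB_one v
      · exact LB.zero v 0
    have h3 : LB v 0 (MvPolynomial.aeval b (MvPolynomial.pderiv l p)) := aeval_int hb.int _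
    have h4 := h3.mul h2
    rwa [add_zero] at h4
  obtain ⟨p, q, hq, hq0, hf'⟩ := hb.frac f hf
  refine Ind.LB_of_mul v hq (N := 0) ?_
  rw [hq0, zero_add]
  have h2 : MvPolynomial.aeval b q * E i f =
      E i (MvPolynomial.aeval b p) - f * E i (MvPolynomial.aeval b q) := by
    rw [← hf', Derivation.leibniz]
    simp only [smul_eq_mul]
    ring
  rw [h2]
  refine LB_sub v (h1 p) ?_
  have := LB.mul (v := v) (M := 0) (N := 0) hf (h1 q)
  rwa [add_zero] at this

theorem IsChart.form {v : DVal k K} {b : Fin 2 → K} (hb : IsChart v b)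
    (D : Fin 2 → Derivation k K K) (hJ : jac D b ≠ 0) : v.FormOrd D (-v.ord (jac D b)) := by
  obtain ⟨E, hE, -, hE3⟩ := dual D b hJ
  refine ⟨?_, b, hb.int, hJ, by rw [neg_neg]⟩
  intro a ha h0
  rw [neg_neg]
  rw [hE3 a] at h0 ⊢
  have h1 := right_ne_zero_of_mul h0
  rw [v.ord_mul _ _ hJ h1]
  have h2 : 0 ≤ v.ord (jac E a) := by
    have := det_integral v (Matrix.of fun i j => E i (a j)) fun i j => hb.der E hE i _ (ha j)
    exact this h1
  omega

theorem IsChart.form_eq {v : DVal k K} {b : Fin 2 → K} (hb : IsChart v b)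
    (D : Fin 2 → Derivation k K K) (hJ : jac D b ≠ 0) {j : ℤ} (hj : v.FormOrd D j) :
    j = -v.ord (jac D b) := formOrd_unique v D _ _ hj (hb.form D hJ)

end Chart

/-! ### the field `k(u, w)` -/

variable (k : Type u) [Field k]

/-- polynomials in two variables -/
abbrev P : Type u := MvPolynomial (Fin 2) k

/-- rational functions in two variables -/
abbrev KK : Type u := FractionRing (P k)

variable {k}

/-- polynomials as rational functions -/
abbrev im (p : P k) : KK k := algebraMap (P k) (KK k) p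

variable (k) in
/-- the first variable -/
def U : KK k := im (MvPolynomial.X 0)

variable (k) in
/-- the second variable -/
def W : KK k := im (MvPolynomial.X 1)

theorem im_inj : Function.Injective (algebraMap (P k) (KK k)) := IsFractionRing.injective _ _

theorem im_ne {p : P k} (hp : p ≠ 0) : im p ≠ 0 := fun h =>
  hp (im_inj (h.trans (map_zero _).symm))

theorem U_ne : U k ≠ 0 := im_ne (MvPolynomial.X_ne_zero 0)

theorem W_ne : W k ≠ 0 := im_ne (MvPolynomial.X_ne_zero 1)

theorem aeval_UW (p : P k) : MvPolynomial.aeval ![U k, W k] p = im p := by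
  have h : (MvPolynomial.aeval ![U k, W k] : P k →ₐ[k] KK k) = IsScalarTower.toAlgHom k (P k) (KK k) := by
    apply MvPolynomial.algHom_ext
    intro i
    rw [MvPolynomial.aeval_X]
    fin_cases i <;> rfl
  exact congrArg (fun f => f p) h

theorem frac (f : KK k) : ∃ p q : P k, im q ≠ 0 ∧ f = im p / im q := by
  obtain ⟨p, q, hq, rfl⟩ := IsFractionRing.div_surjective (A := P k) f
  exact ⟨p, q, im_ne (nonZeroDivisors.ne_zero hq), rfl⟩

/-- the partial derivatives -/
theorem exists_der (k : Type u) [Field k] (i : Fin 2) : ∃ D : Derivation k (KK k) (KK k),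
    ∀ j, D (im (MvPolynomial.X j)) = if i = j then 1 else 0 := by
  let T := TrivSqZeroExt (KK k) (KK k)
  let g : P k →ₐ[k] T := MvPolynomial.aeval fun j =>
    TrivSqZeroExt.inl (im (MvPolynomial.X j)) + TrivSqZeroExt.inr (if i = j then 1 else 0)
  have hg1 : ∀ p : P k, (g p).fst = im p := by
    intro p
    have h : (TrivSqZeroExt.fstHom k (KK k) (KK k)).comp g =
        IsScalarTower.toAlgHom k (P k) (KK k) := by
      apply MvPolynomial.algHom_ext
      intro j
      change TrivSqZeroExt.fst (MvPolynomial.aeval (fun j =>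
        (TrivSqZeroExt.inl (im (MvPolynomial.X j)) + TrivSqZeroExt.inr (if i = j then 1 else 0) :
          TrivSqZeroExt (KK k) (KK k))) (MvPolynomial.X j : P k)) =
        algebraMap (P k) (KK k) (MvPolynomial.X j)
      rw [MvPolynomial.aeval_X, TrivSqZeroExt.fst_add, TrivSqZeroExt.fst_inl,
        TrivSqZeroExt.fst_inr, add_zero]
    exact congrArg (fun f => f p) h
  have hu : ∀ y : nonZeroDivisors (P k), IsUnit (g y) := by
    intro y
    rw [TrivSqZeroExt.isUnit_iff_isUnit_fst, hg1]
    exact isUnit_iff_ne_zero.2 (im_ne (nonZeroDivisors.coe_ne_zero y))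
  let h : KK k →ₐ[k] T := IsLocalization.liftAlgHom (M := nonZeroDivisors (P k)) hu
  have hh : ∀ p : P k, h (im p) = g p := fun p => IsLocalization.lift_eq _ p
  have hf : ∀ x : KK k, (h x).fst = x := by
    intro x
    have h1 : ((TrivSqZeroExt.fstHom k (KK k) (KK k)).comp h) x = x := by
      obtain ⟨p, q, -, rfl⟩ := frac x
      rw [map_div₀]
      congr 1
      · change (h (im p)).fst = im p
        rw [hh, hg1]
      · change (h (im q)).fst = im q
        rw [hh, hg1]
    exact h1
  have hadd : ∀ a b : KK k, (h (a + b)).snd = (h a).snd + (h b).snd := by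
    intro a b
    rw [map_add]
    exact TrivSqZeroExt.snd_add _ _
  have hsmul : ∀ (c : k) (x : KK k), (h (c • x)).snd = c • (h x).snd := by
    intro c x
    rw [map_smul]
    exact TrivSqZeroExt.snd_smul _ _
  refine ⟨Derivation.mk' ⟨⟨fun x => (h x).snd, hadd⟩, hsmul⟩ ?_, ?_⟩
  · intro a b
    change (h (a * b)).snd = a • (h b).snd + b • (h a).snd
    rw [map_mul]
    refine (TrivSqZeroExt.snd_mul (h a) (h b)).trans ?_
    rw [hf, hf]
    simp only [smul_eq_mul, MulOpposite.smul_eq_mul_unop, MulOpposite.unop_op]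
    ring
  · intro j
    change (h (im (MvPolynomial.X j))).snd = _
    rw [hh]
    change (MvPolynomial.aeval (fun j =>
        (TrivSqZeroExt.inl (im (MvPolynomial.X j)) + TrivSqZeroExt.inr (if i = j then 1 else 0) :
          TrivSqZeroExt (KK k) (KK k))) (MvPolynomial.X j : P k)).snd = _
    rw [MvPolynomial.aeval_X, TrivSqZeroExt.snd_add, TrivSqZeroExt.snd_inl, TrivSqZeroExt.snd_inr,
      zero_add]

/-- the partial derivatives -/
def dd (k : Type u) [Field k] (i : Fin 2) : Derivation k (KK k) (KK k) :=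
  Classical.choose (exists_der k i)

theorem dd_y (i j : Fin 2) : dd k i (![U k, W k] j) = if i = j then 1 else 0 := by
  have h := Classical.choose_spec (exists_der k i) j
  fin_cases j
  · exact h
  · exact h

theorem dd_UU : dd k 0 (U k) = 1 := dd_y 0 0
theorem dd_UW : dd k 0 (W k) = 0 := dd_y 0 1
theorem dd_WU : dd k 1 (U k) = 0 := dd_y 1 0
theorem dd_WW : dd k 1 (W k) = 1 := dd_y 1 1

theorem jac_one : jac (dd k) ![U k, W k] = 1 := jac_dual _ _ dd_y

/-- coordinates of the second chart -/
def bb (k : Type u) [Field k] (r : ℕ) : Fin 2 → KK k := ![U k * W k ^ r, (W k)⁻¹]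

theorem jac_bb (r : ℕ) : jac (dd k) (bb k r) = -(W k ^ ((r : ℤ) - 2)) := by
  rw [jac_two]
  have h1 : dd k 0 (bb k r 0) = W k ^ r := by
    change dd k 0 (U k * W k ^ r) = _
    rw [Derivation.leibniz, Derivation.leibniz_pow, dd_UU, dd_UW]
    simp
  have h2 : dd k 0 (bb k r 1) = 0 := by
    change dd k 0 (W k)⁻¹ = _
    rw [Derivation.leibniz_inv, dd_UW, smul_zero]
  have h3 : dd k 1 (bb k r 1) = -(W k)⁻¹ ^ 2 := by
    change dd k 1 (W k)⁻¹ = _
    rw [Derivation.leibniz_inv, dd_WW, smul_eq_mul, mul_one]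
  rw [h1, h2, h3, zero_mul, sub_zero, zpow_sub₀ W_ne, zpow_natCast]
  field_simp

theorem jac_bb_ne (r : ℕ) : jac (dd k) (bb k r) ≠ 0 := by
  rw [jac_bb]
  exact neg_ne_zero.2 (zpow_ne_zero _ W_ne)

end

end Surf

end Pool.Agent.MLD.Ten
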