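import Pool.Agent.Lib.MP_f23696_ag.T.TvA1

/-!
The monomial filtration of `K₁ ⊗ K₂`, second part: the residue homomorphism of the monomial
valuation (module TVA of the project TEN).
-/

set_option autoImplicit false

open scoped TensorProduct

namespace Pool.Agent.MLD.Ten

open Pool.Agent.MLD.Jac

universe u v

section TVA
variable {k : Type u} {K₁ K₂ : Type v} [Field k] [Field K₁] [Field K₂]
    [Algebra k K₁] [Algebra k K₂] (v₁ : DVal k K₁) (v₂ : DVal k K₂) (w : ℕ)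

namespace TVA

section mono

theorem ord_mono {K : Type v} [Field K] [Algebra k K] (v : DVal k K) {n : ℕ} (x : Fin n → K)
    (hx : ∀ i, x i ≠ 0) (e : Fin n → ℕ) :
    (∏ i, x i ^ e i) ≠ 0 ∧ v.ord (∏ i, x i ^ e i) = ∑ i, (e i : ℤ) * v.ord (x i) := by
  refine ⟨Finset.prod_ne_zero_iff.2 fun i _ => pow_ne_zero _ (hx i), ?_⟩
  rw [ord_prod v _ _ fun i _ => pow_ne_zero _ (hx i)]
  exact Finset.sum_congr rfl fun i _ => ord_pow v _ (hx i) _

theorem ang_pow {K : Type v} [Field K] [Algebra k K] (v : DVal k K) (t : K) (ht : t ≠ 0)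
    (ht1 : v.ord t = 1) {a : K} (ha : a ≠ 0) (n : ℕ) : ang v t (a ^ n) = ang v t a ^ n := by
  induction n with
  | zero => rw [pow_zero, pow_zero, ang_one]
  | succ n ih => rw [pow_succ, ang_mul v t ht ht1 (pow_ne_zero _ ha) ha, ih, pow_succ]

theorem ang_mono {K : Type v} [Field K] [Algebra k K] (v : DVal k K) (t : K) (ht : t ≠ 0)
    (ht1 : v.ord t = 1) {n : ℕ} (x : Fin n → K)
    (hx : ∀ i, x i ≠ 0) (e : Fin n → ℕ) :
    ang v t (∏ i, x i ^ e i) = ∏ i, ang v t (x i) ^ e i := by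
  classical
  have key : ∀ s : Finset (Fin n), ang v t (∏ i ∈ s, x i ^ e i) = ∏ i ∈ s, ang v t (x i) ^ e i := by
    intro s
    induction s using Finset.induction_on with
    | empty => simp [ang_one]
    | insert a s ha ih =>
      rw [Finset.prod_insert ha, Finset.prod_insert ha, ang_mul v t ht ht1 (pow_ne_zero _ (hx a))
        (Finset.prod_ne_zero_iff.2 fun i _ => pow_ne_zero _ (hx i)), ih,
        ang_pow v t ht ht1 (hx a)]
  exact key _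

theorem prod_tmul_pow {n : ℕ} (x : Fin n → K₁) (y : Fin n → K₂) (e : Fin n → ℕ) :
    ∏ i, (x i ⊗ₜ[k] y i) ^ e i = (∏ i, x i ^ e i) ⊗ₜ[k] (∏ i, y i ^ e i) := by
  classical
  have key : ∀ s : Finset (Fin n), ∏ i ∈ s, (x i ⊗ₜ[k] y i) ^ e i =
      (∏ i ∈ s, x i ^ e i) ⊗ₜ[k] (∏ i ∈ s, y i ^ e i) := by
    intro s
    induction s using Finset.induction_on with
    | empty => simp; rfl
    | insert a s ha ih =>
      rw [Finset.prod_insert ha, Finset.prod_insert ha, Finset.prod_insert ha, ih,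
        Algebra.TensorProduct.tmul_pow, Algebra.TensorProduct.tmul_mul_tmul]
  exact key _

theorem indep_mono {κ : Type v} [Field κ] [Algebra k κ] {m : ℕ} (x : Fin m → κ)
    (hx : AlgebraicIndependent k x) :
    LinearIndependent k (fun e : Fin m →₀ ℕ => ∏ i, x i ^ e i) := by
  have h1 := (MvPolynomial.basisMonomials (Fin m) k).linearIndependent
  have h2 : LinearMap.ker (MvPolynomial.aeval x : MvPolynomial (Fin m) k →ₐ[k] κ).toLinearMap = ⊥ :=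
    LinearMap.ker_eq_bot.2 hx
  have h3 := h1.map' _ h2
  have e : (fun e : Fin m →₀ ℕ => ∏ i, x i ^ e i) =
      ⇑(MvPolynomial.aeval x : MvPolynomial (Fin m) k →ₐ[k] κ).toLinearMap ∘
        ⇑(MvPolynomial.basisMonomials (Fin m) k) := by
    funext e
    simp [MvPolynomial.aeval_monomial, Finsupp.prod_fintype]
  rw [e]
  exact h3

theorem indep_apply {ι V W : Type*} [AddCommMonoid V] [Module k V] [AddCommMonoid W] [Module k W]
    (Λ : V →ₗ[k] W) (M : ι → V) (T : ι → W) (hT : LinearIndependent k T)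
    (hM : ∀ e, Λ (M e) = T e) (s : Finset ι) (c : ι → k)
    (h0 : Λ (∑ e ∈ s, c e • M e) = 0) : ∀ e ∈ s, c e = 0 := by
  classical
  have h1 : Finsupp.linearCombination k T (∑ e ∈ s, Finsupp.single e (c e)) =
      Finsupp.linearCombination k T 0 := by
    rw [map_zero, map_sum, ← h0, map_sum]
    refine Finset.sum_congr rfl fun e _ => ?_
    rw [Finsupp.linearCombination_single, map_smul, hM]
  have h2 := hT h1
  intro e he
  have h3 := DFunLike.congr_fun h2 e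
  rw [Finsupp.finsetSum_apply, Finset.sum_eq_single e] at h3
  · simpa using h3
  · intro b _ hb
    exact Finsupp.single_eq_of_ne hb.symm
  · intro h
    exact absurd he h

/-- the coefficients, as a linear map -/
def coeffLin (S : Type v) [CommRing S] [Algebra k S] : AddMonoidAlgebra S ℤ →ₗ[k] (ℤ →₀ S) where
  toFun := fun x => x.coeff
  map_add' := fun _ _ => rfl
  map_smul' := fun _ _ => rfl

theorem single_indep (S : Type v) [CommRing S] [Algebra k S] {φ ι : Type*} (g : φ → S)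
    (hg : LinearIndependent k g) (ix : ι → ℤ × φ) (hix : Function.Injective ix) :
    LinearIndependent k (fun e : ι => (Finsupp.single (ix e).1 (g (ix e).2) : ℤ →₀ S)) := by
  have hS := Finsupp.linearIndependent_single (ι := ℤ) (φ := fun _ => φ)
    (f := fun _ (e : φ) => g e) (fun _ => hg)
  let J : ι → Σ _ : ℤ, φ := fun e => ⟨(ix e).1, (ix e).2⟩
  have h : Function.Injective J := by
    intro e e' he
    apply hix
    have h1 : (ix e).1 = (ix e').1 := congrArg Sigma.fst he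
    have h2 : (ix e).2 = (ix e').2 := congrArg (fun z : Σ _ : ℤ, φ => z.2) he
    exact Prod.ext h1 h2
  have h2 := hS.comp J h
  have e : (fun e : ι => (Finsupp.single (ix e).1 (g (ix e).2) : ℤ →₀ S)) =
      (fun ix : Σ _ : ℤ, φ => (Finsupp.single ix.1 (g ix.2) : ℤ →₀ S)) ∘ J := rfl
  rw [e]
  convert h2

end mono

section rho
variable (t₁ : K₁) (h₁ : t₁ ≠ 0) (ht₁ : v₁.ord t₁ = 1) (t₂ : K₂) (h₂ : t₂ ≠ 0)
  (ht₂ : v₂.ord t₂ = 1)

include h₁ ht₁ h₂ ht₂ in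
theorem rho_indep
    (ρ : Fil v₁ v₂ w 0 →ₗ[k] AddMonoidAlgebra (Res v₁ ⊗[k] Res v₂) ℤ)
    (hρ : ∀ (a : K₁) (b : K₂) (ha : a ≠ 0) (hb : b ≠ 0) (h : 0 ≤ w * v₁.ord a + v₂.ord b),
      ρ ⟨a ⊗ₜ[k] b, tmul_mem v₁ v₂ w ha hb h⟩ = gval v₁ v₂ w t₁ t₂ a b)
    (hk : ∀ f, ρ f = 0 ↔ (f : K₁ ⊗[k] K₂) ∈ Fil v₁ v₂ w 1)
    {m₁ m₂ : ℕ} (u₁ : Fin m₁ → K₁) (u₂ : Fin m₂ → K₂) (hu₁ : ∀ i, v₁.Integral (u₁ i))
    (hu₂ : ∀ i, v₂.Integral (u₂ i))
    (hi₁ : ∀ F : MvPolynomial (Fin m₁) k, F ≠ 0 → ¬ v₁.Small (MvPolynomial.aeval u₁ F))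
    (hi₂ : ∀ F : MvPolynomial (Fin m₂) k, F ≠ 0 → ¬ v₂.Small (MvPolynomial.aeval u₂ F))
    (F : MvPolynomial (Fin (m₁ + 1 + m₂)) k) (hF : F ≠ 0) :
    MvPolynomial.aeval (Fin.append (Fin.append (fun i => u₁ i ⊗ₜ[k] (1 : K₂))
            (fun _ : Fin 1 => t₁ ⊗ₜ[k] (t₂ ^ w)⁻¹)) (fun i => (1 : K₁) ⊗ₜ[k] u₂ i)) F ∉
            Fil v₁ v₂ w 1 := by
  classical
  -- the elements
  have hu₁0 : ∀ i, u₁ i ≠ 0 ∧ v₁.ord (u₁ i) = 0 := fun i => ord_eq_zero_of v₁ (hu₁ i) (by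
    have := hi₁ (MvPolynomial.X i) (MvPolynomial.X_ne_zero i)
    rwa [MvPolynomial.aeval_X] at this)
  have hu₂0 : ∀ i, u₂ i ≠ 0 ∧ v₂.ord (u₂ i) = 0 := fun i => ord_eq_zero_of v₂ (hu₂ i) (by
    have := hi₂ (MvPolynomial.X i) (MvPolynomial.X_ne_zero i)
    rwa [MvPolynomial.aeval_X] at this)
  let x : Fin (m₁ + 1 + m₂) → K₁ := Fin.append (Fin.append u₁ (fun _ : Fin 1 => t₁)) (fun _ => 1)
  let y : Fin (m₁ + 1 + m₂) → K₂ :=
    Fin.append (Fin.append (fun _ => 1) (fun _ : Fin 1 => (t₂ ^ w)⁻¹)) u₂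
  have hg : (Fin.append (Fin.append (fun i => u₁ i ⊗ₜ[k] (1 : K₂))
            (fun _ : Fin 1 => t₁ ⊗ₜ[k] (t₂ ^ w)⁻¹)) (fun i => (1 : K₁) ⊗ₜ[k] u₂ i)) =
      fun i => x i ⊗ₜ[k] y i := by
    funext i
    refine Fin.addCases (fun i => ?_) (fun i => ?_) i
    · refine Fin.addCases (fun i => ?_) (fun i => ?_) i
      · simp [x, y, Fin.append_left]
      · simp [x, y, Fin.append_left, Fin.append_right]
    · simp [x, y, Fin.append_right]
  have hx0 : ∀ i, x i ≠ 0 := by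
    intro i
    refine Fin.addCases (motive := fun i => x i ≠ 0) (fun i => ?_) (fun i => ?_) i
    · refine Fin.addCases (motive := fun i => x (Fin.castAdd m₂ i) ≠ 0) (fun i => ?_)
        (fun i => ?_) i
      · simpa [x, Fin.append_left] using (hu₁0 i).1
      · simpa [x, Fin.append_left, Fin.append_right] using h₁
    · simp [x, Fin.append_right]
  have hy0 : ∀ i, y i ≠ 0 := by
    intro i
    refine Fin.addCases (motive := fun i => y i ≠ 0) (fun i => ?_) (fun i => ?_) i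
    · refine Fin.addCases (motive := fun i => y (Fin.castAdd m₂ i) ≠ 0) (fun i => ?_)
        (fun i => ?_) i
      · simp [y, Fin.append_left]
      · simpa [y, Fin.append_left, Fin.append_right] using pow_ne_zero w h₂
    · simpa [y, Fin.append_right] using (hu₂0 i).1
  have ht₂w : v₂.ord ((t₂ ^ w)⁻¹) = -w := by
    rw [ord_inv v₂ _ (pow_ne_zero _ h₂), ord_pow v₂ t₂ h₂, ht₂, mul_one]
  let mid : Fin (m₁ + 1 + m₂) := Fin.castAdd m₂ (Fin.natAdd m₁ (0 : Fin 1))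
  have hox : ∀ e : Fin (m₁ + 1 + m₂) → ℕ, v₁.ord (∏ i, x i ^ e i) = e mid := by
    intro e
    rw [(ord_mono v₁ x hx0 e).2, Fin.sum_univ_add, Fin.sum_univ_add]
    simp [x, Fin.append_left, Fin.append_right, (hu₁0 _).2, ht₁, ord_one, mid]
  have hoy : ∀ e : Fin (m₁ + 1 + m₂) → ℕ, v₂.ord (∏ i, y i ^ e i) = -(w * e mid) := by
    intro e
    rw [(ord_mono v₂ y hy0 e).2, Fin.sum_univ_add, Fin.sum_univ_add]
    simp [y, Fin.append_left, Fin.append_right, (hu₂0 _).2, ht₂w, ord_one, mid]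
    ring
  -- angular components
  have hangt : ang v₁ t₁ t₁ = 1 := by
    unfold ang
    rw [ht₁, zpow_neg, zpow_one, mul_inv_cancel₀ h₁, rr_one]
  have hangt2 : ang v₂ t₂ ((t₂ ^ w)⁻¹) = 1 := by
    unfold ang
    rw [ht₂w, neg_neg, zpow_natCast, inv_mul_cancel₀ (pow_ne_zero _ h₂), rr_one]
  have hax : ∀ e : Fin (m₁ + 1 + m₂) → ℕ, ang v₁ t₁ (∏ i, x i ^ e i) =
      ∏ i : Fin m₁, rr v₁ (u₁ i) ^ e (Fin.castAdd m₂ (Fin.castAdd 1 i)) := by
    intro e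
    rw [ang_mono v₁ t₁ h₁ ht₁ x hx0, Fin.prod_univ_add, Fin.prod_univ_add]
    simp [x, Fin.append_left, Fin.append_right, hangt, ang_one, ang_of_ord v₁ t₁ (hu₁0 _).2]
  have hay : ∀ e : Fin (m₁ + 1 + m₂) → ℕ, ang v₂ t₂ (∏ i, y i ^ e i) =
      ∏ i : Fin m₂, rr v₂ (u₂ i) ^ e (Fin.natAdd (m₁ + 1) i) := by
    intro e
    rw [ang_mono v₂ t₂ h₂ ht₂ y hy0, Fin.prod_univ_add, Fin.prod_univ_add]
    simp [y, Fin.append_left, Fin.append_right, hangt2, ang_one, ang_of_ord v₂ t₂ (hu₂0 _).2]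
  -- linear independence
  have hA₁ : AlgebraicIndependent k (fun i => rr v₁ (u₁ i)) := by
    have := (indep_res_iff v₁ (fun i => (⟨u₁ i, hu₁ i⟩ : ring v₁))).2 hi₁
    have e : (fun i => rr v₁ (u₁ i)) = fun i => res v₁ ⟨u₁ i, hu₁ i⟩ :=
      funext fun i => rr_of v₁ (hu₁ i)
    rw [e]
    exact this
  have hA₂ : AlgebraicIndependent k (fun i => rr v₂ (u₂ i)) := by
    have := (indep_res_iff v₂ (fun i => (⟨u₂ i, hu₂ i⟩ : ring v₂))).2 hi₂
    have e : (fun i => rr v₂ (u₂ i)) = fun i => res v₂ ⟨u₂ i, hu₂ i⟩ :=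
      funext fun i => rr_of v₂ (hu₂ i)
    rw [e]
    exact this
  have hL := LinearIndependent.tmul_of_isDomain (indep_mono _ hA₁) (indep_mono _ hA₂)
  let ix : (Fin (m₁ + 1 + m₂) →₀ ℕ) → ℤ × ((Fin m₁ →₀ ℕ) × (Fin m₂ →₀ ℕ)) := fun e =>
    ((e mid : ℤ), (Finsupp.equivFunOnFinite.symm fun i => e (Fin.castAdd m₂ (Fin.castAdd 1 i)),
      Finsupp.equivFunOnFinite.symm fun i => e (Fin.natAdd (m₁ + 1) i)))
  have hix : Function.Injective ix := by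
    intro e e' h
    have h1 : (e mid : ℤ) = e' mid := congrArg Prod.fst h
    have h2 := congrArg (fun z : ℤ × ((Fin m₁ →₀ ℕ) × (Fin m₂ →₀ ℕ)) => z.2.1) h
    have h3 := congrArg (fun z : ℤ × ((Fin m₁ →₀ ℕ) × (Fin m₂ →₀ ℕ)) => z.2.2) h
    ext i
    refine Fin.addCases (motive := fun i => e i = e' i) (fun i => ?_) (fun i => ?_) i
    · refine Fin.addCases (motive := fun i => e (Fin.castAdd m₂ i) = e' (Fin.castAdd m₂ i))
        (fun i => ?_) (fun i => ?_) i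
      · exact DFunLike.congr_fun h2 i
      · have : i = 0 := Subsingleton.elim _ _
        subst this
        exact_mod_cast h1
    · exact DFunLike.congr_fun h3 i
  have hT := single_indep (Res v₁ ⊗[k] Res v₂) _ hL ix hix
  intro hmem
  have hmem0 := fil_anti v₁ v₂ w (show (0 : ℤ) ≤ 1 by norm_num) hmem
  have hmonom : ∀ e : Fin (m₁ + 1 + m₂) → ℕ, 0 ≤ w * v₁.ord (∏ i, x i ^ e i) +
      v₂.ord (∏ i, y i ^ e i) := by
    intro e
    rw [hox, hoy]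
    simp
  let M : (Fin (m₁ + 1 + m₂) →₀ ℕ) → Fil v₁ v₂ w 0 := fun e =>
    ⟨(∏ i, x i ^ e i) ⊗ₜ[k] (∏ i, y i ^ e i), tmul_mem v₁ v₂ w (ord_mono v₁ x hx0 e).1
      (ord_mono v₂ y hy0 e).1 (hmonom e)⟩
  have hFM : (⟨MvPolynomial.aeval (Fin.append (Fin.append (fun i => u₁ i ⊗ₜ[k] (1 : K₂))
            (fun _ : Fin 1 => t₁ ⊗ₜ[k] (t₂ ^ w)⁻¹)) (fun i => (1 : K₁) ⊗ₜ[k] u₂ i)) F, hmem0⟩ :
            Fil v₁ v₂ w 0) = ∑ e ∈ F.support, MvPolynomial.coeff e F • M e := by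
    apply Subtype.ext
    rw [AddSubmonoidClass.coe_finsetSum]
    show MvPolynomial.aeval _ F = _
    rw [hg, MvPolynomial.aeval_def, MvPolynomial.eval₂_eq']
    refine Finset.sum_congr rfl fun e _ => ?_
    rw [Submodule.coe_smul, prod_tmul_pow, Algebra.smul_def]
  have h0 := (hk ⟨_, hmem0⟩).2 hmem
  rw [hFM] at h0
  have h3 := indep_apply ((coeffLin (Res v₁ ⊗[k] Res v₂)).comp ρ) M _ hT (by
    intro e
    show (ρ (M e)).coeff = _
    rw [hρ _ _ (ord_mono v₁ x hx0 e).1 (ord_mono v₂ y hy0 e).1 (hmonom e)]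
    unfold gval
    rw [hox, hoy, if_pos (by ring), hax, hay, AddMonoidAlgebra.coeff_single]
    rfl) F.support (fun e => MvPolynomial.coeff e F) (by
    rw [LinearMap.comp_apply, h0, LinearMap.map_zero])
  obtain ⟨e, he⟩ := MvPolynomial.support_nonempty.2 hF
  exact MvPolynomial.mem_support_iff.1 he (h3 e he)

end rho

end TVA

open TVA

/-- the residue homomorphism of the monomial valuation -/
theorem exists_rho [IsAlgClosed k] (hw : 1 ≤ w) (t₁ : K₁) (h₁ : t₁ ≠ 0) (ht₁ : v₁.ord t₁ = 1)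
    (t₂ : K₂) (h₂ : t₂ ≠ 0) (ht₂ : v₂.ord t₂ = 1) :
    ∃ (R : Type v) (_ : CommRing R) (_ : IsDomain R) (_ : Algebra k R)
      (ρ : Fil v₁ v₂ w 0 →ₗ[k] R),
      (∀ f g h : Fil v₁ v₂ w 0, (h : K₁ ⊗[k] K₂) = f * g → ρ h = ρ f * ρ g) ∧
      (∀ f, ρ f = 0 ↔ (f : K₁ ⊗[k] K₂) ∈ Fil v₁ v₂ w 1) ∧
      ∀ {m₁ m₂ : ℕ} (u₁ : Fin m₁ → K₁) (u₂ : Fin m₂ → K₂), (∀ i, v₁.Integral (u₁ i)) →
        (∀ i, v₂.Integral (u₂ i)) →
        (∀ F : MvPolynomial (Fin m₁) k, F ≠ 0 → ¬ v₁.Small (MvPolynomial.aeval u₁ F)) →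
        (∀ F : MvPolynomial (Fin m₂) k, F ≠ 0 → ¬ v₂.Small (MvPolynomial.aeval u₂ F)) →
        ∀ F : MvPolynomial (Fin (m₁ + 1 + m₂)) k, F ≠ 0 →
          MvPolynomial.aeval (Fin.append (Fin.append (fun i => u₁ i ⊗ₜ[k] (1 : K₂))
            (fun _ : Fin 1 => t₁ ⊗ₜ[k] (t₂ ^ w)⁻¹)) (fun i => (1 : K₁) ⊗ₜ[k] u₂ i)) F ∉
            Fil v₁ v₂ w 1 := by
  obtain ⟨ρ, hρ⟩ := exists_lin v₁ v₂ w t₁ h₁ ht₁ t₂ h₂ ht₂ hw
  have hk := ker_rho v₁ v₂ w t₁ h₁ ht₁ t₂ h₂ ht₂ hw ρ hρ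
  have hD : IsDomain (Res v₁ ⊗[k] Res v₂) := tensor_isDomain _ _
  have hD' : IsDomain (AddMonoidAlgebra (Res v₁ ⊗[k] Res v₂) ℤ) :=
    NoZeroDivisors.to_isDomain (AddMonoidAlgebra (Res v₁ ⊗[k] Res v₂) ℤ)
  refine ⟨AddMonoidAlgebra (Res v₁ ⊗[k] Res v₂) ℤ, inferInstance, hD', inferInstance, ρ, ?_, hk,
    ?_⟩
  · intro f g h hh
    have hfg : (f : K₁ ⊗[k] K₂) * g ∈ Fil v₁ v₂ w 0 := by rw [← hh]; exact h.2
    have e : h = ⟨(f : K₁ ⊗[k] K₂) * g, hfg⟩ := Subtype.ext hh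
    rw [e]
    exact rho_mul v₁ v₂ w t₁ h₁ ht₁ t₂ h₂ ht₂ ρ hρ f g f.2 g.2 hfg
  · intro m₁ m₂ u₁ u₂ hu₁ hu₂ hi₁ hi₂ F hF
    exact rho_indep v₁ v₂ w t₁ h₁ ht₁ t₂ h₂ ht₂ ρ hρ hk u₁ u₂ hu₁ hu₂ hi₁ hi₂ F hF

end TVA

end Pool.Agent.MLD.Ten
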