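import Pool.Agent.Lib.MP_f23696_ag.T.Val
import Pool.Agent.Lib.MP_f23696_ag.T.Ev

/-!
The monomial filtration of `K₁ ⊗ K₂` and the residue homomorphism of the monomial valuation
(module TVA of the project TEN).
-/

set_option autoImplicit false

open scoped TensorProduct

namespace Pool.Agent.MLD.Ten

open Pool.Agent.MLD.Jac

universe u v

section TVA
variable {k : Type u} {K₁ K₂ : Type v} [Field k] [Field K₁] [Field K₂]
    [Algebra k K₁] [Algebra k K₂] (v₁ : DVal k K₁) (v₂ : DVal k K₂) (w : ℕ)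

theorem fil_anti {N M : ℤ} (h : N ≤ M) : Fil v₁ v₂ w M ≤ Fil v₁ v₂ w N := by
  apply Submodule.span_mono
  rintro x ⟨a, b, ha, hb, hN, rfl⟩
  exact ⟨a, b, ha, hb, h.trans hN, rfl⟩

theorem fil_mul {N M : ℤ} {f g : K₁ ⊗[k] K₂} (hf : f ∈ Fil v₁ v₂ w N) (hg : g ∈ Fil v₁ v₂ w M) :
    f * g ∈ Fil v₁ v₂ w (N + M) := by
  have h := Submodule.mul_mem_mul hf hg
  unfold Fil at h
  rw [Submodule.span_mul_span] at h
  refine Submodule.span_mono ?_ h
  rintro x ⟨y, ⟨a, b, ha, hb, hN, rfl⟩, z, ⟨a', b', ha', hb', hN', rfl⟩, rfl⟩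
  refine ⟨a * a', b * b', mul_ne_zero ha ha', mul_ne_zero hb hb', ?_, ?_⟩
  · rw [v₁.ord_mul _ _ ha ha', v₂.ord_mul _ _ hb hb', mul_add]
    linarith
  · simp

namespace TVA

theorem tmul_mem {a : K₁} {b : K₂} (ha : a ≠ 0) (hb : b ≠ 0) {N : ℤ}
    (h : N ≤ w * v₁.ord a + v₂.ord b) : a ⊗ₜ[k] b ∈ Fil v₁ v₂ w N :=
  Submodule.subset_span ⟨a, b, ha, hb, h, rfl⟩

/-- lower bounds form a subspace -/
def VV {K : Type v} [Field K] [Algebra k K] (v : DVal k K) (α : ℤ) : Submodule k K where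
  carrier := {a | LB v α a}
  zero_mem' := LB.zero v α
  add_mem' := fun ha hb => LB.add ha hb
  smul_mem' := fun c _ ha => LB_smul v c ha

theorem mem_VV {K : Type v} [Field K] [Algebra k K] (v : DVal k K) (α : ℤ) (a : K) :
    a ∈ VV v α ↔ LB v α a := Iff.rfl

/-- An element with all lower bounds is zero. -/
theorem eq_zero_of_LB {K : Type v} [Field K] [Algebra k K] (v : DVal k K) (a : K)
    (h : ∀ N : ℕ, ∃ M : ℤ, (N : ℤ) ≤ M ∧ LB v M a) : a = 0 := by
  by_contra ha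
  obtain ⟨M, hM, hL⟩ := h (v.ord a + 1).toNat
  have h1 := hL ha
  have h2 := Int.self_le_toNat (v.ord a + 1)
  omega

/-- A finite-dimensional subspace meets `{v ≥ α}` in `0` for large `α`. -/
theorem exists_disjoint {K : Type v} [Field K] [Algebra k K] (v : DVal k K) (V : Submodule k K)
    [Module.Finite k V] : ∃ α : ℤ, V ⊓ VV v α = ⊥ := by
  let S : ℕ →o (Submodule k V)ᵒᵈ :=
    ⟨fun n => OrderDual.toDual ((VV v (n : ℤ)).comap V.subtype), by
      intro n m hnm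
      show (VV v (m : ℤ)).comap V.subtype ≤ (VV v (n : ℤ)).comap V.subtype
      apply Submodule.comap_mono
      intro a ha
      exact LB.mono ha (by exact_mod_cast hnm)⟩
  obtain ⟨n, hn⟩ := IsArtinian.monotone_stabilizes S
  refine ⟨n, ?_⟩
  rw [Submodule.eq_bot_iff]
  rintro a ⟨ha, han⟩
  apply eq_zero_of_LB v a
  intro N
  refine ⟨(max n N : ℕ), by exact_mod_cast le_max_right n N, ?_⟩
  have h1 := hn (max n N) (le_max_left _ _)
  have h2 : (⟨a, ha⟩ : V) ∈ (VV v (n : ℤ)).comap V.subtype := han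
  have h3 : (VV v (n : ℤ)).comap V.subtype = (VV v ((max n N : ℕ) : ℤ)).comap V.subtype := h1
  rw [h3] at h2
  exact h2

end TVA

open TVA

theorem fil_exists (f : K₁ ⊗[k] K₂) : ∃ N, f ∈ Fil v₁ v₂ w N := by
  induction f with
  | zero => exact ⟨0, Submodule.zero_mem _⟩
  | add x y hx hy =>
    obtain ⟨N, hN⟩ := hx
    obtain ⟨M, hM⟩ := hy
    exact ⟨min N M, Submodule.add_mem _ (fil_anti v₁ v₂ w (min_le_left _ _) hN)
      (fil_anti v₁ v₂ w (min_le_right _ _) hM)⟩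
  | tmul a b =>
    rcases eq_or_ne a 0 with rfl | ha
    · exact ⟨0, by rw [TensorProduct.zero_tmul]; exact Submodule.zero_mem _⟩
    rcases eq_or_ne b 0 with rfl | hb
    · exact ⟨0, by rw [TensorProduct.tmul_zero]; exact Submodule.zero_mem _⟩
    exact ⟨_, tmul_mem v₁ v₂ w ha hb le_rfl⟩

theorem fil_sep (f : K₁ ⊗[k] K₂) (hf : f ≠ 0) : ∃ N, f ∉ Fil v₁ v₂ w N := by
  by_contra hall
  push Not at hall
  apply hf
  obtain ⟨V, hV, hfV⟩ := TensorProduct.exists_finite_submodule_left_of_setFinite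
    ({f} : Set (K₁ ⊗[k] K₂)) (Set.finite_singleton f)
  obtain ⟨f', hf'⟩ := hfV rfl
  obtain ⟨α, hα⟩ := exists_disjoint v₁ V
  have hker : LinearMap.ker ((VV v₁ α).mkQ ∘ₗ V.subtype) = ⊥ := by
    rw [Submodule.eq_bot_iff]
    rintro ⟨a, ha⟩ h
    rw [LinearMap.mem_ker] at h
    have h1 : a ∈ VV v₁ α := by
      rw [← Submodule.Quotient.mk_eq_zero]
      exact h
    have h2 : a ∈ V ⊓ VV v₁ α := ⟨ha, h1⟩
    rw [hα] at h2
    exact Subtype.ext h2
  obtain ⟨g, hg⟩ := LinearMap.exists_leftInverse_of_injective _ hker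
  let π : K₁ →ₗ[k] V := g ∘ₗ (VV v₁ α).mkQ
  have hπV : π ∘ₗ V.subtype = LinearMap.id := hg
  have hπ0 : ∀ a, LB v₁ α a → π a = 0 := by
    intro a ha
    have : (VV v₁ α).mkQ a = 0 := by
      rw [Submodule.mkQ_apply, Submodule.Quotient.mk_eq_zero]
      exact ha
    show g ((VV v₁ α).mkQ a) = 0
    rw [this, map_zero]
  have hf2 : π.rTensor K₂ f = f' := by
    rw [← hf', ← LinearMap.comp_apply, ← LinearMap.rTensor_comp, hπV, LinearMap.rTensor_id,
      LinearMap.id_apply]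
  let bs := Module.finBasis k V
  have key : ∀ (N : ℤ) (x : K₁ ⊗[k] K₂), x ∈ Fil v₁ v₂ w N → ∀ i,
      LB v₂ (N - w * α) (TensorProduct.equivFinsuppOfBasisLeft (N := K₂) bs (π.rTensor K₂ x) i) := by
    intro N x hx i
    induction hx using Submodule.span_induction with
    | mem x hx =>
      obtain ⟨a, b, ha, hb, hN, rfl⟩ := hx
      rw [LinearMap.rTensor_tmul, TensorProduct.equivFinsuppOfBasisLeft_apply_tmul_apply]
      by_cases h : α ≤ v₁.ord a
      · rw [hπ0 a fun _ => h]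
        simp only [map_zero, Finsupp.coe_zero, Pi.zero_apply, zero_smul]
        exact LB.zero _ _
      · push Not at h
        apply LB_smul
        intro _
        have : (w : ℤ) * v₁.ord a ≤ w * α := mul_le_mul_of_nonneg_left h.le (Int.natCast_nonneg w)
        linarith
    | zero =>
      rw [map_zero, map_zero]
      exact LB.zero _ _
    | add x y _ _ hx hy =>
      rw [map_add, map_add, Finsupp.add_apply]
      exact hx.add hy
    | smul c x _ hx =>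
      rw [map_smul, map_smul, Finsupp.smul_apply]
      exact LB_smul v₂ c hx
  have hz : f' = 0 := by
    apply (TensorProduct.equivFinsuppOfBasisLeft (N := K₂) bs).injective
    rw [map_zero]
    ext i
    rw [Finsupp.zero_apply, ← hf2]
    apply eq_zero_of_LB v₂
    intro N
    exact ⟨N, le_rfl, by
      have := key (N + w * α) f (hall _) i
      rwa [add_sub_cancel_right] at this⟩
  rw [← hf', hz, map_zero]

namespace TVA

/-- the residue map, extended by zero -/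
noncomputable def rr {K : Type v} [Field K] [Algebra k K] (v : DVal k K) (a : K) : Res v :=
  open Classical in if h : v.Integral a then res v ⟨a, h⟩ else 0

section rr
variable {K : Type v} [Field K] [Algebra k K] (v : DVal k K)

theorem rr_of {a : K} (h : v.Integral a) : rr v a = res v ⟨a, h⟩ := dif_pos h

theorem rr_add {a b : K} (ha : v.Integral a) (hb : v.Integral b) :
    rr v (a + b) = rr v a + rr v b := by
  have h : v.Integral (a + b) := LB.add (v := v) (N := 0) ha hb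
  rw [rr_of v ha, rr_of v hb, rr_of v h, ← map_add]
  rfl

theorem rr_mul {a b : K} (ha : v.Integral a) (hb : v.Integral b) :
    rr v (a * b) = rr v a * rr v b := by
  have h : v.Integral (a * b) := by
    have := LB.mul (v := v) (M := 0) (N := 0) ha hb
    rwa [add_zero] at this
  rw [rr_of v ha, rr_of v hb, rr_of v h, ← map_mul]
  rfl

theorem rr_smul (c : k) {a : K} (ha : v.Integral a) : rr v (c • a) = c • rr v a := by
  have h : v.Integral (c • a) := LB_smul v c ha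
  rw [rr_of v ha, rr_of v h, ← map_smul]
  rfl

theorem rr_small {a : K} (ha : v.Small a) : rr v a = 0 := by
  have h : v.Integral a := fun h0 => (ha h0).le
  rw [rr_of v h, res_eq_zero]
  exact ha

theorem rr_one : rr v 1 = 1 := by
  have h : v.Integral 1 := fun _ => by rw [ord_one]
  rw [rr_of v h]
  exact map_one (res v)

theorem rr_eq_zero {a : K} (h : v.Integral a) : rr v a = 0 ↔ v.Small a := by
  rw [rr_of v h, res_eq_zero]

variable (t : K) (ht : t ≠ 0) (ht1 : v.ord t = 1)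

include ht ht1 in
theorem ord_shift {a : K} (ha : a ≠ 0) (α : ℤ) : v.ord (a * t ^ (-α)) = v.ord a - α := by
  rw [v.ord_mul _ _ ha (zpow_ne_zero _ ht), ord_zpow v t ht, ht1]
  ring

include ht ht1 in
theorem LB_shift {a : K} {N : ℤ} (ha : LB v N a) (α : ℤ) : LB v (N - α) (a * t ^ (-α)) := by
  intro h0
  have ha0 := left_ne_zero_of_mul h0
  rw [ord_shift v t ht ht1 ha0]
  have := ha ha0
  omega

include ht ht1 in
/-- a linear extension of `{v ≥ α} → κ`, `a ↦ res (a / t^α)` -/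
theorem exists_pr (α : ℤ) : ∃ p : K →ₗ[k] Res v, ∀ a, LB v α a → p a = rr v (a * t ^ (-α)) := by
  have hI : ∀ a, LB v α a → v.Integral (a * t ^ (-α)) := by
    intro a ha
    have := LB_shift v t ht ht1 ha α
    rwa [sub_self] at this
  let q : VV v α →ₗ[k] Res v :=
    { toFun := fun a => rr v ((a : K) * t ^ (-α))
      map_add' := by
        intro a b
        rw [Submodule.coe_add, add_mul, rr_add v (hI _ a.2) (hI _ b.2)]
      map_smul' := by
        intro c a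
        rw [Submodule.coe_smul, smul_mul_assoc, rr_smul v c (hI _ a.2)]
        rfl }
  obtain ⟨p, hp⟩ := LinearMap.exists_extend q
  refine ⟨p, fun a ha => ?_⟩
  have := congrArg (fun f => f ⟨a, ha⟩) hp
  exact this

/-- the angular component -/
noncomputable def ang (a : K) : Res v := rr v (a * t ^ (-v.ord a))

include ht ht1 in
theorem ang_int {a : K} (ha : a ≠ 0) : v.Integral (a * t ^ (-v.ord a)) := by
  intro _
  rw [ord_shift v t ht ht1 ha, sub_self]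

include ht ht1 in
theorem ang_mul {a b : K} (ha : a ≠ 0) (hb : b ≠ 0) :
    ang v t (a * b) = ang v t a * ang v t b := by
  unfold ang
  rw [← rr_mul v (ang_int v t ht ht1 ha) (ang_int v t ht ht1 hb), v.ord_mul _ _ ha hb]
  congr 1
  rw [neg_add, zpow_add₀ ht]
  ring

theorem ang_one : ang v t 1 = 1 := by
  unfold ang
  rw [ord_one, neg_zero, zpow_zero, one_mul, rr_one]

theorem ang_of_ord {a : K} (h : v.ord a = 0) : ang v t a = rr v a := by
  unfold ang
  rw [h, neg_zero, zpow_zero, mul_one]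

include ht ht1 in
theorem pr_val {α : ℤ} {p : K →ₗ[k] Res v} (hp : ∀ a, LB v α a → p a = rr v (a * t ^ (-α)))
    {a : K} (ha : a ≠ 0) (h : α ≤ v.ord a) : p a = if v.ord a = α then ang v t a else 0 := by
  rw [hp a fun _ => h]
  split_ifs with h1
  · unfold ang
    rw [h1]
  · apply rr_small
    intro _
    rw [ord_shift v t ht ht1 ha]
    omega

end rr

section rho
variable (t₁ : K₁) (h₁ : t₁ ≠ 0) (ht₁ : v₁.ord t₁ = 1) (t₂ : K₂) (h₂ : t₂ ≠ 0)
  (ht₂ : v₂.ord t₂ = 1)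

/-- the value of `ρ` at a pure tensor -/
noncomputable def gval (a : K₁) (b : K₂) : AddMonoidAlgebra (Res v₁ ⊗[k] Res v₂) ℤ :=
  if w * v₁.ord a + v₂.ord b = 0 then
    AddMonoidAlgebra.single (v₁.ord a) (ang v₁ t₁ a ⊗ₜ[k] ang v₂ t₂ b) else 0

include h₁ ht₁ h₂ ht₂ in
/-- the linear map `ρ` -/
theorem exists_lin (hw : 1 ≤ w) : ∃ ρ : Fil v₁ v₂ w 0 →ₗ[k] AddMonoidAlgebra (Res v₁ ⊗[k] Res v₂) ℤ,
    ∀ (a : K₁) (b : K₂) (ha : a ≠ 0) (hb : b ≠ 0) (h : 0 ≤ w * v₁.ord a + v₂.ord b),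
      ρ ⟨a ⊗ₜ[k] b, tmul_mem v₁ v₂ w ha hb h⟩ = gval v₁ v₂ w t₁ t₂ a b := by
  choose p1 hp1 using exists_pr v₁ t₁ h₁ ht₁
  choose p2 hp2 using exists_pr v₂ t₂ h₂ ht₂
  let P : ℤ → (K₁ ⊗[k] K₂ →ₗ[k] Res v₁ ⊗[k] Res v₂) := fun α =>
    TensorProduct.map (p1 α) (p2 (-(w * α)))
  have hP : ∀ (α : ℤ) (a : K₁) (b : K₂), a ≠ 0 → b ≠ 0 → 0 ≤ w * v₁.ord a + v₂.ord b →
      P α (a ⊗ₜ[k] b) = (gval v₁ v₂ w t₁ t₂ a b).coeff α := by
    intro α a b ha hb h
    show p1 α a ⊗ₜ[k] p2 (-(w * α)) b = _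
    have hw' : (1 : ℤ) ≤ w := by exact_mod_cast hw
    rcases lt_trichotomy (v₁.ord a) α with hlt | heq | hgt
    · -- second factor vanishes
      have hb1 : -(w * α) < v₂.ord b := by nlinarith
      rw [pr_val v₂ t₂ h₂ ht₂ (hp2 _) hb hb1.le, if_neg hb1.ne', TensorProduct.tmul_zero]
      unfold gval
      split_ifs with h0
      · rw [AddMonoidAlgebra.coeff_single, Finsupp.single_eq_of_ne (by omega)]
      · simp
    · have hb1 : -(w * α) ≤ v₂.ord b := by rw [← heq]; linarith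
      rw [pr_val v₁ t₁ h₁ ht₁ (hp1 _) ha heq.ge, if_pos heq,
        pr_val v₂ t₂ h₂ ht₂ (hp2 _) hb hb1]
      unfold gval
      subst heq
      by_cases h0 : w * v₁.ord a + v₂.ord b = 0
      · rw [if_pos h0, if_pos (by linarith), AddMonoidAlgebra.coeff_single,
          Finsupp.single_eq_same]
      · rw [if_neg h0, if_neg (fun h' => h0 (by linarith)), TensorProduct.tmul_zero]
        simp
    · rw [pr_val v₁ t₁ h₁ ht₁ (hp1 _) ha hgt.le, if_neg hgt.ne', TensorProduct.zero_tmul]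
      unfold gval
      split_ifs with h0
      · rw [AddMonoidAlgebra.coeff_single, Finsupp.single_eq_of_ne (by omega)]
      · simp
  have hex : ∀ x : K₁ ⊗[k] K₂, x ∈ Fil v₁ v₂ w 0 →
      ∃ y : AddMonoidAlgebra (Res v₁ ⊗[k] Res v₂) ℤ, ∀ α, P α x = y.coeff α := by
    intro x hx
    induction hx using Submodule.span_induction with
    | mem x hx =>
      obtain ⟨a, b, ha, hb, hN, rfl⟩ := hx
      exact ⟨_, fun α => hP α a b ha hb hN⟩
    | zero => exact ⟨0, fun α => by rw [LinearMap.map_zero]; rfl⟩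
    | add x y _ _ hx hy =>
      obtain ⟨x', hx'⟩ := hx
      obtain ⟨y', hy'⟩ := hy
      exact ⟨x' + y', fun α => by rw [map_add, hx', hy']; rfl⟩
    | smul c x _ hx =>
      obtain ⟨x', hx'⟩ := hx
      exact ⟨c • x', fun α => by rw [map_smul, hx']; rfl⟩
  choose! F hF using hex
  refine ⟨{ toFun := fun x => F x
            map_add' := ?_
            map_smul' := ?_ }, ?_⟩
  · intro x y
    apply AddMonoidAlgebra.coeff_injective
    ext α
    rw [← hF _ (x + y).2, Submodule.coe_add, map_add, hF _ x.2, hF _ y.2]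
    rfl
  · intro c x
    apply AddMonoidAlgebra.coeff_injective
    ext α
    rw [← hF _ (c • x).2, Submodule.coe_smul, map_smul, hF _ x.2]
    rfl
  · intro a b ha hb h
    apply AddMonoidAlgebra.coeff_injective
    ext α
    show (F (a ⊗ₜ[k] b)).coeff α = _
    rw [← hF _ (tmul_mem v₁ v₂ w ha hb h), hP α a b ha hb h]

include h₁ ht₁ h₂ ht₂ in
theorem gval_mul {a a' : K₁} {b b' : K₂} (ha : a ≠ 0) (ha' : a' ≠ 0) (hb : b ≠ 0) (hb' : b' ≠ 0)
    (h : 0 ≤ w * v₁.ord a + v₂.ord b) (h' : 0 ≤ w * v₁.ord a' + v₂.ord b') :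
    gval v₁ v₂ w t₁ t₂ (a * a') (b * b') =
      gval v₁ v₂ w t₁ t₂ a b * gval v₁ v₂ w t₁ t₂ a' b' := by
  unfold gval
  rw [v₁.ord_mul _ _ ha ha', v₂.ord_mul _ _ hb hb', mul_add]
  by_cases h0 : w * v₁.ord a + v₂.ord b = 0
  · by_cases h1 : w * v₁.ord a' + v₂.ord b' = 0
    · rw [if_pos (by linarith), if_pos h0, if_pos h1, AddMonoidAlgebra.single_mul_single,
        Algebra.TensorProduct.tmul_mul_tmul, ang_mul v₁ t₁ h₁ ht₁ ha ha',
        ang_mul v₂ t₂ h₂ ht₂ hb hb']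
    · rw [if_neg (fun h' => h1 (by linarith)), if_neg h1, mul_zero]
  · rw [if_neg (fun h' => h0 (by linarith)), if_neg h0, zero_mul]

theorem tmul_mem' {a : K₁} {b : K₂} {α β N : ℤ} (ha : LB v₁ α a) (hb : LB v₂ β b)
    (h : N ≤ w * α + β) : a ⊗ₜ[k] b ∈ Fil v₁ v₂ w N := by
  rcases eq_or_ne a 0 with rfl | ha0
  · rw [TensorProduct.zero_tmul]; exact Submodule.zero_mem _
  rcases eq_or_ne b 0 with rfl | hb0
  · rw [TensorProduct.tmul_zero]; exact Submodule.zero_mem _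
  apply tmul_mem v₁ v₂ w ha0 hb0
  have h1 := mul_le_mul_of_nonneg_left (ha ha0) (Int.natCast_nonneg w)
  have h2 := hb hb0
  linarith

/-- a linear section of the residue map -/
theorem exists_sec {K : Type v} [Field K] [Algebra k K] (v : DVal k K) :
    ∃ s : Res v →ₗ[k] K, ∀ x, v.Integral (s x) ∧ rr v (s x) = x := by
  have hsurj : LinearMap.range (res v).toLinearMap = ⊤ :=
    LinearMap.range_eq_top.2 (res_surjective v)
  obtain ⟨g, hg⟩ := LinearMap.exists_rightInverse_of_surjective _ hsurj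
  refine ⟨(ring v).val.toLinearMap ∘ₗ g, fun x => ?_⟩
  have hI : v.Integral ((g x : ring v) : K) := (g x).2
  refine ⟨hI, ?_⟩
  have := congrArg (fun f => f x) hg
  show rr v ((g x : ring v) : K) = x
  rw [rr_of v hI]
  exact this

theorem sec_small {K : Type v} [Field K] [Algebra k K] (v : DVal k K) (t : K) (ht : t ≠ 0)
    (ht1 : v.ord t = 1) {s : Res v →ₗ[k] K} (hs : ∀ x, v.Integral (s x) ∧ rr v (s x) = x)
    {a : K} (ha : a ≠ 0) :
    LB v (v.ord a) (t ^ (v.ord a) * s (ang v t a)) ∧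
      LB v (v.ord a + 1) (a - t ^ (v.ord a) * s (ang v t a)) := by
  have hto : v.ord (t ^ (v.ord a)) = v.ord a := by rw [ord_zpow v t ht, ht1, mul_one]
  constructor
  · have h1 : LB v (v.ord a) (t ^ (v.ord a)) := fun _ => hto.ge
    have := h1.mul ((integral_iff v).1 (hs (ang v t a)).1)
    rwa [add_zero] at this
  · have h2 := ang_int v t ht ht1 ha
    have h3 : v.Small (a * t ^ (-v.ord a) - s (ang v t a)) := by
      have h4 : v.Integral (a * t ^ (-v.ord a) - s (ang v t a)) := LB_sub v h2 (hs _).1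
      rw [← rr_eq_zero v h4]
      have h5 := rr_add v h4 (hs (ang v t a)).1
      rw [sub_add_cancel, (hs (ang v t a)).2] at h5
      have h6 : rr v (a * t ^ (-v.ord a)) = ang v t a := rfl
      rw [h6] at h5
      exact add_eq_right.1 h5.symm
    have h7 : LB v (v.ord a) (t ^ (v.ord a)) := fun _ => hto.ge
    have h8 := h7.mul ((small_iff v).1 h3)
    have h9 : t ^ (v.ord a) * (a * t ^ (-v.ord a) - s (ang v t a)) =
        a - t ^ (v.ord a) * s (ang v t a) := by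
      rw [mul_sub, zpow_neg]
      have : t ^ (v.ord a) ≠ 0 := zpow_ne_zero _ ht
      field_simp
    rwa [h9] at h8

include h₁ ht₁ h₂ ht₂ in
theorem ker_rho (hw : 1 ≤ w)
    (ρ : Fil v₁ v₂ w 0 →ₗ[k] AddMonoidAlgebra (Res v₁ ⊗[k] Res v₂) ℤ)
    (hρ : ∀ (a : K₁) (b : K₂) (ha : a ≠ 0) (hb : b ≠ 0) (h : 0 ≤ w * v₁.ord a + v₂.ord b),
      ρ ⟨a ⊗ₜ[k] b, tmul_mem v₁ v₂ w ha hb h⟩ = gval v₁ v₂ w t₁ t₂ a b)
    (f : Fil v₁ v₂ w 0) : ρ f = 0 ↔ (f : K₁ ⊗[k] K₂) ∈ Fil v₁ v₂ w 1 := by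
  constructor
  · intro h0
    obtain ⟨s₁, hs₁⟩ := exists_sec v₁
    obtain ⟨s₂, hs₂⟩ := exists_sec v₂
    let σ : ℤ → (Res v₁ ⊗[k] Res v₂ →ₗ[k] K₁ ⊗[k] K₂) := fun α =>
      TensorProduct.map (LinearMap.mulLeft k (t₁ ^ α) ∘ₗ s₁)
        (LinearMap.mulLeft k (t₂ ^ (-(w * α))) ∘ₗ s₂)
    let τ : (ℤ →₀ Res v₁ ⊗[k] Res v₂) →ₗ[k] K₁ ⊗[k] K₂ := Finsupp.lsum k σ
    have key : ∀ x (hx : x ∈ Fil v₁ v₂ w 0), x - τ (ρ ⟨x, hx⟩).coeff ∈ Fil v₁ v₂ w 1 := by
      intro x hx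
      induction hx using Submodule.span_induction with
      | mem x hx =>
        obtain ⟨a, b, ha, hb, hN, rfl⟩ := hx
        rw [hρ a b ha hb hN]
        unfold gval
        split_ifs with h
        · have e1 : τ (AddMonoidAlgebra.single (v₁.ord a)
              (ang v₁ t₁ a ⊗ₜ[k] ang v₂ t₂ b)).coeff =
              (t₁ ^ (v₁.ord a) * s₁ (ang v₁ t₁ a)) ⊗ₜ[k] (t₂ ^ (v₂.ord b) * s₂ (ang v₂ t₂ b)) := by
            rw [AddMonoidAlgebra.coeff_single]
            show Finsupp.lsum k σ _ = _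
            rw [Finsupp.lsum_single]
            have : -((w : ℤ) * v₁.ord a) = v₂.ord b := by linarith
            show (t₁ ^ (v₁.ord a) * s₁ (ang v₁ t₁ a)) ⊗ₜ[k]
              (t₂ ^ (-((w : ℤ) * v₁.ord a)) * s₂ (ang v₂ t₂ b)) = _
            rw [this]
          rw [e1]
          obtain ⟨i1, i2⟩ := sec_small v₁ t₁ h₁ ht₁ hs₁ ha
          obtain ⟨j1, j2⟩ := sec_small v₂ t₂ h₂ ht₂ hs₂ hb
          set A := t₁ ^ (v₁.ord a) * s₁ (ang v₁ t₁ a)
          set B := t₂ ^ (v₂.ord b) * s₂ (ang v₂ t₂ b)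
          have e2 : a ⊗ₜ[k] b - A ⊗ₜ[k] B = (a - A) ⊗ₜ[k] b + A ⊗ₜ[k] (b - B) := by
            rw [TensorProduct.sub_tmul, TensorProduct.tmul_sub]
            abel
          rw [e2]
          have hw' : (1 : ℤ) ≤ w := by exact_mod_cast hw
          exact Submodule.add_mem _
            (tmul_mem' v₁ v₂ w i2 (LB_self v₂ b) (by rw [mul_add]; linarith))
            (tmul_mem' v₁ v₂ w i1 j2 (by linarith))
        · have e1 : τ (0 : AddMonoidAlgebra (Res v₁ ⊗[k] Res v₂) ℤ).coeff = 0 := by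
            rw [AddMonoidAlgebra.coeff_zero, LinearMap.map_zero]
          rw [e1, sub_zero]
          exact tmul_mem v₁ v₂ w ha hb (by omega)
      | zero =>
        have e1 : ρ ⟨0, Submodule.zero_mem _⟩ = 0 := ρ.map_zero
        rw [e1, AddMonoidAlgebra.coeff_zero, LinearMap.map_zero, sub_zero]
        exact Submodule.zero_mem _
      | add x y hx' hy' hx hy =>
        have e1 : ρ ⟨x + y, Submodule.add_mem _ hx' hy'⟩ = ρ ⟨x, hx'⟩ + ρ ⟨y, hy'⟩ :=
          ρ.map_add ⟨x, hx'⟩ ⟨y, hy'⟩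
        rw [e1, AddMonoidAlgebra.coeff_add, LinearMap.map_add, add_sub_add_comm]
        exact Submodule.add_mem _ hx hy
      | smul c x hx' hx =>
        have e1 : ρ ⟨c • x, Submodule.smul_mem _ c hx'⟩ = c • ρ ⟨x, hx'⟩ := ρ.map_smul c ⟨x, hx'⟩
        have e2 : (c • ρ ⟨x, hx'⟩).coeff = c • (ρ ⟨x, hx'⟩).coeff := rfl
        rw [e1, e2, LinearMap.map_smul, ← smul_sub]
        exact Submodule.smul_mem _ c hx
    have h1 := key f f.2
    have e1 : ρ ⟨(f : K₁ ⊗[k] K₂), f.2⟩ = 0 := h0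
    rwa [e1, AddMonoidAlgebra.coeff_zero, LinearMap.map_zero, sub_zero] at h1
  · intro hf
    have key : ∀ x (_ : x ∈ Fil v₁ v₂ w 1) (hx : x ∈ Fil v₁ v₂ w 0), ρ ⟨x, hx⟩ = 0 := by
      intro x hx1
      induction hx1 using Submodule.span_induction with
      | mem x hx =>
        obtain ⟨a, b, ha, hb, hN, rfl⟩ := hx
        intro hx
        have := hρ a b ha hb (by linarith)
        rw [this]
        unfold gval
        rw [if_neg (by omega)]
      | zero => intro _; exact ρ.map_zero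
      | add x y hx' hy' hx hy =>
        intro _
        have hx0 := fil_anti v₁ v₂ w (show (0 : ℤ) ≤ 1 by norm_num) hx'
        have hy0 := fil_anti v₁ v₂ w (show (0 : ℤ) ≤ 1 by norm_num) hy'
        have e1 := ρ.map_add ⟨x, hx0⟩ ⟨y, hy0⟩
        rw [hx hx0, hy hy0, add_zero] at e1
        exact e1
      | smul c x hx' hx =>
        intro _
        have hx0 := fil_anti v₁ v₂ w (show (0 : ℤ) ≤ 1 by norm_num) hx'
        have e1 := ρ.map_smul c ⟨x, hx0⟩
        rw [hx hx0, smul_zero] at e1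
        exact e1
    exact key _ hf f.2

include h₁ ht₁ h₂ ht₂ in
theorem rho_mul (ρ : Fil v₁ v₂ w 0 →ₗ[k] AddMonoidAlgebra (Res v₁ ⊗[k] Res v₂) ℤ)
    (hρ : ∀ (a : K₁) (b : K₂) (ha : a ≠ 0) (hb : b ≠ 0) (h : 0 ≤ w * v₁.ord a + v₂.ord b),
      ρ ⟨a ⊗ₜ[k] b, tmul_mem v₁ v₂ w ha hb h⟩ = gval v₁ v₂ w t₁ t₂ a b)
    (x y : K₁ ⊗[k] K₂) (hx : x ∈ Fil v₁ v₂ w 0) (hy : y ∈ Fil v₁ v₂ w 0)
    (hxy : x * y ∈ Fil v₁ v₂ w 0) : ρ ⟨x * y, hxy⟩ = ρ ⟨x, hx⟩ * ρ ⟨y, hy⟩ := by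
  have hM : ∀ {x y : K₁ ⊗[k] K₂}, x ∈ Fil v₁ v₂ w 0 → y ∈ Fil v₁ v₂ w 0 →
      x * y ∈ Fil v₁ v₂ w 0 := by
    intro x y hx hy
    have := fil_mul v₁ v₂ w hx hy
    rwa [add_zero] at this
  induction hx using Submodule.span_induction with
  | mem x hx =>
    obtain ⟨a, b, ha, hb, hN, rfl⟩ := hx
    have hx0 := tmul_mem v₁ v₂ w ha hb hN
    induction hy using Submodule.span_induction with
    | mem y hy =>
      obtain ⟨a', b', ha', hb', hN', rfl⟩ := hy
      have hab : 0 ≤ w * v₁.ord (a * a') + v₂.ord (b * b') := by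
        rw [v₁.ord_mul _ _ ha ha', v₂.ord_mul _ _ hb hb', mul_add]; linarith
      have e1 : (⟨a ⊗ₜ[k] b * a' ⊗ₜ[k] b', hxy⟩ : Fil v₁ v₂ w 0) =
          ⟨(a * a') ⊗ₜ[k] (b * b'), tmul_mem v₁ v₂ w (mul_ne_zero ha ha') (mul_ne_zero hb hb')
            hab⟩ :=
        Subtype.ext (Algebra.TensorProduct.tmul_mul_tmul a a' b b')
      rw [e1, hρ _ _ ha hb hN, hρ _ _ ha' hb' hN', hρ _ _ (mul_ne_zero ha ha')
        (mul_ne_zero hb hb') hab,
        gval_mul v₁ v₂ w t₁ h₁ ht₁ t₂ h₂ ht₂ ha ha' hb hb' hN hN']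
    | zero =>
      have e1 : ρ ⟨0, Submodule.zero_mem _⟩ = 0 := ρ.map_zero
      have e2 : (⟨a ⊗ₜ[k] b * 0, hxy⟩ : Fil v₁ v₂ w 0) = ⟨0, Submodule.zero_mem _⟩ :=
        Subtype.ext (mul_zero _)
      rw [e2, e1, mul_zero]
    | add x y hx' hy' hx hy =>
      have e1 : ρ ⟨x + y, Submodule.add_mem _ hx' hy'⟩ = ρ ⟨x, hx'⟩ + ρ ⟨y, hy'⟩ :=
        ρ.map_add ⟨x, hx'⟩ ⟨y, hy'⟩
      have e2 : (⟨a ⊗ₜ[k] b * (x + y), hxy⟩ : Fil v₁ v₂ w 0) =
          ⟨_, hM hx0 hx'⟩ + ⟨_, hM hx0 hy'⟩ := Subtype.ext (mul_add _ _ _)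
      rw [e1, e2, LinearMap.map_add, hx (hM hx0 hx'), hy (hM hx0 hy'), mul_add]
    | smul c x hx' hx =>
      have e1 : ρ ⟨c • x, Submodule.smul_mem _ c hx'⟩ = c • ρ ⟨x, hx'⟩ := ρ.map_smul c ⟨x, hx'⟩
      have e2 : (⟨a ⊗ₜ[k] b * (c • x), hxy⟩ : Fil v₁ v₂ w 0) = c • ⟨_, hM hx0 hx'⟩ :=
        Subtype.ext (mul_smul_comm _ _ _)
      rw [e1, e2, LinearMap.map_smul, hx (hM hx0 hx'), mul_smul_comm]
  | zero =>
    have e1 : ρ ⟨0, Submodule.zero_mem _⟩ = 0 := ρ.map_zero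
    have e2 : (⟨0 * y, hxy⟩ : Fil v₁ v₂ w 0) = ⟨0, Submodule.zero_mem _⟩ :=
      Subtype.ext (zero_mul _)
    rw [e2, e1, zero_mul]
  | add x z hx' hz' hx hz =>
    have e1 : ρ ⟨x + z, Submodule.add_mem _ hx' hz'⟩ = ρ ⟨x, hx'⟩ + ρ ⟨z, hz'⟩ :=
      ρ.map_add ⟨x, hx'⟩ ⟨z, hz'⟩
    have e2 : (⟨(x + z) * y, hxy⟩ : Fil v₁ v₂ w 0) =
        ⟨_, hM hx' hy⟩ + ⟨_, hM hz' hy⟩ := Subtype.ext (add_mul _ _ _)
    rw [e1, e2, LinearMap.map_add, hx (hM hx' hy), hz (hM hz' hy), add_mul]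
  | smul c x hx' hx =>
    have e1 : ρ ⟨c • x, Submodule.smul_mem _ c hx'⟩ = c • ρ ⟨x, hx'⟩ := ρ.map_smul c ⟨x, hx'⟩
    have e2 : (⟨(c • x) * y, hxy⟩ : Fil v₁ v₂ w 0) = c • ⟨_, hM hx' hy⟩ :=
      Subtype.ext (smul_mul_assoc _ _ _)
    rw [e1, e2, LinearMap.map_smul, hx (hM hx' hy), smul_mul_assoc]

end rho

end TVA

end TVA

end Pool.Agent.MLD.Ten
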